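import Pool.Agent.AAG.Defs
import Pool.Agent.DFP.TutG
import Pool.Agent.DFP.FpL

set_option autoImplicit false

/-!
# AAG-St: states of the machine

A state is a list of vertices with exponents (unary): the entry of the row at `x` is `y ^ k`.
`DFP.multL E u v` is the unary number of edges joining `u` and `v`, `DFP.wG y E u v = y ^ (its length)`.

PLAN. `map fst` of `stp E u L` is the filter of `map fst`. `vs_stp`: `List.toFinset` and `Finset.filter`.
`sv_mem`: in a list with different vertices the filter at `p.1` is `[p]`. `sv_stp`: `x ∈ (vs L).erase u`: there is `p ∈ L` with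
`p.1 = x ≠ u`; the entry of `stp E u L` at `x` is `(x, if x < u then p.2 ++ multL E u x else multL E u x)`; `pow_add`.
`FP.stp`: as `FP.chg` in `DFP/FpL.lean` (private lemmas `lBeq`, `lLt`, `lMap`, `lIteD` there: copy them), `FP.multL`.
`FP.ini`: `FP.filter`, map with context. `sz_stp`: `sz` of a list is the sum over the elements (`sz_cons`, `sz_pair`, `sz_bits`); one step
adds at most `E.length` bits to each of the `L.length` unary numbers; `stp_iter`-type bounds follow from
`(stp E u L).length ≤ L.length` and `sz (stp E u L) ≤ sz L + 6 * (L.length * E.length)`.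
-/

namespace Pool.Agent.AAG

open Finset

/-- states: vertices with exponents -/
abbrev LS := List (ℕ × List Bool)

/-- the vertices -/
def vs (L : LS) : Finset ℕ := (L.map Prod.fst).toFinset

/-- the exponent of `x` -/
def cdl (L : LS) (x : ℕ) : List Bool := ((L.filter fun p => p.1 == x).headD (0, [])).2

/-- the row -/
def sv (y : ℚ) (L : LS) (x : ℕ) : ℚ := y ^ (cdl L x).length

/-- remove `u`, update the row -/
def stp (E : List (ℕ × ℕ)) (u : ℕ) (L : LS) : LS :=
  (L.filter fun p => !(p.1 == u)).map fun p =>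
    (p.1, if decide (p.1 < u) then p.2 ++ DFP.multL E u p.1 else DFP.multL E u p.1)

/-- sorted lists -/
def Srt (L : LS) : Prop := (L.map Prod.fst).Pairwise (· < ·)

/-- the initial state: the row of the vertex `0` -/
def ini (E : List (ℕ × ℕ)) (n : ℕ) : LS :=
  ((List.range n).filter fun x => decide (0 < x)).map fun x => (x, DFP.multL E 0 x)

private theorem St_flt (L : LS) (h : (L.map Prod.fst).Nodup) {p : ℕ × List Bool} (hp : p ∈ L) :
    (L.filter fun q => q.1 == p.1) = [p] := by
  induction L with
  | nil => simp at hp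
  | cons a L ih =>
    rw [List.map_cons, List.nodup_cons] at h
    rcases List.mem_cons.1 hp with h1 | h1
    · subst h1
      rw [List.filter_cons_of_pos (by simp)]
      have h2 : (L.filter fun q => q.1 == p.1) = [] := by
        rw [List.filter_eq_nil_iff]
        intro q hq hqp
        have h3 : q.1 = p.1 := by simpa using hqp
        exact h.1 (List.mem_map.2 ⟨q, hq, h3⟩)
      rw [h2]
    · have h2 : a.1 ≠ p.1 := fun h3 => h.1 (List.mem_map.2 ⟨p, h1, h3.symm⟩)
      rw [List.filter_cons_of_neg (by simpa using h2)]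
      exact ih h.2 h1

theorem Srt.nodup {L : LS} (h : Srt L) : (L.map Prod.fst).Nodup := by
  exact List.Pairwise.imp (fun hab => ne_of_lt hab) h

theorem card_vs {L : LS} (h : Srt L) : (vs L).card = L.length := by
  unfold vs
  rw [List.toFinset_card_of_nodup h.nodup, List.length_map]

theorem srt_stp {L : LS} (h : Srt L) (E : List (ℕ × ℕ)) (u : ℕ) : Srt (stp E u L) := by
  unfold Srt stp
  rw [List.map_map]
  exact List.Pairwise.sublist (List.filter_sublist.map Prod.fst) h

theorem vs_stp (E : List (ℕ × ℕ)) (u : ℕ) (L : LS) : vs (stp E u L) = (vs L).erase u := by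
  ext x
  unfold vs stp
  rw [List.map_map]
  simp only [List.mem_toFinset, List.mem_map, List.mem_filter, Finset.mem_erase, Function.comp]
  constructor
  · rintro ⟨p, ⟨h1, h2⟩, h3⟩
    refine ⟨?_, p, h1, h3⟩
    rw [← h3]
    simpa using h2
  · rintro ⟨h1, p, h2, h3⟩
    refine ⟨p, ⟨h2, ?_⟩, h3⟩
    rw [← h3] at h1
    simpa using h1

theorem sv_mem {L : LS} (h : Srt L) (y : ℚ) {p : ℕ × List Bool} (hp : p ∈ L) :
    sv y L p.1 = y ^ p.2.length := by
  unfold sv cdl
  rw [St_flt L h.nodup hp]
  rfl

theorem sv_stp {L : LS} (h : Srt L) (y : ℚ) (E : List (ℕ × ℕ)) (u : ℕ) {x : ℕ}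
    (hx : x ∈ (vs L).erase u) : sv y (stp E u L) x = nx (DFP.wG y E) (sv y L) u x := by
  obtain ⟨hxu, hx1⟩ := Finset.mem_erase.1 hx
  obtain ⟨p, hp, rfl⟩ : ∃ p ∈ L, p.1 = x := by
    simpa [vs] using hx1
  have hq : (p.1, if decide (p.1 < u) then p.2 ++ DFP.multL E u p.1 else DFP.multL E u p.1) ∈ stp E u L := by
    unfold stp
    refine List.mem_map.2 ⟨p, List.mem_filter.2 ⟨hp, ?_⟩, rfl⟩
    simpa using hxu
  have h1 := sv_mem (srt_stp h E u) y hq
  have h2 := sv_mem h y hp
  simp only at h1
  rw [h1]
  unfold nx cut DFP.wG DFP.mult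
  by_cases hlt : p.1 < u
  · rw [if_pos (decide_eq_true hlt), if_pos hlt, h2, List.length_append, pow_add, mul_comm]
  · rw [if_neg (by simpa using hlt), if_neg hlt, mul_one]

theorem sv_bd {y : ℚ} (hy : |y| < 1) (L : LS) : Bd1 (vs L) (sv y L) := by
  intro x _
  unfold sv
  rw [abs_pow]
  exact pow_le_one₀ (abs_nonneg y) hy.le

theorem srt_ini (E : List (ℕ × ℕ)) (n : ℕ) : Srt (ini E n) := by
  unfold Srt ini
  rw [List.map_map]
  have h1 : ((fun p : ℕ × List Bool => p.1) ∘ fun x => (x, DFP.multL E 0 x)) = fun x : ℕ => x := rfl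
  have h2 : (((List.range n).filter fun x => decide (0 < x)).map
      ((Prod.fst : ℕ × List Bool → ℕ) ∘ fun x => (x, DFP.multL E 0 x))) =
      (List.range n).filter fun x => decide (0 < x) := by
    have h3 : ((Prod.fst : ℕ × List Bool → ℕ) ∘ fun x => (x, DFP.multL E 0 x)) = id := rfl
    rw [h3, List.map_id]
  rw [h2]
  exact List.Pairwise.sublist List.filter_sublist List.pairwise_lt_range

theorem vs_ini (E : List (ℕ × ℕ)) (n : ℕ) : vs (ini E n) = Ico 1 n := by
  ext x
  unfold vs ini
  rw [List.map_map]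
  have h3 : ((Prod.fst : ℕ × List Bool → ℕ) ∘ fun x => (x, DFP.multL E 0 x)) = id := rfl
  rw [h3, List.map_id, List.mem_toFinset, List.mem_filter, List.mem_range, Finset.mem_Ico]
  simp only [decide_eq_true_eq]
  omega

theorem sv_ini (y : ℚ) (E : List (ℕ × ℕ)) (n : ℕ) {x : ℕ} (hx : x ∈ Ico 1 n) :
    sv y (ini E n) x = DFP.wG y E 0 x := by
  have hq : (x, DFP.multL E 0 x) ∈ ini E n := by
    unfold ini
    rw [Finset.mem_Ico] at hx
    refine List.mem_map.2 ⟨x, List.mem_filter.2 ⟨List.mem_range.2 hx.2, ?_⟩, rfl⟩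
    simp only [decide_eq_true_eq]
    omega
  exact sv_mem (srt_ini E n) y hq

theorem ini_length (E : List (ℕ × ℕ)) (n : ℕ) : (ini E n).length = n - 1 := by
  rw [← card_vs (srt_ini E n), vs_ini, Nat.card_Ico]

theorem stp_length_le (E : List (ℕ × ℕ)) (u : ℕ) (L : LS) : (stp E u L).length ≤ L.length := by
  unfold stp
  rw [List.length_map]
  exact List.length_filter_le _ _

theorem stp_length {L : LS} (h : Srt L) (E : List (ℕ × ℕ)) {u : ℕ} (hu : u ∈ vs L) :
    (stp E u L).length = L.length - 1 := by
  rw [← card_vs (srt_stp h E u), vs_stp, Finset.card_erase_of_mem hu, card_vs h]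

open Turing Function N487b59b3 N68a2faeb Pool.Agent.Helper22 Pool.Agent.Helper6.WB Computability
  Pool.Agent.Helper47.TR

private theorem St_mult (E : List (ℕ × ℕ)) (u v : ℕ) : (DFP.multL E u v).length ≤ E.length := by
  unfold DFP.multL
  rw [List.length_map]
  exact List.length_filter_le _ _

section

variable {α β γ δ : Type} [N487b59b3 α] [N487b59b3 β] [N487b59b3 γ] [N487b59b3 δ]

private theorem St_lBeq {f g : α → ℕ} (hf : FP f) (hg : FP g) : FP fun a => (f a == g a) := by
  refine (congrArg FP (funext fun a => ?_)).mp (FP.natEq hf hg)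
  exact (beq_eq_decide _ _).symm

private theorem St_lLt {f g : α → ℕ} (hf : FP f) (hg : FP g) : FP fun a => decide (f a < g a) := by
  have h := FP.natLe (FP.natAdd hf (FP.const 1)) hg
  exact h

private theorem St_lMap [Inhabited β] {h : γ × β → δ} (hh : FP h) {f : α → γ} {g : α → List β}
    (hf : FP f) (hg : FP g) : FP fun a => (g a).map fun b => h (f a, b) := by
  have h1 : FP fun q : γ × β => [h q] := FP.cons hh (FP.const [])
  have h2 := (FP.flatMap_ctx h1).comp (FP.pair hf hg)
  refine (congrArg FP (funext fun a => ?_)).mp h2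
  simp only
  induction (g a) with
  | nil => rfl
  | cons b l ih =>
    rw [List.flatMap_cons, ih, List.map_cons]
    rfl

private theorem St_lIte {c : α → Bool} {f g : α → β} (hc : FP c)
    (hf : FP f) (hg : FP g) : FP fun a => if c a = true then f a else g a := by
  have h := FP.ite hc hf hg
  refine (congrArg FP (funext fun a => ?_)).mp h
  cases c a <;> rfl

end

theorem sz_stp (E : List (ℕ × ℕ)) (u : ℕ) (L : LS) :
    sz (stp E u L) ≤ sz L + 6 * (L.length * E.length) := by
  induction L with
  | nil => simp [stp]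
  | cons p L ih =>
    have h1 : (p :: L).length * E.length = L.length * E.length + E.length := by
      rw [List.length_cons]
      ring
    rw [h1, sz_cons]
    by_cases hp : p.1 = u
    · have h2 : stp E u (p :: L) = stp E u L := by
        unfold stp
        rw [List.filter_cons_of_neg (by simpa using hp)]
      rw [h2]
      omega
    · have h2 : stp E u (p :: L) =
          (p.1, if decide (p.1 < u) then p.2 ++ DFP.multL E u p.1 else DFP.multL E u p.1) :: stp E u L := by
        unfold stp
        rw [List.filter_cons_of_pos (by simpa using hp)]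
        rfl
      have h3 : (if decide (p.1 < u) then p.2 ++ DFP.multL E u p.1 else DFP.multL E u p.1).length ≤
          p.2.length + E.length := by
        have h4 := St_mult E u p.1
        split_ifs
        · rw [List.length_append]
          omega
        · omega
      rw [h2, sz_cons]
      obtain ⟨x, b⟩ := p
      dsimp only at h3 ⊢
      rw [sz_pair, sz_pair, sz_bits, sz_bits]
      rw [List.length_cons] at *
      omega

theorem FP.stp {α : Type} [N487b59b3 α] {E : α → List (ℕ × ℕ)} {u : α → ℕ} {L : α → LS}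
    (hE : FP E) (hu : FP u) (hL : FP L) : FP fun a => AAG.stp (E a) (u a) (L a) := by
  have h1 : FP fun q : ℕ × (ℕ × List Bool) => !(q.2.1 == q.1) :=
    FP.not (St_lBeq (by fun_prop) (by fun_prop))
  have h2 := TFP.FP.filter2 h1 hu hL
  have h3 : FP fun q : (List (ℕ × ℕ) × ℕ) × (ℕ × List Bool) =>
      (q.2.1, if decide (q.2.1 < q.1.2) = true then q.2.2 ++ DFP.multL q.1.1 q.1.2 q.2.1
        else DFP.multL q.1.1 q.1.2 q.2.1) := by
    have hm : FP fun q : (List (ℕ × ℕ) × ℕ) × (ℕ × List Bool) => DFP.multL q.1.1 q.1.2 q.2.1 :=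
      DFP.FP.multL (by fun_prop) (by fun_prop) (by fun_prop)
    have hc : FP fun q : (List (ℕ × ℕ) × ℕ) × (ℕ × List Bool) => decide (q.2.1 < q.1.2) :=
      St_lLt (by fun_prop) (by fun_prop)
    exact FP.pair (by fun_prop) (St_lIte hc (FP.append (by fun_prop) hm) hm)
  exact St_lMap h3 (FP.pair hE hu) h2

theorem FP.ini {α : Type} [N487b59b3 α] {E : α → List (ℕ × ℕ)} {V : α → List Bool}
    (hE : FP E) (hV : FP V) : FP fun a => AAG.ini (E a) (V a).length := by
  have hr : FP fun a => List.range (V a).length := FP.range hV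
  have h1 : FP fun q : ℕ × ℕ => decide (q.1 < q.2) := St_lLt (by fun_prop) (by fun_prop)
  have h2 := TFP.FP.filter2 h1 (FP.const (α := α) 0) hr
  have h3 : FP fun q : List (ℕ × ℕ) × ℕ => (q.2, DFP.multL q.1 0 q.2) :=
    FP.pair (by fun_prop) (DFP.FP.multL (by fun_prop) (FP.const 0) (by fun_prop))
  exact St_lMap h3 hE h2

end Pool.Agent.AAG
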