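import Pool.Agent.AAG.Uf
import Pool.Agent.AAG.St

set_option autoImplicit false

/-!
# AAG-Alg: the algorithm (definitions)

`b` is a unary number: each random choice uses `b.length` bits. `UL` is the homogeneous model of the state, `UH` of the
state without `u` with the averaged new row, `cL` the coefficient, `Cum` the cumulated weights, `pick` the choice of the next vertex
for a random number `X < 2 ^ b.length`.
-/

namespace Pool.Agent.AAG

open N487b59b3 N68a2faeb Pool.Agent.Helper22 Pool.Agent.Helper6.WB Pool.Agent.Helper6.SP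

/-- the parameters of the algorithm -/
structure Pt where
  t : ℚ
  r : ℚ
  y : ℚ

noncomputable def UL (P : Pt) (L : LS) : ℚ := Uf P.t P.r (L.map fun p => P.y ^ p.2.length)

noncomputable def UH (P : Pt) (L : LS) (u : ℕ) : ℚ :=
  Uf P.t P.r ((L.filter fun p => !(p.1 == u)).map fun p =>
    P.r * if decide (p.1 < u) then P.y ^ p.2.length else 1)

def cL (P : Pt) (L : LS) (p : ℕ × List Bool) : ℚ :=
  1 - P.y ^ p.2.length + if decide (p.1 = (L.headD (0, [])).1) then P.t else 0

noncomputable def Cum (P : Pt) (L : LS) (v : ℕ) : ℚ :=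
  (L.map fun p => if decide (p.1 ≤ v) then cL P L p * UH P L p.1 else 0).sum

open Classical in
noncomputable def pick (P : Pt) (b : List Bool) (L : LS) (X : ℕ) : ℕ :=
  ((L.filter fun p =>
    decide ((X : ℚ) * UL P L < 2 ^ b.length * Cum P L p.1)).headD (0, [])).1

/-- the probability of the choice `u` -/
noncomputable def qq (P : Pt) (b : List Bool) (L : LS) (u : ℕ) : ℚ :=
  (∑ X ∈ Finset.range (2 ^ b.length), if pick P b L X = u then 1 else 0) / 2 ^ b.length

/-- the value of a trial -/
noncomputable def tv (P : Pt) (E : List (ℕ × ℕ)) (b : List Bool) : ℕ → List Bool → LS → ℚ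
  | 0, _, _ => 1
  | n + 1, l, L => if L.isEmpty then 1 else
      UL P L / UH P L (pick P b L (val (l.take b.length))) *
        tv P E b n (l.drop b.length) (stp E (pick P b L (val (l.take b.length))) L)

/-- states of the loop: random bits, state, history -/
abbrev Ss := List Bool × (LS × List (LS × ℕ))

/-- one step of the loop -/
noncomputable def stepR (P : Pt) (E : List (ℕ × ℕ)) (b : List Bool) (s : Ss) : Ss :=
  if s.2.1.isEmpty then s else
    (s.1.drop b.length,
      (stp E (pick P b s.2.1 (val (s.1.take b.length))) s.2.1,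
        (s.2.1, pick P b s.2.1 (val (s.1.take b.length))) :: s.2.2))

/-- the value of the history -/
noncomputable def hv (P : Pt) (h : List (LS × ℕ)) : ℚ := (h.map fun q => UL P q.1 / UH P q.1 q.2).prod

/-- a trial with `n.length` steps -/
noncomputable def trial (P : Pt) (E : List (ℕ × ℕ)) (b n : List Bool) (L : LS) (l : List Bool) : ℚ :=
  hv P ((stepR P E b)^[n.length] (l, (L, []))).2.2

/-- blocks of length `M.length` -/
def chk (M : List Bool) : ℕ → List Bool → List (List Bool)
  | 0, _ => []
  | k + 1, l => l.take M.length :: chk M k (l.drop M.length)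

/-- the mean of `k.length` trials -/
noncomputable def est (P : Pt) (E : List (ℕ × ℕ)) (b n M k : List Bool) (L : LS)
    (l : List Bool) : ℚ :=
  ((chk M k.length l).map fun l' => trial P E b n L l').sum / k.length

/-- size parameter -/
def tt (inp : (List Bool × List (ℕ × ℕ)) × List Bool) : ℕ :=
  inp.1.1.length + inp.1.2.length + inp.2.length + 2

/-- the bits per choice: `b0 + n + |N|` -/
def bb (b0 : ℕ) (inp : (List Bool × List (ℕ × ℕ)) × List Bool) : List Bool :=
  un b0 ++ (un inp.1.1.length ++ un inp.2.length)

/-- the bits per trial -/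
def MM (b0 : ℕ) (inp : (List Bool × List (ℕ × ℕ)) × List Bool) : List Bool :=
  un (inp.1.1.tail.length * (bb b0 inp).length)

/-- the value of the algorithm -/
noncomputable def algQ (P : Pt) (b0 e : ℕ)
    (inp : ((List Bool × List (ℕ × ℕ)) × List Bool) × List Bool) : ℚ :=
  (1 / (1 - P.y)) ^ inp.1.1.1.tail.length *
    est P inp.1.1.2 (bb b0 inp.1) inp.1.1.1.tail (MM b0 inp.1) (un (tt inp.1 ^ e))
      (ini inp.1.1.2 inp.1.1.1.length) inp.2

end Pool.Agent.AAG
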