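import Pool.Agent.AAG.Alg

set_option autoImplicit false

/-!
# AAG-AlgP: the algorithm runs in polynomial time

PLAN. `FQ.UL`, `FQ.UH`: `FQ.Uf` with `FQ.powU`, filters (`TFP.FP.filter2` with context), `FQ.ite`. `FQ.cL`. `FQ.Cum`: `FQ.lsum`.
`FP.pick`: filter with context and `FQ.lt` (`FQ.ofNat` for `X`; `2 ^ b.length`: `FQ.powU`). `FP.stepR`: `FP.ite`, `FP.drop`, `FP.take`,
`TFP.FP.val`, `FP.stp`. `FP.iterate` (Helper22/Tools) for the loop with the context `(E, b)` in the state: size bound after `i` steps: the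
state `L_i` has `length ≤ L.length` and `sz ≤ sz L + 4 i L.length E.length` (`sz_stp`, `stp_length_le`), the history has at most `i`
entries `(L_j, u_j)`, `u_j` is a vertex of `L_j` or `0` (`sz u_j ≤ sz L_j + 1`). Then `FQ.trial`: `FQ.lprod` over the history, `FQ.div`.
`FP.chk`: loop with state `(l, blocks)`; the order of the blocks is irrelevant for the sum (accumulate reversed, `List.sum` is commutative) or
append at the end. `FQ.est`: `FQ.lsum` over the blocks, `FQ.div`, `FQ.lenU`. `fq_algQ`: `FQ.powU`, `FP.un_length`, `FP.unMul`, `FP.un_poly`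
(see `alg_poly` in `DFP/FpA.lean`).
-/

namespace Pool.Agent.AAG

open Turing Function N487b59b3 N68a2faeb Pool.Agent.Helper22 Pool.Agent.Helper6.WB
  Pool.Agent.Helper6.SP Computability Pool.Agent.Helper47.TR

section

variable {α : Type} [N487b59b3 α]

private theorem AlgP_beq {f g : α → ℕ} (hf : FP f) (hg : FP g) : FP fun a => (f a == g a) := by
  refine (congrArg FP (funext fun a => ?_)).mp (FP.natEq hf hg)
  exact (beq_eq_decide _ _).symm

private theorem AlgP_lt {f g : α → ℕ} (hf : FP f) (hg : FP g) :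
    FP fun a => decide (f a < g a) := by
  have h := FP.natLe (FP.natAdd hf (FP.const 1)) hg
  exact h

theorem FQ.UL (P : Pt) {L : α → LS} (hL : FP L) : FQ fun a => AAG.UL P (L a) := by
  have h1 : FQ fun q : α × (ℕ × List Bool) => P.y ^ q.2.2.length :=
    FQ.powU (FQ.const _) (by fun_prop)
  have h2 := FQ.Uf P.t P.r hL h1
  exact h2

theorem FQ.UH (P : Pt) {L : α → LS} {u : α → ℕ} (hL : FP L) (hu : FP u) :
    FQ fun a => AAG.UH P (L a) (u a) := by
  have h1 : FP fun q : ℕ × (ℕ × List Bool) => !(q.2.1 == q.1) :=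
    FP.not (AlgP_beq (by fun_prop) (by fun_prop))
  have h2 : FP fun a => (L a).filter fun p => !(p.1 == u a) := TFP.FP.filter2 h1 hu hL
  have h3 : FQ fun q : α × (ℕ × List Bool) =>
      P.r * if decide (q.2.1 < u q.1) then P.y ^ q.2.2.length else 1 := by
    refine FQ.mul (FQ.const _) (FQ.ite (AlgP_lt (by fun_prop) (hu.comp FP.fst)) ?_ (FQ.const _))
    exact FQ.powU (FQ.const _) (by fun_prop)
  have h4 := FQ.Uf P.t P.r h2 h3
  exact h4

private theorem AlgP_cL (P : Pt) {L : α → LS} {p : α → ℕ × List Bool} (hL : FP L) (hp : FP p) :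
    FQ fun a => cL P (L a) (p a) := by
  have h1 : FQ fun a => P.y ^ (p a).2.length := FQ.powU (FQ.const _) (FP.snd' hp)
  have h2 : FP fun a => decide ((p a).1 = ((L a).headD (0, [])).1) :=
    FP.natEq (FP.fst' hp) (FP.fst' (FP.headD hL (0, [])))
  exact FQ.add (FQ.sub (FQ.const 1) h1) (FQ.ite h2 (FQ.const P.t) (FQ.const 0))

private theorem AlgP_Cum (P : Pt) {L : α → LS} {v : α → ℕ} (hL : FP L) (hv : FP v) :
    FQ fun a => Cum P (L a) (v a) := by
  have h1 : FQ fun q : α × (ℕ × List Bool) =>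
      if decide (q.2.1 ≤ v q.1) then cL P (L q.1) q.2 * AAG.UH P (L q.1) q.2.1 else 0 := by
    refine FQ.ite (FP.natLe (by fun_prop) (hv.comp FP.fst)) (FQ.mul ?_ ?_) (FQ.const _)
    · exact AlgP_cL P (hL.comp FP.fst) FP.snd
    · exact FQ.UH P (hL.comp FP.fst) (by fun_prop)
  have h2 := FQ.lsum hL h1
  exact h2

theorem FP.pick (P : Pt) {b : α → List Bool} {L : α → LS} {X : α → ℕ} (hb : FP b) (hL : FP L)
    (hX : FP X) : FP fun a => AAG.pick P (b a) (L a) (X a) := by
  classical
  have h1 : FP fun q : α × (ℕ × List Bool) =>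
      decide ((X q.1 : ℚ) * AAG.UL P (L q.1) < 2 ^ (b q.1).length * Cum P (L q.1) q.2.1) := by
    refine FQ.lt (FQ.mul (FQ.ofNat (hX.comp FP.fst)) (FQ.UL P (hL.comp FP.fst)))
      (FQ.mul (FQ.powU (FQ.const 2) (hb.comp FP.fst)) (AlgP_Cum P (hL.comp FP.fst) ?_))
    fun_prop
  have h2 := FP.fst' (FP.headD (TFP.FP.filter2 h1 FP.id hL) (0, []))
  refine (congrArg FP (funext fun a => ?_)).mp h2
  unfold AAG.pick
  congr 3

end

end Pool.Agent.AAG
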