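import Pool.Agent.AAG.Defs

set_option autoImplicit false

/-!
# AAG-Crd: the homogeneous model depends on cardinalities only; explicit formula

All sums over subsets `B` of `J` depend on `|B|` only and are grouped by `|B|`
(`Finset.sum_powerset_apply_card`); `F_card` by induction with `DFP.F_eq_hub`.
-/

namespace Pool.Agent.AAG

open Finset

theorem WW_const (r : ℚ) (B : Finset ℕ) :
    DFP.WW (fun _ _ => r) B = r ^ (B.card * (B.card - 1) / 2) := by
  induction B using Finset.induction_on with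
  | empty => simp [DFP.WW]
  | insert y B hy ih =>
    rw [DFP.WW_insert (fun _ _ => rfl) hy, ih, Finset.prod_const, card_insert_of_notMem hy,
      Nat.triangle_succ, pow_add, mul_comm]

/-- `F` of the homogeneous model on `m` points -/
noncomputable def ff (a r : ℚ) (m : ℕ) : ℚ := DFP.F a (fun _ _ => r) (range m)

private theorem Crd_hub (a r : ℚ) {m : ℕ} {J : Finset ℕ} (hJ : J.card = m) (c : ℚ)
    (hF : ∀ K : Finset ℕ, K.card ≤ m → DFP.F (a + 1) (fun _ _ => r) K = ff (a + 1) r K.card) :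
    DFP.hub a (fun _ _ => r) J (fun _ => c) = ∑ k ∈ range (m + 1), (m.choose k : ℚ) *
      ((-1) ^ k * c ^ k * r ^ (k * (k - 1) / 2) * ff (a + 1) r (m - k)) := by
  unfold DFP.hub
  have h1 : ∀ B ∈ J.powerset, (-1 : ℚ) ^ B.card * (∏ x ∈ B, c) * DFP.WW (fun _ _ => r) B *
      DFP.F (a + 1) (fun _ _ => r) (J \ B) =
      (fun k : ℕ => (-1 : ℚ) ^ k * c ^ k * r ^ (k * (k - 1) / 2) * ff (a + 1) r (m - k)) B.card := by
    intro B hB
    have hBJ := Finset.mem_powerset.1 hB
    have hc : (J \ B).card = m - B.card := by rw [card_sdiff_of_subset hBJ, hJ]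
    rw [WW_const, Finset.prod_const, hF (J \ B) (by rw [hc]; exact Nat.sub_le _ _), hc]
  refine (Finset.sum_congr rfl h1).trans ((Finset.sum_powerset_apply_card
    (fun k : ℕ => (-1 : ℚ) ^ k * c ^ k * r ^ (k * (k - 1) / 2) * ff (a + 1) r (m - k)) (x := J)).trans ?_)
  rw [hJ]
  refine Finset.sum_congr rfl fun k _ => ?_
  rw [nsmul_eq_mul]

private theorem Crd_F (r : ℚ) (m : ℕ) : ∀ (a : ℚ) (J : Finset ℕ), J.card ≤ m →
    DFP.F a (fun _ _ => r) J = ff a r J.card := by
  induction m with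
  | zero =>
    intro a J hJ
    have h0 : J = ∅ := Finset.card_eq_zero.1 (Nat.le_zero.1 hJ)
    subst h0
    rfl
  | succ m ih =>
    intro a J hJ
    rcases Nat.lt_or_ge J.card (m + 1) with h | h
    · exact ih a J (Nat.lt_succ_iff.1 h)
    · have hc : J.card = m + 1 := le_antisymm hJ h
      have hne : J.Nonempty := Finset.card_pos.1 (by omega)
      obtain ⟨y, hy⟩ := hne
      have hmr : m ∈ range (m + 1) := Finset.self_mem_range_succ m
      rw [hc, ff, DFP.F_eq_hub a (fun _ _ => rfl) hy, DFP.F_eq_hub a (fun _ _ => rfl) hmr,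
        Crd_hub a r (m := m) (by rw [card_erase_of_mem hy, hc, Nat.add_sub_cancel]) r (ih (a + 1)),
        Crd_hub a r (m := m) (by rw [card_erase_of_mem hmr, card_range, Nat.add_sub_cancel]) r
          (ih (a + 1))]

theorem F_card (a r : ℚ) (J : Finset ℕ) : DFP.F a (fun _ _ => r) J = ff a r J.card :=
  Crd_F r J.card a J le_rfl

theorem ff_zero (a r : ℚ) : ff a r 0 = 1 := by
  simp [ff, DFP.F, DFP.FN]

theorem ff_succ (a r : ℚ) (m : ℕ) :
    ff a r (m + 1) = a * ∑ c ∈ range (m + 1),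
      (m.choose c : ℚ) * ((-1) ^ c * r ^ ((c + 1) * c / 2) * ff (a + 1) r (m - c)) := by
  have hmr : m ∈ range (m + 1) := Finset.self_mem_range_succ m
  rw [ff, DFP.F_eq_hub a (fun _ _ => rfl) hmr,
    Crd_hub a r (m := m) (by rw [card_erase_of_mem hmr, card_range, Nat.add_sub_cancel]) r
      (fun K _ => F_card (a + 1) r K)]
  congr 1
  refine Finset.sum_congr rfl fun k _ => ?_
  have h := Nat.triangle_succ k
  rw [Nat.add_sub_cancel] at h
  rw [h, pow_add]
  ring

/-- the homogeneous model with an arbitrary row -/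
theorem U_eq_sum (t r : ℚ) (J : Finset ℕ) (s : ℕ → ℚ) :
    U t r J s = ∑ B ∈ J.powerset, (-1) ^ B.card * (∏ x ∈ B, s x) *
      r ^ (B.card * (B.card - 1) / 2) * ff (t + 1) r (J.card - B.card) := by
  unfold U DFP.hub
  refine Finset.sum_congr rfl fun B hB => ?_
  rw [WW_const, F_card, card_sdiff_of_subset (Finset.mem_powerset.1 hB)]

private theorem Crd_U (t r : ℚ) (J : Finset ℕ) (c : ℚ) :
    U t r J (fun _ => c) = ∑ k ∈ range (J.card + 1), (J.card.choose k : ℚ) * ((-1) ^ k * c ^ k *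
      r ^ (k * (k - 1) / 2) * ff (t + 1) r (J.card - k)) :=
  Crd_hub t r rfl c fun K _ => F_card (t + 1) r K

theorem gg_eq (t r : ℚ) (m : ℕ) (c : ℚ) :
    gg t r m c = ∑ k ∈ range (m + 1), (m.choose k : ℚ) * ((-1) ^ k * c ^ k *
      r ^ (k * (k - 1) / 2) * ff (t + 1) r (m - k)) := by
  rw [gg, Crd_U, card_range]

theorem U_card (t r : ℚ) (J : Finset ℕ) (c : ℚ) : U t r J (fun _ => c) = gg t r J.card c := by
  rw [gg_eq, Crd_U]

end Pool.Agent.AAG
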