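import Pool.Agent.AAG.Rec
import Pool.Agent.AAG.Crd

set_option autoImplicit false

/-!
# AAG-Neg: Lemma 1 for `-1 < r ≤ 0`

The rows `-1` and `|r|` are compared with the row `1` and with each other by telescoping (`DFP.hub_tel`); all the rows
of the smaller models are compared with the constant row `-r^2` (`hub_anti'`).
-/

namespace Pool.Agent.AAG

open Finset

private theorem Neg_er (t r : ℚ) {m y : ℕ} (hy : y ∈ range (m + 1)) (c : ℚ) :
    DFP.hub t (fun _ _ => r) ((range (m + 1)).erase y) (fun _ => c) = gg t r m c := by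
  have h := U_card t r ((range (m + 1)).erase y) c
  rw [card_erase_of_mem hy, card_range, Nat.add_sub_cancel] at h
  exact h

private theorem Neg_low {t r : ℚ} (ht : 0 ≤ t) (h0 : -1 < r) (h1 : r ≤ 0) (m : ℕ) :
    ((m : ℚ) + 1) * ((1 + r) * gg t r m (-r ^ 2)) ≤ gg t r (m + 1) (-r) := by
  have hw : Sy (fun _ _ => r) := fun _ _ => rfl
  have hr1 : |r| ≤ 1 := abs_le.2 ⟨h0.le, by linarith⟩
  have hr2 : r ^ 2 ≤ 1 := by nlinarith
  have hr20 : 0 ≤ r ^ 2 := sq_nonneg r
  have e := DFP.hub_tel t (w := fun _ _ => r) hw (range (m + 1)) (fun _ => -r) (fun _ => 1)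
  have h2 : 0 ≤ DFP.hub t (fun _ _ => r) (range (m + 1)) (fun _ => 1) :=
    hub_nonneg' ht hw (fun _ _ _ _ => hr1) (fun _ _ => by simp)
  have h3 : ∀ y ∈ range (m + 1), (1 + r) * gg t r m (-r ^ 2) ≤
      (1 - -r) * DFP.hub t (fun _ _ => r) ((range (m + 1)).erase y)
        (fun x => r * if x < y then -r else 1) := by
    intro y hy
    rw [← Neg_er t r hy, sub_neg_eq_add]
    refine mul_le_mul_of_nonneg_left ?_ (by linarith)
    refine hub_anti' ht hw (fun _ _ _ _ => hr1) ?_ ?_ ?_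
    · intro x _
      show |r * if x < y then -r else 1| ≤ 1
      rw [abs_le]
      split_ifs <;> constructor <;> nlinarith
    · intro x _
      show |-r ^ 2| ≤ 1
      rw [abs_le]
      constructor <;> nlinarith
    · intro x _
      show (r * if x < y then -r else 1) ≤ -r ^ 2
      split_ifs <;> nlinarith
  have h4 := sum_le_sum h3
  rw [sum_const, card_range, nsmul_eq_mul] at h4
  push_cast at h4
  have e' : gg t r (m + 1) (-r) = DFP.hub t (fun _ _ => r) (range (m + 1)) (fun _ => -r) := rfl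
  rw [e', e]
  linarith

private theorem Neg_up {t r : ℚ} (ht : 0 ≤ t) (h0 : -1 < r) (h1 : r ≤ 0) (m : ℕ) :
    gg t r (m + 1) (-1) ≤ gg t r (m + 1) (-r) + ((m : ℚ) + 1) * ((1 - r) * gg t r m (-r ^ 2)) := by
  have hw : Sy (fun _ _ => r) := fun _ _ => rfl
  have hr1 : |r| ≤ 1 := abs_le.2 ⟨h0.le, by linarith⟩
  have hr2 : r ^ 2 ≤ 1 := by nlinarith
  have hr20 : 0 ≤ r ^ 2 := sq_nonneg r
  have e := DFP.hub_tel t (w := fun _ _ => r) hw (range (m + 1)) (fun _ => -1) (fun _ => -r)
  have h3 : ∀ y ∈ range (m + 1), (-r - -1) * DFP.hub t (fun _ _ => r) ((range (m + 1)).erase y)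
      (fun x => r * if x < y then -1 else -r) ≤ (1 - r) * gg t r m (-r ^ 2) := by
    intro y hy
    rw [← Neg_er t r hy, show -r - -1 = 1 - r by ring]
    refine mul_le_mul_of_nonneg_left ?_ (by linarith)
    refine hub_anti' ht hw (fun _ _ _ _ => hr1) ?_ ?_ ?_
    · intro x _
      show |-r ^ 2| ≤ 1
      rw [abs_le]
      constructor <;> nlinarith
    · intro x _
      show |r * if x < y then -1 else -r| ≤ 1
      rw [abs_le]
      split_ifs <;> constructor <;> nlinarith
    · intro x _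
      show -r ^ 2 ≤ (r * if x < y then -1 else -r)
      split_ifs <;> nlinarith
  have h4 := sum_le_sum h3
  rw [sum_const, card_range, nsmul_eq_mul] at h4
  push_cast at h4
  have e' : gg t r (m + 1) (-1) = DFP.hub t (fun _ _ => r) (range (m + 1)) (fun _ => -1) := rfl
  have e'' : gg t r (m + 1) (-r) = DFP.hub t (fun _ _ => r) (range (m + 1)) (fun _ => -r) := rfl
  rw [e', e'', e]
  linarith

theorem neg_main {t r : ℚ} (ht : 0 ≤ t) (h0 : -1 < r) (h1 : r ≤ 0) :
    ∃ C : ℚ, 1 ≤ C ∧ ∀ m : ℕ, gg t r m (-1) ≤ C * gg t r m |r| := by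
  have hpos : 0 < 1 + r := by linarith
  have hq : 0 ≤ (1 - r) / (1 + r) := div_nonneg (by linarith) hpos.le
  refine ⟨1 + (1 - r) / (1 + r), by linarith, fun m => ?_⟩
  rw [abs_of_nonpos h1]
  cases m with
  | zero =>
    have e : ∀ c : ℚ, gg t r 0 c = 1 := fun c => U_empty t r _
    rw [e, e]
    linarith
  | succ m =>
    have h2 := Neg_low ht h0 h1 m
    have h3 := Neg_up ht h0 h1 m
    have h4 : ((m : ℚ) + 1) * ((1 - r) * gg t r m (-r ^ 2)) =
        (1 - r) / (1 + r) * (((m : ℚ) + 1) * ((1 + r) * gg t r m (-r ^ 2))) := by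
      field_simp
    have h5 := mul_le_mul_of_nonneg_left h2 hq
    rw [h4] at h3
    linarith

end Pool.Agent.AAG
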