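import Pool.Agent.AAG.Jex
import Pool.Agent.AAG.Neg

set_option autoImplicit false

/-!
# AAG-Bds: the constants of the homogeneous model, consequences for `U`

PLAN.
`hb_ex`: `jen_main` or `neg_main` give `C0` with `gg m (-1) ≤ C0 gg m |r|`. `gg_rec_lower`:
`(m+1)(1-|r|) gg m |r| ≤ gg (m+1) |r|`. `hub_rec` on `range (m+1)` with the row `-1`:
`cc ≤ 2 + t`... precisely `∑ u, cc = 2 (m+1) + t ≤ (m+1)(2+t)`, each `U (erase u) (nr ..) ≤ gg m (-1)`
(`U_le_max`), so `gg (m+1) (-1) ≤ (m+1)(2+t) gg m (-1)`. Take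
`C = C0 * (2 + t) + C0 / (1 - |r|) + C0`.
`U_rec`: `hub_rec` with constant weights. `U_le_max`, `U_ge_min`: `hub_anti'` and `U_card`.
`U_ge_good`: `U_rec`; for active `u` the coefficient is `≥ 1 - |y|` and `U (erase u) (nr ..) ≥ gg (m-1) |r|`
(`nr ≤ |r|`, `hub_anti'`), all other terms are `≥ 0`; so
`U ≥ |act| (1-|y|) gg (m-1) |r|`, multiply by `C q0` and use `Good` and `hG`.
`U_upd`: `DFP.hub_tel` with the two rows (`Finset.sum_eq_single v`), `DFP.hub_congr`.
-/

namespace Pool.Agent.AAG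

open Finset

private theorem Bds_sy (r : ℚ) : Sy (fun _ _ => r) := fun _ _ => rfl

theorem U_rec (t r : ℚ) {J : Finset ℕ} (hJ : J.Nonempty) (s : ℕ → ℚ) :
    U t r J s = ∑ u ∈ J, cc t J s u * U t r (J.erase u) (nr r s u) :=
  hub_rec t (Bds_sy r) hJ s

theorem U_nonneg {t r : ℚ} (ht : 0 ≤ t) (hr : |r| < 1) {J : Finset ℕ} {s : ℕ → ℚ}
    (hs : Bd1 J s) : 0 ≤ U t r J s :=
  hub_nonneg' ht (Bds_sy r) (fun _ _ _ _ => hr.le) hs

theorem U_le_max {t r : ℚ} (ht : 0 ≤ t) (hr : |r| < 1) {J : Finset ℕ} {s : ℕ → ℚ}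
    (hs : Bd1 J s) : U t r J s ≤ gg t r J.card (-1) := by
  rw [← U_card]
  refine hub_anti' ht (Bds_sy r) (fun _ _ _ _ => hr.le) ?_ hs ?_
  · intro x _
    show |(-1 : ℚ)| ≤ 1
    rw [abs_neg, abs_one]
  · intro x hx
    exact (abs_le.1 (hs x hx)).1

private theorem Bds_rs {r : ℚ} {J : Finset ℕ} {s : ℕ → ℚ} (hs : Bd1 J s) {x : ℕ}
    (hx : x ∈ J) : |r * s x| ≤ |r| := by
  rw [abs_mul]
  exact mul_le_of_le_one_right (abs_nonneg r) (hs x hx)

theorem U_ge_min {t r : ℚ} (ht : 0 ≤ t) (hr : |r| < 1) {J : Finset ℕ} {s : ℕ → ℚ}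
    (hs : Bd1 J s) : gg t r J.card |r| ≤ U t r J (fun x => r * s x) := by
  rw [← U_card]
  refine hub_anti' ht (Bds_sy r) (fun _ _ _ _ => hr.le) ?_ ?_ ?_
  · intro x hx
    exact (Bds_rs hs hx).trans hr.le
  · intro x _
    show |(|r|)| ≤ 1
    rw [abs_abs]
    exact hr.le
  · intro x hx
    exact (le_abs_self _).trans (Bds_rs hs hx)

theorem U_ge_nr {t r : ℚ} (ht : 0 ≤ t) (hr : |r| < 1) {J : Finset ℕ} {s : ℕ → ℚ} {u : ℕ}
    (hu : u ∈ J) (hs : Bd1 J s) : gg t r (J.card - 1) |r| ≤ U t r (J.erase u) (nr r s u) := by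
  rw [← card_erase_of_mem hu]
  refine U_ge_min (s := cut s u) ht hr ?_
  intro x hx
  unfold cut
  split_ifs
  · exact hs x (mem_of_mem_erase hx)
  · rw [abs_one]

theorem hb_ex {t r : ℚ} (ht : 0 ≤ t) (hr : |r| < 1) : ∃ C, HB t r C := by
  obtain ⟨C0, h1, h2⟩ : ∃ C : ℚ, 1 ≤ C ∧ ∀ m : ℕ, gg t r m (-1) ≤ C * gg t r m |r| := by
    rcases le_total 0 r with h | h
    · exact jen_main ht h (abs_lt.1 hr).2
    · exact neg_main ht (abs_lt.1 hr).1 h
  have hC0 : 0 ≤ C0 := by linarith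
  have hd : 0 < 1 - |r| := by linarith
  have hA : 0 ≤ C0 * (2 + t) := mul_nonneg hC0 (by linarith)
  have hB : 0 ≤ C0 / (1 - |r|) := div_nonneg hC0 hd.le
  refine ⟨C0 * (2 + t) + C0 / (1 - |r|) + C0, by linarith, fun m => gg_pos ht hr m, fun m => ?_,
    fun m => ?_, fun m => ?_⟩
  · have h3 := gg_pos ht hr m
    refine (h2 m).trans ?_
    exact mul_le_mul_of_nonneg_right (by linarith) h3.le
  · have h3 := gg_pos ht hr (m + 1)
    have h4 := gg_rec_lower ht hr m
    have h5 := h2 m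
    have hm : (0 : ℚ) ≤ (m : ℚ) + 1 := by positivity
    calc ((m : ℚ) + 1) * gg t r m (-1) ≤ ((m : ℚ) + 1) * (C0 * gg t r m |r|) :=
          mul_le_mul_of_nonneg_left h5 hm
      _ = C0 / (1 - |r|) * (((m : ℚ) + 1) * (1 - |r|) * gg t r m |r|) := by
          field_simp
      _ ≤ C0 / (1 - |r|) * gg t r (m + 1) |r| := mul_le_mul_of_nonneg_left h4 hB
      _ ≤ (C0 * (2 + t) + C0 / (1 - |r|) + C0) * gg t r (m + 1) |r| :=
          mul_le_mul_of_nonneg_right (by linarith) h3.le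
  · have h3 := gg_pos ht hr m
    have h5 := h2 m
    have hm : (0 : ℚ) ≤ (m : ℚ) + 1 := by positivity
    have hM0 : 0 ≤ gg t r m (-1) := by
      rw [gg]
      refine U_nonneg ht hr ?_
      intro x _
      show |(-1 : ℚ)| ≤ 1
      rw [abs_neg, abs_one]
    have hbd : Bd1 (range (m + 1)) (fun _ => (-1 : ℚ)) := by
      intro x _
      show |(-1 : ℚ)| ≤ 1
      rw [abs_neg, abs_one]
    have h6 : gg t r (m + 1) (-1) ≤ ∑ u ∈ range (m + 1), (2 + t) * gg t r m (-1) := by
      have e : gg t r (m + 1) (-1) = U t r (range (m + 1)) (fun _ => -1) := rfl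
      rw [e, U_rec t r (nonempty_range_add_one) (fun _ => -1)]
      refine sum_le_sum fun u hu => ?_
      have h7 : U t r ((range (m + 1)).erase u) (nr r (fun _ => -1) u) ≤ gg t r m (-1) := by
        have h8 := U_le_max (t := t) (r := r) ht hr (nr_bd hr.le u hbd)
        rw [card_erase_of_mem hu, card_range, Nat.add_sub_cancel] at h8
        exact h8
      have h9 : cc t (range (m + 1)) (fun _ => -1) u ≤ 2 + t := by
        unfold cc
        split_ifs <;> linarith
      have h10 : 0 ≤ cc t (range (m + 1)) (fun _ => -1) u := by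
        refine cc_nonneg ht ?_
        show |(-1 : ℚ)| ≤ 1
        rw [abs_neg, abs_one]
      exact (mul_le_mul_of_nonneg_left h7 h10).trans (mul_le_mul_of_nonneg_right h9 hM0)
    rw [sum_const, card_range, nsmul_eq_mul] at h6
    push_cast at h6
    refine h6.trans ?_
    calc ((m : ℚ) + 1) * ((2 + t) * gg t r m (-1))
        ≤ ((m : ℚ) + 1) * ((2 + t) * (C0 * gg t r m |r|)) :=
          mul_le_mul_of_nonneg_left (mul_le_mul_of_nonneg_left h5 (by linarith)) hm
      _ = (C0 * (2 + t)) * (((m : ℚ) + 1) * gg t r m |r|) := by ring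
      _ ≤ (C0 * (2 + t) + C0 / (1 - |r|) + C0) * (((m : ℚ) + 1) * gg t r m |r|) :=
          mul_le_mul_of_nonneg_right (by linarith) (mul_nonneg hm h3.le)

private theorem Bds_act {t r y : ℚ} (ht : 0 ≤ t) (hr : |r| < 1) (hy : |y| < 1)
    {J : Finset ℕ} {s : ℕ → ℚ} (hJ : J.Nonempty) (hs : Bd1 J s) :
    (act y J s).card * ((1 - |y|) * gg t r (J.card - 1) |r|) ≤ U t r J s := by
  have hg : 0 ≤ gg t r (J.card - 1) |r| := (gg_pos ht hr _).le
  have h1 : ∀ u ∈ J, u ∉ act y J s → 0 ≤ cc t J s u * U t r (J.erase u) (nr r s u) := by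
    intro u hu _
    exact mul_nonneg (cc_nonneg ht (hs u hu)) (U_nonneg ht hr (nr_bd hr.le u hs))
  have h2 : ∑ u ∈ act y J s, (1 - |y|) * gg t r (J.card - 1) |r| ≤
      ∑ u ∈ act y J s, cc t J s u * U t r (J.erase u) (nr r s u) := by
    refine sum_le_sum fun u hu => ?_
    obtain ⟨hu1, hu2⟩ := mem_filter.1 hu
    have h3 : 1 - |y| ≤ cc t J s u := by
      have h4 := le_abs_self (s u)
      unfold cc
      split_ifs <;> linarith
    exact mul_le_mul h3 (U_ge_nr ht hr hu1 hs) hg (le_trans (by linarith) h3)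
  have h5 := sum_le_sum_of_subset_of_nonneg (filter_subset _ _ : act y J s ⊆ J) h1
  rw [sum_const, nsmul_eq_mul] at h2
  rw [U_rec t r hJ s]
  exact h2.trans h5

theorem U_ge_good {t r y C : ℚ} (ht : 0 ≤ t) (hr : |r| < 1) (hy : |y| < 1) (hb : HB t r C)
    {J : Finset ℕ} {s : ℕ → ℚ} (hJ : J.Nonempty) (hs : Bd1 J s) {q0 : ℕ} (hg : Good y q0 J s) :
    (1 - |y|) * gg t r J.card (-1) ≤ C * q0 * U t r J s := by
  have h1 := Bds_act ht hr hy hJ hs
  have hC : 0 ≤ C := le_trans zero_le_one hb.hC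
  have hq : (0 : ℚ) ≤ q0 := Nat.cast_nonneg _
  have h2 : (J.card : ℚ) ≤ q0 * (act y J s).card := by exact_mod_cast hg
  obtain ⟨m, hm⟩ : ∃ m, J.card = m + 1 := ⟨J.card - 1, by have := hJ.card_pos; omega⟩
  have h3 := hb.hG m
  have hp := hb.pos m
  have hm1 : J.card - 1 = m := by omega
  rw [hm1] at h1
  rw [hm] at h2 ⊢
  push_cast at h2
  have hy' : 0 ≤ 1 - |y| := by linarith
  calc (1 - |y|) * gg t r (m + 1) (-1) ≤ (1 - |y|) * (C * (((m : ℚ) + 1) * gg t r m |r|)) :=
        mul_le_mul_of_nonneg_left h3 hy'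
    _ = ((m : ℚ) + 1) * (C * ((1 - |y|) * gg t r m |r|)) := by ring
    _ ≤ (q0 * (act y J s).card) * (C * ((1 - |y|) * gg t r m |r|)) :=
        mul_le_mul_of_nonneg_right h2 (mul_nonneg hC (mul_nonneg hy' hp.le))
    _ = C * q0 * ((act y J s).card * ((1 - |y|) * gg t r m |r|)) := by ring
    _ ≤ C * q0 * U t r J s := mul_le_mul_of_nonneg_left h1 (mul_nonneg hC hq)

theorem U_pos_good {t r y : ℚ} (ht : 0 ≤ t) (hr : |r| < 1) (hy : |y| < 1)
    {J : Finset ℕ} {s : ℕ → ℚ} (hs : Bd1 J s) {q0 : ℕ} (hg : Good y q0 J s) :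
    0 < U t r J s := by
  rcases J.eq_empty_or_nonempty with rfl | hJ
  · rw [U_empty]
    exact one_pos
  · obtain ⟨C, hb⟩ := hb_ex ht hr
    have h1 := U_ge_good ht hr hy hb hJ hs hg
    have h2 : gg t r J.card |r| ≤ gg t r J.card (-1) := by
      rw [← U_card, ← U_card]
      refine hub_anti' ht (Bds_sy r) (fun _ _ _ _ => hr.le) ?_ ?_ ?_
      · intro x _
        show |(-1 : ℚ)| ≤ 1
        rw [abs_neg, abs_one]
      · intro x _
        show |(|r|)| ≤ 1
        rw [abs_abs]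
        exact hr.le
      · intro x _
        show (-1 : ℚ) ≤ |r|
        linarith [abs_nonneg r]
    have h3 := gg_pos ht hr J.card
    have h4 : 0 < C * q0 * U t r J s := by
      refine lt_of_lt_of_le ?_ h1
      exact mul_pos (by linarith) (lt_of_lt_of_le h3 h2)
    have h5 := U_nonneg (t := t) ht hr hs
    rcases h5.lt_or_eq with h | h
    · exact h
    · rw [← h, mul_zero] at h4
      exact absurd h4 (lt_irrefl _)

/-- the ratios: `∑ cc * rt = 1` -/
theorem rt_sum {t r : ℚ} {J : Finset ℕ} {s : ℕ → ℚ} (hJ : J.Nonempty) (hU : U t r J s ≠ 0) :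
    ∑ u ∈ J, cc t J s u * rt t r J s u = 1 := by
  have h := U_rec t r hJ s
  calc ∑ u ∈ J, cc t J s u * rt t r J s u
      = ∑ u ∈ J, cc t J s u * U t r (J.erase u) (nr r s u) / U t r J s := by
        refine sum_congr rfl fun u _ => ?_
        rw [rt, mul_div_assoc]
    _ = U t r J s / U t r J s := by rw [← sum_div, ← h]
    _ = 1 := div_self hU

theorem U_upd (t r : ℚ) {J : Finset ℕ} {v : ℕ} (hv : v ∈ J) (s : ℕ → ℚ) (τ : ℚ) :
    U t r J (Function.update s v τ) =
      U t r J (Function.update s v 0) - τ * U t r (J.erase v) (fun x => r * s x) := by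
  have e := DFP.hub_tel t (w := fun _ _ => r) (Bds_sy r) J (Function.update s v τ)
    (Function.update s v 0)
  have e1 : ∑ y ∈ J, (Function.update s v 0 y - Function.update s v τ y) *
      DFP.hub t (fun _ _ => r) (J.erase y) (fun x => r * if x < y then Function.update s v τ x
        else Function.update s v 0 x) =
      (Function.update s v 0 v - Function.update s v τ v) *
      DFP.hub t (fun _ _ => r) (J.erase v) (fun x => r * if x < v then Function.update s v τ x
        else Function.update s v 0 x) := by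
    refine sum_eq_single_of_mem v hv fun y _ hy => ?_
    rw [Function.update_of_ne hy, Function.update_of_ne hy, sub_self, zero_mul]
  have e2 : DFP.hub t (fun _ _ => r) (J.erase v) (fun x => r * if x < v then
      Function.update s v τ x else Function.update s v 0 x) =
      U t r (J.erase v) (fun x => r * s x) := by
    refine DFP.hub_congr t _ fun x hx => ?_
    have hx' : x ≠ v := ne_of_mem_erase hx
    rw [Function.update_of_ne hx', Function.update_of_ne hx', ite_self]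
  rw [e1, e2, Function.update_self, Function.update_self] at e
  show DFP.hub t (fun _ _ => r) J (Function.update s v τ) = DFP.hub t (fun _ _ => r) J
    (Function.update s v 0) - _
  rw [e]
  ring

end Pool.Agent.AAG
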