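import Pool.Agent.AAG.Alg
import Pool.Agent.AAG.Bds

set_option autoImplicit false

/-!
# AAG-AlgS: semantics of `UL`, `UH`, `cL`, `Cum`, `trial`

PLAN. `UL_eq`: `U_eq_Uf` for the list `L.map fst` (`Srt.nodup`), `sv_mem`. `UH_eq`: the same for the filtered list
(`(L.filter ..).map fst` is a sublist, its `toFinset` is `(vs L).erase u`), `U_congr` (`nr r s u x = r * cut s u x`).
`cL_eq`: `sv_mem`; for a sorted list `p.1 = (head).1 ↔ ∀ v ∈ vs L, p.1 ≤ v`.
`Cum_eq`: sum over the list = sum over `vs L` (`List.sum_toFinset` with nodup).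
`trial_eq`: induction on `n.length` (generalise the history: `hv (stepR^[n] (l, (L, h))).2.2 = hv h * tv n l L`,
`Function.iterate_succ_apply`; if `L` is empty the iteration is constant).
-/

namespace Pool.Agent.AAG

open Finset

theorem UL_eq (P : Pt) {L : LS} (h : Srt L) : UL P L = U P.t P.r (vs L) (sv P.y L) := by
  unfold UL vs
  rw [U_eq_Uf P.t P.r h.nodup, List.map_map]
  congr 1
  refine List.map_congr_left ?_
  intro p hp
  exact (sv_mem h P.y hp).symm

theorem UH_eq (P : Pt) {L : LS} (h : Srt L) (u : ℕ) :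
    UH P L u = U P.t P.r ((vs L).erase u) (nr P.r (sv P.y L) u) := by
  have h1 : ((L.filter fun p => !(p.1 == u)).map Prod.fst).Nodup :=
    h.nodup.sublist ((List.filter_sublist).map _)
  have h2 : ((L.filter fun p => !(p.1 == u)).map Prod.fst).toFinset = (vs L).erase u := by
    ext x
    unfold vs
    rw [List.mem_toFinset, Finset.mem_erase, List.mem_toFinset, List.mem_map, List.mem_map]
    constructor
    · rintro ⟨p, hp, rfl⟩
      rw [List.mem_filter] at hp
      refine ⟨?_, p, hp.1, rfl⟩
      simpa using hp.2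
    · rintro ⟨h3, p, hp, rfl⟩
      refine ⟨p, ?_, rfl⟩
      rw [List.mem_filter]
      refine ⟨hp, ?_⟩
      simpa using h3
  unfold UH
  rw [← h2, U_eq_Uf P.t P.r h1, List.map_map]
  congr 1
  refine List.map_congr_left ?_
  intro p hp
  rw [List.mem_filter] at hp
  show P.r * (if decide (p.1 < u) then P.y ^ p.2.length else 1) = P.r * (if p.1 < u then sv P.y L p.1 else 1)
  rw [sv_mem h P.y hp.1]
  simp only [decide_eq_true_eq]

theorem cL_eq (P : Pt) {L : LS} (h : Srt L) {p : ℕ × List Bool} (hp : p ∈ L) :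
    cL P L p = cc P.t (vs L) (sv P.y L) p.1 := by
  have h1 : p.1 = (L.headD (0, [])).1 ↔ ∀ v ∈ vs L, p.1 ≤ v := by
    cases L with
    | nil => exact absurd hp List.not_mem_nil
    | cons a l =>
      have h2 : ∀ q ∈ l, a.1 < q.1 := by
        unfold Srt at h
        rw [List.map_cons, List.pairwise_cons] at h
        intro q hq
        exact h.1 q.1 (List.mem_map.2 ⟨q, hq, rfl⟩)
      show p.1 = a.1 ↔ _
      constructor
      · intro h3 v hv
        unfold vs at hv
        rw [List.mem_toFinset, List.mem_map] at hv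
        obtain ⟨q, hq, rfl⟩ := hv
        rw [h3]
        rcases List.mem_cons.1 hq with h4 | h4
        · rw [h4]
        · exact (h2 q h4).le
      · intro h3
        rcases List.mem_cons.1 hp with h4 | h4
        · rw [h4]
        · have h5 := h3 a.1 (by
            unfold vs
            rw [List.mem_toFinset, List.mem_map]
            exact ⟨a, List.mem_cons_self, rfl⟩)
          exact absurd h5 (not_le.2 (h2 p h4))
  unfold cL cc
  rw [sv_mem h P.y hp]
  congr 1
  by_cases h3 : ∀ v ∈ vs L, p.1 ≤ v
  · rw [if_pos h3, if_pos (decide_eq_true (h1.2 h3))]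
  · rw [if_neg h3, if_neg]
    intro h4
    exact h3 (h1.1 (of_decide_eq_true h4))

theorem Cum_eq (P : Pt) {L : LS} (h : Srt L) (v : ℕ) :
    Cum P L v = ∑ u ∈ (vs L).filter (· ≤ v), cc P.t (vs L) (sv P.y L) u *
      U P.t P.r ((vs L).erase u) (nr P.r (sv P.y L) u) := by
  rw [Finset.sum_filter]
  have h1 := List.sum_toFinset (fun u => if u ≤ v then cc P.t (vs L) (sv P.y L) u *
      U P.t P.r ((vs L).erase u) (nr P.r (sv P.y L) u) else 0) h.nodup
  have h2 : (L.map Prod.fst).toFinset = vs L := rfl
  rw [h2] at h1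
  rw [h1, List.map_map]
  unfold Cum
  congr 1
  refine List.map_congr_left ?_
  intro p hp
  show (if decide (p.1 ≤ v) then cL P L p * UH P L p.1 else 0) = if p.1 ≤ v then
    cc P.t (vs L) (sv P.y L) p.1 * U P.t P.r ((vs L).erase p.1) (nr P.r (sv P.y L) p.1) else 0
  rw [cL_eq P h hp, UH_eq P h]
  simp only [decide_eq_true_eq]

private theorem AlgS_tv (P : Pt) (E : List (ℕ × ℕ)) (b : List Bool) (k : ℕ) (l : List Bool) (L : LS)
    (h : L.isEmpty = true) : tv P E b k l L = 1 := by
  cases k with
  | zero => rfl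
  | succ k =>
    rw [tv, if_pos h]

private theorem AlgS_iter (P : Pt) (E : List (ℕ × ℕ)) (b : List Bool) (k : ℕ) :
    ∀ (l : List Bool) (L : LS) (h : List (LS × ℕ)),
      hv P ((stepR P E b)^[k] (l, (L, h))).2.2 = hv P h * tv P E b k l L := by
  induction k with
  | zero =>
    intro l L h
    rw [tv, mul_one]
    rfl
  | succ k ih =>
    intro l L h
    rw [Function.iterate_succ_apply]
    by_cases hL : L.isEmpty = true
    · have h1 : stepR P E b (l, (L, h)) = (l, (L, h)) := if_pos hL
      rw [h1, ih, AlgS_tv P E b k l L hL, AlgS_tv P E b (k + 1) l L hL]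
    · have h1 : stepR P E b (l, (L, h)) = (l.drop b.length,
          (Pool.Agent.AAG.stp E (pick P b L (Pool.Agent.Helper6.WB.val (l.take b.length))) L,
            (L, pick P b L (Pool.Agent.Helper6.WB.val (l.take b.length))) :: h)) := if_neg hL
      rw [h1, ih]
      have h2 : hv P ((L, pick P b L (Pool.Agent.Helper6.WB.val (l.take b.length))) :: h) =
          UL P L / UH P L (pick P b L (Pool.Agent.Helper6.WB.val (l.take b.length))) * hv P h := by
        unfold hv
        rw [List.map_cons, List.prod_cons]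
      rw [h2, tv, if_neg hL]
      ring

theorem trial_eq (P : Pt) (E : List (ℕ × ℕ)) (b n : List Bool) (L : LS) (l : List Bool) :
    trial P E b n L l = tv P E b n.length l L := by
  unfold trial
  rw [AlgS_iter]
  have h : hv P [] = 1 := rfl
  rw [h, one_mul]

end Pool.Agent.AAG
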