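import Pool.Agent.AAG.AlgP

set_option autoImplicit false

/-!
# AAG-AlgT: the trial and the mean of the trials in polynomial time

PLAN: see the header of `AlgP.lean` (second half).
-/

namespace Pool.Agent.AAG

open Turing Function N487b59b3 N68a2faeb Pool.Agent.Helper22 Pool.Agent.Helper6.WB
  Pool.Agent.Helper6.SP Computability

/-- the state with its context -/
private abbrev AlgT_C := (List (ℕ × ℕ) × List Bool) × Ss

private noncomputable def AlgT_step (P : Pt) (p : AlgT_C) : AlgT_C := (p.1, stepR P p.1.1 p.1.2 p.2)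

private theorem AlgT_step_fp (P : Pt) : FP (AlgT_step P) := by
  have hE : FP fun p : AlgT_C => p.1.1 := FP.fst' FP.fst
  have hb : FP fun p : AlgT_C => p.1.2 := FP.snd' FP.fst
  have hl : FP fun p : AlgT_C => p.2.1 := FP.fst' FP.snd
  have hL : FP fun p : AlgT_C => p.2.2.1 := FP.fst' (FP.snd' FP.snd)
  have hh : FP fun p : AlgT_C => p.2.2.2 := FP.snd' (FP.snd' FP.snd)
  have hX : FP fun p : AlgT_C => val (p.2.1.take p.1.2.length) := TFP.FP.val (FP.take hl hb)
  have hu : FP fun p : AlgT_C => pick P p.1.2 p.2.2.1 (val (p.2.1.take p.1.2.length)) :=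
    FP.pick P hb hL hX
  have h1 : FP fun p : AlgT_C => (p.2.1.drop p.1.2.length,
      (stp p.1.1 (pick P p.1.2 p.2.2.1 (val (p.2.1.take p.1.2.length))) p.2.2.1,
        (p.2.2.1, pick P p.1.2 p.2.2.1 (val (p.2.1.take p.1.2.length))) :: p.2.2.2)) :=
    FP.pair (FP.drop hl hb) (FP.pair (FP.stp hE hu hL) (FP.cons (FP.pair hL hu) hh))
  have h2 := FP.ite (FP.isEmpty hL) (FP.snd (α := List (ℕ × ℕ) × List Bool) (β := Ss)) h1
  have h3 : FP fun p : AlgT_C => stepR P p.1.1 p.1.2 p.2 := by
    refine (congrArg FP (funext fun p => ?_)).mp h2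
    unfold stepR
    cases p.2.2.1.isEmpty <;> rfl
  exact FP.pair FP.fst h3

private theorem AlgT_iter (P : Pt) (E : List (ℕ × ℕ)) (b : List Bool) (s : Ss) (j : ℕ) :
    (AlgT_step P)^[j] ((E, b), s) = ((E, b), (stepR P E b)^[j] s) := by
  induction j generalizing s with
  | zero => rfl
  | succ j ih =>
    rw [Function.iterate_succ_apply, Function.iterate_succ_apply]
    exact ih (stepR P E b s)

private theorem AlgT_pick_sz (P : Pt) (b : List Bool) (L : LS) (X : ℕ) :
    sz (pick P b L X) ≤ sz L := by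
  have key : ∀ c : ℕ × List Bool → Bool, sz ((L.filter c).headD (0, [])).1 ≤ sz L := by
    intro c
    rcases hF : L.filter c with _ | ⟨p, F⟩
    · have h0 : sz (0 : ℕ) = 0 := by rw [sz_nat]; rfl
      rw [List.headD_nil, h0]
      exact Nat.zero_le _
    · have hp : p ∈ L := by
        have : p ∈ L.filter c := by rw [hF]; exact List.mem_cons_self
        exact (List.mem_filter.1 this).1
      have h1 := sz_mem_le hp
      have h2 : sz p = 2 * sz p.1 + 1 + sz p.2 := sz_pair p.1 p.2
      rw [List.headD_cons]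
      omega
  exact key _

private theorem AlgT_sz (P : Pt) (E : List (ℕ × ℕ)) (b : List Bool) (s : Ss) (j : ℕ) :
    sz ((stepR P E b)^[j] s).1 ≤ sz s.1 ∧
    ((stepR P E b)^[j] s).2.1.length ≤ s.2.1.length ∧
    sz ((stepR P E b)^[j] s).2.1 ≤ sz s.2.1 + j * (6 * (s.2.1.length * E.length)) ∧
    sz ((stepR P E b)^[j] s).2.2 ≤ sz s.2.2 +
      j * (6 * (sz s.2.1 + j * (6 * (s.2.1.length * E.length))) + 3) := by
  induction j with
  | zero => simp
  | succ j ih =>
    rw [Function.iterate_succ_apply']
    generalize (stepR P E b)^[j] s = s' at ih ⊢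
    obtain ⟨i1, i2, i3, i4⟩ := ih
    generalize hQ : 6 * (s.2.1.length * E.length) = Q at *
    generalize hA : sz s.2.1 = A at *
    have hj : (j + 1) * Q = j * Q + Q := by ring
    have hm : j * (6 * (A + j * Q) + 3) ≤ j * (6 * (A + (j + 1) * Q) + 3) := by
      apply Nat.mul_le_mul_left
      rw [hj]; omega
    have hm2 : (j + 1) * (6 * (A + (j + 1) * Q) + 3) =
        j * (6 * (A + (j + 1) * Q) + 3) + (6 * (A + (j + 1) * Q) + 3) := by ring
    by_cases he : s'.2.1.isEmpty = true
    · have h0 : stepR P E b s' = s' := by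
        unfold stepR
        rw [if_pos he]
      rw [h0]
      refine ⟨i1, i2, ?_, ?_⟩
      · rw [hj]; omega
      · rw [hm2]; omega
    · have h0 : stepR P E b s' = (s'.1.drop b.length,
          (stp E (pick P b s'.2.1 (val (s'.1.take b.length))) s'.2.1,
            (s'.2.1, pick P b s'.2.1 (val (s'.1.take b.length))) :: s'.2.2)) := by
        unfold stepR
        rw [if_neg he]
      rw [h0]
      have k1 := sz_drop s'.1 b.length
      have k2 := stp_length_le E (pick P b s'.2.1 (val (s'.1.take b.length))) s'.2.1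
      have k3 := sz_stp E (pick P b s'.2.1 (val (s'.1.take b.length))) s'.2.1
      have k4 := AlgT_pick_sz P b s'.2.1 (val (s'.1.take b.length))
      have k5 : 6 * (s'.2.1.length * E.length) ≤ Q := by
        rw [← hQ]
        exact Nat.mul_le_mul_left 6 (Nat.mul_le_mul_right _ i2)
      refine ⟨k1.trans i1, k2.trans i2, ?_, ?_⟩
      · refine k3.trans ?_
        rw [hj]; omega
      · simp only [sz_cons, sz_pair]
        rw [hm2]
        have k6 : A + j * Q ≤ A + (j + 1) * Q := by rw [hj]; omega
        omega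

private theorem AlgT_run (P : Pt) : FP fun p : List Bool × AlgT_C => (AlgT_step P)^[p.1.length] p.2 := by
  refine FP.iterate (AlgT_step_fp P)
    (B := fun n => 10 * n + 10 + 2 * (n * (6 * (n * n))) + n * (6 * (n + n * (6 * (n * n))) + 3))
    (by fun_prop) ?_
  rintro c ⟨⟨E, b⟩, s⟩ j hj
  rw [AlgT_iter]
  obtain ⟨i1, i2, i3, i4⟩ := AlgT_sz P E b s j
  have hc := length_le_sz c
  have hE := length_le_sz E
  have hL := length_le_sz s.2.1
  obtain ⟨l, L, h⟩ := s
  generalize (stepR P E b)^[j] (l, (L, h)) = s' at *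
  obtain ⟨l', L', h'⟩ := s'
  simp only [sz_pair] at *
  generalize hN : sz c + (2 * (2 * sz E + 1 + sz b) + 1 + (2 * sz l + 1 + (2 * sz L + 1 + sz h))) = N
  have hj1 : j ≤ N := by omega
  have hE1 : E.length ≤ N := by omega
  have hL1 : L.length ≤ N := by omega
  have hQ : 6 * (L.length * E.length) ≤ 6 * (N * N) :=
    Nat.mul_le_mul_left 6 (Nat.mul_le_mul hL1 hE1)
  have hQ2 : j * (6 * (L.length * E.length)) ≤ N * (6 * (N * N)) := Nat.mul_le_mul hj1 hQ
  have hsL : sz L ≤ N := by omega
  have hR : j * (6 * (sz L + j * (6 * (L.length * E.length))) + 3) ≤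
      N * (6 * (N + N * (6 * (N * N))) + 3) := Nat.mul_le_mul hj1 (by omega)
  generalize j * (6 * (sz L + j * (6 * (L.length * E.length))) + 3) = R1 at *
  generalize N * (6 * (N + N * (6 * (N * N))) + 3) = R2 at *
  generalize j * (6 * (L.length * E.length)) = R3 at *
  generalize N * (6 * (N * N)) = R4 at *
  omega

section

variable {α : Type} [N487b59b3 α]

theorem FQ.trial (P : Pt) {E : α → List (ℕ × ℕ)} {b n l : α → List Bool} {L : α → LS}
    (hE : FP E) (hb : FP b) (hn : FP n) (hL : FP L) (hl : FP l) :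
    FQ fun a => AAG.trial P (E a) (b a) (n a) (L a) (l a) := by
  have h0 : FP fun a => (((E a, b a), (l a, (L a, ([] : List (LS × ℕ))))) : AlgT_C) :=
    FP.pair (FP.pair hE hb) (FP.pair hl (FP.pair hL (FP.const [])))
  have h1 := (AlgT_run P).comp (FP.pair hn h0)
  have h2 : FP fun a => ((stepR P (E a) (b a))^[(n a).length] (l a, (L a, []))).2.2 := by
    refine (congrArg FP (funext fun a => ?_)).mp (FP.snd' (FP.snd' (FP.snd' h1)))
    simp only
    rw [AlgT_iter]
  have h3 : FQ fun q : α × (LS × ℕ) => AAG.UL P q.2.1 / AAG.UH P q.2.1 q.2.2 :=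
    FQ.div (FQ.UL P (FP.fst' FP.snd)) (FQ.UH P (FP.fst' FP.snd) (FP.snd' FP.snd))
  exact FQ.lprod h2 h3

private theorem AlgT_chk (M : List Bool) (k : ℕ) (l : List Bool) :
    (List.range k).map (fun i => (l.drop (i * M.length)).take M.length) = chk M k l := by
  induction k generalizing l with
  | zero => rfl
  | succ k ih =>
    rw [List.range_succ_eq_map, List.map_cons, List.map_map]
    have h1 : chk M (k + 1) l = l.take M.length :: chk M k (l.drop M.length) := rfl
    rw [h1, ← ih (l.drop M.length)]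
    congr 1
    · rw [Nat.zero_mul, List.drop_zero]
    · apply List.map_congr_left
      intro i _
      simp only [Function.comp, List.drop_drop, Nat.succ_eq_add_one]
      congr 2
      ring

theorem FP.chk {M k l : α → List Bool} (hM : FP M) (hk : FP k) (hl : FP l) :
    FP fun a => AAG.chk (M a) (k a).length (l a) := by
  have h1 : FP fun q : α × List Bool => un (q.2.length * (M q.1).length) :=
    FP.unMul FP.snd (hM.comp FP.fst)
  have h2 : FP fun q : α × List Bool =>
      ((l q.1).drop (un (q.2.length * (M q.1).length)).length).take (M q.1).length :=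
    FP.take (FP.drop (hl.comp FP.fst) h1) (hM.comp FP.fst)
  have h3 := fp_map (FP.pf0 hk) h2
  refine (congrArg FP (funext fun a => ?_)).mp h3
  rw [← AlgT_chk]
  unfold AAG.pf0
  rw [List.map_map]
  apply List.map_congr_left
  intro i _
  simp only [Function.comp, Helper22.un_length]

end

theorem fq_algQ (P : Pt) (b0 e : ℕ) : FQ (algQ P b0 e) := by
  have hE : FP fun inp : ((List Bool × List (ℕ × ℕ)) × List Bool) × List Bool => inp.1.1.2 := by
    fun_prop
  have hV : FP fun inp : ((List Bool × List (ℕ × ℕ)) × List Bool) × List Bool => inp.1.1.1 := by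
    fun_prop
  have hN : FP fun inp : ((List Bool × List (ℕ × ℕ)) × List Bool) × List Bool => inp.1.2 := by
    fun_prop
  have hr : FP fun inp : ((List Bool × List (ℕ × ℕ)) × List Bool) × List Bool => inp.2 := by
    fun_prop
  have hT : FP fun inp : ((List Bool × List (ℕ × ℕ)) × List Bool) × List Bool =>
      inp.1.1.1 ++ (un inp.1.1.2.length ++ (inp.1.2 ++ [true, true])) :=
    FP.append hV (FP.append (FP.un_length hE) (FP.append hN (FP.const [true, true])))
  have hTl : ∀ inp : ((List Bool × List (ℕ × ℕ)) × List Bool) × List Bool,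
      (inp.1.1.1 ++ (un inp.1.1.2.length ++ (inp.1.2 ++ [true, true]))).length = tt inp.1 := by
    intro inp
    simp only [List.length_append, Helper22.un_length, List.length_cons, List.length_nil, tt]
    ring
  have hk : FP fun inp : ((List Bool × List (ℕ × ℕ)) × List Bool) × List Bool =>
      un (tt inp.1 ^ e) := by
    have h := FP.un_poly hT (Polynomial.X ^ e)
    simpa only [hTl, Polynomial.eval_pow, Polynomial.eval_X] using h
  have hb : FP fun inp : ((List Bool × List (ℕ × ℕ)) × List Bool) × List Bool => bb b0 inp.1 :=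
    FP.append (FP.const (un b0)) (FP.append (FP.un_length hV) (FP.un_length hN))
  have ht : FP fun inp : ((List Bool × List (ℕ × ℕ)) × List Bool) × List Bool => inp.1.1.1.tail :=
    FP.tail hV
  have hM : FP fun inp : ((List Bool × List (ℕ × ℕ)) × List Bool) × List Bool => MM b0 inp.1 :=
    FP.unMul ht hb
  have hL : FP fun inp : ((List Bool × List (ℕ × ℕ)) × List Bool) × List Bool =>
      ini inp.1.1.2 inp.1.1.1.length := FP.ini hE hV
  have hc : FP fun inp : ((List Bool × List (ℕ × ℕ)) × List Bool) × List Bool =>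
      chk (MM b0 inp.1) (un (tt inp.1 ^ e)).length inp.2 := FP.chk hM hk hr
  have htr : FQ fun q : (((List Bool × List (ℕ × ℕ)) × List Bool) × List Bool) × List Bool =>
      AAG.trial P q.1.1.1.2 (bb b0 q.1.1) q.1.1.1.1.tail (ini q.1.1.1.2 q.1.1.1.1.length) q.2 :=
    FQ.trial P (hE.comp FP.fst) (hb.comp FP.fst) (ht.comp FP.fst) (hL.comp FP.fst) FP.snd
  have hs := FQ.lsum hc htr
  have hd := FQ.div hs (FQ.lenU hk)
  exact FQ.mul (FQ.powU (FQ.const (1 / (1 - P.y))) ht) hd

end Pool.Agent.AAG
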