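import Pool.Agent.AAG.Alg
import Pool.Agent.TFP.Avg

set_option autoImplicit false

/-!
# AAG-Chb: the mean of independent trials, Chebyshev

PLAN. Generic: `X : List Bool → ℚ` (a trial on `M` bits), `SX k l = ((chk M k l).map X).sum`.
`SX (k+1) l = X (l.take M) + SX k (l.drop M)`. With `z1 = avg M X`, `v = avg M (X - z1)^2 ≤ avg M X^2`:
`avg (k M) (SX k - k z1) = 0`, `avg (k M) (SX k - k z1)^2 = k v` (induction, `avg_take_drop`, cross term zero; compare the private lemmas
`es_mean`, `es_var` of `DFP/Est.lean`). So `avg (SX/k - z1)^2 ≤ V / k`. If `|SX/k - z1| < η z / 2` and `|z1 - z| ≤ η z / 2` then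
`|SX/k - z| ≤ η z`. Chebyshev: `(if |SX/k - z| ≤ η z then 1 else 0) ≥ 1 - (SX/k - z1)^2 / (η z / 2)^2` pointwise, so the average is
`≥ 1 - 4 V / (k η^2 z^2) ≥ 3/4` if `16 V ≤ k η^2 z^2`.
-/

namespace Pool.Agent.AAG

open Finset

open Pool.Agent.TFP (avg)

private def Chb_D (M : List Bool) (X : List Bool → ℚ) (z1 : ℚ) (k : ℕ) (l : List Bool) : ℚ :=
  ((chk M k l).map X).sum - k * z1

private theorem Chb_D_succ (M : List Bool) (X : List Bool → ℚ) (z1 : ℚ) (k : ℕ) (l : List Bool) :
    Chb_D M X z1 (k + 1) l = (X (l.take M.length) - z1) + Chb_D M X z1 k (l.drop M.length) := by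
  simp only [Chb_D, chk, List.map_cons, List.sum_cons]
  push_cast
  ring

private theorem Chb_mean (M : List Bool) (X : List Bool → ℚ) (k : ℕ) :
    avg (k * M.length) (fun l => Chb_D M X (avg M.length X) k l) = 0 := by
  induction k with
  | zero =>
    have e : (fun l => Chb_D M X (avg M.length X) 0 l) = fun _ => (0 : ℚ) := by
      funext l
      simp [Chb_D, chk]
    rw [e, Pool.Agent.TFP.avg_const]
  | succ k ih =>
    have e : (k + 1) * M.length = M.length + k * M.length := by ring
    rw [e]
    have e2 : (fun l => Chb_D M X (avg M.length X) (k + 1) l) = fun l =>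
        (fun a b => (X a - avg M.length X) + Chb_D M X (avg M.length X) k b) (l.take M.length) (l.drop M.length) := by
      funext l
      exact Chb_D_succ M X _ k l
    rw [e2, Pool.Agent.TFP.avg_take_drop M.length (k * M.length)
      (fun a b => (X a - avg M.length X) + Chb_D M X (avg M.length X) k b)]
    have e3 : ∀ a : List Bool, avg (k * M.length) (fun b => (X a - avg M.length X) + Chb_D M X (avg M.length X) k b) =
        X a - avg M.length X := by
      intro a
      rw [Pool.Agent.TFP.avg_add (k * M.length) (fun _ => X a - avg M.length X) (fun b => Chb_D M X (avg M.length X) k b),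
        Pool.Agent.TFP.avg_const, ih, add_zero]
    simp only [e3]
    rw [Pool.Agent.TFP.avg_sub M.length X (fun _ => avg M.length X), Pool.Agent.TFP.avg_const, sub_self]

private theorem Chb_var (M : List Bool) (X : List Bool → ℚ) (k : ℕ) :
    avg (k * M.length) (fun l => Chb_D M X (avg M.length X) k l ^ 2) =
      k * avg M.length (fun l => (X l - avg M.length X) ^ 2) := by
  induction k with
  | zero =>
    have e : (fun l => Chb_D M X (avg M.length X) 0 l ^ 2) = fun _ => (0 : ℚ) := by
      funext l
      simp [Chb_D, chk]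
    rw [e, Pool.Agent.TFP.avg_const]
    simp
  | succ k ih =>
    have e : (k + 1) * M.length = M.length + k * M.length := by ring
    rw [e]
    have e2 : (fun l => Chb_D M X (avg M.length X) (k + 1) l ^ 2) = fun l =>
        (fun a b => ((X a - avg M.length X) + Chb_D M X (avg M.length X) k b) ^ 2) (l.take M.length) (l.drop M.length) := by
      funext l
      rw [Chb_D_succ M X _ k l]
    rw [e2, Pool.Agent.TFP.avg_take_drop M.length (k * M.length)
      (fun a b => ((X a - avg M.length X) + Chb_D M X (avg M.length X) k b) ^ 2)]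
    have e3 : ∀ a : List Bool, avg (k * M.length) (fun b => ((X a - avg M.length X) + Chb_D M X (avg M.length X) k b) ^ 2) =
        (X a - avg M.length X) ^ 2 + k * avg M.length (fun l => (X l - avg M.length X) ^ 2) := by
      intro a
      have h1 : (fun b => ((X a - avg M.length X) + Chb_D M X (avg M.length X) k b) ^ 2) = fun b =>
          ((X a - avg M.length X) ^ 2 + 2 * (X a - avg M.length X) * Chb_D M X (avg M.length X) k b) +
            Chb_D M X (avg M.length X) k b ^ 2 := by
        funext b
        ring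
      rw [h1, Pool.Agent.TFP.avg_add (k * M.length)
        (fun b => (X a - avg M.length X) ^ 2 + 2 * (X a - avg M.length X) * Chb_D M X (avg M.length X) k b)
        (fun b => Chb_D M X (avg M.length X) k b ^ 2), ih,
        Pool.Agent.TFP.avg_add (k * M.length) (fun _ => (X a - avg M.length X) ^ 2)
        (fun b => 2 * (X a - avg M.length X) * Chb_D M X (avg M.length X) k b),
        Pool.Agent.TFP.avg_const, Pool.Agent.TFP.avg_smul (k * M.length) (2 * (X a - avg M.length X))
        (fun b => Chb_D M X (avg M.length X) k b), Chb_mean]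
      ring
    simp only [e3]
    rw [Pool.Agent.TFP.avg_add M.length (fun l => (X l - avg M.length X) ^ 2)
      (fun _ => k * avg M.length (fun l => (X l - avg M.length X) ^ 2)), Pool.Agent.TFP.avg_const]
    push_cast
    ring

private theorem Chb_v_le (m : ℕ) (X : List Bool → ℚ) :
    avg m (fun l => (X l - avg m X) ^ 2) ≤ avg m (fun l => X l ^ 2) := by
  have h1 : (fun l => (X l - avg m X) ^ 2) = fun l => (X l ^ 2 + (-2 * avg m X) * X l) + avg m X ^ 2 := by
    funext l
    ring
  rw [h1, Pool.Agent.TFP.avg_add m (fun l => X l ^ 2 + (-2 * avg m X) * X l) (fun _ => avg m X ^ 2),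
    Pool.Agent.TFP.avg_const, Pool.Agent.TFP.avg_add m (fun l => X l ^ 2) (fun l => (-2 * avg m X) * X l),
    Pool.Agent.TFP.avg_smul m (-2 * avg m X) X]
  nlinarith [sq_nonneg (avg m X)]

open Classical in
theorem cheb {M : List Bool} {k : ℕ} (hk : 0 < k) (X : List Bool → ℚ) {z η V : ℚ} (hz : 0 < z)
    (hη : 0 < η) (h1 : |avg M.length X - z| ≤ η * z / 2)
    (h2 : avg M.length (fun l => X l ^ 2) ≤ V) (hV : 16 * V ≤ k * η ^ 2 * z ^ 2) :
    3 / 4 ≤ avg (k * M.length) (fun l => if |((chk M k l).map X).sum / k - z| ≤ η * z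
      then 1 else 0) := by
  set m := M.length with hm
  set z1 := avg m X with hz1
  have hkq : (0 : ℚ) < k := by exact_mod_cast hk
  have hw : 0 < η * z / 2 := by positivity
  have hvar := Chb_var M X k
  have hvle := Chb_v_le m X
  have hpt : ∀ l : List Bool, 1 + (-(1 / (k ^ 2 * (η * z / 2) ^ 2))) * Chb_D M X z1 k l ^ 2 ≤
      (if |((chk M k l).map X).sum / k - z| ≤ η * z then (1 : ℚ) else 0) := by
    intro l
    have hD : ((chk M k l).map X).sum / k - z1 = Chb_D M X z1 k l / k := by
      unfold Chb_D
      field_simp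
    have hc : 0 < k ^ 2 * (η * z / 2) ^ 2 := by positivity
    split_ifs with h
    · have : 0 ≤ 1 / (k ^ 2 * (η * z / 2) ^ 2) * Chb_D M X z1 k l ^ 2 := by positivity
      linarith
    · push Not at h
      have h3 : η * z / 2 < |((chk M k l).map X).sum / k - z1| := by
        have h4 : |((chk M k l).map X).sum / k - z| ≤ |((chk M k l).map X).sum / k - z1| + |z1 - z| := by
          have e : ((chk M k l).map X).sum / k - z = (((chk M k l).map X).sum / k - z1) + (z1 - z) := by ring
          rw [e]
          exact abs_add_le _ _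
        linarith
      rw [hD] at h3
      have h5 : (η * z / 2) ^ 2 < (Chb_D M X z1 k l / k) ^ 2 := by
        rw [← sq_abs (Chb_D M X z1 k l / k)]
        exact pow_lt_pow_left₀ h3 hw.le two_ne_zero
      have h6 : k ^ 2 * (η * z / 2) ^ 2 < Chb_D M X z1 k l ^ 2 := by
        rw [div_pow (Chb_D M X z1 k l) (k : ℚ) 2, lt_div_iff₀ (by positivity)] at h5
        linarith
      have h7 : 1 < 1 / (k ^ 2 * (η * z / 2) ^ 2) * Chb_D M X z1 k l ^ 2 := by
        rw [one_div, inv_mul_eq_div, one_lt_div hc]
        exact h6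
      linarith
  have hav := Pool.Agent.TFP.avg_mono (n := k * m) (fun l _ => hpt l)
  rw [Pool.Agent.TFP.avg_add (k * m) (fun _ => (1 : ℚ))
    (fun l => (-(1 / (k ^ 2 * (η * z / 2) ^ 2))) * Chb_D M X z1 k l ^ 2), Pool.Agent.TFP.avg_const,
    Pool.Agent.TFP.avg_smul (k * m) (-(1 / (k ^ 2 * (η * z / 2) ^ 2))) (fun l => Chb_D M X z1 k l ^ 2),
    hvar] at hav
  refine le_trans ?_ hav
  have hv : avg m (fun l => (X l - z1) ^ 2) ≤ V := hvle.trans h2
  have h8 : 1 / (k ^ 2 * (η * z / 2) ^ 2) * (k * avg m (fun l => (X l - z1) ^ 2)) ≤ 1 / 4 := by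
    have h9 : 1 / (k ^ 2 * (η * z / 2) ^ 2) * (k * avg m (fun l => (X l - z1) ^ 2)) ≤
        1 / (k ^ 2 * (η * z / 2) ^ 2) * (k * V) := by
      apply mul_le_mul_of_nonneg_left
      · exact mul_le_mul_of_nonneg_left hv hkq.le
      · positivity
    refine h9.trans ?_
    rw [one_div, inv_mul_eq_div, div_le_iff₀ (by positivity)]
    nlinarith [mul_le_mul_of_nonneg_left hV hkq.le]
  linarith

end Pool.Agent.AAG
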