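import Pool.Agent.AAG.EPa

set_option autoImplicit false

/-!
# AAG-EPg: random graphs, revealing the row of a vertex

PLAN. For `u ∈ J`: `prs J = prs (J.erase u) ∪ (J.erase u).image (pr u)` (disjoint: the pairs `pr u x`,
`x ≠ u`, contain `u`), `pr u` is injective on `J.erase u`. `EP_split`: `EP_union`, `EP_comm`, `EP_image`.
`wA_row`: `pr u x ∉ A` for `A ⊆ prs (J.erase u)`; `pr u x ∈ R.image (pr u) ↔ x ∈ R` (`x ≠ u`).
`wA_in`: `pr a b ∉ R.image (pr u)`, since `a, b ≠ u`.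
`ep_row`: the form in which everything is used: a function `g` of the row of `u` and of the weights inside
`J.erase u`. It is `EP_split` with `EP_congr`, `EP_comm` and the locality hypothesis `hg`.
-/

namespace Pool.Agent.AAG

open Finset

variable {p : ℚ}

private theorem EPg_pr_comm (a b : ℕ) : pr a b = pr b a := by
  simp only [pr, min_comm, max_comm]

private theorem EPg_pr_mem {u x : ℕ} (hx : x ≠ u) {a b : ℕ} (ha : a ≠ u) (hb : b ≠ u) :
    pr u x ≠ (a, b) := by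
  intro h
  simp only [pr, Prod.mk.injEq] at h
  obtain ⟨h1, h2⟩ := h
  rcases le_total u x with h3 | h3
  · rw [min_eq_left h3] at h1
    exact ha h1.symm
  · rw [max_eq_left h3] at h2
    exact hb h2.symm

private theorem EPg_pr_inj {u x z : ℕ} (h : pr u x = pr u z) : x = z := by
  simp only [pr, Prod.mk.injEq] at h
  omega

private theorem EPg_mem_prs {J : Finset ℕ} {a b : ℕ} : (a, b) ∈ prs J ↔ a ∈ J ∧ b ∈ J ∧ a < b := by
  simp only [prs, mem_filter, mem_product]
  tauto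

private theorem EPg_prs {J : Finset ℕ} {u : ℕ} (hu : u ∈ J) :
    prs J = prs (J.erase u) ∪ (J.erase u).image (pr u) := by
  ext ⟨a, b⟩
  simp only [mem_union, EPg_mem_prs, mem_erase, mem_image]
  constructor
  · rintro ⟨ha, hb, hab⟩
    by_cases h1 : a = u
    · right
      refine ⟨b, ⟨by omega, hb⟩, ?_⟩
      subst h1
      simp only [pr, min_eq_left hab.le, max_eq_right hab.le]
    · by_cases h2 : b = u
      · right
        refine ⟨a, ⟨h1, ha⟩, ?_⟩
        subst h2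
        simp only [pr, min_eq_right hab.le, max_eq_left hab.le]
      · left
        exact ⟨⟨h1, ha⟩, ⟨h2, hb⟩, hab⟩
  · rintro (⟨⟨-, ha⟩, ⟨-, hb⟩, hab⟩ | ⟨x, ⟨hx, hxJ⟩, h⟩)
    · exact ⟨ha, hb, hab⟩
    · simp only [pr, Prod.mk.injEq] at h
      obtain ⟨h1, h2⟩ := h
      rcases lt_or_gt_of_ne hx with h3 | h3
      · rw [min_eq_right h3.le] at h1
        rw [max_eq_left h3.le] at h2
        subst h1; subst h2
        exact ⟨hxJ, hu, h3⟩
      · rw [min_eq_left (le_of_lt h3)] at h1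
        rw [max_eq_right (le_of_lt h3)] at h2
        subst h1; subst h2
        exact ⟨hu, hxJ, h3⟩

private theorem EPg_disj {J : Finset ℕ} {u : ℕ} :
    Disjoint (prs (J.erase u)) ((J.erase u).image (pr u)) := by
  rw [disjoint_left]
  rintro ⟨a, b⟩ h1 h2
  rw [EPg_mem_prs] at h1
  obtain ⟨x, hx, h⟩ := mem_image.1 h2
  exact EPg_pr_mem (mem_erase.1 hx).1 (mem_erase.1 h1.1).1 (mem_erase.1 h1.2.1).1 h

theorem wA_symm (y : ℚ) (A : Finset (ℕ × ℕ)) : Sy (wA y A) := by
  intro a b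
  simp only [wA, EPg_pr_comm a b]

theorem wA_val (y : ℚ) (A : Finset (ℕ × ℕ)) (a b : ℕ) : wA y A a b = y ∨ wA y A a b = 1 := by
  unfold wA
  split
  · exact Or.inl rfl
  · exact Or.inr rfl

theorem wA_le {y : ℚ} (hy : |y| < 1) (A : Finset (ℕ × ℕ)) (a b : ℕ) : |wA y A a b| ≤ 1 := by
  rcases wA_val y A a b with h | h <;> rw [h]
  · exact hy.le
  · simp

theorem yR_le {y : ℚ} (hy : |y| < 1) (R : Finset ℕ) (a : ℕ) : |yR y R a| ≤ 1 := by
  unfold yR
  split
  · exact hy.le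
  · simp

theorem EP_split {J : Finset ℕ} {u : ℕ} (hu : u ∈ J) (f : Finset (ℕ × ℕ) → ℚ) :
    EP p (prs J) f = EP p (J.erase u) (fun R => EP p (prs (J.erase u)) (fun A =>
      f (A ∪ R.image (pr u)))) := by
  rw [EPg_prs hu, EP_union EPg_disj, EP_comm, EP_image]
  intro a _ b _ h
  exact EPg_pr_inj h

theorem wA_row (y : ℚ) {J : Finset ℕ} {u : ℕ} {A : Finset (ℕ × ℕ)} {R : Finset ℕ}
    (hA : A ⊆ prs (J.erase u)) (hR : R ⊆ J.erase u) {x : ℕ} (hx : x ∈ J.erase u) :
    wA y (A ∪ R.image (pr u)) u x = yR y R x := by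
  have h : pr u x ∈ A ∪ R.image (pr u) ↔ x ∈ R := by
    rw [mem_union, mem_image]
    constructor
    · rintro (h | ⟨z, hz, h⟩)
      · exact absurd h fun h' => (disjoint_left.1 (EPg_disj (J := J) (u := u))) (hA h')
          (mem_image_of_mem _ hx)
      · rwa [← EPg_pr_inj h]
    · intro h
      exact Or.inr ⟨x, h, rfl⟩
  unfold wA yR
  simp only [h]

theorem wA_in (y : ℚ) {J : Finset ℕ} {u : ℕ} {A : Finset (ℕ × ℕ)} {R : Finset ℕ}
    (hR : R ⊆ J.erase u) {a b : ℕ} (ha : a ∈ J.erase u) (hb : b ∈ J.erase u) :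
    wA y (A ∪ R.image (pr u)) a b = wA y A a b := by
  have h : pr a b ∈ A ∪ R.image (pr u) ↔ pr a b ∈ A := by
    rw [mem_union, mem_image]
    constructor
    · rintro (h | ⟨z, hz, h⟩)
      · exact h
      · exfalso
        have ha' := (mem_erase.1 ha).1
        have hb' := (mem_erase.1 hb).1
        have hz' := (mem_erase.1 (hR hz)).1
        refine EPg_pr_mem hz' ?_ ?_ h
        · rcases min_choice a b with h | h <;> rw [h] <;> assumption
        · rcases max_choice a b with h | h <;> rw [h] <;> assumption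
    · intro h
      exact Or.inl h
  unfold wA
  simp only [h]

/-- a functional of the weights inside `J` and of the row on `J` -/
def Loc (g : (ℕ → ℕ → ℚ) → Finset ℕ → (ℕ → ℚ) → ℚ) : Prop :=
  ∀ (w w' : ℕ → ℕ → ℚ) (J : Finset ℕ) (s s' : ℕ → ℚ), (∀ a ∈ J, ∀ b ∈ J, w a b = w' a b) →
    (∀ x ∈ J, s x = s' x) → g w J s = g w' J s'

theorem ep_row (y : ℚ) {g : (ℕ → ℕ → ℚ) → Finset ℕ → (ℕ → ℚ) → ℚ} (hg : Loc g) {J : Finset ℕ}
    {u : ℕ} (hu : u ∈ J) (s : ℕ → ℚ) :
    EP p (prs J) (fun A => g (wA y A) (J.erase u) (nx (wA y A) s u)) =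
      EP p (J.erase u) (fun R => EP p (prs (J.erase u)) (fun A =>
        g (wA y A) (J.erase u) (fun x => yR y R x * cut s u x))) := by
  rw [EP_split hu]
  refine EP_congr fun R hR => EP_congr fun A hA => ?_
  refine hg _ _ _ _ _ (fun a ha b hb => wA_in y hR ha hb) fun x hx => ?_
  simp only [nx, wA_row y hA hR hx]

private theorem EPg_act (y : ℚ) {J : Finset ℕ} {s s' : ℕ → ℚ} (h : ∀ x ∈ J, s x = s' x) :
    act y J s = act y J s' := by
  unfold act
  exact filter_congr fun x hx => by rw [h x hx]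

private theorem EPg_good (y : ℚ) (q0 : ℕ) {J : Finset ℕ} {s s' : ℕ → ℚ}
    (h : ∀ x ∈ J, s x = s' x) : Good y q0 J s ↔ Good y q0 J s' := by
  unfold Good
  rw [EPg_act y h]

private theorem EPg_cond (y : ℚ) {w w' : ℕ → ℕ → ℚ} {J : Finset ℕ} {s s' : ℕ → ℚ}
    (hw : ∀ a ∈ J, ∀ b ∈ J, w a b = w' a b) (h : ∀ x ∈ J, s x = s' x) :
    Cond y w J s ↔ Cond y w' J s' := by
  unfold Cond
  rw [EPg_act y h]
  refine forall₂_congr fun x hx => imp_congr_right fun _ => exists_congr fun a =>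
    and_congr_right fun ha => ?_
  rw [hw a (mem_filter.1 ha).1 x hx]

private theorem EPg_cc (t : ℚ) {J : Finset ℕ} {s s' : ℕ → ℚ} {u : ℕ} (hu : u ∈ J)
    (h : ∀ x ∈ J, s x = s' x) : cc t J s u = cc t J s' u := by
  unfold cc
  rw [h u hu]

private theorem EPg_cut {J : Finset ℕ} {s s' : ℕ → ℚ} (u : ℕ)
    (h : ∀ x ∈ J, s x = s' x) : ∀ x ∈ J, cut s u x = cut s' u x := by
  intro x hx
  unfold cut
  rw [h x hx]

private theorem EPg_rt (t r : ℚ) {J : Finset ℕ} {s s' : ℕ → ℚ} (u : ℕ)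
    (h : ∀ x ∈ J, s x = s' x) : rt t r J s u = rt t r J s' u := by
  unfold rt
  rw [U_congr t r h]
  rw [U_congr t r (s := nr r s u) (s' := nr r s' u)]
  intro x hx
  unfold nr
  rw [EPg_cut u h x (mem_of_mem_erase hx)]

private theorem EPg_nx {w w' : ℕ → ℕ → ℚ} {J : Finset ℕ} {s s' : ℕ → ℚ} {u : ℕ} (hu : u ∈ J)
    (hw : ∀ a ∈ J, ∀ b ∈ J, w a b = w' a b) (h : ∀ x ∈ J, s x = s' x) :
    ∀ x ∈ J.erase u, nx w s u x = nx w' s' u x := by
  intro x hx
  unfold nx
  rw [EPg_cut u h x (mem_of_mem_erase hx), hw u hu x (mem_of_mem_erase hx)]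

theorem gf_loc (t r y : ℚ) (q0 e n : ℕ) : Loc fun w J s => gf t r y q0 e w n J s := by
  intro w w' J s s' hw hs
  simp only
  induction n generalizing J s s' with
  | zero =>
    have h1 := EPg_good y q0 hs
    have h2 := EPg_cond y hw hs
    unfold gf
    by_cases h3 : Good y q0 J s ∧ Cond y w J s
    · rw [if_pos h3, if_pos ⟨h1.1 h3.1, h2.1 h3.2⟩]
    · rw [if_neg h3, if_neg fun h4 => h3 ⟨h1.2 h4.1, h2.2 h4.2⟩]
  | succ n ih =>
    have h1 := EPg_good y q0 hs
    unfold gf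
    by_cases h3 : Good y q0 J s
    · rw [if_pos h3, if_pos (h1.1 h3)]
      refine sum_congr rfl fun u hu => ?_
      rw [EPg_cc t hu hs, EPg_rt t r u hs, ih (J.erase u) (nx w s u) (nx w' s' u)
        (fun a ha b hb => hw a (mem_of_mem_erase ha) b (mem_of_mem_erase hb)) (EPg_nx hu hw hs)]
    · rw [if_neg h3, if_neg fun h4 => h3 (h1.2 h4)]

theorem S2_loc (t r : ℚ) (n : ℕ) : Loc fun w J s => S2 t r w n J s := by
  intro w w' J s s' hw hs
  simp only
  induction n generalizing J s s' with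
  | zero => rfl
  | succ n ih =>
    unfold S2
    refine sum_congr rfl fun u hu => ?_
    rw [EPg_cc t hu hs, EPg_rt t r u hs, ih (J.erase u) (nx w s u) (nx w' s' u)
      (fun a ha b hb => hw a (mem_of_mem_erase ha) b (mem_of_mem_erase hb)) (EPg_nx hu hw hs)]

end Pool.Agent.AAG
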