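import Pool.Agent.AAG.Bds
import Pool.Agent.AAG.EPg

set_option autoImplicit false

/-!
# AAG-LowA: lower bounds for `hub` in terms of the functional `H`

PLAN. `hub_cond`: induction on `J.card`. `J = ∅`: `hub_empty`. `J` nonempty: then `act y J s` is
nonempty (take `x ∈ J`, use `Cond`). Let `u` be its maximum. In `hub_rec` all terms are `≥ 0`
(`cc_nonneg`, `hub_nonneg'`), keep the term `u`: `cc t J s u ≥ 1 - s u ≥ 1 - |y|`
(`s u ≤ |s u| ≤ |y|`). The state `(J.erase u, nx w s u)` satisfies `Cond`: for `x ∈ act`, `x ≠ u`: `x < u`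
(maximum), `|nx w s u x| = |w u x| |s x| ≤ |y|`, so `x` is active; if `w u x = y` then `|nx w s u x| ≤ |y|`.
If `x ∈ J.erase u` is not active in the new state, then it was not active and `w u x ≠ y`; its active
neighbour `a` from `Cond` is not `u` (`w u x ≠ y`), so `a` is active in the new state.
`gf_zero_le`: induction on `n`, `J.card = l + n`. `n = 0`: `hub_cond` or `hub ≥ 0`. Step: not good:
`0 ≤ hub`; good: `hub_rec`, `rt ^ 0 = 1`.
-/

namespace Pool.Agent.AAG

open Finset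

private theorem LowA_w1 {y : ℚ} (hy : |y| < 1) {w : ℕ → ℕ → ℚ} {J : Finset ℕ}
    (hv : ∀ a ∈ J, ∀ b ∈ J, w a b = y ∨ w a b = 1) : ∀ a ∈ J, ∀ b ∈ J, |w a b| ≤ 1 := by
  intro a ha b hb
  rcases hv a ha b hb with h | h
  · rw [h]
    exact hy.le
  · rw [h, abs_one]

private theorem LowA_cut {J : Finset ℕ} {s : ℕ → ℚ} (hs : Bd1 J s) (u : ℕ) {x : ℕ} (hx : x ∈ J) :
    |cut s u x| ≤ 1 := by
  unfold cut
  split_ifs
  · exact hs x hx
  · rw [abs_one]

private theorem LowA_cond {y : ℚ} (hy : |y| < 1) {w : ℕ → ℕ → ℚ}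
    {J : Finset ℕ} {s : ℕ → ℚ} (hv : ∀ a ∈ J, ∀ b ∈ J, w a b = y ∨ w a b = 1) (hs : Bd1 J s)
    (hc : Cond y w J s) {u : ℕ} (hu : u ∈ act y J s) (hmax : ∀ a ∈ act y J s, a ≤ u) :
    Cond y w (J.erase u) (nx w s u) := by
  have huJ : u ∈ J := (Finset.mem_filter.1 hu).1
  have hy1 : y ≠ 1 := by
    intro h
    rw [h, abs_one] at hy
    exact lt_irrefl _ hy
  have hact : ∀ a ∈ act y J s, a ≠ u → a ∈ act y (J.erase u) (nx w s u) := by
    intro a ha hau
    obtain ⟨haJ, has⟩ := Finset.mem_filter.1 ha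
    refine Finset.mem_filter.2 ⟨Finset.mem_erase.2 ⟨hau, haJ⟩, ?_⟩
    have hlt : a < u := lt_of_le_of_ne (hmax a ha) hau
    have h1 : nx w s u a = w u a * s a := by
      simp [nx, cut, hlt]
    rw [h1, abs_mul]
    calc |w u a| * |s a| ≤ 1 * |y| := mul_le_mul (LowA_w1 hy hv u huJ a haJ) has (abs_nonneg _) zero_le_one
      _ = |y| := one_mul _
  intro x hx hxn
  obtain ⟨hxu, hxJ⟩ := Finset.mem_erase.1 hx
  have hwx : w u x ≠ y := by
    intro h
    apply hxn
    refine Finset.mem_filter.2 ⟨hx, ?_⟩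
    have h1 : nx w s u x = y * cut s u x := by
      simp [nx, h]
    rw [h1, abs_mul]
    calc |y| * |cut s u x| ≤ |y| * 1 := mul_le_mul_of_nonneg_left (LowA_cut hs u hxJ) (abs_nonneg _)
      _ = |y| := mul_one _
  have hxa : x ∉ act y J s := fun h => hxn (hact x h hxu)
  obtain ⟨a, ha, hax⟩ := hc x hxJ hxa
  have hau : a ≠ u := by
    intro h
    rw [h] at hax
    exact hwx hax
  exact ⟨a, hact a ha hau, hax⟩

private theorem LowA_cc {t y : ℚ} (ht : 0 ≤ t) {J : Finset ℕ} {s : ℕ → ℚ} {u : ℕ}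
    (hu : |s u| ≤ |y|) : 1 - |y| ≤ cc t J s u := by
  have h1 : s u ≤ |y| := le_trans (le_abs_self _) hu
  unfold cc
  split_ifs <;> linarith

private theorem LowA_aux {t y : ℚ} (ht : 0 ≤ t) (hy : |y| < 1) {w : ℕ → ℕ → ℚ} (hw : Sy w) (n : ℕ) :
    ∀ (J : Finset ℕ) (s : ℕ → ℚ), J.card = n → (∀ a ∈ J, ∀ b ∈ J, w a b = y ∨ w a b = 1) → Bd1 J s →
      Cond y w J s → (1 - |y|) ^ n ≤ DFP.hub t w J s := by
  induction n with
  | zero =>
    intro J s hJ _ _ _
    rw [Finset.card_eq_zero] at hJ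
    rw [hJ, hub_empty, pow_zero]
  | succ n ih =>
    intro J s hJ hv hs hc
    have hJne : J.Nonempty := by
      rw [← Finset.card_pos, hJ]
      exact Nat.succ_pos n
    have hne : (act y J s).Nonempty := by
      obtain ⟨x, hx⟩ := hJne
      by_cases hxa : x ∈ act y J s
      · exact ⟨x, hxa⟩
      · obtain ⟨a, ha, -⟩ := hc x hx hxa
        exact ⟨a, ha⟩
    obtain ⟨u, hu, hmax⟩ : ∃ u ∈ act y J s, ∀ a ∈ act y J s, a ≤ u :=
      ⟨(act y J s).max' hne, Finset.max'_mem _ _, fun a ha => Finset.le_max' _ a ha⟩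
    obtain ⟨huJ, hus⟩ := Finset.mem_filter.1 hu
    have hw1 := LowA_w1 hy hv
    have hsub : J.erase u ⊆ J := Finset.erase_subset _ _
    have h1 : (1 - |y|) ^ n ≤ DFP.hub t w (J.erase u) (nx w s u) := by
      refine ih (J.erase u) (nx w s u) ?_ (fun a ha b hb => hv a (hsub ha) b (hsub hb))
        (nx_bd huJ hw1 hs) (LowA_cond hy hv hs hc hu hmax)
      rw [Finset.card_erase_of_mem huJ, hJ, Nat.add_sub_cancel]
    have h2 : cc t J s u * DFP.hub t w (J.erase u) (nx w s u) ≤ DFP.hub t w J s := by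
      rw [hub_rec t hw hJne s]
      refine Finset.single_le_sum (f := fun v => cc t J s v * DFP.hub t w (J.erase v) (nx w s v)) ?_ huJ
      intro v hvJ
      refine mul_nonneg (cc_nonneg ht (hs v hvJ)) (hub_nonneg' ht hw ?_ (nx_bd hvJ hw1 hs))
      intro a ha b hb
      exact hw1 a (Finset.erase_subset _ _ ha) b (Finset.erase_subset _ _ hb)
    have h3 : 1 - |y| ≤ cc t J s u := LowA_cc ht hus
    have h4 : 0 ≤ 1 - |y| := by linarith
    calc (1 - |y|) ^ (n + 1) = (1 - |y|) * (1 - |y|) ^ n := by ring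
      _ ≤ cc t J s u * DFP.hub t w (J.erase u) (nx w s u) :=
          mul_le_mul h3 h1 (pow_nonneg h4 n) (le_trans h4 h3)
      _ ≤ DFP.hub t w J s := h2

theorem hub_cond {t y : ℚ} (ht : 0 ≤ t) (hy : |y| < 1) {w : ℕ → ℕ → ℚ} (hw : Sy w)
    {J : Finset ℕ} {s : ℕ → ℚ} (hv : ∀ a ∈ J, ∀ b ∈ J, w a b = y ∨ w a b = 1) (hs : Bd1 J s)
    (hc : Cond y w J s) : (1 - |y|) ^ J.card ≤ DFP.hub t w J s :=
  LowA_aux ht hy hw J.card J s rfl hv hs hc

theorem gf_zero_le {t r y : ℚ} (ht : 0 ≤ t) (hy : |y| < 1) {w : ℕ → ℕ → ℚ} (hw : Sy w)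
    (q0 l : ℕ) (n : ℕ) {J : Finset ℕ} {s : ℕ → ℚ} (hJ : J.card = l + n)
    (hv : ∀ a ∈ J, ∀ b ∈ J, w a b = y ∨ w a b = 1) (hs : Bd1 J s) :
    (1 - |y|) ^ l * gf t r y q0 0 w n J s ≤ DFP.hub t w J s := by
  induction n generalizing J s with
  | zero =>
    have hnn : 0 ≤ DFP.hub t w J s := hub_nonneg' ht hw (LowA_w1 hy hv) hs
    unfold gf
    split_ifs with h
    · rw [mul_one]
      have h1 := hub_cond ht hy hw hv hs h.2
      rw [hJ, Nat.add_zero] at h1
      exact h1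
    · rw [mul_zero]
      exact hnn
  | succ n ih =>
    have hnn : 0 ≤ DFP.hub t w J s := hub_nonneg' ht hw (LowA_w1 hy hv) hs
    unfold gf
    split_ifs with h
    · have hJne : J.Nonempty := by
        rw [← Finset.card_pos, hJ]
        omega
      rw [hub_rec t hw hJne s, Finset.mul_sum]
      refine Finset.sum_le_sum ?_
      intro u hu
      have hsub : J.erase u ⊆ J := Finset.erase_subset _ _
      have h1 : (1 - |y|) ^ l * gf t r y q0 0 w n (J.erase u) (nx w s u) ≤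
          DFP.hub t w (J.erase u) (nx w s u) := by
        refine ih ?_ (fun a ha b hb => hv a (hsub ha) b (hsub hb)) (nx_bd hu (LowA_w1 hy hv) hs)
        rw [Finset.card_erase_of_mem hu, hJ]
        omega
      rw [pow_zero, mul_one]
      calc (1 - |y|) ^ l * (cc t J s u * gf t r y q0 0 w n (J.erase u) (nx w s u)) =
            cc t J s u * ((1 - |y|) ^ l * gf t r y q0 0 w n (J.erase u) (nx w s u)) := by ring
        _ ≤ cc t J s u * DFP.hub t w (J.erase u) (nx w s u) :=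
            mul_le_mul_of_nonneg_left h1 (cc_nonneg ht (hs u hu))
    · rw [mul_zero]
      exact hnn

end Pool.Agent.AAG
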