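import Pool.Agent.AAG.Root
import Pool.Agent.AAG.LowA

set_option autoImplicit false

/-!
# AAG-Cls: the class of graphs

PLAN. Constants: `C` from `hb_ex`, `(q0, β)` from `row_num`, `ρ = p (β/β^q0) + (1-p) β` (`0 ≤ ρ < 1`,
`row_bad`), `K = Ki C y q0`, natural numbers `d1 ≥ C^2`, `d2 ≥ K`.
For `n` and `l` with `l + 1 ≤ n` let `U0 = U t r (Ico 1 n) r > 0` (`U_ge_min`, row `1`) and let `Q n l A` be the conjunction of
`Cond` (root), `1/2 ≤ gf1`, `gf2 * U0 ≤ n * (gg t r l (-1) * Kp K n)`, `S2 ≤ n * (Kp (C^2) n * U0^2)`.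
* `P(Q) ≥ 1 - (om (n-1) + ρ^(n-1)/(1-ρ)) - 2 (om l + ρ^l/(1-ρ)) - 2/n`: `EP_markov` for `1 - gf1` (`gf_le_one`),
 `gf2 * U0`, `S2` (nonnegative: `gf_nonneg`, `S2_nonneg`; if a Markov threshold is `0` use that the expectation is
 `≤` it: all thresholds are positive: `gg > 0`, `Kp ≥ 1`, `n ≥ 1`), union bound.
* `Q` implies with `N0 = n gg(l)(-1) Kp K n / U0`, `lam = 1/(2 N0)` in `gf_ineq`:
 `gf0 ≥ lam - lam^2 N0 = 1/(4 N0)`; `gf_zero_le` (`J.card = n - 1 = l + (n-1-l)`):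
 `hub ≥ (1-|y|)^l / (4 N0)`. If moreover `gg t r l (-1) ≤ n (1-|y|)^l`, then
 `hub ≥ U0 / (4 n^2 Kp K n) > 0` and `S2 ≤ n Kp(C^2) n * 16 n^4 (Kp K n)^2 hub^2 ≤ 16 n^5 n^(d1) n^(2 d2) hub^2`
 (`Kp_le`), `≤ (n+1)^e hub^2` with `e = d1 + 2 d2 + 9` (`16 ≤ (n+1)^4`).
* The class: `G n A := ∃ l, l + 1 ≤ n ∧ gg t r l (-1) ≤ n (1-|y|)^l ∧ Q n l A`. Given `ε`, choose `l` with
 `om l + ρ^l/(1-ρ) ≤ ε/8` (`small_ex`), then `n0 > l` so large that `gg t r l (-1) ≤ n0 (1-|y|)^l`, `2/n0 ≤ ε/8`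
 and `om (n-1) + .. ≤ ε/8` for `n ≥ n0`.
-/

namespace Pool.Agent.AAG

open Finset

private theorem Cls_union {ι : Type} [DecidableEq ι] {p : ℚ} (h0 : 0 ≤ p) (h1 : p ≤ 1) {I : Finset ι}
    {P i1 i2 i3 i4 : Finset ι → ℚ} {b1 b2 b3 b4 : ℚ}
    (h : ∀ A, A ⊆ I → 1 - i1 A - i2 A - i3 A - i4 A ≤ P A) (e1 : EP p I i1 ≤ b1)
    (e2 : EP p I i2 ≤ b2) (e3 : EP p I i3 ≤ b3) (e4 : EP p I i4 ≤ b4) :
    1 - b1 - b2 - b3 - b4 ≤ EP p I P := by
  have h2 := EP_mono h0 h1 h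
  have h3 : EP p I (fun A => 1 - i1 A - i2 A - i3 A - i4 A) =
      1 - EP p I i1 - EP p I i2 - EP p I i3 - EP p I i4 := by
    rw [EP_sub p I (fun A => 1 - i1 A - i2 A - i3 A) i4, EP_sub p I (fun A => 1 - i1 A - i2 A) i3,
      EP_sub p I (fun A => 1 - i1 A) i2, EP_sub p I (fun _ => 1) i1, EP_const]
  rw [h3] at h2
  linarith

/-- the good event with `l` unrevealed vertices -/
private def Cls_Q (t r y C : ℚ) (q0 n l : ℕ) (A : Finset (ℕ × ℕ)) : Prop :=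
  Cond y (wA y A) (Ico 1 n) (wA y A 0) ∧
    1 / 2 ≤ gf t r y q0 1 (wA y A) (n - 1 - l) (Ico 1 n) (wA y A 0) ∧
    U t r (Ico 1 n) (fun _ => r) * gf t r y q0 2 (wA y A) (n - 1 - l) (Ico 1 n) (wA y A 0) ≤
      n * (gg t r l (-1) * Kp (Ki C y q0) n) ∧
    S2 t r (wA y A) (n - 1) (Ico 1 n) (wA y A 0) ≤
      n * (Kp (C ^ 2) n * U t r (Ico 1 n) (fun _ => r) ^ 2)

private theorem Cls_U0 {t r : ℚ} (ht : 0 ≤ t) (hr : |r| < 1) {C : ℚ} (hb : HB t r C) (n : ℕ) :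
    0 < U t r (Ico 1 n) (fun _ => r) := by
  have h1 := U_ge_min ht hr (J := Ico 1 n) (s := fun _ => 1) (fun x _ => by simp)
  have h2 : (fun x : ℕ => r * (fun _ : ℕ => (1 : ℚ)) x) = fun _ => r := by
    funext x; simp
  rw [h2] at h1
  exact lt_of_lt_of_le (hb.pos _) h1

private theorem Cls_gg {t r : ℚ} (ht : 0 ≤ t) (hr : |r| < 1) {C : ℚ} (hb : HB t r C) (l : ℕ) :
    0 < gg t r l (-1) := by
  have h1 := U_le_max ht hr (J := range l) (s := fun _ => |r|)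
    (fun x _ => by rw [abs_abs]; exact hr.le)
  rw [card_range] at h1
  exact lt_of_lt_of_le (hb.pos l) h1

private theorem Cls_bd {y : ℚ} (hy : |y| < 1) (A : Finset (ℕ × ℕ)) (J : Finset ℕ) :
    Bd1 J (wA y A 0) := fun x _ => wA_le hy A 0 x

open Classical in
private theorem Cls_prob {t r y p C ρ : ℚ} (hH : Hyp t r y p) (hb : HB t r C) {q0 : ℕ}
    (hq : 1 ≤ q0) (hρ0 : 0 ≤ ρ) (hρ1 : ρ < 1)
    (hρ : ∀ (J : Finset ℕ) (s : ℕ → ℚ), Bd1 J s →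
      EP p J (fun R => if Good y q0 J (fun x => yR y R x * s x) then 0 else 1) ≤ ρ ^ J.card)
    {l n : ℕ} (hn : l + 1 ≤ n) :
    1 - (om p q0 (n - 1) + ρ ^ (n - 1) / (1 - ρ)) - 2 * (om p q0 l + ρ ^ l / (1 - ρ)) - 1 / n - 1 / n ≤
      EP p (prs (range n)) (fun A => if Cls_Q t r y C q0 n l A then 1 else 0) := by
  have ht := hH.ht
  have hr := hH.r_lt
  have hy := hH.y_lt
  have hp0 := hH.hp0.le
  have hp1 := hH.hp1.le
  have hn1 : 1 ≤ n := by omega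
  have hnq : (0 : ℚ) < n := by exact_mod_cast hn1
  have hU0 := Cls_U0 ht hr hb n
  have hg := Cls_gg ht hr hb l
  have hK := Ki_nonneg hb.hC hy q0
  have hC2 : (0 : ℚ) ≤ C ^ 2 := sq_nonneg C
  have hk1 := Kp_one hK n
  have hk2 := Kp_one hC2 n
  have hJ : (Ico 1 n).card = l + (n - 1 - l) := by
    rw [Nat.card_Ico]; omega
  have hT2 : 0 < (n : ℚ) * (gg t r l (-1) * Kp (Ki C y q0) n) := by positivity
  have hT3 : 0 < (n : ℚ) * (Kp (C ^ 2) n * U t r (Ico 1 n) (fun _ => r) ^ 2) := by positivity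
  have e1 := root_cond hH hq hρ0 hρ1 hρ hn1
  have e2 := EP_markov hp0 hp1 (I := prs (range n))
    (f := fun A => 1 - gf t r y q0 1 (wA y A) (n - 1 - l) (Ico 1 n) (wA y A 0))
    (a := 1 / 2) (by norm_num) (fun A _ => by
      have := gf_le_one ht hr hy q0 l (n - 1 - l) hJ (w := wA y A)
        (fun a _ b _ => wA_le hy A a b) (Cls_bd hy A (Ico 1 n))
      simpa using this)
  have e3 := EP_markov hp0 hp1 (I := prs (range n))
    (f := fun A => U t r (Ico 1 n) (fun _ => r) *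
      gf t r y q0 2 (wA y A) (n - 1 - l) (Ico 1 n) (wA y A 0)) hT2 (fun A _ =>
      mul_nonneg hU0.le (gf_nonneg ht hr q0 2 (n - 1 - l) (w := wA y A)
        (fun a _ b _ => wA_le hy A a b) (Cls_bd hy A (Ico 1 n))))
  have e4 := EP_markov hp0 hp1 (I := prs (range n))
    (f := fun A => S2 t r (wA y A) (n - 1) (Ico 1 n) (wA y A 0)) hT3 (fun A _ =>
      S2_nonneg ht hr hy A (n - 1) (Cls_bd hy A (Ico 1 n)))
  have b2 := root_gf1 hH hq hρ0 hρ1 hρ hn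
  have b3 := root_gf2 hH hb q0 hn
  have b4 := root_S2 hH hb hn1
  have c2 : EP p (prs (range n)) (fun A =>
      1 - gf t r y q0 1 (wA y A) (n - 1 - l) (Ico 1 n) (wA y A 0)) / (1 / 2) ≤
      2 * (om p q0 l + ρ ^ l / (1 - ρ)) := by
    rw [div_le_iff₀ (by norm_num)]
    linarith
  have c3 : EP p (prs (range n)) (fun A => U t r (Ico 1 n) (fun _ => r) *
      gf t r y q0 2 (wA y A) (n - 1 - l) (Ico 1 n) (wA y A 0)) /
      ((n : ℚ) * (gg t r l (-1) * Kp (Ki C y q0) n)) ≤ 1 / n := by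
    rw [EP_mul p (prs (range n)) (U t r (Ico 1 n) (fun _ => r))
      (fun A => gf t r y q0 2 (wA y A) (n - 1 - l) (Ico 1 n) (wA y A 0)), div_le_div_iff₀ hT2 hnq]
    nlinarith
  have c4 : EP p (prs (range n)) (fun A => S2 t r (wA y A) (n - 1) (Ico 1 n) (wA y A 0)) /
      ((n : ℚ) * (Kp (C ^ 2) n * U t r (Ico 1 n) (fun _ => r) ^ 2)) ≤ 1 / n := by
    rw [div_le_div_iff₀ hT3 hnq]
    nlinarith
  refine Cls_union hp0 hp1 ?_ e1 (e2.trans c2) (e3.trans c3) (e4.trans c4)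
  intro A _
  by_cases hQ : Cls_Q t r y C q0 n l A
  · rw [if_pos hQ]
    have g1 : (0 : ℚ) ≤ if Cond y (wA y A) (Ico 1 n) (wA y A 0) then 0 else 1 := by
      split_ifs <;> norm_num
    have g2 : (0 : ℚ) ≤ if 1 / 2 ≤ 1 - gf t r y q0 1 (wA y A) (n - 1 - l) (Ico 1 n) (wA y A 0)
        then 1 else 0 := by
      split_ifs <;> norm_num
    have g3 : (0 : ℚ) ≤ if (n : ℚ) * (gg t r l (-1) * Kp (Ki C y q0) n) ≤
        U t r (Ico 1 n) (fun _ => r) * gf t r y q0 2 (wA y A) (n - 1 - l) (Ico 1 n) (wA y A 0)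
        then 1 else 0 := by
      split_ifs <;> norm_num
    have g4 : (0 : ℚ) ≤ if (n : ℚ) * (Kp (C ^ 2) n * U t r (Ico 1 n) (fun _ => r) ^ 2) ≤
        S2 t r (wA y A) (n - 1) (Ico 1 n) (wA y A 0) then 1 else 0 := by
      split_ifs <;> norm_num
    linarith
  · rw [if_neg hQ]
    by_cases h1 : Cond y (wA y A) (Ico 1 n) (wA y A 0)
    · by_cases h2 : 1 / 2 ≤ gf t r y q0 1 (wA y A) (n - 1 - l) (Ico 1 n) (wA y A 0)
      · by_cases h3 : U t r (Ico 1 n) (fun _ => r) *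
            gf t r y q0 2 (wA y A) (n - 1 - l) (Ico 1 n) (wA y A 0) ≤
            n * (gg t r l (-1) * Kp (Ki C y q0) n)
        · have h4 : (n : ℚ) * (Kp (C ^ 2) n * U t r (Ico 1 n) (fun _ => r) ^ 2) ≤
              S2 t r (wA y A) (n - 1) (Ico 1 n) (wA y A 0) := by
            by_contra h5
            exact hQ ⟨h1, h2, h3, (not_le.1 h5).le⟩
          have g2 : (0 : ℚ) ≤ if 1 / 2 ≤ 1 - gf t r y q0 1 (wA y A) (n - 1 - l) (Ico 1 n) (wA y A 0)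
              then 1 else 0 := by
            split_ifs <;> norm_num
          have g3 : (0 : ℚ) ≤ if (n : ℚ) * (gg t r l (-1) * Kp (Ki C y q0) n) ≤
              U t r (Ico 1 n) (fun _ => r) * gf t r y q0 2 (wA y A) (n - 1 - l) (Ico 1 n) (wA y A 0)
              then 1 else 0 := by
            split_ifs <;> norm_num
          rw [if_pos h1, if_pos h4]
          linarith
        · have g2 : (0 : ℚ) ≤ if 1 / 2 ≤ 1 - gf t r y q0 1 (wA y A) (n - 1 - l) (Ico 1 n) (wA y A 0)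
              then 1 else 0 := by
            split_ifs <;> norm_num
          have g4 : (0 : ℚ) ≤ if (n : ℚ) * (Kp (C ^ 2) n * U t r (Ico 1 n) (fun _ => r) ^ 2) ≤
              S2 t r (wA y A) (n - 1) (Ico 1 n) (wA y A 0) then 1 else 0 := by
            split_ifs <;> norm_num
          rw [if_pos h1, if_pos (not_le.1 h3).le]
          linarith
      · have g3 : (0 : ℚ) ≤ if (n : ℚ) * (gg t r l (-1) * Kp (Ki C y q0) n) ≤
            U t r (Ico 1 n) (fun _ => r) * gf t r y q0 2 (wA y A) (n - 1 - l) (Ico 1 n) (wA y A 0)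
            then 1 else 0 := by
          split_ifs <;> norm_num
        have g4 : (0 : ℚ) ≤ if (n : ℚ) * (Kp (C ^ 2) n * U t r (Ico 1 n) (fun _ => r) ^ 2) ≤
            S2 t r (wA y A) (n - 1) (Ico 1 n) (wA y A 0) then 1 else 0 := by
          split_ifs <;> norm_num
        have h2' : 1 / 2 ≤ 1 - gf t r y q0 1 (wA y A) (n - 1 - l) (Ico 1 n) (wA y A 0) := by
          have := not_le.1 h2
          linarith
        rw [if_pos h1, if_pos h2']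
        linarith
    · have g2 : (0 : ℚ) ≤ if 1 / 2 ≤ 1 - gf t r y q0 1 (wA y A) (n - 1 - l) (Ico 1 n) (wA y A 0)
          then 1 else 0 := by
        split_ifs <;> norm_num
      have g3 : (0 : ℚ) ≤ if (n : ℚ) * (gg t r l (-1) * Kp (Ki C y q0) n) ≤
          U t r (Ico 1 n) (fun _ => r) * gf t r y q0 2 (wA y A) (n - 1 - l) (Ico 1 n) (wA y A 0)
          then 1 else 0 := by
        split_ifs <;> norm_num
      have g4 : (0 : ℚ) ≤ if (n : ℚ) * (Kp (C ^ 2) n * U t r (Ico 1 n) (fun _ => r) ^ 2) ≤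
          S2 t r (wA y A) (n - 1) (Ico 1 n) (wA y A 0) then 1 else 0 := by
        split_ifs <;> norm_num
      rw [if_neg h1]
      linarith

private theorem Cls_num {g k U0 Y N hub gf0 gf1 gf2 S K2 : ℚ} (hg : 0 < g) (hk : 1 ≤ k)
    (hU : 0 < U0) (hY : 0 < Y) (hN : 1 ≤ N) (hK2 : 1 ≤ K2)
    (h1 : 1 / 2 ≤ gf1) (h2 : U0 * gf2 ≤ N * (g * k))
    (h3 : ∀ lam : ℚ, 2 * lam * gf1 - lam ^ 2 * gf2 ≤ gf0) (h4 : Y * gf0 ≤ hub)
    (h5 : g ≤ N * Y) (h6 : S ≤ N * (K2 * U0 ^ 2)) :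
    U0 ≤ 4 * N ^ 2 * k * hub ∧ 0 < hub ∧ S ≤ 16 * N ^ 5 * K2 * k ^ 2 * hub ^ 2 := by
  have hk0 : 0 < k := by linarith
  have hN0 : 0 < N := by linarith
  have hK0 : 0 < K2 := by linarith
  obtain ⟨M, hM⟩ : ∃ M, M = N * (g * k) := ⟨_, rfl⟩
  have hM0 : 0 < M := by rw [hM]; positivity
  rw [← hM] at h2
  -- choose lam = U0 / (2 M)
  have h7 := h3 (U0 / (2 * M))
  have h8 : U0 / (4 * M) ≤ gf0 := by
    refine le_trans ?_ h7
    have e1 : (U0 / (2 * M)) ^ 2 * gf2 = U0 / (4 * M ^ 2) * (U0 * gf2) := by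
      field_simp
      ring
    have e2 : U0 / (4 * M ^ 2) * (U0 * gf2) ≤ U0 / (4 * M ^ 2) * M :=
      mul_le_mul_of_nonneg_left h2 (by positivity)
    have e3 : U0 / (4 * M ^ 2) * M = U0 / (4 * M) := by
      field_simp
    have e4 : 2 * (U0 / (2 * M)) * (1 / 2) ≤ 2 * (U0 / (2 * M)) * gf1 :=
      mul_le_mul_of_nonneg_left h1 (by positivity)
    have e5 : 2 * (U0 / (2 * M)) * (1 / 2) = U0 / (4 * M) + U0 / (4 * M) := by
      field_simp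
      ring
    rw [e1]
    linarith
  have h9 : U0 ≤ 4 * N ^ 2 * k * hub := by
    have e1 : Y * (U0 / (4 * M)) ≤ hub := (mul_le_mul_of_nonneg_left h8 hY.le).trans h4
    have e2 : Y * U0 ≤ 4 * M * hub := by
      have : Y * (U0 / (4 * M)) = Y * U0 / (4 * M) := by ring
      rw [this, div_le_iff₀ (by positivity)] at e1
      linarith
    have e3 : g * U0 ≤ N * Y * U0 := mul_le_mul_of_nonneg_right h5 hU.le
    have e4 : N * (Y * U0) ≤ N * (4 * M * hub) := mul_le_mul_of_nonneg_left e2 hN0.le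
    have e5 : g * U0 ≤ g * (4 * N ^ 2 * k * hub) := by
      calc g * U0 ≤ N * Y * U0 := e3
        _ = N * (Y * U0) := by ring
        _ ≤ N * (4 * M * hub) := e4
        _ = g * (4 * N ^ 2 * k * hub) := by rw [hM]; ring
    exact le_of_mul_le_mul_left e5 hg
  have h10 : 0 < hub := by
    by_contra hcon
    have : 4 * N ^ 2 * k * hub ≤ 0 := mul_nonpos_of_nonneg_of_nonpos (by positivity) (not_lt.1 hcon)
    linarith
  refine ⟨h9, h10, h6.trans ?_⟩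
  have e1 : U0 ^ 2 ≤ (4 * N ^ 2 * k * hub) ^ 2 := pow_le_pow_left₀ hU.le h9 2
  calc N * (K2 * U0 ^ 2) ≤ N * (K2 * (4 * N ^ 2 * k * hub) ^ 2) := by
        exact mul_le_mul_of_nonneg_left (mul_le_mul_of_nonneg_left e1 hK0.le) hN0.le
    _ = 16 * N ^ 5 * K2 * k ^ 2 * hub ^ 2 := by ring

private theorem Cls_imp {t r y p C : ℚ} (hH : Hyp t r y p) (hb : HB t r C) {q0 : ℕ} {d1 d2 : ℕ}
    (hd1 : C ^ 2 ≤ d1) (hd2 : Ki C y q0 ≤ d2) {l n : ℕ} (hn : l + 1 ≤ n) {A : Finset (ℕ × ℕ)}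
    (hl : gg t r l (-1) ≤ n * (1 - |y|) ^ l) (hQ : Cls_Q t r y C q0 n l A) :
    0 < DFP.hub t (wA y A) (Ico 1 n) (wA y A 0) ∧
      S2 t r (wA y A) (n - 1) (Ico 1 n) (wA y A 0) ≤
        (n + 1) ^ (d1 + 2 * d2 + 9) * DFP.hub t (wA y A) (Ico 1 n) (wA y A 0) ^ 2 := by
  have ht := hH.ht
  have hr := hH.r_lt
  have hy := hH.y_lt
  have hn1 : 1 ≤ n := by omega
  have hN1 : (1 : ℚ) ≤ n := by exact_mod_cast hn1
  have hK := Ki_nonneg hb.hC hy q0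
  have hC2 : (0 : ℚ) ≤ C ^ 2 := sq_nonneg C
  have hJ : (Ico 1 n).card = l + (n - 1 - l) := by
    rw [Nat.card_Ico]; omega
  have hw : ∀ a ∈ Ico 1 n, ∀ b ∈ Ico 1 n, |wA y A a b| ≤ 1 := fun a _ b _ => wA_le hy A a b
  have hv : ∀ a ∈ Ico 1 n, ∀ b ∈ Ico 1 n, wA y A a b = y ∨ wA y A a b = 1 :=
    fun a _ b _ => wA_val y A a b
  obtain ⟨h1, h2, h3, h4⟩ := hQ
  have hY : 0 < (1 - |y|) ^ l := pow_pos (by linarith) l
  obtain ⟨-, g2, g3⟩ := Cls_num (Cls_gg ht hr hb l) (Kp_one hK n) (Cls_U0 ht hr hb n) hY hN1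
    (Kp_one hC2 n) h2 h3 (fun lam => gf_ineq ht hr q0 (n - 1 - l) hw (Cls_bd hy A (Ico 1 n)) lam)
    (gf_zero_le ht hy (wA_symm y A) q0 l (n - 1 - l) hJ hv (Cls_bd hy A (Ico 1 n))) hl h4
  refine ⟨g2, g3.trans ?_⟩
  obtain ⟨m, rfl⟩ : ∃ m, n = m + 1 := ⟨n - 1, by omega⟩
  have k1 := Kp_le hC2 hd1 m
  have k2 := Kp_le hK hd2 m
  have hc : ((m + 1 : ℕ) : ℚ) = (m : ℚ) + 1 := by push_cast; ring
  rw [hc] at hN1 ⊢
  have hk1 := Kp_one hC2 (m + 1)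
  have hk2 := Kp_one hK (m + 1)
  obtain ⟨x, hx⟩ : ∃ x : ℚ, x = (m : ℚ) + 1 := ⟨_, rfl⟩
  rw [← hx] at hN1 k1 k2 ⊢
  have hx0 : 0 ≤ x := by linarith
  have k3 : Kp (Ki C y q0) (m + 1) ^ 2 ≤ (x ^ d2) ^ 2 := pow_le_pow_left₀ (by linarith) k2 2
  have k4 : 16 * x ^ 5 * Kp (C ^ 2) (m + 1) * Kp (Ki C y q0) (m + 1) ^ 2 ≤
      16 * x ^ 5 * x ^ d1 * (x ^ d2) ^ 2 := by
    refine mul_le_mul (mul_le_mul_of_nonneg_left k1 (by positivity)) k3 (sq_nonneg _) (by positivity)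
  have k5 : (16 : ℚ) * x ^ 5 * x ^ d1 * (x ^ d2) ^ 2 ≤ (x + 1) ^ (d1 + 2 * d2 + 9) := by
    have e1 : (16 : ℚ) ≤ (x + 1) ^ 4 := by
      have : (2 : ℚ) ^ 4 ≤ (x + 1) ^ 4 := pow_le_pow_left₀ (by norm_num) (by linarith) 4
      linarith
    have e2 : x ^ (d1 + 2 * d2 + 5) ≤ (x + 1) ^ (d1 + 2 * d2 + 5) :=
      pow_le_pow_left₀ hx0 (by linarith) _
    calc (16 : ℚ) * x ^ 5 * x ^ d1 * (x ^ d2) ^ 2 = 16 * x ^ (d1 + 2 * d2 + 5) := by
          rw [← pow_mul, pow_add, pow_add, mul_comm d2 2]; ring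
      _ ≤ (x + 1) ^ 4 * (x + 1) ^ (d1 + 2 * d2 + 5) := mul_le_mul e1 e2 (by positivity) (by positivity)
      _ = (x + 1) ^ (d1 + 2 * d2 + 9) := by rw [← pow_add]; congr 1; omega
  exact mul_le_mul_of_nonneg_right (k4.trans k5) (sq_nonneg _)

open Classical in
/-- the class of graphs: probability tends to one, bounded relative second moment -/
theorem cls {t r y p : ℚ} (hH : Hyp t r y p) :
    ∃ (e : ℕ) (G : ℕ → Finset (ℕ × ℕ) → Prop),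
      (∀ ε : ℚ, 0 < ε → ∃ n0 : ℕ, ∀ n, n0 ≤ n →
        1 - ε ≤ EP p (prs (range n)) (fun A => if G n A then 1 else 0)) ∧
      ∀ n A, A ⊆ prs (range n) → G n A →
        1 ≤ n ∧ Cond y (wA y A) (Ico 1 n) (wA y A 0) ∧
        0 < DFP.hub t (wA y A) (Ico 1 n) (wA y A 0) ∧
        S2 t r (wA y A) (n - 1) (Ico 1 n) (wA y A 0) ≤
          (n + 1) ^ e * DFP.hub t (wA y A) (Ico 1 n) (wA y A 0) ^ 2 := by
  have ht := hH.ht
  have hr := hH.r_lt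
  have hy := hH.y_lt
  obtain ⟨C, hb⟩ := hb_ex ht hr
  obtain ⟨q0, β, hq, hβ, hρ1⟩ := row_num hH.hp0 hH.hp1
  obtain ⟨ρ, hρd⟩ : ∃ ρ, ρ = p * (β / β ^ q0) + (1 - p) * β := ⟨_, rfl⟩
  have hρ0 : 0 ≤ ρ := by
    have h1 := hH.hp0
    have h2 : 0 < 1 - p := by linarith [hH.hp1]
    rw [hρd]
    positivity
  have hρ : ∀ (J : Finset ℕ) (s : ℕ → ℚ), Bd1 J s →
      EP p J (fun R => if Good y q0 J (fun x => yR y R x * s x) then 0 else 1) ≤ ρ ^ J.card := by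
    intro J s hs
    rw [hρd]
    exact row_bad hH hs q0 hβ
  rw [← hρd] at hρ1
  obtain ⟨d1, hd1⟩ := exists_nat_ge (C ^ 2)
  obtain ⟨d2, hd2⟩ := exists_nat_ge (Ki C y q0)
  refine ⟨d1 + 2 * d2 + 9, fun n A => ∃ l : ℕ, l + 1 ≤ n ∧ gg t r l (-1) ≤ n * (1 - |y|) ^ l ∧
    Cls_Q t r y C q0 n l A, ?_, ?_⟩
  · intro ε hε
    obtain ⟨l, hl⟩ := small_ex hH.hp0 hH.hp1 hq hρ0 hρ1 (ε := ε / 8) (by linarith)
    have hY : 0 < (1 - |y|) ^ l := pow_pos (by linarith) l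
    obtain ⟨m1, hm1⟩ := exists_nat_ge (gg t r l (-1) / (1 - |y|) ^ l)
    obtain ⟨m2, hm2⟩ := exists_nat_ge (16 / ε)
    refine ⟨l + 1 + m1 + m2, fun n hn => ?_⟩
    have hn1 : l + 1 ≤ n := by omega
    have hm1n : (m1 : ℚ) ≤ n := by exact_mod_cast (by omega : m1 ≤ n)
    have hm2n : (m2 : ℚ) ≤ n := by exact_mod_cast (by omega : m2 ≤ n)
    have hN : (0 : ℚ) < n := by exact_mod_cast (by omega : 0 < n)
    have a1 : gg t r l (-1) ≤ n * (1 - |y|) ^ l := by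
      rw [div_le_iff₀ hY] at hm1
      exact hm1.trans (mul_le_mul_of_nonneg_right hm1n hY.le)
    have a2 : 1 / (n : ℚ) ≤ ε / 16 := by
      rw [div_le_iff₀ hε] at hm2
      rw [div_le_div_iff₀ hN (by norm_num)]
      nlinarith
    have a3 := Cls_prob hH hb hq hρ0 hρ1 hρ hn1
    have a4 := hl (n - 1) (by omega)
    have a5 := hl l le_rfl
    have a6 : EP p (prs (range n)) (fun A => if Cls_Q t r y C q0 n l A then 1 else 0) ≤
        EP p (prs (range n)) (fun A => if ∃ l : ℕ, l + 1 ≤ n ∧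
          gg t r l (-1) ≤ n * (1 - |y|) ^ l ∧ Cls_Q t r y C q0 n l A then 1 else 0) := by
      refine EP_mono hH.hp0.le hH.hp1.le fun A _ => ?_
      by_cases hQ : Cls_Q t r y C q0 n l A
      · rw [if_pos hQ, if_pos ⟨l, hn1, a1, hQ⟩]
      · rw [if_neg hQ]
        split_ifs <;> norm_num
    linarith
  · rintro n A - ⟨l, hln, hg, hQ⟩
    have h2 := Cls_imp hH hb hd1 hd2 hln hg hQ
    exact ⟨by omega, hQ.1, h2.1, h2.2⟩

end Pool.Agent.AAG
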