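import Pool.Agent.AAG.Defs
import Pool.Agent.DFP.TutG

set_option autoImplicit false

/-!
# AAG-Conn: `Cond` at the root implies that the graph is connected

PLAN. Compare `comps_one` in `DFP/Cnn.lean` (its private lemma `quot_of_mult`: vertices joined by an edge are in the same class; copy it).
`x ∈ Ico 1 n` active: `|wG y E 0 x| ≤ |y| < 1`, so `mult E 0 x ≠ 0` (otherwise `wG = y ^ 0 = 1`), `x` is in the class of `0`.
Not active: there is an active `a` with `wG y E a x = y ≠ 1`, so `mult E a x ≠ 0` and `x` is in the class of `a`, which is that of `0`.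
So `Quot (adj G univ)` has exactly one element (`Nat.card_eq_one_iff_unique` or as in `comps_one`).
-/

namespace Pool.Agent.AAG

open Finset

open Pool.Agent.Helper47.TR

private theorem Conn_quot {G : MG} {u v : Fin G.1.length} (h : DFP.mult G.2 u v ≠ 0) :
    Quot.mk (adj G Finset.univ) u = Quot.mk (adj G Finset.univ) v := by
  unfold DFP.mult DFP.multL at h
  rw [List.length_map] at h
  obtain ⟨e, he⟩ := List.exists_mem_of_length_pos (Nat.pos_of_ne_zero h)
  rw [List.mem_filter] at he
  obtain ⟨i, hi⟩ := List.mem_iff_get.1 he.1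
  have h2 := he.2
  simp only [Bool.or_eq_true, Bool.and_eq_true, beq_iff_eq] at h2
  rcases h2 with h3 | h3
  · exact Quot.sound ⟨i, Finset.mem_univ i, by rw [hi]; exact h3.1, by rw [hi]; exact h3.2⟩
  · exact (Quot.sound ⟨i, Finset.mem_univ i, by rw [hi]; exact h3.1, by rw [hi]; exact h3.2⟩).symm

theorem comps_cond {G : MG} (hG : Valid G) (hn : 1 ≤ G.1.length) {y : ℚ} (hy : |y| < 1)
    (h : Cond y (DFP.wG y G.2) (Ico 1 G.1.length) (DFP.wG y G.2 0)) :
    comps G Finset.univ = 1 := by
  classical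
  have hn0 : 0 < G.1.length := hn
  have hact : ∀ x : Fin G.1.length, (x : ℕ) ∈ act y (Ico 1 G.1.length) (DFP.wG y G.2 0) →
      Quot.mk (adj G Finset.univ) ⟨0, hn0⟩ = Quot.mk (adj G Finset.univ) x := by
    intro x hx
    refine Conn_quot (u := ⟨0, hn0⟩) fun h0 => ?_
    have h1 := (Finset.mem_filter.1 hx).2
    have h2 : DFP.wG y G.2 0 x = 1 := by
      unfold DFP.wG
      rw [show DFP.mult G.2 0 x = 0 from h0, pow_zero]
    rw [h2, abs_one] at h1
    exact absurd hy (not_lt.2 h1)
  have key : ∀ x : Fin G.1.length,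
      Quot.mk (adj G Finset.univ) ⟨0, hn0⟩ = Quot.mk (adj G Finset.univ) x := by
    intro x
    by_cases hx0 : (x : ℕ) = 0
    · rw [show x = ⟨0, hn0⟩ from Fin.ext hx0]
    · have hxI : (x : ℕ) ∈ Ico 1 G.1.length := Finset.mem_Ico.2 ⟨Nat.one_le_iff_ne_zero.2 hx0, x.2⟩
      by_cases hxa : (x : ℕ) ∈ act y (Ico 1 G.1.length) (DFP.wG y G.2 0)
      · exact hact x hxa
      · obtain ⟨a, ha, hax⟩ := h x hxI hxa
        have haI := Finset.mem_Ico.1 (Finset.mem_filter.1 ha).1
        have e1 := hact ⟨a, haI.2⟩ ha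
        refine e1.trans (Conn_quot (u := ⟨a, haI.2⟩) fun h0 => ?_)
        have h2 : DFP.wG y G.2 a x = 1 := by
          unfold DFP.wG
          rw [show DFP.mult G.2 a x = 0 from h0, pow_zero]
        rw [h2] at hax
        rw [← hax, abs_one] at hy
        exact lt_irrefl _ hy
  unfold comps
  rw [Nat.card_eq_one_iff_unique]
  refine ⟨⟨fun a b => ?_⟩, ⟨Quot.mk _ ⟨0, hn0⟩⟩⟩
  induction a using Quot.ind with
  | mk a =>
    induction b using Quot.ind with
    | mk b => exact (key a).symm.trans (key b)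

end Pool.Agent.AAG
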