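import Pool.Agent.AAG.FQa

set_option autoImplicit false

/-!
# AAG-Cx: coefficients of polynomials from their values, in polynomial time

`exists_cx` from `PQR.exists_weights`.
-/

namespace Pool.Agent.AAG

open N487b59b3 N68a2faeb Pool.Agent.Helper22 Pool.Agent.Helper6.WB Pool.Agent.Helper6.SP

private theorem Cx_sum (f : ℕ → ℚ) (n : ℕ) :
    ((List.range n).map f).sum = ∑ i ∈ Finset.range n, f i := by
  induction n with
  | zero => simp
  | succ n ih =>
    rw [List.range_succ, List.map_append, List.sum_append, ih, Finset.sum_range_succ]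
    simp

private theorem Cx_un (n : List Bool) : un n.length = n.map fun _ => true := by
  show List.replicate n.length true = _
  rw [List.map_const']

theorem exists_cx : ∃ (nd : List Bool → ℚ) (W : List Bool × (List Bool × List Bool) → ℚ),
    FQ nd ∧ FQ W ∧ ∀ (D : List Bool) (q : Polynomial ℚ) (e : ℕ), q.natDegree ≤ D.length →
      e ≤ D.length →
        ((pf D).map fun v => W (D, (un e, v)) * q.eval (nd v)).sum = q.coeff e := by
  obtain ⟨W, hW, hW2⟩ := PQR.exists_weights
  refine ⟨PQR.nd, W, PQR.fq_nd, hW, fun D q e hq he => ?_⟩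
  have h0 : ((pf D).map fun v => W (D, (un e, v)) * q.eval (PQR.nd v)).sum =
      ∑ v ∈ Finset.range (D.length + 1), W (D, (un e, un v)) * q.eval (PQR.nd (un v)) := by
    unfold pf
    rw [List.map_map, ← Cx_sum (fun v => W (D, (un e, un v)) * q.eval (PQR.nd (un v)))]
    rfl
  rw [h0]
  have h1 : ∀ x : ℚ, q.eval x = ∑ m ∈ Finset.range (D.length + 1), q.coeff m * x ^ m :=
    fun x => Polynomial.eval_eq_sum_range' (Nat.lt_succ_of_le hq) x
  simp only [h1, Finset.mul_sum]
  rw [Finset.sum_comm]
  have h2 : ∀ m ∈ Finset.range (D.length + 1),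
      ∑ v ∈ Finset.range (D.length + 1), W (D, (un e, un v)) * (q.coeff m * PQR.nd (un v) ^ m) =
        if e = m then q.coeff m else 0 := by
    intro m hm
    have hm' := Finset.mem_range.1 hm
    have h3 := hW2 D e m he (by omega)
    have h4 : ∑ v ∈ Finset.range (D.length + 1), W (D, (un e, un v)) * (q.coeff m * PQR.nd (un v) ^ m) =
        q.coeff m * ∑ v ∈ Finset.range (D.length + 1), W (D, (un e, un v)) * PQR.nd (un v) ^ m := by
      rw [Finset.mul_sum]
      refine Finset.sum_congr rfl fun v _ => ?_
      ring
    rw [h4]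
    have h5 : ∑ v ∈ Finset.range (D.length + 1), W (D, (un e, un v)) * PQR.nd (un v) ^ m =
        if e = m then 1 else 0 := h3
    rw [h5]
    split_ifs <;> simp
  rw [Finset.sum_congr rfl h2, Finset.sum_ite_eq, if_pos (Finset.mem_range.2 (Nat.lt_succ_of_le he))]

/-- the nodes -/
noncomputable def nd : List Bool → ℚ := exists_cx.choose

/-- the weights -/
noncomputable def Wt : List Bool × (List Bool × List Bool) → ℚ := exists_cx.choose_spec.choose

/-- coefficient extraction from the values `g v` at the nodes -/
noncomputable def cf (D e : List Bool) (g : List Bool → ℚ) : ℚ :=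
  ((pf D).map fun v => Wt (D, (un e.length, v)) * g v).sum

theorem fq_nd : FQ nd := exists_cx.choose_spec.choose_spec.1

theorem cf_poly {D e : List Bool} {q : Polynomial ℚ} (hq : q.natDegree ≤ D.length)
    (he : e.length ≤ D.length) : cf D e (fun v => q.eval (nd v)) = q.coeff e.length :=
  exists_cx.choose_spec.choose_spec.2.2 D q e.length hq he

theorem FQ.cf {α : Type} [N487b59b3 α] {D e : α → List Bool} (hD : FP D) (he : FP e)
    {g : α × List Bool → ℚ} (hg : FQ g) : FQ fun a => AAG.cf (D a) (e a) fun v => g (a, v) := by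
  have h1 : FP fun a => un (e a).length := by
    have h2 : FP fun a => (e a).map fun _ => true := FP.map (FP.const true) he
    have h3 : (fun a => un (e a).length) = fun a => (e a).map fun _ => true := by
      funext a
      exact Cx_un (e a)
    rw [h3]
    exact h2
  have h4 : FQ Wt := exists_cx.choose_spec.choose_spec.2.1
  have h5 : FP fun q : α × List Bool => (D q.1, (un (e q.1).length, q.2)) :=
    (hD.comp FP.fst).pair ((h1.comp FP.fst).pair FP.snd)
  exact FQ.lsum (FP.pf hD) ((h4.comp h5).mul hg)

end Pool.Agent.AAG
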