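import Pool.Agent.DFP.Tel

set_option autoImplicit false

/-!
# AAG: definitions, combinatorics

PROJECT AAG (MP_e767af_lc): FPRAS for the Tutte polynomial at every point `x ≥ 1`, `|y| < 1` for
almost all graphs. `t = (x - 1)(1 - y) ≥ 0`; `DFP.hub t w J s`, `DFP.F` as in `DFP/Defs.lean`
(facts without any sign condition: `DFP/Tel.lean`). The weights are `y` on edges, `1` on non-edges;
`r = 1 - p (1 - y)` is their mean.
-/

namespace Pool.Agent.AAG

open Finset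

/-- the row `s`, cut at `u`: the entries from `u` on are replaced by `1` -/
def cut (s : ℕ → ℚ) (u : ℕ) : ℕ → ℚ := fun x => if x < u then s x else 1

/-- the coefficients of the recursion `hub_rec` -/
def cc (t : ℚ) (J : Finset ℕ) (s : ℕ → ℚ) (u : ℕ) : ℚ :=
  1 - s u + if ∀ v ∈ J, u ≤ v then t else 0

/-- the next row -/
def nx (w : ℕ → ℕ → ℚ) (s : ℕ → ℚ) (u : ℕ) : ℕ → ℚ := fun x => w u x * cut s u x

/-- the next row of the homogeneous model -/
def nr (r : ℚ) (s : ℕ → ℚ) (u : ℕ) : ℕ → ℚ := fun x => r * cut s u x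

/-- the homogeneous model: all weights are `r` -/
noncomputable def U (t r : ℚ) (J : Finset ℕ) (s : ℕ → ℚ) : ℚ := DFP.hub t (fun _ _ => r) J s

/-- constant rows; `gg t r m (-1)` is the maximum `M_m`, `gg t r m |r|` the minimum `b_m` -/
noncomputable def gg (t r : ℚ) (m : ℕ) (c : ℚ) : ℚ := U t r (range m) (fun _ => c)

/-- ratio of the homogeneous model -/
noncomputable def rt (t r : ℚ) (J : Finset ℕ) (s : ℕ → ℚ) (u : ℕ) : ℚ :=
  U t r (J.erase u) (nr r s u) / U t r J s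

/-- symmetric -/
def Sy (w : ℕ → ℕ → ℚ) : Prop := ∀ x y, w x y = w y x

/-- entries in `[-1, 1]` -/
def Bd1 (J : Finset ℕ) (s : ℕ → ℚ) : Prop := ∀ x ∈ J, |s x| ≤ 1

/-- active vertices -/
def act (y : ℚ) (J : Finset ℕ) (s : ℕ → ℚ) : Finset ℕ := J.filter fun x => |s x| ≤ |y|

/-- good states: many active vertices -/
def Good (y : ℚ) (q0 : ℕ) (J : Finset ℕ) (s : ℕ → ℚ) : Prop := J.card ≤ q0 * (act y J s).card

/-- every vertex which is not active has an active neighbour -/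
def Cond (y : ℚ) (w : ℕ → ℕ → ℚ) (J : Finset ℕ) (s : ℕ → ℚ) : Prop :=
  ∀ x ∈ J, x ∉ act y J s → ∃ a ∈ act y J s, w a x = y

open Classical in
/-- the functionals `H` (`e = 0`), `P` (`e = 1`), `N` (`e = 2`) after `n` steps -/
noncomputable def gf (t r y : ℚ) (q0 e : ℕ) (w : ℕ → ℕ → ℚ) : ℕ → Finset ℕ → (ℕ → ℚ) → ℚ
  | 0, J, s => if Good y q0 J s ∧ Cond y w J s then 1 else 0
  | n + 1, J, s => if Good y q0 J s then
      ∑ u ∈ J, cc t J s u * rt t r J s u ^ e * gf t r y q0 e w n (J.erase u) (nx w s u) else 0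

/-- the second moment of the ideal sampler, `n = |J|` steps -/
noncomputable def S2 (t r : ℚ) (w : ℕ → ℕ → ℚ) : ℕ → Finset ℕ → (ℕ → ℚ) → ℚ
  | 0, _, _ => 1
  | n + 1, J, s => ∑ u ∈ J, cc t J s u / rt t r J s u * S2 t r w n (J.erase u) (nx w s u)

/-! ## Random graphs -/

/-- expectation over random subsets of `I`, each element with probability `p` -/
noncomputable def EP {ι : Type} [DecidableEq ι] (p : ℚ) (I : Finset ι) (f : Finset ι → ℚ) : ℚ :=
  ∑ A ∈ I.powerset, p ^ A.card * (1 - p) ^ (I \ A).card * f A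

/-- the pairs `(a, b)`, `a < b`, in `J` -/
def prs (J : Finset ℕ) : Finset (ℕ × ℕ) := (J ×ˢ J).filter fun e => e.1 < e.2

/-- the pair of `u` and `x` -/
def pr (u x : ℕ) : ℕ × ℕ := (min u x, max u x)

/-- weights of the graph with edge set `A` -/
def wA (y : ℚ) (A : Finset (ℕ × ℕ)) (u v : ℕ) : ℚ := if pr u v ∈ A then y else 1

/-- a row with neighbourhood `R` -/
def yR (y : ℚ) (R : Finset ℕ) (x : ℕ) : ℚ := if x ∈ R then y else 1

/-- conditions on the parameters -/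
structure Hyp (t r y p : ℚ) : Prop where
  ht : 0 ≤ t
  hy0 : -1 < y
  hy1 : y < 1
  hp0 : 0 < p
  hp1 : p < 1
  hr : r = 1 - p * (1 - y)

/-- constants for the homogeneous model -/
structure HB (t r C : ℚ) : Prop where
  hC : 1 ≤ C
  pos : ∀ m : ℕ, 0 < gg t r m |r|
  hMb : ∀ m : ℕ, gg t r m (-1) ≤ C * gg t r m |r|
  hM : ∀ m : ℕ, (m + 1) * gg t r m (-1) ≤ C * gg t r (m + 1) |r|
  hG : ∀ m : ℕ, gg t r (m + 1) (-1) ≤ C * ((m + 1) * gg t r m |r|)

/-- `∏ (1 + D / k)` -/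
def Kp (D : ℚ) : ℕ → ℚ
  | 0 => 1
  | m + 1 => Kp D m * (1 + D / m)

/-- the constant of `row_inv` -/
def Ki (C y : ℚ) (q0 : ℕ) : ℚ := (1 + C * q0 / (1 - |y|)) * C ^ 2

/-- bound for the base of `ep_gf1` -/
def om (p : ℚ) (q0 l : ℕ) : ℚ := l * (1 - p) ^ (l / q0)

theorem Hyp.r_lt {t r y p : ℚ} (h : Hyp t r y p) : |r| < 1 := by
  obtain ⟨-, h1, h2, h3, h4, h5⟩ := h
  rw [h5, abs_lt]
  constructor <;> nlinarith

theorem Hyp.y_lt {t r y p : ℚ} (h : Hyp t r y p) : |y| < 1 := abs_lt.2 ⟨h.hy0, h.hy1⟩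

theorem nx_const (r : ℚ) (s : ℕ → ℚ) (u : ℕ) : nx (fun _ _ => r) s u = nr r s u := rfl

theorem U_congr (t r : ℚ) {J : Finset ℕ} {s s' : ℕ → ℚ} (h : ∀ x ∈ J, s x = s' x) :
    U t r J s = U t r J s' := DFP.hub_congr t _ h

theorem U_empty (t r : ℚ) (s : ℕ → ℚ) : U t r ∅ s = 1 := by
  simp [U, DFP.hub, DFP.WW, DFP.F, DFP.FN]

end Pool.Agent.AAG
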