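import Pool.Agent.AAG.Defs

set_option autoImplicit false

/-!
# AAG-EPa: expectations over random subsets

Basic rules for `EP p I f`: recursion on `I`, linearity, monotonicity, Fubini, Markov, products.
-/

namespace Pool.Agent.AAG

open Finset

section

variable {ι κ : Type} [DecidableEq ι] [DecidableEq κ] {p : ℚ}

theorem EP_empty (f : Finset ι → ℚ) : EP p ∅ f = f ∅ := by
  simp [EP]

theorem EP_insert {i : ι} {I : Finset ι} (hi : i ∉ I) (f : Finset ι → ℚ) :
    EP p (insert i I) f = p * EP p I (fun A => f (insert i A)) + (1 - p) * EP p I f := by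
  unfold EP
  rw [Finset.sum_powerset_insert hi, add_comm, Finset.mul_sum, Finset.mul_sum]
  congr 1
  · refine Finset.sum_congr rfl fun A hA => ?_
    have hAI : A ⊆ I := Finset.mem_powerset.1 hA
    have hiA : i ∉ A := fun h => hi (hAI h)
    have h1 : insert i I \ insert i A = I \ A := by
      ext x
      simp only [Finset.mem_sdiff, Finset.mem_insert, not_or]
      constructor
      · rintro ⟨h2 | h2, h3, h4⟩
        · exact absurd h2 h3
        · exact ⟨h2, h4⟩
      · rintro ⟨h2, h3⟩
        refine ⟨Or.inr h2, ?_, h3⟩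
        intro h4
        rw [h4] at h2
        exact hi h2
    rw [h1, Finset.card_insert_of_notMem hiA, pow_succ]
    ring
  · refine Finset.sum_congr rfl fun A hA => ?_
    have hAI : A ⊆ I := Finset.mem_powerset.1 hA
    have hiA : i ∉ A := fun h => hi (hAI h)
    have h1 : insert i I \ A = insert i (I \ A) := Finset.insert_sdiff_of_notMem I hiA
    have h2 : i ∉ I \ A := fun h => hi (Finset.mem_sdiff.1 h).1
    rw [h1, Finset.card_insert_of_notMem h2, pow_succ]
    ring

theorem EP_const (p : ℚ) (I : Finset ι) (c : ℚ) : EP p I (fun _ => c) = c := by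
  induction I using Finset.induction_on with
  | empty => exact EP_empty _
  | insert i I hi ih =>
    rw [EP_insert hi, ih]
    ring

theorem EP_add (p : ℚ) (I : Finset ι) (f g : Finset ι → ℚ) :
    EP p I (fun A => f A + g A) = EP p I f + EP p I g := by
  unfold EP
  rw [← Finset.sum_add_distrib]
  exact Finset.sum_congr rfl fun A _ => by ring

theorem EP_sub (p : ℚ) (I : Finset ι) (f g : Finset ι → ℚ) :
    EP p I (fun A => f A - g A) = EP p I f - EP p I g := by
  unfold EP
  rw [← Finset.sum_sub_distrib]
  exact Finset.sum_congr rfl fun A _ => by ring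

theorem EP_mul (p : ℚ) (I : Finset ι) (c : ℚ) (f : Finset ι → ℚ) :
    EP p I (fun A => c * f A) = c * EP p I f := by
  unfold EP
  rw [Finset.mul_sum]
  exact Finset.sum_congr rfl fun A _ => by ring

theorem EP_sum {α : Type} (p : ℚ) (I : Finset ι) (S : Finset α) (f : α → Finset ι → ℚ) :
    EP p I (fun A => ∑ a ∈ S, f a A) = ∑ a ∈ S, EP p I (f a) := by
  unfold EP
  rw [Finset.sum_comm]
  exact Finset.sum_congr rfl fun A _ => by rw [Finset.mul_sum]

theorem EP_congr {I : Finset ι} {f g : Finset ι → ℚ} (h : ∀ A, A ⊆ I → f A = g A) :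
    EP p I f = EP p I g := by
  unfold EP
  exact Finset.sum_congr rfl fun A hA => by rw [h A (Finset.mem_powerset.1 hA)]

theorem EP_mono (h0 : 0 ≤ p) (h1 : p ≤ 1) {I : Finset ι} {f g : Finset ι → ℚ}
    (h : ∀ A, A ⊆ I → f A ≤ g A) : EP p I f ≤ EP p I g := by
  unfold EP
  refine Finset.sum_le_sum fun A hA => ?_
  have h2 : 0 ≤ 1 - p := by linarith
  exact mul_le_mul_of_nonneg_left (h A (Finset.mem_powerset.1 hA)) (by positivity)

theorem EP_nonneg (h0 : 0 ≤ p) (h1 : p ≤ 1) {I : Finset ι} {f : Finset ι → ℚ}
    (h : ∀ A, A ⊆ I → 0 ≤ f A) : 0 ≤ EP p I f := by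
  have h2 := EP_mono h0 h1 (I := I) (f := fun _ => 0) (g := f) h
  rwa [EP_const] at h2

theorem EP_union {I I' : Finset ι} (h : Disjoint I I') (f : Finset ι → ℚ) :
    EP p (I ∪ I') f = EP p I (fun A => EP p I' (fun A' => f (A ∪ A'))) := by
  induction I' using Finset.induction_on generalizing f with
  | empty =>
    rw [Finset.union_empty]
    refine EP_congr fun A _ => ?_
    rw [EP_empty, Finset.union_empty]
  | insert i I' hi ih =>
    have hd := Finset.disjoint_insert_right.1 h
    have h1 : i ∉ I ∪ I' := by
      rw [Finset.mem_union, not_or]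
      exact ⟨hd.1, hi⟩
    rw [Finset.union_insert, EP_insert h1, ih hd.2, ih hd.2, ← EP_mul, ← EP_mul, ← EP_add]
    refine EP_congr fun A _ => ?_
    rw [EP_insert hi]
    simp only [Finset.union_insert]

theorem EP_image {I : Finset κ} (g : κ → ι) (hg : Set.InjOn g I) (f : Finset ι → ℚ) :
    EP p (I.image g) f = EP p I (fun A => f (A.image g)) := by
  induction I using Finset.induction_on generalizing f with
  | empty => rw [Finset.image_empty, EP_empty, EP_empty, Finset.image_empty]
  | insert i I hi ih =>
    have hg' : Set.InjOn g I := hg.mono (by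
      rw [Finset.coe_insert]
      exact Set.subset_insert _ _)
    have h1 : g i ∉ I.image g := by
      intro h
      obtain ⟨k, hk, hk'⟩ := Finset.mem_image.1 h
      have h2 : k = i := hg (Finset.mem_coe.2 (Finset.mem_insert_of_mem hk))
        (Finset.mem_coe.2 (Finset.mem_insert_self i I)) hk'
      rw [h2] at hk
      exact hi hk
    rw [Finset.image_insert, EP_insert h1, EP_insert hi, ih hg', ih hg']
    simp only [Finset.image_insert]

theorem EP_comm {I : Finset ι} {K : Finset κ} (f : Finset ι → Finset κ → ℚ) :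
    EP p I (fun A => EP p K (f A)) = EP p K (fun B => EP p I (fun A => f A B)) := by
  unfold EP
  simp only [Finset.mul_sum]
  rw [Finset.sum_comm]
  exact Finset.sum_congr rfl fun B _ => Finset.sum_congr rfl fun A _ => by ring

theorem EP_markov (h0 : 0 ≤ p) (h1 : p ≤ 1) {I : Finset ι} {f : Finset ι → ℚ} {a : ℚ}
    (ha : 0 < a) (hf : ∀ A, A ⊆ I → 0 ≤ f A) :
    EP p I (fun A => if a ≤ f A then 1 else 0) ≤ EP p I f / a := by
  have h2 : EP p I f / a = EP p I (fun A => a⁻¹ * f A) := by
    rw [EP_mul, div_eq_mul_inv, mul_comm]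
  rw [h2]
  refine EP_mono h0 h1 fun A hA => ?_
  rw [inv_mul_eq_div]
  split_ifs with h3
  · exact (one_le_div ha).2 h3
  · exact div_nonneg (hf A hA) ha.le

theorem EP_prod (p : ℚ) (I : Finset ι) (a b : ι → ℚ) :
    EP p I (fun A => ∏ i ∈ I, if i ∈ A then a i else b i) = ∏ i ∈ I, (p * a i + (1 - p) * b i) := by
  induction I using Finset.induction_on with
  | empty => rw [EP_empty, Finset.prod_empty, Finset.prod_empty]
  | insert i I hi ih =>
    have h1 : EP p I (fun A => ∏ j ∈ insert i I, if j ∈ insert i A then a j else b j) =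
        a i * EP p I (fun A => ∏ j ∈ I, if j ∈ A then a j else b j) := by
      rw [← EP_mul]
      refine EP_congr fun A _ => ?_
      rw [Finset.prod_insert hi, if_pos (Finset.mem_insert_self i A)]
      congr 1
      refine Finset.prod_congr rfl fun j hj => ?_
      have h2 : j ≠ i := by
        intro h
        rw [h] at hj
        exact hi hj
      have h3 : j ∈ insert i A ↔ j ∈ A := by
        rw [Finset.mem_insert]
        exact or_iff_right h2
      simp only [h3]
    have h4 : EP p I (fun A => ∏ j ∈ insert i I, if j ∈ A then a j else b j) =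
        b i * EP p I (fun A => ∏ j ∈ I, if j ∈ A then a j else b j) := by
      rw [← EP_mul]
      refine EP_congr fun A hA => ?_
      rw [Finset.prod_insert hi, if_neg (fun h => hi (hA h))]
    rw [EP_insert hi, h1, h4, Finset.prod_insert hi, ih]
    ring

/-- the probability of avoiding `B` -/
theorem EP_avoid {I B : Finset ι} (hB : B ⊆ I) :
    EP p I (fun A => if Disjoint B A then 1 else 0) = (1 - p) ^ B.card := by
  have h1 : EP p I (fun A => if Disjoint B A then 1 else 0) =
      EP p I (fun A => ∏ i ∈ I, if i ∈ A then (if i ∈ B then (0 : ℚ) else 1) else 1) := by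
    refine EP_congr fun A hA => ?_
    by_cases h : Disjoint B A
    · rw [if_pos h]
      symm
      refine Finset.prod_eq_one fun i _ => ?_
      split_ifs with h2 h3
      · exact absurd h2 (Finset.disjoint_left.1 h h3)
      · rfl
      · rfl
    · rw [if_neg h]
      obtain ⟨i, hiB, hiA⟩ := Finset.not_disjoint_iff.1 h
      symm
      refine Finset.prod_eq_zero (hB hiB) ?_
      rw [if_pos hiA, if_pos hiB]
  rw [h1, EP_prod]
  have h2 : ∀ i ∈ I, p * (if i ∈ B then (0 : ℚ) else 1) + (1 - p) * 1 = if i ∈ B then 1 - p else 1 := by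
    intro i _
    split_ifs
    · ring
    · ring
  rw [Finset.prod_congr rfl h2, Finset.prod_ite_mem, Finset.inter_eq_right.2 hB, Finset.prod_const]

end

end Pool.Agent.AAG
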