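import Pool.Agent.PQE.Num
import Pool.Agent.PQR.Interp
import Pool.Agent.Helper47.TR.AP

set_option autoImplicit false

/-!
# AAG-FQa: tools for rational functions in polynomial time (`Helper6/SP/FQ.lean`)

PLAN. `FQ.lt`: with the elements `F`, `G` of `f`, `g` (`El = (ℕ × ℕ) × ℕ`, `toQ e = (e.1.1 - e.1.2)/e.2`):
`f a < g a ↔ F.1.1 * G.2 + G.1.2 * F.2 < G.1.1 * F.2 + F.1.2 * G.2` (denominators positive),
`FP.natLe` (Helper47/TR/FPx) with `+ 1`, or `FQ.sub` first. `FQ.toZ`: `((F.1.1 : ℤ) - F.1.2, F.2)`; the integer by `FP.recode` from the pair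
`(F.1.1 - F.1.2, F.1.2 - F.1.1)` of natural subtractions (`PQE.FP.natSub`), as in `Helper47/TR/FPx.lean`
(`FP.intPos`) and `AP.lean` (`FP.intMul`).
`FP.pf`: `pf n = [un 0, …, un n.length]`, `un k` for `k ≤ n.length`; `(List.range (true :: n).length).map`
with the function `(n, i) ↦ un (min i n.length)` as in the private `fp_unn` of `PQR/Interp.lean` (copy it).
`FQ.lsum`, `FQ.lprod`: from `FQ.listSum`, `FQ.listProd` (see `PQE/PolF.lean`). `FQ.powU`, `FQ.factU`: `PQ/FQx.lean`
(copies with `List Bool`; `PQ.Un = List Bool`). `FQ.div`: `PQE.FQ.div`.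
-/

namespace Pool.Agent.AAG

open N487b59b3 N68a2faeb Pool.Agent.Helper22 Pool.Agent.Helper6.WB Pool.Agent.Helper6.SP

section

variable {α β : Type} [N487b59b3 α] [N487b59b3 β]

private theorem FQa_lt (e d : El) (he : e.2 ≠ 0) (hd : d.2 ≠ 0) :
    toQ e < toQ d ↔ e.1.1 * d.2 + d.1.2 * e.2 + 1 ≤ d.1.1 * e.2 + e.1.2 * d.2 := by
  have h1 : (0 : ℚ) < (e.2 : ℚ) := by exact_mod_cast Nat.pos_of_ne_zero he
  have h2 : (0 : ℚ) < (d.2 : ℚ) := by exact_mod_cast Nat.pos_of_ne_zero hd
  unfold toQ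
  rw [div_lt_div_iff₀ h1 h2, Nat.add_one_le_iff]
  constructor
  · intro h
    have h3 : ((e.1.1 * d.2 + d.1.2 * e.2 : ℕ) : ℚ) < ((d.1.1 * e.2 + e.1.2 * d.2 : ℕ) : ℚ) := by
      push_cast
      linarith
    exact_mod_cast h3
  · intro h
    have h3 : ((e.1.1 * d.2 + d.1.2 * e.2 : ℕ) : ℚ) < ((d.1.1 * e.2 + e.1.2 * d.2 : ℕ) : ℚ) := by
      exact_mod_cast h
    push_cast at h3
    linarith

theorem FQ.lt {f g : α → ℚ} (hf : FQ f) (hg : FQ g) : FP fun a => decide (f a < g a) := by
  obtain ⟨F, h1, h2, h3⟩ := hf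
  obtain ⟨G, h4, h5, h6⟩ := hg
  have h7 : FP fun a => (F a).1.1 * (G a).2 + (G a).1.2 * (F a).2 + 1 :=
    FP.natAdd (FP.natAdd (FP.natMul h1.fst'.fst' h4.snd') (FP.natMul h4.fst'.snd' h1.snd'))
      (FP.const 1)
  have h8 : FP fun a => (G a).1.1 * (F a).2 + (F a).1.2 * (G a).2 :=
    FP.natAdd (FP.natMul h4.fst'.fst' h1.snd') (FP.natMul h1.fst'.snd' h4.snd')
  have h9 := Pool.Agent.Helper47.TR.FP.natLe h7 h8
  refine (congrArg FP (funext fun a => ?_)).mp h9
  rw [← h3, ← h6]
  exact decide_eq_decide.mpr (FQa_lt (F a) (G a) (h2 a) (h5 a)).symm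

theorem FQ.toZ {f : α → ℚ} (hf : FQ f) : ∃ A : α → ℤ × ℕ, FP A ∧ (∀ a, (A a).2 ≠ 0) ∧
    ∀ a, ((A a).1 : ℚ) / ((A a).2 : ℚ) = f a := by
  obtain ⟨F, h1, h2, h3⟩ := hf
  have h4 : FP fun a => (((F a).1.1 - (F a).1.2, (F a).1.2 - (F a).1.1), (F a).2) :=
    FP.pair (FP.pair (PQE.FP.natSub h1.fst'.fst' h1.fst'.snd')
      (PQE.FP.natSub h1.fst'.snd' h1.fst'.fst')) h1.snd'
  have h5 : FP fun a => (((F a).1.1 : ℤ) - ((F a).1.2 : ℤ)) := by
    refine FP.recode h4.fst' (fun a => ?_)
    show bitEncode ((((F a).1.1 : ℤ) - ((F a).1.2 : ℤ)).toNat,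
      (-(((F a).1.1 : ℤ) - ((F a).1.2 : ℤ))).toNat) = _
    congr 1
    ext
    · simp only
      omega
    · simp only
      omega
  refine ⟨fun a => (((F a).1.1 : ℤ) - ((F a).1.2 : ℤ), (F a).2), FP.pair h5 h4.snd',
    h2, fun a => ?_⟩
  rw [← h3 a]
  simp only [toQ]
  push_cast
  rfl

theorem FQ.div {f g : α → ℚ} (hf : FQ f) (hg : FQ g) : FQ fun a => f a / g a :=
  PQE.FQ.div hf hg

theorem FQ.lsum [Inhabited β] {l : α → List β} {g : α × β → ℚ} (hl : FP l) (hg : FQ g) :
    FQ fun a => ((l a).map fun b => g (a, b)).sum :=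
  (FQ.listSum hg).comp (FP.id.pair hl)

theorem FQ.lprod [Inhabited β] {l : α → List β} {g : α × β → ℚ} (hl : FP l) (hg : FQ g) :
    FQ fun a => ((l a).map fun b => g (a, b)).prod :=
  (FQ.listProd hg).comp (FP.id.pair hl)

theorem FQ.powU {f : α → ℚ} {g : α → List Bool} (hf : FQ f) (hg : FP g) :
    FQ fun a => f a ^ (g a).length :=
  PQ.FQ.powU hf hg

theorem FQ.factU {f : α → List Bool} (hf : FP f) : FQ fun a => ((f a).length.factorial : ℚ) :=
  PQ.FQ.factU hf

theorem FQ.lenU {f : α → List Bool} (hf : FP f) : FQ fun a => ((f a).length : ℚ) :=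
  FQ.ofNat (Pool.Agent.Helper47.TR.FP.length hf)

private theorem FQa_rep (n i : ℕ) (hi : i ≤ n) :
    ((List.range n).flatMap fun j => if decide (j + 1 ≤ i) then [true] else []) = un i := by
  obtain ⟨k, rfl⟩ := Nat.exists_eq_add_of_le hi
  clear hi
  unfold un
  rw [List.range_add, List.flatMap_append]
  have h1 : ((List.map (fun x => i + x) (List.range k)).flatMap fun j =>
      if decide (j + 1 ≤ i) then [true] else []) = [] := by
    rw [List.flatMap_eq_nil_iff]
    intro x hx
    obtain ⟨y, _, rfl⟩ := List.mem_map.mp hx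
    rw [if_neg]
    simp only [decide_eq_true_eq]
    omega
  rw [h1, List.append_nil]
  have h2 : ((List.range i).flatMap fun j => if decide (j + 1 ≤ i) then [true] else []) =
      (List.range i).flatMap fun _ => [true] := by
    apply List.flatMap_congr
    intro j hj
    rw [List.mem_range] at hj
    rw [if_pos]
    simp only [decide_eq_true_eq]
    omega
  rw [h2]
  clear h1 h2 k
  induction i with
  | zero => rfl
  | succ i ih =>
    rw [List.range_succ, List.flatMap_append, ih, List.replicate_succ']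
    rfl

private theorem FQa_un {f : α → ℕ} {g : α → List Bool} (hf : FP f) (hg : FP g) :
    FP fun a => (List.range (g a).length).flatMap fun j =>
      if decide (j + 1 ≤ f a) then [true] else [] := by
  have h1 : FP fun q : α × ℕ => if decide (q.2 + 1 ≤ f q.1) then [true] else [] :=
    FP.ite (Pool.Agent.Helper47.TR.FP.natLe (FP.natAdd FP.snd (FP.const 1)) (hf.comp FP.fst))
      (FP.const [true]) (FP.const [])
  exact fp_flatMap (f := fun a => List.range (g a).length) (FP.range hg) h1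

/-- the unary numbers `0, …, n.length` -/
def pf (n : List Bool) : List (List Bool) := (List.range (n.length + 1)).map un

/-- the unary numbers `0, …, n.length - 1` -/
def pf0 (n : List Bool) : List (List Bool) := (List.range n.length).map un

private theorem FQa_pf {f g : α → List Bool} (hf : FP f) (hg : FP g) :
    FP fun a => (List.range (g a).length).map fun i =>
      (List.range (f a).length).flatMap fun j => if decide (j + 1 ≤ i) then [true] else [] := by
  have h1 : FP fun q : (List Bool × List Bool) × ℕ =>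
      (List.range q.1.1.length).flatMap fun j => if decide (j + 1 ≤ q.2) then [true] else [] :=
    FQa_un FP.snd FP.fst.fst'
  have h2 := (FP.map_ctx h1).comp ((hf.pair hg).pair (FP.range hg))
  exact h2

theorem FP.pf {f : α → List Bool} (hf : FP f) : FP fun a => AAG.pf (f a) := by
  have h1 := FQa_pf hf (FP.cons (FP.const true) hf)
  refine (congrArg FP (funext fun a => ?_)).mp h1
  unfold AAG.pf
  rw [List.length_cons]
  apply List.map_congr_left
  intro i hi
  rw [List.mem_range] at hi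
  exact FQa_rep _ _ (by omega)

theorem FP.pf0 {f : α → List Bool} (hf : FP f) : FP fun a => AAG.pf0 (f a) := by
  have h1 := FQa_pf hf hf
  refine (congrArg FP (funext fun a => ?_)).mp h1
  unfold AAG.pf0
  apply List.map_congr_left
  intro i hi
  rw [List.mem_range] at hi
  exact FQa_rep _ _ (by omega)

end

end Pool.Agent.AAG
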