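import Pool.Agent.AAG.Stmt
import Pool.Agent.AAG.EPg
import Pool.Agent.DFP.TutG

set_option autoImplicit false

/-!
# AAG-Gnp: simple graphs and sets of pairs

PLAN. `EG H` is the set of the pairs `(i, j)`, `i < j`, with `H.Adj i j`. `H ↦ EG H` is a bijection from `SimpleGraph (Fin n)` to
`(prs (range n)).powerset` (inverse: `Adj i j := pr i j ∈ A`; `pr = (min, max)`), `Finset.sum_bij'` or `Finset.sum_nbij'`.
`H.edgeSet.ncard = (EG H).card` (the map `e ↦ s(e.1, e.2)` from `EG H`: `Set.ncard_eq_toFinset_card'`,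
`Finset.card_bij`/`Set.ncard_congr`) and `Hᶜ.edgeSet.ncard = (prs (range n) \ EG H).card` (`EG Hᶜ = prs (range n) \ EG H`).
`wG_rep`: `mul G u v = DFP.mult G.2 u v` (`DFP.mult = (multL ..).length`, see `mul_eq` in
`Pool/Agent/Results/MP_e767af_lc/DenseFPRAS.lean`), so `wG y G.2 a b = y ^ mul G a b` is `y` for adjacent, `1` for nonadjacent vertices
(for `a = b`: not adjacent).
`lps_rep`: no loops.
-/

namespace Pool.Agent.AAG

open Finset

open Pool.Agent.Helper47.TR (MG)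

open Classical in
/-- the pairs of a simple graph -/
noncomputable def EG {n : ℕ} (H : SimpleGraph (Fin n)) : Finset (ℕ × ℕ) :=
  (prs (range n)).filter fun e => ∃ i j : Fin n, H.Adj i j ∧ e = ((i : ℕ), (j : ℕ))

theorem EG_sub {n : ℕ} (H : SimpleGraph (Fin n)) : EG H ⊆ prs (range n) := by
  classical
  exact Finset.filter_subset _ _

private theorem Gnp_mem_prs {n : ℕ} {e : ℕ × ℕ} : e ∈ prs (range n) ↔ e.2 < n ∧ e.1 < e.2 := by
  unfold prs
  rw [Finset.mem_filter, Finset.mem_product, Finset.mem_range, Finset.mem_range]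
  constructor
  · rintro ⟨⟨-, h1⟩, h2⟩
    exact ⟨h1, h2⟩
  · rintro ⟨h1, h2⟩
    exact ⟨⟨by omega, h1⟩, h2⟩

private theorem Gnp_mem {n : ℕ} (H : SimpleGraph (Fin n)) {a b : ℕ} (ha : a < n) (hb : b < n) (hab : a < b) :
    (a, b) ∈ EG H ↔ H.Adj ⟨a, ha⟩ ⟨b, hb⟩ := by
  classical
  unfold EG
  rw [Finset.mem_filter]
  constructor
  · rintro ⟨-, i, j, h, he⟩
    obtain ⟨h1, h2⟩ := Prod.mk.inj he
    have e1 : (⟨a, ha⟩ : Fin n) = i := Fin.ext h1
    have e2 : (⟨b, hb⟩ : Fin n) = j := Fin.ext h2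
    rw [e1, e2]
    exact h
  · intro h
    exact ⟨Gnp_mem_prs.2 ⟨hb, hab⟩, _, _, h, rfl⟩

private theorem Gnp_pr_comm (a b : ℕ) : pr a b = pr b a := by
  unfold pr
  rw [min_comm, max_comm]

private theorem Gnp_pr {n : ℕ} (H : SimpleGraph (Fin n)) {a b : ℕ} (ha : a < n) (hb : b < n) :
    pr a b ∈ EG H ↔ H.Adj ⟨a, ha⟩ ⟨b, hb⟩ := by
  rcases lt_trichotomy a b with h | h | h
  · have e : pr a b = (a, b) := by
      unfold pr
      rw [min_eq_left h.le, max_eq_right h.le]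
    rw [e]
    exact Gnp_mem H ha hb h
  · subst h
    have e : pr a a = (a, a) := by
      unfold pr
      rw [min_self, max_self]
    rw [e]
    constructor
    · intro h
      have := (Gnp_mem_prs.1 (EG_sub H h)).2
      exact (lt_irrefl _ this).elim
    · intro h
      exact (H.loopless.irrefl _ h).elim
  · have e : pr a b = (b, a) := by
      unfold pr
      rw [min_eq_right h.le, max_eq_left h.le]
    rw [e, Gnp_mem H hb ha h]
    exact ⟨fun h => h.symm, fun h => h.symm⟩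

/-- the pair of an unordered pair -/
private def Gnp_g (n : ℕ) : Sym2 (Fin n) → ℕ × ℕ :=
  Sym2.lift ⟨fun a b => pr (a : ℕ) (b : ℕ), fun _ _ => Gnp_pr_comm _ _⟩

private theorem Gnp_g_inj (n : ℕ) : Function.Injective (Gnp_g n) := by
  intro z z'
  induction z using Sym2.ind with
  | _ a b =>
    induction z' using Sym2.ind with
    | _ c d =>
      intro h
      have h' : pr (a : ℕ) (b : ℕ) = pr (c : ℕ) (d : ℕ) := h
      unfold pr at h'
      obtain ⟨h1, h2⟩ := Prod.mk.inj h'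
      rw [Sym2.eq_iff]
      rcases le_total (a : ℕ) b with h3 | h3 <;> rcases le_total (c : ℕ) d with h4 | h4
      · rw [min_eq_left h3, min_eq_left h4] at h1
        rw [max_eq_right h3, max_eq_right h4] at h2
        exact Or.inl ⟨Fin.ext h1, Fin.ext h2⟩
      · rw [min_eq_left h3, min_eq_right h4] at h1
        rw [max_eq_right h3, max_eq_left h4] at h2
        exact Or.inr ⟨Fin.ext h1, Fin.ext h2⟩
      · rw [min_eq_right h3, min_eq_left h4] at h1
        rw [max_eq_left h3, max_eq_right h4] at h2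
        exact Or.inr ⟨Fin.ext h2, Fin.ext h1⟩
      · rw [min_eq_right h3, min_eq_right h4] at h1
        rw [max_eq_left h3, max_eq_left h4] at h2
        exact Or.inl ⟨Fin.ext h2, Fin.ext h1⟩

private theorem Gnp_card {n : ℕ} (H : SimpleGraph (Fin n)) : H.edgeSet.ncard = (EG H).card := by
  have h : ((EG H : Finset (ℕ × ℕ)) : Set (ℕ × ℕ)) = Gnp_g n '' H.edgeSet := by
    ext e
    rw [Finset.mem_coe, Set.mem_image]
    constructor
    · intro he
      obtain ⟨a, b⟩ := e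
      obtain ⟨h1, h2⟩ := Gnp_mem_prs.1 (EG_sub H he)
      simp only at h1 h2
      have h3 : a < n := by omega
      refine ⟨s((⟨a, h3⟩ : Fin n), ⟨b, h1⟩), ?_, ?_⟩
      · rw [SimpleGraph.mem_edgeSet]
        exact (Gnp_mem H h3 h1 h2).1 he
      · show pr a b = (a, b)
        unfold pr
        rw [min_eq_left h2.le, max_eq_right h2.le]
    · rintro ⟨z, hz, rfl⟩
      induction z using Sym2.ind with
      | _ a b =>
        rw [SimpleGraph.mem_edgeSet] at hz
        exact (Gnp_pr H a.2 b.2).2 hz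
  rw [← Set.ncard_coe_finset, h, Set.ncard_image_of_injective _ (Gnp_g_inj n)]

private theorem Gnp_compl {n : ℕ} (H : SimpleGraph (Fin n)) : EG Hᶜ = prs (range n) \ EG H := by
  ext e
  rw [Finset.mem_sdiff]
  constructor
  · intro he
    refine ⟨EG_sub _ he, fun h => ?_⟩
    obtain ⟨a, b⟩ := e
    obtain ⟨h1, h2⟩ := Gnp_mem_prs.1 (EG_sub _ he)
    simp only at h1 h2
    have h3 : a < n := by omega
    rw [Gnp_mem H h3 h1 h2] at h
    rw [Gnp_mem Hᶜ h3 h1 h2, SimpleGraph.compl_adj] at he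
    exact he.2 h
  · rintro ⟨he, h⟩
    obtain ⟨a, b⟩ := e
    obtain ⟨h1, h2⟩ := Gnp_mem_prs.1 he
    simp only at h1 h2
    have h3 : a < n := by omega
    rw [Gnp_mem H h3 h1 h2] at h
    rw [Gnp_mem Hᶜ h3 h1 h2, SimpleGraph.compl_adj]
    refine ⟨fun h4 => ?_, h⟩
    have := Fin.mk.inj h4
    omega

/-- the graph of a set of pairs -/
private def Gnp_GE (n : ℕ) (A : Finset (ℕ × ℕ)) : SimpleGraph (Fin n) where
  Adj i j := i ≠ j ∧ pr (i : ℕ) (j : ℕ) ∈ A
  symm := ⟨fun i j h => ⟨h.1.symm, by rw [Gnp_pr_comm]; exact h.2⟩⟩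
  loopless := ⟨fun i h => h.1 rfl⟩

private theorem Gnp_GE_adj {n : ℕ} {A : Finset (ℕ × ℕ)} {i j : Fin n} :
    (Gnp_GE n A).Adj i j ↔ i ≠ j ∧ pr (i : ℕ) (j : ℕ) ∈ A := Iff.rfl

private theorem Gnp_EG_GE {n : ℕ} {A : Finset (ℕ × ℕ)} (hA : A ⊆ prs (range n)) : EG (Gnp_GE n A) = A := by
  ext e
  obtain ⟨a, b⟩ := e
  constructor
  · intro he
    obtain ⟨h1, h2⟩ := Gnp_mem_prs.1 (EG_sub _ he)
    simp only at h1 h2
    have h3 : a < n := by omega
    rw [Gnp_mem _ h3 h1 h2, Gnp_GE_adj] at he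
    have h4 : pr a b ∈ A := he.2
    unfold pr at h4
    rwa [min_eq_left h2.le, max_eq_right h2.le] at h4
  · intro he
    obtain ⟨h1, h2⟩ := Gnp_mem_prs.1 (hA he)
    simp only at h1 h2
    have h3 : a < n := by omega
    rw [Gnp_mem _ h3 h1 h2, Gnp_GE_adj]
    refine ⟨fun h4 => ?_, ?_⟩
    · have := Fin.mk.inj h4
      omega
    · show pr a b ∈ A
      unfold pr
      rwa [min_eq_left h2.le, max_eq_right h2.le]

private theorem Gnp_GE_EG {n : ℕ} (H : SimpleGraph (Fin n)) : Gnp_GE n (EG H) = H := by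
  ext i j
  constructor
  · intro h
    exact (Gnp_pr H i.2 j.2).1 (Gnp_GE_adj.1 h).2
  · intro h
    exact Gnp_GE_adj.2 ⟨h.ne, (Gnp_pr H i.2 j.2).2 h⟩

open Classical in
theorem prob_eq (p : ℚ) (n : ℕ) (G : Finset (ℕ × ℕ) → Prop) :
    prob p n {H | G (EG H)} = EP p (prs (range n)) (fun A => if G A then 1 else 0) := by
  unfold prob EP
  refine Finset.sum_bij' (fun H _ => EG H) (fun A _ => Gnp_GE n A) ?_ ?_ ?_ ?_ ?_
  · intro H _
    exact Finset.mem_powerset.2 (EG_sub H)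
  · intro A _
    exact Finset.mem_univ _
  · intro H _
    exact Gnp_GE_EG H
  · intro A hA
    exact Gnp_EG_GE (Finset.mem_powerset.1 hA)
  · intro H _
    rw [Gnp_card, Gnp_card, Gnp_compl]
    by_cases h : G (EG H)
    · rw [if_pos (show H ∈ {H | G (EG H)} from h)]
      show _ = _ * (if G (EG H) then (1 : ℚ) else 0)
      rw [if_pos h, mul_one]
    · rw [if_neg (show H ∉ {H | G (EG H)} from h)]
      show _ = _ * (if G (EG H) then (1 : ℚ) else 0)
      rw [if_neg h, mul_zero]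

private theorem Gnp_mul (G : MG) (v u : ℕ) : mul G v u = DFP.mult G.2 v u := by
  unfold mul DFP.mult DFP.multL
  rw [List.length_map]
  congr 1
  apply List.filter_congr
  intro e _
  rw [Bool.eq_iff_iff]
  simp only [decide_eq_true_eq, Bool.or_eq_true, Bool.and_eq_true, beq_iff_eq]

theorem wG_rep {G : MG} {H : SimpleGraph (Fin G.1.length)} (h : Rep G H) (y : ℚ) {a b : ℕ}
    (ha : a < G.1.length) (hb : b < G.1.length) :
    DFP.wG y G.2 a b = wA y (EG H) a b := by
  unfold DFP.wG wA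
  rw [← Gnp_mul]
  obtain ⟨h1, h2⟩ := h.2 ⟨a, ha⟩ ⟨b, hb⟩
  by_cases hA : H.Adj ⟨a, ha⟩ ⟨b, hb⟩
  · rw [if_pos ((Gnp_pr H ha hb).2 hA)]
    have h3 : mul G a b = 1 := h1 hA
    rw [h3, pow_one]
  · rw [if_neg (fun h4 => hA ((Gnp_pr H ha hb).1 h4))]
    have h3 : mul G a b = 0 := h2 hA
    rw [h3, pow_zero]

theorem lps_rep {G : MG} {H : SimpleGraph (Fin G.1.length)} (h : Rep G H) :
    TFP.lps G.2 = [] := by
  unfold TFP.lps
  rw [List.filter_eq_nil_iff]
  intro e he
  have := h.1 e he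
  simpa using this

end Pool.Agent.AAG
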