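import Pool.Agent.AAG.PickQ
import Pool.Agent.AAG.EPg
import Pool.Agent.TFP.Avg

set_option autoImplicit false

/-!
# AAG-Mom: mean and second moment of a trial

`Mom_rec`: one step of the trial is the average over the choices `u` with the probabilities `qq u`; `UL / UH = 1 / rt`, so
`(1-δ) cc ≤ qq / rt ≤ (1+δ) cc`. Induction on the number of vertices; if `UL P L = 0` then all `cc = 0` (`Mom_zero`).
-/

namespace Pool.Agent.AAG

open Finset

open Pool.Agent.TFP (avg)

private theorem Mom_UL {P : Pt} (ht : 0 ≤ P.t) (hr : |P.r| < 1) (hy : |P.y| < 1) {L : LS} (h : Srt L) :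
    0 ≤ UL P L := by
  rw [UL_eq P h]
  exact U_nonneg ht hr (sv_bd hy L)

private theorem Mom_UH {P : Pt} (ht : 0 ≤ P.t) (hr : |P.r| < 1) (hy : |P.y| < 1) {L : LS} (h : Srt L) (u : ℕ) :
    0 ≤ UH P L u := by
  rw [UH_eq P h]
  exact U_nonneg ht hr (nr_bd hr.le u (sv_bd hy L))

private theorem Mom_tv_nil (P : Pt) (E : List (ℕ × ℕ)) (b : List Bool) (n : ℕ) (l : List Bool) :
    tv P E b n l [] = 1 := by
  cases n with
  | zero => rfl
  | succ n =>
    rw [tv]
    simp

private theorem Mom_tv_succ (P : Pt) (E : List (ℕ × ℕ)) (b : List Bool) (n : ℕ) (l : List Bool) {L : LS}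
    (hL : L ≠ []) : tv P E b (n + 1) l L =
      UL P L / UH P L (pick P b L (Helper6.WB.val (l.take b.length))) *
        tv P E b n (l.drop b.length) (stp E (pick P b L (Helper6.WB.val (l.take b.length))) L) := by
  rw [tv, if_neg (by simpa using hL)]

theorem tv_nonneg {P : Pt} (ht : 0 ≤ P.t) (hr : |P.r| < 1) (hy : |P.y| < 1)
    (E : List (ℕ × ℕ)) (b : List Bool) (n : ℕ) (l : List Bool) {L : LS} (h : Srt L) :
    0 ≤ tv P E b n l L := by
  induction n generalizing l L with
  | zero => exact zero_le_one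
  | succ n ih =>
    by_cases hL : L = []
    · rw [hL, Mom_tv_nil]
      exact zero_le_one
    · rw [Mom_tv_succ P E b n l hL]
      exact mul_nonneg (div_nonneg (Mom_UL ht hr hy h) (Mom_UH ht hr hy h _)) (ih _ (srt_stp h E _))

theorem tv_take (P : Pt) (E : List (ℕ × ℕ)) (b : List Bool) (n : ℕ) (l : List Bool) (L : LS) :
    tv P E b n (l.take (n * b.length)) L = tv P E b n l L := by
  induction n generalizing l L with
  | zero => rfl
  | succ n ih =>
    by_cases hL : L = []
    · rw [hL, Mom_tv_nil, Mom_tv_nil]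
    · have e1 : (l.take ((n + 1) * b.length)).take b.length = l.take b.length := by
        rw [List.take_take]
        congr 1
        rw [add_mul, one_mul]
        omega
      have e2 : (l.take ((n + 1) * b.length)).drop b.length = (l.drop b.length).take (n * b.length) := by
        rw [List.drop_take]
        congr 1
        rw [add_mul, one_mul]
        omega
      rw [Mom_tv_succ P E b n _ hL, Mom_tv_succ P E b n l hL, e1, e2, ih]

private theorem Mom_rec {P : Pt} (ht : 0 ≤ P.t) (hr : |P.r| < 1) (hy : |P.y| < 1) (E : List (ℕ × ℕ))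
    (b : List Bool) (n e : ℕ) {L : LS} (h : Srt L) (hL : L ≠ []) (hU : 0 < UL P L) :
    avg ((n + 1) * b.length) (fun l => tv P E b (n + 1) l L ^ e) =
      ∑ u ∈ vs L, qq P b L u * ((UL P L / UH P L u) ^ e *
        avg (n * b.length) (fun l => tv P E b n l (stp E u L) ^ e)) := by
  have e1 : (n + 1) * b.length = b.length + n * b.length := by ring
  have e2 : (fun l => tv P E b (n + 1) l L ^ e) = fun l : List Bool =>
      (fun l₁ l₂ : List Bool => (UL P L / UH P L (pick P b L (Helper6.WB.val l₁)) *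
        tv P E b n l₂ (stp E (pick P b L (Helper6.WB.val l₁)) L)) ^ e) (l.take b.length) (l.drop b.length) := by
    funext l
    rw [Mom_tv_succ P E b n l hL]
  have e3 : (fun l₁ : List Bool => avg (n * b.length) (fun l₂ =>
      (UL P L / UH P L (pick P b L (Helper6.WB.val l₁)) *
        tv P E b n l₂ (stp E (pick P b L (Helper6.WB.val l₁)) L)) ^ e)) = fun l₁ =>
      (fun X : ℕ => (UL P L / UH P L (pick P b L X)) ^ e *
        avg (n * b.length) (fun l₂ => tv P E b n l₂ (stp E (pick P b L X) L) ^ e)) (Helper6.WB.val l₁) := by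
    funext l₁
    exact (TFP.avg_congr fun l₂ _ => mul_pow _ _ _).trans (TFP.avg_smul _ _ _)
  rw [e1, e2, TFP.avg_take_drop b.length (n * b.length) (fun l₁ l₂ : List Bool =>
    (UL P L / UH P L (pick P b L (Helper6.WB.val l₁)) *
      tv P E b n l₂ (stp E (pick P b L (Helper6.WB.val l₁)) L)) ^ e), e3,
    TFP.avg_val b.length (fun X : ℕ => (UL P L / UH P L (pick P b L X)) ^ e *
        avg (n * b.length) (fun l₂ => tv P E b n l₂ (stp E (pick P b L X) L) ^ e))]
  have e4 : ∀ X ∈ range (2 ^ b.length), (UL P L / UH P L (pick P b L X)) ^ e *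
        avg (n * b.length) (fun l₂ => tv P E b n l₂ (stp E (pick P b L X) L) ^ e) =
      ∑ u ∈ vs L, (if pick P b L X = u then 1 else 0) * ((UL P L / UH P L u) ^ e *
        avg (n * b.length) (fun l => tv P E b n l (stp E u L) ^ e)) := by
    intro X hX
    rw [sum_eq_single (pick P b L X)]
    · rw [if_pos rfl, one_mul]
    · intro u _ hu
      rw [if_neg (Ne.symm hu), zero_mul]
    · intro hu
      exact absurd (pick_mem ht hr hy b h hL hU (mem_range.1 hX)) hu
  rw [sum_congr rfl e4, sum_comm, sum_div]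
  refine sum_congr rfl fun u _ => ?_
  unfold qq
  rw [← sum_mul]
  ring

private theorem Mom_pos {P : Pt} (ht : 0 ≤ P.t) (hr : |P.r| < 1) (hy : |P.y| < 1) {L : LS} {u : ℕ}
    (hu : u ∈ vs L) : 0 < U P.t P.r ((vs L).erase u) (nr P.r (sv P.y L) u) :=
  (gg_pos ht hr _).trans_le (U_ge_nr ht hr hu (sv_bd hy L))

private theorem Mom_rt {P : Pt} (ht : 0 ≤ P.t) (hr : |P.r| < 1) (hy : |P.y| < 1) {L : LS} (h : Srt L)
    (hU : 0 < UL P L) {u : ℕ} (hu : u ∈ vs L) : 0 < rt P.t P.r (vs L) (sv P.y L) u := by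
  rw [UL_eq P h] at hU
  exact div_pos (Mom_pos ht hr hy hu) hU

private theorem Mom_inv {P : Pt} {L : LS} (h : Srt L) (u : ℕ) :
    UL P L / UH P L u = (rt P.t P.r (vs L) (sv P.y L) u)⁻¹ := by
  rw [UL_eq P h, UH_eq P h]
  unfold rt
  rw [inv_div]

/-- if the homogeneous model is `0`, then all coefficients are `0` -/
private theorem Mom_zero {P : Pt} (ht : 0 ≤ P.t) (hr : |P.r| < 1) (hy : |P.y| < 1) {L : LS} (h : Srt L)
    (hJ : (vs L).Nonempty) (hU : UL P L = 0) {u : ℕ} (hu : u ∈ vs L) : cc P.t (vs L) (sv P.y L) u = 0 := by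
  rw [UL_eq P h, U_rec P.t P.r hJ] at hU
  have h1 : ∀ v ∈ vs L, 0 ≤ cc P.t (vs L) (sv P.y L) v *
      U P.t P.r ((vs L).erase v) (nr P.r (sv P.y L) v) := fun v hv =>
    mul_nonneg (cc_nonneg ht (sv_bd hy L v hv)) (Mom_pos ht hr hy hv).le
  have h2 := (sum_eq_zero_iff_of_nonneg h1).1 hU u hu
  exact (mul_eq_zero.1 h2).resolve_right (Mom_pos ht hr hy hu).ne'

private theorem Mom_wG {y : ℚ} (hy : |y| < 1) (E : List (ℕ × ℕ)) (a b : ℕ) : |DFP.wG y E a b| ≤ 1 := by
  unfold DFP.wG
  rw [abs_pow]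
  exact pow_le_one₀ (abs_nonneg _) hy.le

private theorem Mom_hub (P : Pt) (E : List (ℕ × ℕ)) {L : LS} (h : Srt L) (u : ℕ) :
    DFP.hub P.t (DFP.wG P.y E) (vs (stp E u L)) (sv P.y (stp E u L)) =
      DFP.hub P.t (DFP.wG P.y E) ((vs L).erase u) (nx (DFP.wG P.y E) (sv P.y L) u) := by
  rw [vs_stp]
  exact DFP.hub_congr _ _ fun x hx => sv_stp h P.y E u hx

private theorem Mom_S2 (P : Pt) (E : List (ℕ × ℕ)) (n : ℕ) {L : LS} (h : Srt L) (u : ℕ) :
    S2 P.t P.r (DFP.wG P.y E) n (vs (stp E u L)) (sv P.y (stp E u L)) =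
      S2 P.t P.r (DFP.wG P.y E) n ((vs L).erase u) (nx (DFP.wG P.y E) (sv P.y L) u) := by
  rw [vs_stp]
  exact S2_loc P.t P.r n _ _ _ _ _ (fun _ _ _ _ => rfl) fun x hx => sv_stp h P.y E u hx

private theorem Mom_hub_nonneg {P : Pt} (ht : 0 ≤ P.t) (hy : |P.y| < 1) (E : List (ℕ × ℕ)) (L : LS) :
    0 ≤ DFP.hub P.t (DFP.wG P.y E) (vs L) (sv P.y L) :=
  hub_nonneg' ht (fun x y => DFP.wG_symm P.y E x y) (fun _ _ _ _ => Mom_wG hy E _ _) (sv_bd hy L)

private theorem Mom_ne {L : LS} {m : ℕ} (hm : L.length = m + 1) : L ≠ [] := by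
  rintro rfl
  simp at hm

private theorem Mom_vs_ne {L : LS} (h : Srt L) {m : ℕ} (hm : L.length = m + 1) : (vs L).Nonempty := by
  rw [← card_pos, card_vs h, hm]
  exact Nat.succ_pos m

private theorem Mom_avg_zero {P : Pt} (E : List (ℕ × ℕ)) (b : List Bool) (N m e : ℕ) (he : e ≠ 0) {L : LS}
    (hL : L ≠ []) (hU : UL P L = 0) : avg N (fun l => tv P E b (m + 1) l L ^ e) = 0 := by
  have e1 : avg N (fun l => tv P E b (m + 1) l L ^ e) = avg N (fun _ => (0 : ℚ)) := by
    refine TFP.avg_congr fun l _ => ?_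
    rw [Mom_tv_succ P E b m l hL, hU, zero_div, zero_mul, zero_pow he]
  rw [e1, TFP.avg_const]

theorem mom1 {P : Pt} (ht : 0 ≤ P.t) (hr : |P.r| < 1) (hy : |P.y| < 1) {δ : ℚ} (hδ0 : 0 ≤ δ)
    (hδ1 : δ ≤ 1) (E : List (ℕ × ℕ)) (b : List Bool) {n0 : ℕ}
    (hq : ∀ L : LS, Srt L → L ≠ [] → L.length ≤ n0 → 0 < UL P L → ∀ u ∈ vs L,
      |qq P b L u - cc P.t (vs L) (sv P.y L) u * rt P.t P.r (vs L) (sv P.y L) u| ≤
        δ * (cc P.t (vs L) (sv P.y L) u * rt P.t P.r (vs L) (sv P.y L) u))
    {L : LS} (h : Srt L) (hn : L.length ≤ n0) :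
    (1 - δ) ^ L.length * DFP.hub P.t (DFP.wG P.y E) (vs L) (sv P.y L) ≤
        avg (L.length * b.length) (fun l => tv P E b L.length l L) ∧
      avg (L.length * b.length) (fun l => tv P E b L.length l L) ≤
        (1 + δ) ^ L.length * DFP.hub P.t (DFP.wG P.y E) (vs L) (sv P.y L) := by
  have key : ∀ (m : ℕ) (L : LS), Srt L → L.length = m → m ≤ n0 →
      (1 - δ) ^ m * DFP.hub P.t (DFP.wG P.y E) (vs L) (sv P.y L) ≤
        avg (m * b.length) (fun l => tv P E b m l L ^ 1) ∧
      avg (m * b.length) (fun l => tv P E b m l L ^ 1) ≤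
        (1 + δ) ^ m * DFP.hub P.t (DFP.wG P.y E) (vs L) (sv P.y L) := by
    intro m
    induction m with
    | zero =>
      intro L _ hm _
      have hL : L = [] := List.length_eq_zero_iff.1 hm
      subst hL
      have e1 : avg (0 * b.length) (fun l => tv P E b 0 l [] ^ 1) = 1 := by
        have e2 : (fun l => tv P E b 0 l [] ^ 1) = fun _ => (1 : ℚ) := by
          funext l
          rw [Mom_tv_nil, one_pow]
        rw [e2, TFP.avg_const]
      have e3 : DFP.hub P.t (DFP.wG P.y E) (vs []) (sv P.y []) = 1 := hub_empty _ _ _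
      rw [e1, e3]
      simp
    | succ m ih =>
      intro L h hm hn
      have hL := Mom_ne hm
      have hJ := Mom_vs_ne h hm
      have hsy : Sy (DFP.wG P.y E) := fun x y => DFP.wG_symm P.y E x y
      rcases (Mom_UL ht hr hy h).eq_or_lt with hU | hU
      · rw [Mom_avg_zero E b _ m 1 one_ne_zero hL hU.symm, hub_rec P.t hsy hJ]
        have e1 : ∑ u ∈ vs L, cc P.t (vs L) (sv P.y L) u *
            DFP.hub P.t (DFP.wG P.y E) ((vs L).erase u) (nx (DFP.wG P.y E) (sv P.y L) u) = 0 :=
          sum_eq_zero fun u hu => by rw [Mom_zero ht hr hy h hJ hU.symm hu, zero_mul]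
        rw [e1, mul_zero, mul_zero]
        exact ⟨le_rfl, le_rfl⟩
      · rw [Mom_rec ht hr hy E b m 1 h hL hU, hub_rec P.t hsy hJ, mul_sum, mul_sum]
        have hstep : ∀ u ∈ vs L,
            (1 - δ) ^ (m + 1) * (cc P.t (vs L) (sv P.y L) u *
              DFP.hub P.t (DFP.wG P.y E) ((vs L).erase u) (nx (DFP.wG P.y E) (sv P.y L) u)) ≤
              qq P b L u * ((UL P L / UH P L u) ^ 1 *
                avg (m * b.length) (fun l => tv P E b m l (stp E u L) ^ 1)) ∧
            qq P b L u * ((UL P L / UH P L u) ^ 1 *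
                avg (m * b.length) (fun l => tv P E b m l (stp E u L) ^ 1)) ≤
            (1 + δ) ^ (m + 1) * (cc P.t (vs L) (sv P.y L) u *
              DFP.hub P.t (DFP.wG P.y E) ((vs L).erase u) (nx (DFP.wG P.y E) (sv P.y L) u)) := by
          intro u hu
          have hq1 := abs_le.1 (hq L h hL (by omega) hU u hu)
          have hrt := Mom_rt ht hr hy h hU hu
          have hcc := cc_nonneg ht (J := vs L) (u := u) (sv_bd hy L u hu)
          have h1 := ih (stp E u L) (srt_stp h E u) (by rw [stp_length h E hu, hm, Nat.add_sub_cancel])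
            (by omega)
          rw [Mom_hub P E h u] at h1
          have hH : 0 ≤ DFP.hub P.t (DFP.wG P.y E) ((vs L).erase u)
              (nx (DFP.wG P.y E) (sv P.y L) u) := by
            rw [← Mom_hub P E h u]
            exact Mom_hub_nonneg ht hy E _
          rw [Mom_inv h u, pow_one]
          set c := cc P.t (vs L) (sv P.y L) u with hc
          set ρ := rt P.t P.r (vs L) (sv P.y L) u with hρ
          set F := avg (m * b.length) (fun l => tv P E b m l (stp E u L) ^ 1) with hF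
          set H := DFP.hub P.t (DFP.wG P.y E) ((vs L).erase u) (nx (DFP.wG P.y E) (sv P.y L) u) with hHd
          have hF0 : 0 ≤ F := by
            refine le_trans ?_ h1.1
            exact mul_nonneg (pow_nonneg (by linarith) m) hH
          have hi : 0 ≤ ρ⁻¹ * F := mul_nonneg (inv_nonneg.2 hrt.le) hF0
          have a1 : (1 - δ) * (c * ρ) ≤ qq P b L u := by linarith [hq1.1]
          have a2 : qq P b L u ≤ (1 + δ) * (c * ρ) := by linarith [hq1.2]
          have b1 := mul_le_mul_of_nonneg_right a1 hi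
          have b2 := mul_le_mul_of_nonneg_right a2 hi
          have e1 : ∀ z : ℚ, z * (c * ρ) * (ρ⁻¹ * F) = z * c * F := by
            intro z
            field_simp
          rw [e1] at b1 b2
          constructor
          · refine le_trans ?_ b1
            have e2 : (1 - δ) ^ (m + 1) * (c * H) = (1 - δ) * c * ((1 - δ) ^ m * H) := by ring
            rw [e2]
            exact mul_le_mul_of_nonneg_left h1.1 (mul_nonneg (by linarith) hcc)
          · refine le_trans b2 ?_
            have e2 : (1 + δ) ^ (m + 1) * (c * H) = (1 + δ) * c * ((1 + δ) ^ m * H) := by ring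
            rw [e2]
            exact mul_le_mul_of_nonneg_left h1.2 (mul_nonneg (by linarith) hcc)
        exact ⟨sum_le_sum fun u hu => (hstep u hu).1, sum_le_sum fun u hu => (hstep u hu).2⟩
  have hk := key L.length L h rfl hn
  simp only [pow_one] at hk
  exact hk

theorem mom2 {P : Pt} (ht : 0 ≤ P.t) (hr : |P.r| < 1) (hy : |P.y| < 1) {δ : ℚ} (hδ0 : 0 ≤ δ)
    (hδ1 : δ ≤ 1) (E : List (ℕ × ℕ)) (b : List Bool) {n0 : ℕ}
    (hq : ∀ L : LS, Srt L → L ≠ [] → L.length ≤ n0 → 0 < UL P L → ∀ u ∈ vs L,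
      |qq P b L u - cc P.t (vs L) (sv P.y L) u * rt P.t P.r (vs L) (sv P.y L) u| ≤
        δ * (cc P.t (vs L) (sv P.y L) u * rt P.t P.r (vs L) (sv P.y L) u))
    {L : LS} (h : Srt L) (hn : L.length ≤ n0) :
    avg (L.length * b.length) (fun l => tv P E b L.length l L ^ 2) ≤
      (1 + δ) ^ L.length * S2 P.t P.r (DFP.wG P.y E) L.length (vs L) (sv P.y L) := by
  have key : ∀ (m : ℕ) (L : LS), Srt L → L.length = m → m ≤ n0 →
      avg (m * b.length) (fun l => tv P E b m l L ^ 2) ≤
        (1 + δ) ^ m * S2 P.t P.r (DFP.wG P.y E) m (vs L) (sv P.y L) := by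
    intro m
    induction m with
    | zero =>
      intro L _ hm _
      have hL : L = [] := List.length_eq_zero_iff.1 hm
      subst hL
      have e1 : avg (0 * b.length) (fun l => tv P E b 0 l [] ^ 2) = 1 := by
        have e2 : (fun l => tv P E b 0 l [] ^ 2) = fun _ => (1 : ℚ) := by
          funext l
          rw [Mom_tv_nil, one_pow]
        rw [e2, TFP.avg_const]
      have e3 : S2 P.t P.r (DFP.wG P.y E) 0 (vs []) (sv P.y []) = 1 := rfl
      rw [e1, e3]
      simp
    | succ m ih =>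
      intro L h hm hn
      have hL := Mom_ne hm
      have hJ := Mom_vs_ne h hm
      have hS : S2 P.t P.r (DFP.wG P.y E) (m + 1) (vs L) (sv P.y L) =
          ∑ u ∈ vs L, cc P.t (vs L) (sv P.y L) u / rt P.t P.r (vs L) (sv P.y L) u *
            S2 P.t P.r (DFP.wG P.y E) m ((vs L).erase u) (nx (DFP.wG P.y E) (sv P.y L) u) := rfl
      rcases (Mom_UL ht hr hy h).eq_or_lt with hU | hU
      · rw [Mom_avg_zero E b _ m 2 two_ne_zero hL hU.symm, hS]
        have e1 : ∑ u ∈ vs L, cc P.t (vs L) (sv P.y L) u / rt P.t P.r (vs L) (sv P.y L) u *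
            S2 P.t P.r (DFP.wG P.y E) m ((vs L).erase u) (nx (DFP.wG P.y E) (sv P.y L) u) = 0 :=
          sum_eq_zero fun u hu => by rw [Mom_zero ht hr hy h hJ hU.symm hu, zero_div, zero_mul]
        rw [e1, mul_zero]
      · rw [Mom_rec ht hr hy E b m 2 h hL hU, hS, mul_sum]
        refine sum_le_sum fun u hu => ?_
        have hq1 := abs_le.1 (hq L h hL (by omega) hU u hu)
        have hrt := Mom_rt ht hr hy h hU hu
        have hcc := cc_nonneg ht (J := vs L) (u := u) (sv_bd hy L u hu)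
        have h1 := ih (stp E u L) (srt_stp h E u) (by rw [stp_length h E hu, hm, Nat.add_sub_cancel])
          (by omega)
        rw [Mom_S2 P E m h u] at h1
        have hF0 : 0 ≤ avg (m * b.length) (fun l => tv P E b m l (stp E u L) ^ 2) := by
          have e2 : (0 : ℚ) = avg (m * b.length) (fun _ => (0 : ℚ)) := (TFP.avg_const _ _).symm
          rw [e2]
          exact TFP.avg_mono fun l _ => sq_nonneg _
        rw [Mom_inv h u]
        set c := cc P.t (vs L) (sv P.y L) u with hc
        set ρ := rt P.t P.r (vs L) (sv P.y L) u with hρ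
        set F := avg (m * b.length) (fun l => tv P E b m l (stp E u L) ^ 2) with hF
        set H := S2 P.t P.r (DFP.wG P.y E) m ((vs L).erase u) (nx (DFP.wG P.y E) (sv P.y L) u) with hHd
        have hi : 0 ≤ ρ⁻¹ ^ 2 * F := mul_nonneg (pow_nonneg (inv_nonneg.2 hrt.le) 2) hF0
        have a2 : qq P b L u ≤ (1 + δ) * (c * ρ) := by linarith [hq1.2]
        have b2 := mul_le_mul_of_nonneg_right a2 hi
        have e1 : (1 + δ) * (c * ρ) * (ρ⁻¹ ^ 2 * F) = (1 + δ) * (c / ρ) * F := by
          field_simp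
        rw [e1] at b2
        refine le_trans b2 ?_
        have e2 : (1 + δ) ^ (m + 1) * (c / ρ * H) = (1 + δ) * (c / ρ) * ((1 + δ) ^ m * H) := by ring
        rw [e2]
        exact mul_le_mul_of_nonneg_left h1 (mul_nonneg (by linarith) (div_nonneg hcc hrt.le))
  exact key L.length L h rfl hn

end Pool.Agent.AAG
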