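import Pool.Agent.AAG.Alg
import Pool.Agent.TFP.Num
import Pool.Agent.TFP.Avg

set_option autoImplicit false

/-!
# AAG-Nm: numerical facts for the assembly

PLAN. `del_small`: `n^2 ≤ 2^(n+1)`, `m + 1 ≤ 2^m`; choose `b0` with `32 ≤ c1 * 2^b0`; `δ = n/(c1 2^(b0+n+m))`,
`n δ ≤ n^2/(2^n) / (c1 2^b0 2^m) ≤ 2 /(32 (m+1))`. `one_sub_le`: Bernoulli (`one_add_mul_le_pow`, for `-2 ≤ -δ`).
`one_add_le`: `(1+δ)^n ≤ 1/(1-nδ)`-type bound: `(1+δ)^n (1-δ)^n ≤ 1` and `(1-δ)^n ≥ 1 - nδ`, `1/(1-x) ≤ 1 + 2x` for `x ≤ 1/2`.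
`num_k`: `t ≥ 2`, `n + 1 ≤ t`, `m + 1 ≤ t`: `16 * (2 * (n+1)^e) ≤ t^(e+7) / (2 (m+1))^2`, since `128 ≤ t^7`... precisely
`128 (n+1)^e (m+1)^2 ≤ t^5.. `: use exponent `e + 9`.
`chk_take`: `chk M k (l.take (k * M.length)) = chk M k l` (induction, `List.take_take`, `List.drop_take`).
`count_of`: from the average over `K ≤ nb` bits to the count over all bit strings of length `nb`, as in `finish` of `DFP/FinA.lean`
(`TFP.avg_take`, `TFP.avg_count`, `Finset.sum_boole`).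
-/

namespace Pool.Agent.AAG

open Finset

open Pool.Agent.TFP (avg Close)

private theorem Nm_sq_le (n : ℕ) : n * n ≤ 2 * 2 ^ n := by
  induction n with
  | zero => simp
  | succ n ih =>
    rcases Nat.lt_or_ge n 3 with h | h
    · interval_cases n <;> norm_num
    · rw [pow_succ]
      nlinarith

theorem del_small {c1 : ℚ} (hc : 0 < c1) : ∃ b0 : ℕ, ∀ n m : ℕ,
    (n : ℚ) * (n / (c1 * 2 ^ (b0 + n + m))) ≤ 1 / (16 * (m + 1)) := by
  obtain ⟨b0, hb0⟩ := pow_unbounded_of_one_lt (32 / c1) (by norm_num : (1 : ℚ) < 2)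
  refine ⟨b0, fun n m => ?_⟩
  have h1 : (32 : ℚ) ≤ c1 * 2 ^ b0 := by
    rw [div_lt_iff₀ hc] at hb0
    linarith
  have h2 : (n : ℚ) * n ≤ 2 * 2 ^ n := by exact_mod_cast Nm_sq_le n
  have h3 : (m : ℚ) + 1 ≤ 2 ^ m := by
    have : m + 1 ≤ 2 ^ m := Nat.lt_two_pow_self
    exact_mod_cast this
  have hn : (0 : ℚ) < 2 ^ n := by positivity
  have hm : (0 : ℚ) < 2 ^ m := by positivity
  have hb : (0 : ℚ) < 2 ^ b0 := by positivity
  have hm1 : (0 : ℚ) < (m : ℚ) + 1 := by positivity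
  rw [← mul_div_assoc, div_le_div_iff₀ (by positivity) (by positivity), one_mul]
  calc (n : ℚ) * n * (16 * (m + 1)) ≤ (2 * 2 ^ n) * (16 * 2 ^ m) := by
        apply mul_le_mul h2 (by linarith) (by positivity) (by positivity)
    _ = 32 * (2 ^ n * 2 ^ m) := by ring
    _ ≤ (c1 * 2 ^ b0) * (2 ^ n * 2 ^ m) := mul_le_mul_of_nonneg_right h1 (by positivity)
    _ = c1 * 2 ^ (b0 + n + m) := by rw [pow_add, pow_add]; ring

theorem one_sub_le {δ : ℚ} (h0 : 0 ≤ δ) (h1 : δ ≤ 1) (n : ℕ) : 1 - n * δ ≤ (1 - δ) ^ n := by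
  have h := one_add_mul_le_pow (a := -δ) (by linarith) n
  have e1 : 1 + (n : ℚ) * -δ = 1 - n * δ := by ring
  have e2 : 1 + -δ = 1 - δ := by ring
  rw [e1, e2] at h
  exact h

theorem one_add_le {δ : ℚ} (h0 : 0 ≤ δ) {n : ℕ} (h1 : n * δ ≤ 1 / 2) :
    (1 + δ) ^ n ≤ 1 + 2 * (n * δ) := by
  induction n with
  | zero => simp
  | succ n ih =>
    have h2 : (((n + 1 : ℕ) : ℚ)) = (n : ℚ) + 1 := by push_cast; ring
    rw [h2] at h1 ⊢
    have h3 : (n : ℚ) * δ ≤ 1 / 2 := by nlinarith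
    have h4 := ih h3
    have h5 : (0 : ℚ) ≤ 1 + δ := by linarith
    rw [pow_succ]
    calc (1 + δ) ^ n * (1 + δ) ≤ (1 + 2 * (n * δ)) * (1 + δ) := mul_le_mul_of_nonneg_right h4 h5
      _ = 1 + 2 * (n * δ) + δ + δ * (2 * (n * δ)) := by ring
      _ ≤ 1 + 2 * (n * δ) + δ + δ * 1 := by
          have h6 : δ * (2 * (n * δ)) ≤ δ * 1 := mul_le_mul_of_nonneg_left (by linarith) h0
          linarith
      _ = 1 + 2 * ((n + 1) * δ) := by ring

theorem num_k (e n m t : ℕ) (h2 : 2 ≤ t) (hn : n + 1 ≤ t) (hm : m + 1 ≤ t) :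
    16 * (2 * ((n : ℚ) + 1) ^ e) ≤ (t : ℚ) ^ (e + 9) * (1 / (2 * ((m : ℚ) + 1))) ^ 2 := by
  have h2' : (2 : ℚ) ≤ t := by exact_mod_cast h2
  have hn' : (n : ℚ) + 1 ≤ t := by exact_mod_cast hn
  have hm' : (m : ℚ) + 1 ≤ t := by exact_mod_cast hm
  have hm1 : (0 : ℚ) < (m : ℚ) + 1 := by positivity
  have hn1 : (0 : ℚ) < (n : ℚ) + 1 := by positivity
  have ht : (0 : ℚ) < t := by linarith
  have e1 : (t : ℚ) ^ (e + 9) * (1 / (2 * ((m : ℚ) + 1))) ^ 2 =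
      (t : ℚ) ^ (e + 9) / (4 * (m + 1) ^ 2) := by
    rw [div_pow, one_pow, mul_one_div]
    congr 1
    ring
  rw [e1, le_div_iff₀ (by positivity)]
  have a1 : ((n : ℚ) + 1) ^ e ≤ (t : ℚ) ^ e := pow_le_pow_left₀ hn1.le hn' e
  have a2 : ((m : ℚ) + 1) ^ 2 ≤ (t : ℚ) ^ 2 := pow_le_pow_left₀ hm1.le hm' 2
  have a3 : (128 : ℚ) ≤ (t : ℚ) ^ 7 := by
    calc (128 : ℚ) = 2 ^ 7 := by norm_num
      _ ≤ (t : ℚ) ^ 7 := pow_le_pow_left₀ (by norm_num) h2' 7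
  calc 16 * (2 * ((n : ℚ) + 1) ^ e) * (4 * ((m : ℚ) + 1) ^ 2) =
        128 * (((n : ℚ) + 1) ^ e * ((m : ℚ) + 1) ^ 2) := by ring
    _ ≤ (t : ℚ) ^ 7 * ((t : ℚ) ^ e * (t : ℚ) ^ 2) := by
        apply mul_le_mul a3 _ (by positivity) (by positivity)
        exact mul_le_mul a1 a2 (by positivity) (by positivity)
    _ = (t : ℚ) ^ (e + 9) := by ring

theorem chk_take (M : List Bool) (k : ℕ) (l : List Bool) :
    chk M k (l.take (k * M.length)) = chk M k l := by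
  induction k generalizing l with
  | zero => rfl
  | succ k ih =>
    show (l.take ((k + 1) * M.length)).take M.length ::
        chk M k ((l.take ((k + 1) * M.length)).drop M.length) =
      l.take M.length :: chk M k (l.drop M.length)
    have e1 : min M.length ((k + 1) * M.length) = M.length :=
      min_eq_left (Nat.le_mul_of_pos_left _ (Nat.succ_pos k))
    have e2 : (k + 1) * M.length - M.length = k * M.length := by
      rw [Nat.succ_mul, Nat.add_sub_cancel]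
    rw [List.take_take, e1, List.drop_take, e2, ih]

open Classical in
theorem count_of {nb K : ℕ} (hK : K ≤ nb) (q : List Bool → ℚ) (hq : ∀ l, q (l.take K) = q l)
    {z T c : ℚ} (N : ℕ) (hz : 0 ≤ z) (hc : 0 ≤ c) (hT : T = c * z)
    (hgood : 3 / 4 ≤ avg K (fun l => if |q l - z| ≤ 1 / (2 * (N + 1)) * z then 1 else 0))
    (A : List Bool → ℤ × ℕ) (hA2 : ∀ l, (A l).2 ≠ 0) (hA : ∀ l, ((A l).1 : ℚ) / (A l).2 = c * q l) :
    (3 / 4 : ℚ) * 2 ^ nb ≤ (Finset.univ.filter fun r : Fin nb → Bool =>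
      (A (List.ofFn r)).2 ≠ 0 ∧ Close (1 / (N + 1)) T
        ((A (List.ofFn r)).1 / (A (List.ofFn r)).2)).card := by
  rw [← TFP.avg_take hK] at hgood
  simp only [hq] at hgood
  rw [TFP.avg_count, le_div_iff₀ (by positivity), Finset.sum_boole] at hgood
  refine le_trans hgood ?_
  have hT0 : 0 ≤ T := by
    rw [hT]
    exact mul_nonneg hc hz
  refine (Nat.cast_le (α := ℚ)).2 (Finset.card_le_card ?_)
  intro r hr
  rw [Finset.mem_filter] at hr ⊢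
  refine ⟨hr.1, hA2 _, TFP.close_of hT0 N ?_⟩
  rw [hA, hT, ← mul_sub, abs_mul, abs_of_nonneg hc]
  calc c * |q (List.ofFn r) - z| ≤ c * (1 / (2 * (N + 1)) * z) :=
        mul_le_mul_of_nonneg_left hr.2 hc
    _ = 1 / (2 * (N + 1)) * (c * z) := by ring

end Pool.Agent.AAG
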