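import Pool.Agent.AAG.Cls
import Pool.Agent.AAG.Mom
import Pool.Agent.AAG.Chb
import Pool.Agent.AAG.AlgT
import Pool.Agent.AAG.Gnp
import Pool.Agent.AAG.Conn
import Pool.Agent.AAG.Nm
import Pool.Agent.DFP.TutX
import Pool.Agent.Helper22.Enum

set_option autoImplicit false

/-!
# AAG-Fin: the assembly
-/

namespace Pool.Agent.AAG

open Finset Pool.Agent.Helper47.TR
open Pool.Agent.TFP (avg HasFPRAS Close)

private theorem fin_hub_w (a : ℚ) {w w' : ℕ → ℕ → ℚ} {J : Finset ℕ} {s s' : ℕ → ℚ}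
    (h : ∀ u ∈ J, ∀ v ∈ J, w u v = w' u v) (hs : ∀ x ∈ J, s x = s' x) :
    DFP.hub a w J s = DFP.hub a w' J s' := by
  unfold DFP.hub
  refine Finset.sum_congr rfl fun B hB => ?_
  have hBJ := Finset.mem_powerset.1 hB
  rw [DFP.WW_congr (w := w) (w' := w') (fun u hu v hv _ => h u (hBJ hu) v (hBJ hv)),
    DFP.F_congr (a + 1) (w := w) (w' := w')
      (fun u hu v hv _ => h u (Finset.sdiff_subset hu) v (Finset.sdiff_subset hv)),
    Finset.prod_congr rfl fun x hx => hs x (hBJ hx)]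

private theorem fin_cond {y : ℚ} {w w' : ℕ → ℕ → ℚ} {J : Finset ℕ} {s s' : ℕ → ℚ}
    (h : ∀ u ∈ J, ∀ v ∈ J, w u v = w' u v) (hs : ∀ x ∈ J, s x = s' x) (hc : Cond y w J s) :
    Cond y w' J s' := by
  have ha : act y J s = act y J s' := by
    unfold act
    refine Finset.filter_congr fun x hx => ?_
    rw [hs x hx]
  intro x hx hx2
  rw [← ha] at hx2
  obtain ⟨a, ha1, ha2⟩ := hc x hx hx2
  refine ⟨a, ?_, ?_⟩
  · rw [← ha]
    exact ha1
  · rw [← h a (Finset.filter_subset _ _ ha1) x hx]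
    exact ha2

private theorem fin_tt (G : MG) (N : List Bool) :
    tt (G, N) ≤ (N487b59b3.bitEncode (G, N)).length + 2 := by
  show tt (G, N) ≤ Helper22.sz (G, N) + 2
  have h1 : Helper22.sz (G, N) = 2 * Helper22.sz G + 1 + Helper22.sz N := Helper22.sz_pair G N
  have h2 : Helper22.sz G = 2 * Helper22.sz G.1 + 1 + Helper22.sz G.2 := Helper22.sz_pair G.1 G.2
  have h3 := Helper22.length_le_sz G.2
  have h4 := Helper22.length_le_sz N
  have h6 := Helper22.length_le_sz G.1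
  have h5 : tt (G, N) = G.1.length + G.2.length + N.length + 2 := rfl
  omega

private theorem fin_bits (b0 e t n m ℓ : ℕ) (ht : t ≤ ℓ + 2) (hn : n ≤ t) (hm : m ≤ t)
    (h2 : 2 ≤ t) :
    t ^ (e + 9) * ((n - 1) * (b0 + (n + m))) ≤ (b0 + 2) * (ℓ + 2) ^ (e + 11) := by
  have h1 : (n - 1) * (b0 + (n + m)) ≤ t * ((b0 + 2) * t) := by
    apply Nat.mul_le_mul (by omega)
    have h3 : b0 ≤ b0 * t := Nat.le_mul_of_pos_right _ (by omega)
    calc b0 + (n + m) ≤ b0 * t + (t + t) := by omega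
      _ = (b0 + 2) * t := by ring
  calc t ^ (e + 9) * ((n - 1) * (b0 + (n + m))) ≤ t ^ (e + 9) * (t * ((b0 + 2) * t)) :=
        Nat.mul_le_mul_left _ h1
    _ = (b0 + 2) * t ^ (e + 11) := by ring
    _ ≤ (b0 + 2) * (ℓ + 2) ^ (e + 11) :=
        Nat.mul_le_mul_left _ (Nat.pow_le_pow_left ht _)

private theorem fin_prob {p : ℚ} (hp0 : 0 < p) (hp1 : p < 1) {G : ℕ → Finset (ℕ × ℕ) → Prop}
    (h : ∀ ε : ℚ, 0 < ε → ∃ n0 : ℕ, ∀ n, n0 ≤ n → 1 - ε ≤ prob p n {H | G n (EG H)}) :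
    Filter.Tendsto (fun n => ((prob p n {H | G n (EG H)} : ℚ) : ℝ)) Filter.atTop (nhds 1) := by
  classical
  rw [Metric.tendsto_atTop]
  intro ε hε
  obtain ⟨δ, hδ0, hδ1⟩ := exists_rat_btwn hε
  have hδ0' : (0 : ℚ) < δ := by exact_mod_cast hδ0
  obtain ⟨n0, hn0⟩ := h δ hδ0'
  refine ⟨n0, fun n hn => ?_⟩
  have h1 := hn0 n hn
  have h2 : prob p n {H | G n (EG H)} ≤ 1 := by
    rw [prob_eq]
    calc EP p (prs (range n)) (fun A => if G n A then 1 else 0)
        ≤ EP p (prs (range n)) (fun _ => 1) := by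
          refine EP_mono hp0.le hp1.le fun A _ => ?_
          split_ifs
          · exact le_rfl
          · exact zero_le_one
      _ = 1 := EP_const _ _ _
  have h1' : (1 : ℝ) - δ ≤ ((prob p n {H | G n (EG H)} : ℚ) : ℝ) := by exact_mod_cast h1
  have h2' : ((prob p n {H | G n (EG H)} : ℚ) : ℝ) ≤ 1 := by exact_mod_cast h2
  rw [Real.dist_eq, abs_lt]
  constructor <;> linarith

theorem fpras {x y p : ℚ} (hx : 1 ≤ x) (hy0 : -1 < y) (hy1 : y < 1) (hp0 : 0 < p) (hp1 : p < 1) :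
    ∃ S : (n : ℕ) → Set (SimpleGraph (Fin n)),
      Filter.Tendsto (fun n => ((prob p n (S n) : ℚ) : ℝ)) Filter.atTop (nhds 1) ∧
      HasFPRAS (fun G => ∃ H ∈ S G.1.length, Rep G H) (tutte x y) := by
  classical
  obtain ⟨P, hP⟩ : ∃ P : Pt, P = ⟨(x - 1) * (1 - y), 1 - p * (1 - y), y⟩ := ⟨_, rfl⟩
  have hPy : P.y = y := by rw [hP]
  have hPt : P.t = (x - 1) * (1 - y) := by rw [hP]
  have hPr : P.r = 1 - p * (1 - y) := by rw [hP]
  have hH : Hyp P.t P.r P.y p :=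
    ⟨by rw [hPt]; exact mul_nonneg (by linarith) (by linarith), by rw [hPy]; exact hy0,
      by rw [hPy]; exact hy1, hp0, hp1, by rw [hPr, hPy]⟩
  have ht := hH.ht
  have hr := hH.r_lt
  have hyl := hH.y_lt
  obtain ⟨e, G, hG1, hG2⟩ := cls hH
  obtain ⟨c1, hc1, hqc⟩ := qq_close (P := P) ht hr hyl
  obtain ⟨b0, hb0⟩ := del_small hc1
  refine ⟨fun n => {H | G n (EG H)}, ?_, ?_⟩
  · refine fin_prob hp0 hp1 fun ε hε => ?_
    obtain ⟨n0, hn0⟩ := hG1 ε hε
    refine ⟨n0, fun n hn => ?_⟩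
    rw [prob_eq]
    exact hn0 n hn
  obtain ⟨A, hA1, hA2, hA3⟩ := FQ.toZ (fq_algQ P b0 (e + 9))
  refine ⟨Polynomial.C (b0 + 2) * (Polynomial.X + 2) ^ (e + 11), A, ?_, ?_⟩
  · rw [Pool.Agent.Helper22.isPolyTime_iff]
    exact hA1
  rintro Gr hV ⟨H, hHS, hRep⟩ N
  obtain ⟨hn1, hcd, hz, hS2⟩ := hG2 Gr.1.length (EG H) (EG_sub H) hHS
  obtain ⟨nb, hnb⟩ : ∃ nb, nb = (Polynomial.C (b0 + 2) *
      (Polynomial.X + 2) ^ (e + 11) : Polynomial ℕ).eval
      (N487b59b3.bitEncode (Gr, N)).length := ⟨_, rfl⟩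
  rw [← hnb]
  have hnb' : nb = (b0 + 2) * ((N487b59b3.bitEncode (Gr, N)).length + 2) ^ (e + 11) := by
    rw [hnb]
    simp
  have htl := fin_tt Gr N
  obtain ⟨t0, ht0⟩ : ∃ t0, t0 = tt (Gr, N) := ⟨_, rfl⟩
  rw [← ht0] at htl
  have htd : t0 = Gr.1.length + Gr.2.length + N.length + 2 := ht0
  have hnt : Gr.1.length + 1 ≤ t0 := by omega
  have hmt : N.length + 1 ≤ t0 := by omega
  have h2t : 2 ≤ t0 := by omega
  -- lengths
  obtain ⟨b, hb⟩ : ∃ b, b = bb b0 (Gr, N) := ⟨_, rfl⟩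
  have hbl : b.length = b0 + (Gr.1.length + N.length) := by
    rw [hb]
    simp [bb]
  obtain ⟨M, hM⟩ : ∃ M, M = MM b0 (Gr, N) := ⟨_, rfl⟩
  have hMl : M.length = (Gr.1.length - 1) * b.length := by
    rw [hM, hb]
    simp [MM]
  have hkl : (Helper22.un (t0 ^ (e + 9))).length = t0 ^ (e + 9) := Helper22.un_length _
  have hK : t0 ^ (e + 9) * M.length ≤ nb := by
    rw [hMl, hbl, hnb']
    exact fin_bits b0 e t0 _ _ _ htl (by omega) (by omega) h2t
  -- the weights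
  have hwG : ∀ u ∈ Ico 1 Gr.1.length, ∀ v ∈ Ico 1 Gr.1.length,
      wA P.y (EG H) u v = DFP.wG P.y Gr.2 u v := fun u hu v hv =>
    (wG_rep hRep P.y (Finset.mem_Ico.1 hu).2 (Finset.mem_Ico.1 hv).2).symm
  have hw0 : ∀ v ∈ Ico 1 Gr.1.length, wA P.y (EG H) 0 v = DFP.wG P.y Gr.2 0 v := fun v hv =>
    (wG_rep hRep P.y (by omega) (Finset.mem_Ico.1 hv).2).symm
  have hcd' := fin_cond hwG hw0 hcd
  have hcomp := comps_cond hV hn1 hyl hcd'
  rw [fin_hub_w P.t hwG hw0] at hz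
  obtain ⟨z, hzd⟩ : ∃ z, z = DFP.hub P.t (DFP.wG P.y Gr.2) (Ico 1 Gr.1.length)
      (DFP.wG P.y Gr.2 0) := ⟨_, rfl⟩
  rw [← hzd] at hz
  have hT : tutte x y Gr = (1 / (1 - P.y)) ^ (Gr.1.length - 1) * z := by
    rw [hzd, hPt, hPy, DFP.tutte_hub' hV hn1 hcomp hx hy1, lps_rep hRep]
    simp
  -- the state
  obtain ⟨L, hL⟩ : ∃ L, L = ini Gr.2 Gr.1.length := ⟨_, rfl⟩
  have hLs : Srt L := by rw [hL]; exact srt_ini _ _
  have hLl : L.length = Gr.1.length - 1 := by rw [hL]; exact ini_length _ _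
  have hvs : vs L = Ico 1 Gr.1.length := by rw [hL]; exact vs_ini _ _
  have hsv : ∀ v ∈ Ico 1 Gr.1.length, sv P.y L v = DFP.wG P.y Gr.2 0 v := fun v hv => by
    rw [hL]
    exact sv_ini P.y _ _ hv
  have hhub : DFP.hub P.t (DFP.wG P.y Gr.2) (vs L) (sv P.y L) = z := by
    rw [hvs, hzd]
    exact DFP.hub_congr P.t _ hsv
  have hS2' : S2 P.t P.r (DFP.wG P.y Gr.2) L.length (vs L) (sv P.y L) ≤
      (Gr.1.length + 1) ^ e * z ^ 2 := by
    rw [hvs, hLl]
    have h1 := S2_loc P.t P.r (Gr.1.length - 1) (DFP.wG P.y Gr.2) (wA P.y (EG H))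
      (Ico 1 Gr.1.length) (sv P.y L) (wA P.y (EG H) 0) (fun u hu v hv => (hwG u hu v hv).symm)
      (fun v hv => by rw [hsv v hv, hw0 v hv])
    simp only at h1
    rw [h1]
    refine le_trans hS2 (le_of_eq ?_)
    rw [fin_hub_w P.t hwG hw0, ← hzd]
  -- the error of the choices
  have hb0' := hb0 Gr.1.length N.length
  obtain ⟨δ, hδ⟩ : ∃ δ : ℚ, δ = Gr.1.length / (c1 * 2 ^ b.length) := ⟨_, rfl⟩
  have hδn : (Gr.1.length : ℚ) * δ ≤ 1 / (16 * (N.length + 1)) := by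
    rw [hδ, hbl, ← add_assoc]
    exact hb0'
  have hδ0 : 0 ≤ δ := by rw [hδ]; positivity
  have hn1' : (1 : ℚ) ≤ Gr.1.length := by exact_mod_cast hn1
  have hm0 : (0 : ℚ) ≤ N.length := Nat.cast_nonneg _
  have h16 : (1 : ℚ) / (16 * (N.length + 1)) ≤ 1 / 16 := by
    apply div_le_div_of_nonneg_left (by norm_num) (by norm_num)
    linarith
  have hδ1 : δ ≤ 1 / 16 := by nlinarith
  have hq : ∀ L : LS, Srt L → L ≠ [] → L.length ≤ Gr.1.length → 0 < UL P L → ∀ u ∈ vs L,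
      |qq P b L u - cc P.t (vs L) (sv P.y L) u * rt P.t P.r (vs L) (sv P.y L) u| ≤
        δ * (cc P.t (vs L) (sv P.y L) u * rt P.t P.r (vs L) (sv P.y L) u) := by
    intro L1 hL1 hL2 hL3 hL4 u hu
    refine (hqc b L1 hL1 hL2 hL4 u hu).trans ?_
    have hbd := sv_bd hyl L1
    have h0 : 0 ≤ cc P.t (vs L1) (sv P.y L1) u * rt P.t P.r (vs L1) (sv P.y L1) u :=
      mul_nonneg (cc_nonneg ht (hbd u hu)) (rt_nonneg ht hr u hbd)
    refine mul_le_mul_of_nonneg_right ?_ h0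
    rw [hδ]
    have : (L1.length : ℚ) ≤ Gr.1.length := by exact_mod_cast hL3
    gcongr
  have hLn : L.length ≤ Gr.1.length := by omega
  obtain ⟨hm1, hm2⟩ := mom1 ht hr hyl hδ0 (by linarith) Gr.2 b hq hLs hLn
  have hm3 := mom2 ht hr hyl hδ0 (by linarith) Gr.2 b hq hLs hLn
  rw [hhub] at hm1 hm2
  have hLM : L.length * b.length = M.length := by rw [hLl, hMl]
  rw [hLM] at hm1 hm2 hm3
  have hLδ : (L.length : ℚ) * δ ≤ 1 / (16 * (N.length + 1)) := by
    refine le_trans ?_ hδn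
    have : (L.length : ℚ) ≤ Gr.1.length := by exact_mod_cast hLn
    gcongr
  have hlo := one_sub_le hδ0 (by linarith : δ ≤ 1) L.length
  have hup := one_add_le hδ0 (n := L.length) (by linarith)
  have hη : (1 : ℚ) / (2 * (N.length + 1)) * z / 2 = 4 * (1 / (16 * (N.length + 1))) * z := by
    field_simp
    norm_num
  have hlen : (Gr.1.tail).length = L.length := by rw [hLl, List.length_tail]
  have hX : ∀ l, trial P Gr.2 b Gr.1.tail L l = tv P Gr.2 b L.length l L := fun l => by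
    rw [trial_eq, hlen]
  have h16' : (0 : ℚ) < 1 / (16 * (N.length + 1)) := by positivity
  have hc1' : |avg M.length (fun l => trial P Gr.2 b Gr.1.tail L l) - z| ≤
      1 / (2 * (N.length + 1)) * z / 2 := by
    simp only [hX]
    rw [hη, abs_le]
    constructor
    · nlinarith
    · nlinarith
  have hc2' : avg M.length (fun l => trial P Gr.2 b Gr.1.tail L l ^ 2) ≤
      2 * (Gr.1.length + 1) ^ e * z ^ 2 := by
    simp only [hX]
    refine hm3.trans ?_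
    have h5 : (0 : ℚ) ≤ (Gr.1.length + 1) ^ e * z ^ 2 := by positivity
    have h6 : (1 + δ) ^ L.length ≤ 2 := by linarith
    have h7 : (0 : ℚ) ≤ (1 + δ) ^ L.length := by positivity
    calc (1 + δ) ^ L.length * S2 P.t P.r (DFP.wG P.y Gr.2) L.length (vs L) (sv P.y L)
        ≤ (1 + δ) ^ L.length * ((Gr.1.length + 1) ^ e * z ^ 2) :=
          mul_le_mul_of_nonneg_left hS2' h7
      _ ≤ 2 * ((Gr.1.length + 1) ^ e * z ^ 2) := mul_le_mul_of_nonneg_right h6 h5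
      _ = 2 * (Gr.1.length + 1) ^ e * z ^ 2 := by ring
  have hnk := num_k e Gr.1.length N.length t0 h2t hnt hmt
  have hV' : 16 * (2 * ((Gr.1.length : ℚ) + 1) ^ e * z ^ 2) ≤
      ((t0 ^ (e + 9) : ℕ) : ℚ) * (1 / (2 * ((N.length : ℚ) + 1))) ^ 2 * z ^ 2 := by
    push_cast
    have hz2 : 0 ≤ z ^ 2 := by positivity
    nlinarith
  have hgood := cheb (M := M) (k := t0 ^ (e + 9)) (by positivity)
    (fun l => trial P Gr.2 b Gr.1.tail L l) hz
    (by positivity : (0 : ℚ) < 1 / (2 * ((N.length : ℚ) + 1))) hc1' hc2' hV'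
  -- the estimate
  have hest : ∀ l, est P Gr.2 b Gr.1.tail M (Helper22.un (t0 ^ (e + 9))) L l =
      ((chk M (t0 ^ (e + 9)) l).map fun l' => trial P Gr.2 b Gr.1.tail L l').sum /
        ((t0 ^ (e + 9) : ℕ) : ℚ) := by
    intro l
    unfold est
    rw [hkl]
  have hf := count_of (nb := nb) (K := t0 ^ (e + 9) * M.length) hK
    (fun l => est P Gr.2 b Gr.1.tail M (Helper22.un (t0 ^ (e + 9))) L l)
    (fun l => by rw [hest, hest, chk_take])
    (z := z) (T := tutte x y Gr) (c := (1 / (1 - P.y)) ^ (Gr.1.length - 1)) N.length hz.le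
    (by
      have : 0 < 1 - P.y := by rw [hPy]; linarith
      positivity) hT
    (by
      simp only [hest]
      exact hgood)
    (fun l => A ((Gr, N), l)) (fun l => hA2 _) (fun l => by
      rw [hA3]
      unfold algQ
      simp only
      rw [← hb, ← hM, ← ht0, ← hL, List.length_tail])
  simpa using hf

end Pool.Agent.AAG
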