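import Pool.Agent.AAG.Rec
import Pool.Agent.AAG.Crd

set_option autoImplicit false

/-!
# AAG-Jen: the identities for `0 ≤ r`

`P_m(k) = C(m,k) r^(k(k-1)/2) g_(m-k)(r^k)`, `f_m = ff (t+1) r m`.

PLAN. `jen_sum`: insert `gg_eq` for `gg t r (m-k) (r^k)` and collect `n = k + c`:
`C(m,k) C(m-k,c) = C(m,n) C(n,k)` (`Nat.choose_mul`), `k(k-1)/2 + k c + c(c-1)/2 = n(n-1)/2`.
So `∑_k P_m(k) h(k) = ∑_n C(m,n) r^(n(n-1)/2) f_(m-n) ∑_(k ≤ n) C(n,k) (-1)^(n-k) h(k)`
(swap the two sums, e.g. with `Finset.sum_sigma'` or `Finset.range_add_one`/`Finset.Nat.sum_antidiagonal`).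
The inner sums: `h = 1`: `[n = 0]`; `h = k`: `[n = 1]`; `h = k(k-1)`: `2 [n = 2]`; `h = z^k`:
`(z-1)^n` (binomial theorem `add_pow`; the first three follow from it: value, first and second
derivative at `z = 1`, or `Int.alternating_sum_range_choose` and `k C(n,k) = n C(n-1,k-1)`).
With `h = (1 - c)^k`: `∑ P_m(k) (1-c)^k = g_m(c)`.
-/

namespace Pool.Agent.AAG

open Finset

/-- the weights `P_m(k)` -/
noncomputable def Pm (t r : ℚ) (m k : ℕ) : ℚ :=
  (m.choose k : ℚ) * r ^ (k * (k - 1) / 2) * gg t r (m - k) (r ^ k)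

private theorem Jen_tri (k c : ℕ) :
    k * (k - 1) / 2 + k * c + c * (c - 1) / 2 = (k + c) * (k + c - 1) / 2 := by
  have h : ∀ n : ℕ, 2 * (n * (n - 1) / 2) = n * (n - 1) := fun n =>
    Nat.mul_div_cancel' (Nat.even_mul_pred_self n).two_dvd
  have h1 := h k
  have h2 := h c
  have h3 := h (k + c)
  have h4 : (k + c) * (k + c - 1) = k * (k - 1) + 2 * (k * c) + c * (c - 1) := by
    rcases k with _ | k
    · simp
    · rcases c with _ | c
      · simp
      · have e1 : k + 1 + (c + 1) - 1 = k + c + 1 := by omega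
        have e2 : k + 1 - 1 = k := rfl
        have e3 : c + 1 - 1 = c := rfl
        rw [e1, e2, e3]
        ring
  omega

private theorem Jen_pow (z : ℚ) (n : ℕ) :
    ∑ k ∈ range (n + 1), (n.choose k : ℚ) * (-1) ^ (n - k) * z ^ k = (z - 1) ^ n := by
  rw [sub_eq_add_neg, add_pow]
  refine sum_congr rfl fun k _ => ?_
  ring

private theorem Jen_0 (n : ℕ) :
    ∑ k ∈ range (n + 1), (n.choose k : ℚ) * (-1) ^ (n - k) = if n = 0 then 1 else 0 := by
  have h := Jen_pow 1 n
  simp only [one_pow, mul_one, sub_self] at h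
  rw [h]
  split_ifs with h0
  · rw [h0, pow_zero]
  · exact zero_pow h0

private theorem Jen_1 (n : ℕ) :
    ∑ k ∈ range (n + 1), (n.choose k : ℚ) * (-1) ^ (n - k) * (k : ℚ) = if n = 1 then 1 else 0 := by
  rcases n with _ | n
  · simp
  · rw [sum_range_succ']
    have e1 : ∀ j ∈ range (n + 1), ((n + 1).choose (j + 1) : ℚ) * (-1) ^ (n + 1 - (j + 1)) *
        ((j + 1 : ℕ) : ℚ) = ((n : ℚ) + 1) * ((n.choose j : ℚ) * (-1) ^ (n - j)) := by
      intro j _
      have h := Nat.add_one_mul_choose_eq n j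
      have h' : ((n : ℚ) + 1) * (n.choose j : ℚ) = ((n + 1).choose (j + 1) : ℚ) * ((j : ℚ) + 1) := by
        exact_mod_cast h
      rw [Nat.add_sub_add_right]
      push_cast
      linear_combination (-(-1 : ℚ) ^ (n - j)) * h'
    rw [sum_congr rfl e1, ← mul_sum, Jen_0]
    rcases n with _ | n
    · simp
    · simp

private theorem Jen_2 (n : ℕ) :
    ∑ k ∈ range (n + 1), (n.choose k : ℚ) * (-1) ^ (n - k) * ((k : ℚ) * ((k : ℚ) - 1)) =
      if n = 2 then 2 else 0 := by
  rcases n with _ | n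
  · simp
  · rw [sum_range_succ']
    have e1 : ∀ j ∈ range (n + 1), ((n + 1).choose (j + 1) : ℚ) * (-1) ^ (n + 1 - (j + 1)) *
        (((j + 1 : ℕ) : ℚ) * (((j + 1 : ℕ) : ℚ) - 1)) =
        ((n : ℚ) + 1) * ((n.choose j : ℚ) * (-1) ^ (n - j) * (j : ℚ)) := by
      intro j _
      have h := Nat.add_one_mul_choose_eq n j
      have h' : ((n : ℚ) + 1) * (n.choose j : ℚ) = ((n + 1).choose (j + 1) : ℚ) * ((j : ℚ) + 1) := by
        exact_mod_cast h
      rw [Nat.add_sub_add_right]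
      push_cast
      linear_combination (-(-1 : ℚ) ^ (n - j) * (j : ℚ)) * h'
    rw [sum_congr rfl e1, ← mul_sum, Jen_1]
    by_cases h1 : n = 1
    · subst h1
      norm_num
    · rw [if_neg h1, if_neg (by omega)]
      simp

theorem Pm_nonneg {t r : ℚ} (ht : 0 ≤ t) (h0 : 0 ≤ r) (h1 : r ≤ 1) (m k : ℕ) : 0 ≤ Pm t r m k := by
  unfold Pm
  have hg : 0 ≤ gg t r (m - k) (r ^ k) := by
    unfold gg U
    refine hub_nonneg' ht (fun _ _ => rfl) (fun _ _ _ _ => ?_) (fun _ _ => ?_)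
    · rw [abs_of_nonneg h0]
      exact h1
    · rw [abs_of_nonneg (pow_nonneg h0 k)]
      exact pow_le_one₀ h0 h1
  positivity

theorem Pm_sum (t r : ℚ) (m : ℕ) (h : ℕ → ℚ) :
    ∑ k ∈ range (m + 1), Pm t r m k * h k = ∑ n ∈ range (m + 1), (m.choose n : ℚ) *
      r ^ (n * (n - 1) / 2) * ff (t + 1) r (m - n) *
        ∑ k ∈ range (n + 1), (n.choose k : ℚ) * (-1) ^ (n - k) * h k := by
  simp only [mul_sum]
  rw [sum_comm' (s' := fun k => Ico k (m + 1)) (t' := range (m + 1)) (by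
    intro n k
    simp only [mem_range, mem_Ico]
    omega)]
  refine sum_congr rfl fun k hk => ?_
  rw [mem_range] at hk
  have hk' : k ≤ m := by omega
  rw [sum_Ico_eq_sum_range]
  unfold Pm
  rw [gg_eq, mul_sum, sum_mul]
  have e : m - k + 1 = m + 1 - k := by omega
  rw [e]
  refine sum_congr rfl fun c hc => ?_
  rw [mem_range] at hc
  have hc' : c ≤ m - k := by omega
  have e1 : m - k - c = m - (k + c) := by omega
  have e2 : k + c - k = c := by omega
  have e3 : (m.choose k : ℚ) * ((m - k).choose c : ℚ) =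
      (m.choose (k + c) : ℚ) * ((k + c).choose k : ℚ) := by
    have := Nat.choose_mul (n := m) (k := k + c) (s := k) (by omega)
    rw [e2] at this
    exact_mod_cast this.symm
  rw [e1, e2, ← Jen_tri k c, pow_add, pow_add, pow_mul r k c]
  linear_combination (r ^ (k * (k - 1) / 2) * (-1) ^ c * (r ^ k) ^ c * r ^ (c * (c - 1) / 2) *
    ff (t + 1) r (m - (k + c)) * h k) * e3

theorem Pm_zero (t r : ℚ) (m : ℕ) : ∑ k ∈ range (m + 1), Pm t r m k = ff (t + 1) r m := by
  have h := Pm_sum t r m (fun _ => 1)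
  simp only [mul_one] at h
  rw [h]
  simp only [Jen_0]
  rw [sum_eq_single 0]
  · simp
  · intro n _ hn
    rw [if_neg hn, mul_zero]
  · intro h0
    exact absurd (mem_range.2 (Nat.succ_pos m)) h0

theorem Pm_one (t r : ℚ) (m : ℕ) :
    ∑ k ∈ range (m + 1), Pm t r m k * k = m * ff (t + 1) r (m - 1) := by
  rw [Pm_sum t r m (fun k => (k : ℚ))]
  simp only [Jen_1]
  rcases m with _ | m
  · simp
  · rw [sum_eq_single 1]
    · simp
    · intro n _ hn
      rw [if_neg hn, mul_zero]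
    · intro h0
      exact absurd (mem_range.2 (by omega)) h0

theorem Pm_two (t r : ℚ) (m : ℕ) :
    ∑ k ∈ range (m + 1), Pm t r m k * (k * (k - 1)) =
      r * (m * (m - 1)) * ff (t + 1) r (m - 2) := by
  rw [Pm_sum t r m (fun k => (k : ℚ) * ((k : ℚ) - 1))]
  simp only [Jen_2]
  by_cases h2 : 2 ≤ m
  · rw [sum_eq_single 2]
    · have h3 : ((m.choose 2 : ℕ) : ℚ) * 2 = (m : ℚ) * ((m : ℚ) - 1) := by
        rw [Nat.cast_choose_two]
        ring
      rw [if_pos rfl]
      have h4 : r ^ (2 * (2 - 1) / 2) = r := by norm_num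
      rw [h4]
      linear_combination (r * ff (t + 1) r (m - 2)) * h3
    · intro n _ hn
      rw [if_neg hn, mul_zero]
    · intro h0
      exact absurd (mem_range.2 (by omega)) h0
  · rw [sum_eq_zero]
    · have h5 : m = 0 ∨ m = 1 := by omega
      rcases h5 with h5 | h5
      · rw [h5]
        simp
      · rw [h5]
        simp
    · intro n hn
      rw [mem_range] at hn
      rw [if_neg (by omega), mul_zero]

theorem Pm_pow (t r : ℚ) (m : ℕ) (c : ℚ) :
    ∑ k ∈ range (m + 1), Pm t r m k * (1 - c) ^ k = gg t r m c := by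
  rw [Pm_sum, gg_eq]
  refine sum_congr rfl fun n _ => ?_
  rw [Jen_pow]
  have e : (1 - c - 1) ^ n = (-1) ^ n * c ^ n := by
    rw [← mul_pow]
    congr 1
    ring
  rw [e]
  ring

end Pool.Agent.AAG
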