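import Pool.Agent.AAG.Jen

set_option autoImplicit false

/-!
# AAG-Jex: Lemma 1 for `0 ≤ r < 1`

PLAN. `f_m = ff (t+1) r m = gg t r m 0` (`gg_eq` at `c = 0`, or `DFP.hub_zero`). Positivity:
`gg_rec_lower` below (`b_m ≥ m (1 - |r|) b_(m-1)`, `b_0 = 1`) so `b_m > 0`, and `f_m ≥ b_m > 0`
(`hub_anti'`). Put `x_m = m f_(m-1) / f_m`, `X = 1 / (1 - r)`.
Cauchy-Schwarz (`Finset.sum_mul_sq_le_sq_mul_sq` or: `∑ P_m(k) (k - x_m)^2 ≥ 0`) gives
`f_m x_m^2 ≤ ∑ P_m(k) k^2 = m f_(m-1) + r m (m-1) f_(m-2)`, so `x_m ≤ 1 + r x_(m-1)`, and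
`x_m ≤ X` by induction: `m f_(m-1) ≤ X f_m` (`ff_ratio`).
Markov: `∑_(k > K) P_m(k) ≤ (∑ P_m(k) k)/(K+1) ≤ X f_m/(K+1) ≤ f_m / 2` if `K + 1 ≥ 2 X`. So
`gg t r m r = ∑ P_m(k) (1-r)^k ≥ (1-r)^K f_m / 2`.
`gg t r m (-1) = ∑ C(m,k) r^(..) f_(m-k) ≤ ∑ X^k / k! f_m ≤ E f_m` (`m(m-1)..(m-k+1) f_(m-k) ≤ X^k f_m`
by iterating `ff_ratio`; `C(m,k) k! = m.descFactorial k`), `E` any rational upper bound of the partial
sums of `exp X` (`Real.sum_le_exp_of_nonneg` and `exists_rat_gt`).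
-/

namespace Pool.Agent.AAG

open Finset

private theorem Jex_bd {c : ℚ} (hc : |c| ≤ 1) (J : Finset ℕ) : Bd1 J (fun _ => c) := fun _ _ => hc

private theorem Jex_nonneg {t r c : ℚ} (ht : 0 ≤ t) (hr : |r| < 1) (hc : |c| ≤ 1) (m : ℕ) :
    0 ≤ gg t r m c :=
  hub_nonneg' ht (fun _ _ => rfl) (fun _ _ _ _ => hr.le) (Jex_bd hc _)

theorem gg_rec_lower {t r : ℚ} (ht : 0 ≤ t) (hr : |r| < 1) (m : ℕ) :
    (m + 1) * (1 - |r|) * gg t r m |r| ≤ gg t r (m + 1) |r| := by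
  have hr0 : 0 ≤ |r| := abs_nonneg r
  have h0 : 0 ≤ gg t r m |r| := Jex_nonneg ht hr (by rw [abs_abs]; exact hr.le) m
  have hS : Bd1 (range (m + 1)) (fun _ => |r|) := Jex_bd (by rw [abs_abs]; exact hr.le) _
  have hw1 : ∀ (J : Finset ℕ), ∀ a ∈ J, ∀ b ∈ J, |(fun _ _ => r : ℕ → ℕ → ℚ) a b| ≤ 1 :=
    fun _ _ _ _ _ => hr.le
  have e : gg t r (m + 1) |r| = ∑ u ∈ range (m + 1), cc t (range (m + 1)) (fun _ => |r|) u *
      DFP.hub t (fun _ _ => r) ((range (m + 1)).erase u)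
        (nx (fun _ _ => r) (fun _ => |r|) u) :=
    hub_rec t (fun _ _ => rfl) ⟨0, mem_range.2 (Nat.succ_pos m)⟩ _
  have h1 : ∀ u ∈ range (m + 1), (1 - |r|) * gg t r m |r| ≤
      cc t (range (m + 1)) (fun _ => |r|) u * DFP.hub t (fun _ _ => r) ((range (m + 1)).erase u)
        (nx (fun _ _ => r) (fun _ => |r|) u) := by
    intro u hu
    have hc : 1 - |r| ≤ cc t (range (m + 1)) (fun _ => |r|) u := by
      unfold cc
      split_ifs
      · linarith
      · linarith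
    have hb : gg t r m |r| ≤ DFP.hub t (fun _ _ => r) ((range (m + 1)).erase u)
        (nx (fun _ _ => r) (fun _ => |r|) u) := by
      have e2 : gg t r m |r| = DFP.hub t (fun _ _ => r) ((range (m + 1)).erase u)
          (fun _ => |r|) := by
        have := U_card t r ((range (m + 1)).erase u) |r|
        rw [card_erase_of_mem hu, card_range, Nat.add_sub_cancel] at this
        exact this.symm
      rw [e2]
      refine hub_anti' ht (fun _ _ => rfl) (fun _ _ _ _ => hr.le) (nx_bd hu (hw1 _) hS)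
        (Jex_bd (by rw [abs_abs]; exact hr.le) _) ?_
      intro x _
      unfold nx cut
      dsimp only
      split_ifs
      · have h2 : r * |r| ≤ |r| * |r| := mul_le_mul_of_nonneg_right (le_abs_self r) hr0
        nlinarith
      · rw [mul_one]
        exact le_abs_self r
    exact mul_le_mul hc hb h0 (le_trans (by linarith) hc)
  rw [e]
  have h2 := sum_le_sum h1
  rw [sum_const, card_range, nsmul_eq_mul] at h2
  push_cast at h2
  linarith

theorem gg_zero (t r c : ℚ) : gg t r 0 c = 1 := by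
  unfold gg
  rw [range_zero, U_empty]

theorem gg_pos {t r : ℚ} (ht : 0 ≤ t) (hr : |r| < 1) (m : ℕ) : 0 < gg t r m |r| := by
  induction m with
  | zero => rw [gg_zero]; exact one_pos
  | succ m ih =>
    have h := gg_rec_lower ht hr m
    have h1 : 0 < 1 - |r| := by linarith
    have h2 : (0 : ℚ) < (m : ℚ) + 1 := by positivity
    exact lt_of_lt_of_le (by positivity) h

private theorem Jex_ff (t r : ℚ) (m : ℕ) : ff (t + 1) r m = gg t r m 0 :=
  (DFP.hub_zero t (fun _ _ => r) (range m)).symm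

private theorem Jex_ff_pos {t r : ℚ} (ht : 0 ≤ t) (hr : |r| < 1) (m : ℕ) :
    0 < ff (t + 1) r m := by
  rw [Jex_ff]
  refine lt_of_lt_of_le (gg_pos ht hr m) ?_
  exact hub_anti' ht (fun _ _ => rfl) (fun _ _ _ _ => hr.le)
    (Jex_bd (by rw [abs_zero]; exact zero_le_one) _) (Jex_bd (by rw [abs_abs]; exact hr.le) _)
    (fun x _ => abs_nonneg r)

theorem ff_ratio {t r : ℚ} (ht : 0 ≤ t) (h0 : 0 ≤ r) (h1 : r < 1) (m : ℕ) :
    m * ff (t + 1) r (m - 1) ≤ 1 / (1 - r) * ff (t + 1) r m := by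
  have hr : |r| < 1 := by rw [abs_of_nonneg h0]; exact h1
  have hX : 0 < 1 / (1 - r) := by
    have : 0 < 1 - r := by linarith
    positivity
  have hX1 : 1 + r * (1 / (1 - r)) = 1 / (1 - r) := by
    have : 1 - r ≠ 0 := by linarith
    field_simp
    ring
  induction m with
  | zero =>
    rw [Nat.cast_zero, zero_mul]
    exact (mul_pos hX (Jex_ff_pos ht hr 0)).le
  | succ m ih =>
    have hP : ∀ k, 0 ≤ Pm t r (m + 1) k := fun k => Pm_nonneg ht h0 h1.le (m + 1) k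
    have hcs := Finset.sum_sq_le_sum_mul_sum_of_sq_le_mul (range (m + 1 + 1))
      (r := fun k : ℕ => Pm t r (m + 1) k * (k : ℚ)) (f := fun k => Pm t r (m + 1) k)
      (g := fun k : ℕ => Pm t r (m + 1) k * (k : ℚ) ^ 2) (fun k _ => hP k)
      (fun k _ => mul_nonneg (hP k) (sq_nonneg _)) (fun k _ => le_of_eq (by ring))
    have e2 : ∑ k ∈ range (m + 1 + 1), Pm t r (m + 1) k * (k : ℚ) ^ 2 =
        ∑ k ∈ range (m + 1 + 1), Pm t r (m + 1) k * ((k : ℚ) * ((k : ℚ) - 1)) +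
        ∑ k ∈ range (m + 1 + 1), Pm t r (m + 1) k * (k : ℚ) := by
      rw [← sum_add_distrib]
      exact sum_congr rfl fun k _ => by ring
    rw [e2, Pm_zero, Pm_one, Pm_two] at hcs
    have e3 : m + 1 - 1 = m := rfl
    have e4 : m + 1 - 2 = m - 1 := rfl
    rw [e3, e4] at hcs
    push_cast at hcs ⊢
    have hf1 := Jex_ff_pos ht hr (m + 1)
    have hf0 := Jex_ff_pos ht hr m
    generalize ff (t + 1) r (m + 1) = F1 at *
    generalize ff (t + 1) r m = F0 at *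
    generalize ff (t + 1) r (m - 1) = Fm at *
    generalize 1 / (1 - r) = X at *
    have hm : (0 : ℚ) < (m : ℚ) + 1 := by positivity
    have hA : 0 < ((m : ℚ) + 1) * F0 := by positivity
    have h3 : r * (m * Fm) ≤ r * (X * F0) := mul_le_mul_of_nonneg_left ih h0
    have h4 : r * (((m : ℚ) + 1) * ((m : ℚ) + 1 - 1)) * Fm + ((m : ℚ) + 1) * F0 ≤
        ((m : ℚ) + 1) * F0 * X := by
      have h5 : ((m : ℚ) + 1) * (r * (m * Fm)) ≤ ((m : ℚ) + 1) * (r * (X * F0)) :=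
        mul_le_mul_of_nonneg_left h3 hm.le
      have h6 : ((m : ℚ) + 1) * F0 * X = ((m : ℚ) + 1) * F0 + ((m : ℚ) + 1) * (r * (X * F0)) := by
        linear_combination (-(((m : ℚ) + 1) * F0)) * hX1
      rw [h6]
      linarith
    have h7 : (((m : ℚ) + 1) * F0) ^ 2 ≤ F1 * (((m : ℚ) + 1) * F0 * X) :=
      le_trans hcs (mul_le_mul_of_nonneg_left h4 hf1.le)
    have h8 : (((m : ℚ) + 1) * F0) * (((m : ℚ) + 1) * F0) ≤ (((m : ℚ) + 1) * F0) * (X * F1) := by
      linarith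
    exact le_of_mul_le_mul_left h8 hA

private theorem Jex_desc {t r : ℚ} (ht : 0 ≤ t) (h0 : 0 ≤ r) (h1 : r < 1) (m k : ℕ) :
    (m.descFactorial k : ℚ) * ff (t + 1) r (m - k) ≤ (1 / (1 - r)) ^ k * ff (t + 1) r m := by
  have hX : 0 < 1 / (1 - r) := by
    have : 0 < 1 - r := by linarith
    positivity
  induction k with
  | zero => simp
  | succ k ih =>
    rw [Nat.descFactorial_succ, ← Nat.sub_sub]
    push_cast
    have h := ff_ratio ht h0 h1 (m - k)
    have hd : (0 : ℚ) ≤ (m.descFactorial k : ℚ) := Nat.cast_nonneg _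
    have h2 := mul_le_mul_of_nonneg_left h hd
    have h3 := mul_le_mul_of_nonneg_left ih hX.le
    rw [pow_succ]
    calc ((m - k : ℕ) : ℚ) * (m.descFactorial k : ℚ) * ff (t + 1) r (m - k - 1)
        = (m.descFactorial k : ℚ) * (((m - k : ℕ) : ℚ) * ff (t + 1) r (m - k - 1)) := by ring
      _ ≤ (m.descFactorial k : ℚ) * (1 / (1 - r) * ff (t + 1) r (m - k)) := h2
      _ = 1 / (1 - r) * ((m.descFactorial k : ℚ) * ff (t + 1) r (m - k)) := by ring
      _ ≤ 1 / (1 - r) * ((1 / (1 - r)) ^ k * ff (t + 1) r m) := h3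
      _ = _ := by ring

private theorem Jex_exp {X : ℚ} (hX : 0 ≤ X) :
    ∃ E : ℚ, 0 < E ∧ ∀ n : ℕ, ∑ k ∈ range n, X ^ k / (k.factorial : ℚ) ≤ E := by
  obtain ⟨E, hE⟩ := exists_rat_gt (Real.exp (X : ℝ))
  refine ⟨E, ?_, fun n => ?_⟩
  · have : (0 : ℝ) < (E : ℝ) := lt_trans (Real.exp_pos _) hE
    exact_mod_cast this
  · have h := Real.sum_le_exp_of_nonneg (x := (X : ℝ)) (by exact_mod_cast hX) n
    have h2 : ((∑ k ∈ range n, X ^ k / (k.factorial : ℚ) : ℚ) : ℝ) ≤ (E : ℝ) := by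
      push_cast
      exact le_trans h hE.le
    exact_mod_cast h2

theorem jen_main {t r : ℚ} (ht : 0 ≤ t) (h0 : 0 ≤ r) (h1 : r < 1) :
    ∃ C : ℚ, 1 ≤ C ∧ ∀ m : ℕ, gg t r m (-1) ≤ C * gg t r m |r| := by
  have hr : |r| < 1 := by rw [abs_of_nonneg h0]; exact h1
  have hr1 : 0 < 1 - r := by linarith
  have hX : 0 < 1 / (1 - r) := by positivity
  obtain ⟨E, hE0, hE⟩ := Jex_exp hX.le
  obtain ⟨K, hK⟩ := exists_nat_ge (2 * (1 / (1 - r)))
  have hK1 : 0 < (1 - r) ^ K := by positivity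
  refine ⟨1 + 2 * E / (1 - r) ^ K, ?_, fun m => ?_⟩
  · have : 0 ≤ 2 * E / (1 - r) ^ K := by positivity
    linarith
  have hf := Jex_ff_pos ht hr m
  -- lower bound
  have hlow : (1 - r) ^ K * ff (t + 1) r m ≤ 2 * gg t r m r := by
    have hP : ∀ k, 0 ≤ Pm t r m k := fun k => Pm_nonneg ht h0 h1.le m k
    have h2 : ∑ k ∈ range (m + 1), Pm t r m k * ((1 - r) ^ K * (1 - (k : ℚ) / ((K : ℚ) + 1))) ≤
        ∑ k ∈ range (m + 1), Pm t r m k * (1 - r) ^ k := by
      refine sum_le_sum fun k _ => mul_le_mul_of_nonneg_left ?_ (hP k)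
      have hk0 : (0 : ℚ) ≤ (k : ℚ) / ((K : ℚ) + 1) := by positivity
      rcases Nat.lt_or_ge K k with hk | hk
      · have hk1 : 1 ≤ (k : ℚ) / ((K : ℚ) + 1) := by
          rw [le_div_iff₀ (by positivity), one_mul]
          exact_mod_cast hk
        have h3 : (1 - r) ^ K * (1 - (k : ℚ) / ((K : ℚ) + 1)) ≤ 0 :=
          mul_nonpos_of_nonneg_of_nonpos hK1.le (by linarith)
        have h4 : 0 ≤ (1 - r) ^ k := by positivity
        linarith
      · have h3 : (1 - r) ^ K ≤ (1 - r) ^ k := pow_le_pow_of_le_one hr1.le (by linarith) hk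
        have h4 : (1 - r) ^ K * (1 - (k : ℚ) / ((K : ℚ) + 1)) ≤ (1 - r) ^ K * 1 :=
          mul_le_mul_of_nonneg_left (by linarith) hK1.le
        linarith
    rw [Pm_pow] at h2
    have h3 : ∑ k ∈ range (m + 1), Pm t r m k * ((1 - r) ^ K * (1 - (k : ℚ) / ((K : ℚ) + 1))) =
        (1 - r) ^ K * (ff (t + 1) r m - (m * ff (t + 1) r (m - 1)) / ((K : ℚ) + 1)) := by
      rw [← Pm_zero t r m, ← Pm_one t r m, sum_div, ← sum_sub_distrib, mul_sum]
      refine sum_congr rfl fun k _ => ?_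
      ring
    rw [h3] at h2
    have h4 := ff_ratio ht h0 h1 m
    have h5 : (m * ff (t + 1) r (m - 1)) / ((K : ℚ) + 1) ≤ ff (t + 1) r m / 2 := by
      rw [div_le_div_iff₀ (by positivity) (by norm_num)]
      have h6 : 2 * (1 / (1 - r)) * ff (t + 1) r m ≤ ((K : ℚ) + 1) * ff (t + 1) r m :=
        mul_le_mul_of_nonneg_right (by linarith) hf.le
      linarith
    have h6 : (1 - r) ^ K * (ff (t + 1) r m / 2) ≤
        (1 - r) ^ K * (ff (t + 1) r m - (m * ff (t + 1) r (m - 1)) / ((K : ℚ) + 1)) :=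
      mul_le_mul_of_nonneg_left (by linarith) hK1.le
    linarith
  -- upper bound
  have hup : gg t r m (-1) ≤ E * ff (t + 1) r m := by
    rw [gg_eq]
    have h2 : ∀ k ∈ range (m + 1), (m.choose k : ℚ) * ((-1) ^ k * (-1) ^ k *
        r ^ (k * (k - 1) / 2) * ff (t + 1) r (m - k)) ≤
        (1 / (1 - r)) ^ k / (k.factorial : ℚ) * ff (t + 1) r m := by
      intro k _
      have e1 : (-1 : ℚ) ^ k * (-1) ^ k = 1 := by
        rw [← mul_pow]
        norm_num
      rw [e1, one_mul]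
      have hk : (0 : ℚ) < (k.factorial : ℚ) := by exact_mod_cast k.factorial_pos
      have h3 : r ^ (k * (k - 1) / 2) * ff (t + 1) r (m - k) ≤ 1 * ff (t + 1) r (m - k) :=
        mul_le_mul_of_nonneg_right (pow_le_one₀ h0 h1.le) (Jex_ff_pos ht hr _).le
      have h4 := Jex_desc ht h0 h1 m k
      have h5 : (m.descFactorial k : ℚ) = (k.factorial : ℚ) * (m.choose k : ℚ) := by
        exact_mod_cast Nat.descFactorial_eq_factorial_mul_choose m k
      rw [h5] at h4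
      have h6 : (m.choose k : ℚ) * (r ^ (k * (k - 1) / 2) * ff (t + 1) r (m - k)) ≤
          (m.choose k : ℚ) * (1 * ff (t + 1) r (m - k)) :=
        mul_le_mul_of_nonneg_left h3 (Nat.cast_nonneg _)
      refine le_trans h6 ?_
      rw [div_mul_eq_mul_div, le_div_iff₀ hk]
      linarith
    refine le_trans (sum_le_sum h2) ?_
    rw [← sum_mul]
    exact mul_le_mul_of_nonneg_right (hE (m + 1)) hf.le
  rw [abs_of_nonneg h0]
  have hg0 : 0 ≤ gg t r m r := Jex_nonneg ht hr hr.le m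
  have h2 : ff (t + 1) r m ≤ 2 * gg t r m r / (1 - r) ^ K := by
    rw [le_div_iff₀ hK1]
    linarith
  have h3 : E * ff (t + 1) r m ≤ E * (2 * gg t r m r / (1 - r) ^ K) :=
    mul_le_mul_of_nonneg_left h2 hE0.le
  have h4 : E * (2 * gg t r m r / (1 - r) ^ K) = 2 * E / (1 - r) ^ K * gg t r m r := by ring
  linarith

end Pool.Agent.AAG
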