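import Pool.Agent.AAG.Bds

set_option autoImplicit false

/-!
# AAG-Kp: numerical facts

PLAN. `Kp_one`: induction, `D / m ≥ 0` (for `m = 0` it is `0`). `Kp_le`: induction on `m`: `Kp D 1 = 1`; for `m ≥ 1`
`Kp D (m+1) = Kp D m * (1 + D/m)`, `1 + D/m ≤ (1 + 1/m)^d` (Bernoulli `one_add_mul_le_pow`, `D ≤ d`), and
`m^d * (1 + 1/m)^d = (m+1)^d`.
`small_ex`: `om p q0 l = l (1-p)^(l/q0)` (`l / q0` is the natural number division): `l ≤ q0 (l/q0 + 1)` and `k a^k → 0` for `0 ≤ a < 1`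
(`tendsto_self_mul_const_pow_of_lt_one`, `tendsto_pow_atTop_nhds_zero_of_lt_one`; `l / q0 → ∞`:
`Nat.tendsto_div_const_atTop` or by hand); `ρ^l/(1-ρ) → 0`. Work in `ℝ` and cast back, or use Bernoulli directly in `ℚ`:
`(1/a)^k ≥ 1 + k x`, squares.
-/

namespace Pool.Agent.AAG

open Finset

theorem Kp_one {D : ℚ} (hD : 0 ≤ D) (m : ℕ) : 1 ≤ Kp D m := by
  induction m with
  | zero => simp [Kp]
  | succ m ih =>
    have h1 : 0 ≤ D / (m : ℚ) := div_nonneg hD (Nat.cast_nonneg m)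
    have h2 : Kp D (m + 1) = Kp D m * (1 + D / m) := rfl
    rw [h2]
    nlinarith

theorem Kp_le {D : ℚ} (hD : 0 ≤ D) {d : ℕ} (hd : D ≤ d) (m : ℕ) : Kp D (m + 1) ≤ (m + 1) ^ d := by
  induction m with
  | zero => simp [Kp]
  | succ m ih =>
    have h2 : Kp D (m + 1 + 1) = Kp D (m + 1) * (1 + D / ((m + 1 : ℕ) : ℚ)) := rfl
    rw [h2]
    push_cast
    have hm : (0 : ℚ) < (m : ℚ) + 1 := by positivity
    have h3 : 1 + D / ((m : ℚ) + 1) ≤ (1 + 1 / ((m : ℚ) + 1)) ^ d := by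
      have h4 : 1 + (d : ℚ) * (1 / ((m : ℚ) + 1)) ≤ (1 + 1 / ((m : ℚ) + 1)) ^ d :=
        one_add_mul_le_pow (by
          have : (0 : ℚ) ≤ 1 / ((m : ℚ) + 1) := by positivity
          linarith) d
      have h5 : D / ((m : ℚ) + 1) ≤ (d : ℚ) * (1 / ((m : ℚ) + 1)) := by
        rw [mul_one_div]
        exact div_le_div_of_nonneg_right hd hm.le
      linarith
    have h6 : 0 ≤ 1 + D / ((m : ℚ) + 1) := by positivity
    calc Kp D (m + 1) * (1 + D / ((m : ℚ) + 1))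
        ≤ ((m : ℚ) + 1) ^ d * (1 + 1 / ((m : ℚ) + 1)) ^ d :=
          mul_le_mul ih h3 h6 (by positivity)
      _ = ((m : ℚ) + 1 + 1) ^ d := by
          rw [← mul_pow]
          congr 1
          field_simp

theorem Ki_nonneg {C y : ℚ} (hC : 1 ≤ C) (hy : |y| < 1) (q0 : ℕ) : 0 ≤ Ki C y q0 := by
  have h1 : 0 < 1 - |y| := by linarith
  have h2 : 0 ≤ C := by linarith
  unfold Ki
  positivity

theorem small_ex {p ρ : ℚ} (h0 : 0 < p) (h1 : p < 1) {q0 : ℕ} (hq : 1 ≤ q0) (hρ0 : 0 ≤ ρ)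
    (hρ1 : ρ < 1) {ε : ℚ} (hε : 0 < ε) :
    ∃ l0 : ℕ, ∀ l, l0 ≤ l → om p q0 l + ρ ^ l / (1 - ρ) ≤ ε := by
  obtain ⟨a, ha⟩ : ∃ a : ℚ, a = 1 - p := ⟨_, rfl⟩
  have ha0' : 0 ≤ a := by linarith
  have ha1' : a < 1 := by linarith
  have ha0 : (0 : ℝ) ≤ (a : ℝ) := by exact_mod_cast ha0'
  have ha1 : (a : ℝ) < 1 := by exact_mod_cast ha1'
  have t1 := tendsto_self_mul_const_pow_of_lt_one ha0 ha1
  have t2 := tendsto_pow_atTop_nhds_zero_of_lt_one ha0 ha1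
  have t3 : Filter.Tendsto (fun k : ℕ => (q0 : ℝ) * ((k : ℝ) * (a : ℝ) ^ k + (a : ℝ) ^ k))
      Filter.atTop (nhds 0) := by
    simpa using (t1.add t2).const_mul (q0 : ℝ)
  have t4 : Filter.Tendsto (fun l : ℕ => l / q0) Filter.atTop Filter.atTop :=
    Nat.tendsto_div_const_atTop (by omega)
  have t5 := t3.comp t4
  have r0 : (0 : ℝ) ≤ (ρ : ℝ) := by exact_mod_cast hρ0
  have r1 : (ρ : ℝ) < 1 := by exact_mod_cast hρ1
  have t6 : Filter.Tendsto (fun l : ℕ => (ρ : ℝ) ^ l / (1 - (ρ : ℝ))) Filter.atTop (nhds 0) := by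
    simpa using (tendsto_pow_atTop_nhds_zero_of_lt_one r0 r1).div_const (1 - (ρ : ℝ))
  have t7 := t5.add t6
  simp only [add_zero] at t7
  have hε' : (0 : ℝ) < (ε : ℝ) := by exact_mod_cast hε
  obtain ⟨l0, hl0⟩ := Filter.eventually_atTop.1 (t7.eventually (gt_mem_nhds hε'))
  refine ⟨l0, fun l hl => ?_⟩
  have h8 := hl0 l hl
  simp only [Function.comp] at h8
  have h9 : (q0 : ℚ) * (((l / q0 : ℕ) : ℚ) * a ^ (l / q0) + a ^ (l / q0)) + ρ ^ l / (1 - ρ) < ε := by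
    exact_mod_cast h8
  have h10 : (l : ℚ) ≤ (q0 : ℚ) * (((l / q0 : ℕ) : ℚ) + 1) := by
    have h11 : l ≤ q0 * (l / q0 + 1) := by
      have := Nat.div_add_mod l q0
      have := Nat.mod_lt l hq
      rw [Nat.mul_add, Nat.mul_one]
      omega
    exact_mod_cast h11
  have h12 : om p q0 l ≤ (q0 : ℚ) * (((l / q0 : ℕ) : ℚ) * a ^ (l / q0) + a ^ (l / q0)) := by
    unfold om
    rw [← ha]
    have h13 : 0 ≤ a ^ (l / q0) := pow_nonneg ha0' _
    calc (l : ℚ) * a ^ (l / q0) ≤ ((q0 : ℚ) * (((l / q0 : ℕ) : ℚ) + 1)) * a ^ (l / q0) :=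
          mul_le_mul_of_nonneg_right h10 h13
      _ = _ := by ring
  linarith

end Pool.Agent.AAG
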