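import Pool.Agent.AAG.Bds

set_option autoImplicit false

/-!
# AAG-LowB: the inequality between the three functionals

PLAN. `gf_ineq`: induction on `n`, for all `lam`. `n = 0`: all three functionals are equal to the same number `i ∈ {0, 1}`,
`2 lam i - lam^2 i ≤ i`. Step: not good: `0 ≤ 0`. Good: termwise with `lam_u = lam * rt u`:
`cc (2 lam rt P_u - lam^2 rt^2 N_u) = cc (2 lam_u P_u - lam_u^2 N_u) ≤ cc H_u` (`cc ≥ 0` by `cc_nonneg`).
`gf_bd`: `0 ≤ gf .. 1 ≤ 1`: induction; good and `U t r J s > 0`: `∑ cc * rt = 1` (`rt_sum`), all terms `≥ 0`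
(`rt_nonneg`); `J` is nonempty since `J.card = l + n + 1`.
-/

namespace Pool.Agent.AAG

open Finset

theorem rt_nonneg {t r : ℚ} (ht : 0 ≤ t) (hr : |r| < 1) {J : Finset ℕ} {s : ℕ → ℚ} (u : ℕ)
    (hs : Bd1 J s) : 0 ≤ rt t r J s u :=
  div_nonneg (U_nonneg ht hr (nr_bd hr.le u hs)) (U_nonneg ht hr hs)

private theorem LowB_w {J : Finset ℕ} {w : ℕ → ℕ → ℚ} (hw : ∀ a ∈ J, ∀ b ∈ J, |w a b| ≤ 1) (u : ℕ) :
    ∀ a ∈ J.erase u, ∀ b ∈ J.erase u, |w a b| ≤ 1 :=
  fun a ha b hb => hw a (mem_of_mem_erase ha) b (mem_of_mem_erase hb)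

theorem gf_nonneg {t r y : ℚ} (ht : 0 ≤ t) (hr : |r| < 1) (q0 e : ℕ) {w : ℕ → ℕ → ℚ}
    (n : ℕ) {J : Finset ℕ} {s : ℕ → ℚ} (hw : ∀ a ∈ J, ∀ b ∈ J, |w a b| ≤ 1) (hs : Bd1 J s) :
    0 ≤ gf t r y q0 e w n J s := by
  induction n generalizing J s with
  | zero =>
    unfold gf
    split_ifs
    · exact zero_le_one
    · exact le_rfl
  | succ n ih =>
    unfold gf
    split_ifs
    · refine sum_nonneg fun u hu => ?_
      exact mul_nonneg (mul_nonneg (cc_nonneg ht (hs u hu)) (pow_nonneg (rt_nonneg ht hr u hs) e))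
        (ih (LowB_w hw u) (nx_bd hu hw hs))
    · exact le_rfl

theorem gf_le_one {t r y : ℚ} (ht : 0 ≤ t) (hr : |r| < 1) (hy : |y| < 1) (q0 : ℕ)
    {w : ℕ → ℕ → ℚ} (l n : ℕ) {J : Finset ℕ} {s : ℕ → ℚ} (hJ : J.card = l + n)
    (hw : ∀ a ∈ J, ∀ b ∈ J, |w a b| ≤ 1) (hs : Bd1 J s) : gf t r y q0 1 w n J s ≤ 1 := by
  induction n generalizing J s with
  | zero =>
    unfold gf
    split_ifs
    · exact le_rfl
    · exact zero_le_one
  | succ n ih =>
    unfold gf
    split_ifs with hg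
    · have hne : J.Nonempty := by
        rw [← card_pos]
        omega
      have hU := U_pos_good ht hr hy hs hg
      rw [← rt_sum hne hU.ne']
      refine sum_le_sum fun u hu => ?_
      have h1 : 0 ≤ cc t J s u * rt t r J s u ^ 1 :=
        mul_nonneg (cc_nonneg ht (hs u hu)) (pow_nonneg (rt_nonneg ht hr u hs) 1)
      have h2 : (J.erase u).card = l + n := by
        rw [card_erase_of_mem hu]
        omega
      have h3 := ih h2 (LowB_w hw u) (nx_bd hu hw hs)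
      calc cc t J s u * rt t r J s u ^ 1 * gf t r y q0 1 w n (J.erase u) (nx w s u)
          ≤ cc t J s u * rt t r J s u ^ 1 * 1 := mul_le_mul_of_nonneg_left h3 h1
        _ = cc t J s u * rt t r J s u := by rw [mul_one, pow_one]
    · exact zero_le_one

theorem gf_ineq {t r y : ℚ} (ht : 0 ≤ t) (hr : |r| < 1) (q0 : ℕ) {w : ℕ → ℕ → ℚ}
    (n : ℕ) {J : Finset ℕ} {s : ℕ → ℚ} (hw : ∀ a ∈ J, ∀ b ∈ J, |w a b| ≤ 1) (hs : Bd1 J s)
    (lam : ℚ) :
    2 * lam * gf t r y q0 1 w n J s - lam ^ 2 * gf t r y q0 2 w n J s ≤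
      gf t r y q0 0 w n J s := by
  induction n generalizing J s lam with
  | zero =>
    unfold gf
    split_ifs
    · nlinarith [sq_nonneg (lam - 1)]
    · simp
  | succ n ih =>
    unfold gf
    split_ifs
    · rw [mul_sum, mul_sum, ← sum_sub_distrib]
      refine sum_le_sum fun u hu => ?_
      have h1 := ih (LowB_w hw u) (nx_bd hu hw hs) (lam * rt t r J s u)
      have hc : 0 ≤ cc t J s u := cc_nonneg ht (hs u hu)
      have h2 := mul_le_mul_of_nonneg_left h1 hc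
      refine le_trans (le_of_eq ?_) (h2.trans (le_of_eq ?_))
      · ring
      · rw [pow_zero, mul_one]
    · simp

end Pool.Agent.AAG
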