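import Pool.Agent.AAG.RowB
import Pool.Agent.AAG.Kp
import Pool.Agent.AAG.LowB

set_option autoImplicit false

/-!
# AAG-LowC: the functional `N` over random graphs
-/

namespace Pool.Agent.AAG

open Finset

private theorem LowC_cut {J : Finset ℕ} {s : ℕ → ℚ} (u : ℕ) (hs : Bd1 J s) :
    Bd1 (J.erase u) (cut s u) := by
  intro x hx
  unfold cut
  split_ifs
  · exact hs x (Finset.mem_of_mem_erase hx)
  · norm_num

private theorem LowC_row {y : ℚ} (hy : |y| < 1) {J : Finset ℕ} {s : ℕ → ℚ} (u : ℕ)
    (hs : Bd1 J s) (R : Finset ℕ) : Bd1 (J.erase u) (fun x => yR y R x * cut s u x) := by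
  intro x hx
  have h1 := yR_le hy R x
  have h2 := LowC_cut u hs x hx
  show |yR y R x * cut s u x| ≤ 1
  rw [abs_mul]
  exact mul_le_one₀ h1 (abs_nonneg _) h2

private theorem LowC_bad (t r y : ℚ) (q0 e : ℕ) (w : ℕ → ℕ → ℚ) (n : ℕ) {J : Finset ℕ}
    {s : ℕ → ℚ} (hg : ¬ Good y q0 J s) : gf t r y q0 e w n J s = 0 := by
  cases n with
  | zero =>
    unfold gf
    exact if_neg (fun h => hg h.1)
  | succ n =>
    unfold gf
    exact if_neg hg

theorem ep_gf2 {t r y p C : ℚ} (hH : Hyp t r y p) (hb : HB t r C) (q0 l n : ℕ)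
    {J : Finset ℕ} {s : ℕ → ℚ} (hJ : J.card = l + n) (hs : Bd1 J s) :
    EP p (prs J) (fun A => gf t r y q0 2 (wA y A) n J s) * U t r J s ≤
      gg t r l (-1) * Kp (Ki C y q0) (l + n) := by
  classical
  have hr := hH.r_lt
  have hy := hH.y_lt
  have hp0 := hH.hp0.le
  have hp1 := hH.hp1.le
  have hK := Ki_nonneg hb.hC hy q0
  have hM : 0 ≤ gg t r l (-1) := U_nonneg hH.ht hr (fun x _ => by norm_num)
  induction n generalizing J s with
  | zero =>
    have h1 : EP p (prs J) (fun A => gf t r y q0 2 (wA y A) 0 J s) ≤ 1 := by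
      have h2 : EP p (prs J) (fun A => gf t r y q0 2 (wA y A) 0 J s) ≤ EP p (prs J) (fun _ => 1) := by
        refine EP_mono hp0 hp1 fun A _ => ?_
        unfold gf
        split_ifs
        · exact le_refl _
        · norm_num
      rwa [EP_const] at h2
    have hU0 := U_nonneg hH.ht hr hs
    have hU1 := U_le_max hH.ht hr hs
    rw [hJ, Nat.add_zero] at hU1
    have h3 := Kp_one hK (l + 0)
    calc EP p (prs J) (fun A => gf t r y q0 2 (wA y A) 0 J s) * U t r J s ≤ 1 * U t r J s :=
          mul_le_mul_of_nonneg_right h1 hU0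
      _ = U t r J s := one_mul _
      _ ≤ gg t r l (-1) := hU1
      _ = gg t r l (-1) * 1 := (mul_one _).symm
      _ ≤ _ := mul_le_mul_of_nonneg_left h3 hM
  | succ n ih =>
    have hK1 : 0 ≤ Kp (Ki C y q0) (l + (n + 1)) := zero_le_one.trans (Kp_one hK _)
    by_cases hg : Good y q0 J s
    swap
    · have h1 : ∀ A : Finset (ℕ × ℕ), gf t r y q0 2 (wA y A) (n + 1) J s = 0 :=
        fun A => LowC_bad t r y q0 2 (wA y A) (n + 1) hg
      rw [EP_congr (fun A _ => h1 A), EP_const, zero_mul]
      exact mul_nonneg hM hK1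
    have hJne : J.Nonempty := by
      rw [← Finset.card_pos]
      omega
    have hU := U_pos_good hH.ht hr hy hs hg
    have hsum := rt_sum hJne hU.ne'
    have h1 : ∀ A : Finset (ℕ × ℕ), gf t r y q0 2 (wA y A) (n + 1) J s =
        ∑ u ∈ J, cc t J s u * rt t r J s u ^ 2 *
          gf t r y q0 2 (wA y A) n (J.erase u) (nx (wA y A) s u) := by
      intro A
      rw [gf]
      exact if_pos hg
    rw [EP_congr (fun A _ => h1 A), EP_sum]
    have h2 : ∀ u ∈ J, EP p (prs J) (fun A => cc t J s u * rt t r J s u ^ 2 *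
        gf t r y q0 2 (wA y A) n (J.erase u) (nx (wA y A) s u)) ≤
        cc t J s u * rt t r J s u * (gg t r l (-1) * Kp (Ki C y q0) (l + (n + 1)) / U t r J s) := by
      intro u hu
      have hcard : (J.erase u).card = l + n := by
        rw [Finset.card_erase_of_mem hu]
        omega
      have hUu : 0 < U t r (J.erase u) (nr r s u) :=
        lt_of_lt_of_le (hb.pos _) (U_ge_nr hH.ht hr hu hs)
      rw [EP_mul, ep_row y (gf_loc t r y q0 2 n) hu s]
      have hb0 : 0 ≤ gg t r l (-1) * Kp (Ki C y q0) (l + n) :=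
        mul_nonneg hM (zero_le_one.trans (Kp_one hK _))
      have h4 : EP p (J.erase u) (fun R => EP p (prs (J.erase u)) (fun A =>
            gf t r y q0 2 (wA y A) n (J.erase u) (fun x => yR y R x * cut s u x))) ≤
          EP p (J.erase u) (fun R => gg t r l (-1) * Kp (Ki C y q0) (l + n) *
            (if Good y q0 (J.erase u) (fun x => yR y R x * cut s u x)
              then 1 / U t r (J.erase u) (fun x => yR y R x * cut s u x) else 0)) := by
        apply EP_mono hp0 hp1
        intro R _
        by_cases hG : Good y q0 (J.erase u) (fun x => yR y R x * cut s u x)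
        · rw [if_pos hG]
          have h5 := ih hcard (LowC_row hy u hs R)
          have h6 := U_pos_good hH.ht hr hy (LowC_row hy u hs R) hG
          rw [mul_one_div, le_div_iff₀ h6]
          exact h5
        · rw [if_neg hG]
          have h5 : ∀ A : Finset (ℕ × ℕ), gf t r y q0 2 (wA y A) n (J.erase u)
              (fun x => yR y R x * cut s u x) = 0 := by
            intro A
            exact LowC_bad t r y q0 2 (wA y A) n hG
          rw [EP_congr (fun A _ => h5 A), EP_const, mul_zero]
      rw [EP_mul] at h4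
      have h7 := row_inv hH hb (LowC_cut u hs) q0
      rw [hcard] at h7
      have h8 : U t r (J.erase u) (fun x => r * cut s u x) = U t r (J.erase u) (nr r s u) := rfl
      rw [h8] at h7
      have h9 : Kp (Ki C y q0) (l + (n + 1)) = Kp (Ki C y q0) (l + n) * (1 + Ki C y q0 / ((l + n : ℕ) : ℚ)) := rfl
      have h10 := h4.trans (mul_le_mul_of_nonneg_left h7 hb0)
      have hc : 0 ≤ cc t J s u * rt t r J s u ^ 2 :=
        mul_nonneg (cc_nonneg hH.ht (hs u hu)) (sq_nonneg _)
      refine (mul_le_mul_of_nonneg_left h10 hc).trans (le_of_eq ?_)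
      rw [h9]
      have h11 : rt t r J s u = U t r (J.erase u) (nr r s u) / U t r J s := rfl
      rw [h11]
      field_simp
    have h3 := Finset.sum_le_sum h2
    rw [← Finset.sum_mul, hsum, one_mul] at h3
    rwa [le_div_iff₀ hU] at h3

end Pool.Agent.AAG
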