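import Pool.Agent.AAG.RowB
import Pool.Agent.AAG.LowB

set_option autoImplicit false

/-!
# AAG-LowD: the functional `P` over random graphs

`cond_bad`: union bound for the event that some vertex which is not active has no active neighbour.
`ep_gf1`: the expectation of `1 - P`, by induction on the number of steps.
-/

namespace Pool.Agent.AAG

open Finset

private theorem LowD_pr_mem {J : Finset ℕ} {a x : ℕ} (ha : a ∈ J) (hx : x ∈ J) (hax : a ≠ x) :
    pr a x ∈ prs J := by
  unfold pr prs
  rw [Finset.mem_filter, Finset.mem_product]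
  refine ⟨⟨?_, ?_⟩, ?_⟩
  · show min a x ∈ J
    rcases min_choice a x with h | h <;> rw [h] <;> assumption
  · show max a x ∈ J
    rcases max_choice a x with h | h <;> rw [h] <;> assumption
  · show min a x < max a x
    omega

private theorem LowD_pr_inj {a b x : ℕ} (h : pr a x = pr b x) : a = b := by
  unfold pr at h
  rw [Prod.mk.injEq] at h
  omega

private theorem LowD_act_sub {y : ℚ} {J : Finset ℕ} {s : ℕ → ℚ} {a : ℕ} (ha : a ∈ act y J s) :
    a ∈ J := (Finset.mem_filter.1 ha).1

private theorem LowD_card (y : ℚ) (J : Finset ℕ) (s : ℕ → ℚ) (x : ℕ) :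
    ((act y J s).image (fun a => pr a x)).card = (act y J s).card := by
  apply Finset.card_image_of_injOn
  intro a _ b _ h
  exact LowD_pr_inj h

private theorem LowD_sub {y : ℚ} {J : Finset ℕ} {s : ℕ → ℚ} {x : ℕ}
    (hx : x ∈ J \ act y J s) : (act y J s).image (fun a => pr a x) ⊆ prs J := by
  intro e he
  obtain ⟨a, ha, rfl⟩ := Finset.mem_image.1 he
  obtain ⟨hxJ, hxa⟩ := Finset.mem_sdiff.1 hx
  exact LowD_pr_mem (LowD_act_sub ha) hxJ (fun h => hxa (h ▸ ha))

open Classical in
private theorem LowD_pw {y : ℚ} {J : Finset ℕ} {s : ℕ → ℚ} (A : Finset (ℕ × ℕ)) :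
    (if Cond y (wA y A) J s then (0 : ℚ) else 1) ≤
      ∑ x ∈ J \ act y J s,
        (if Disjoint ((act y J s).image (fun a => pr a x)) A then (1 : ℚ) else 0) := by
  by_cases h : Cond y (wA y A) J s
  · rw [if_pos h]
    exact Finset.sum_nonneg fun x _ => by split_ifs <;> norm_num
  · rw [if_neg h]
    unfold Cond at h
    simp only [not_forall] at h
    obtain ⟨x, hx, hxa, hn⟩ := h
    have hd : Disjoint ((act y J s).image (fun a => pr a x)) A := by
      rw [Finset.disjoint_left]
      intro e he heA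
      obtain ⟨a, ha, rfl⟩ := Finset.mem_image.1 he
      exact hn ⟨a, ha, by unfold wA; rw [if_pos heA]⟩
    calc (1 : ℚ) = (if Disjoint ((act y J s).image (fun a => pr a x)) A then (1 : ℚ) else 0) := by
          rw [if_pos hd]
      _ ≤ _ := Finset.single_le_sum
          (f := fun x => if Disjoint ((act y J s).image (fun a => pr a x)) A then (1 : ℚ) else 0)
          (fun i _ => by split_ifs <;> norm_num) (Finset.mem_sdiff.2 ⟨hx, hxa⟩)

open Classical in
theorem cond_bad {y p : ℚ} (hp0 : 0 < p) (hp1 : p < 1) (hy : |y| < 1) {q0 : ℕ}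
    (hq : 1 ≤ q0) {J : Finset ℕ} {s : ℕ → ℚ} (hg : Good y q0 J s) :
    EP p (prs J) (fun A => if Cond y (wA y A) J s then 0 else 1) ≤ om p q0 J.card := by
  have _ := hy
  have _ := hq
  have h1 : EP p (prs J) (fun A => if Cond y (wA y A) J s then 0 else 1) ≤
      EP p (prs J) (fun A => ∑ x ∈ J \ act y J s,
        (if Disjoint ((act y J s).image (fun a => pr a x)) A then (1 : ℚ) else 0)) :=
    EP_mono hp0.le hp1.le (fun A _ => LowD_pw A)
  rw [EP_sum] at h1
  have h2 : ∀ x ∈ J \ act y J s, EP p (prs J) (fun A =>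
      (if Disjoint ((act y J s).image (fun a => pr a x)) A then (1 : ℚ) else 0)) ≤
      (1 - p) ^ (J.card / q0) := by
    intro x hx
    rw [EP_avoid (LowD_sub hx), LowD_card]
    apply pow_le_pow_of_le_one (by linarith) (by linarith)
    exact Nat.div_le_of_le_mul hg
  have h3 := Finset.sum_le_sum h2
  rw [Finset.sum_const, nsmul_eq_mul] at h3
  have h4 : ((J \ act y J s).card : ℚ) ≤ J.card := by
    exact_mod_cast Finset.card_le_card Finset.sdiff_subset
  have h5 : (0 : ℚ) ≤ (1 - p) ^ (J.card / q0) := pow_nonneg (by linarith) _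
  unfold om
  exact (h1.trans h3).trans (mul_le_mul_of_nonneg_right h4 h5)

private theorem LowD_gf_bad (t r y : ℚ) (q0 e : ℕ) (w : ℕ → ℕ → ℚ) (n : ℕ) {J : Finset ℕ}
    {s : ℕ → ℚ} (hg : ¬ Good y q0 J s) : gf t r y q0 e w n J s = 0 := by
  cases n with
  | zero =>
    unfold gf
    exact if_neg (fun h => hg h.1)
  | succ n =>
    unfold gf
    exact if_neg hg

private theorem LowD_cut {J : Finset ℕ} {s : ℕ → ℚ} (u : ℕ) (hs : Bd1 J s) :
    Bd1 (J.erase u) (cut s u) := by
  intro x hx
  unfold cut
  split_ifs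
  · exact hs x (Finset.mem_of_mem_erase hx)
  · norm_num

private theorem LowD_row {y : ℚ} (hy : |y| < 1) {J : Finset ℕ} {s : ℕ → ℚ} (u : ℕ)
    (hs : Bd1 J s) (R : Finset ℕ) : Bd1 (J.erase u) (fun x => yR y R x * cut s u x) := by
  intro x hx
  have h1 := yR_le hy R x
  have h2 := LowD_cut u hs x hx
  show |yR y R x * cut s u x| ≤ 1
  rw [abs_mul]
  exact mul_le_one₀ h1 (abs_nonneg _) h2

private theorem LowD_om {p : ℚ} (hp1 : p < 1) (q0 l : ℕ) : 0 ≤ om p q0 l := by
  unfold om
  have : (0 : ℚ) ≤ (1 - p) ^ (l / q0) := pow_nonneg (by linarith) _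
  positivity

private theorem LowD_loc (t r y : ℚ) (q0 n : ℕ) :
    Loc fun w J s => 1 - gf t r y q0 1 w n J s := by
  intro w w' J s s' hw hs
  have h := gf_loc t r y q0 1 n w w' J s s' hw hs
  show 1 - gf t r y q0 1 w n J s = 1 - gf t r y q0 1 w' n J s'
  have h' : gf t r y q0 1 w n J s = gf t r y q0 1 w' n J s' := h
  rw [h']

open Classical in
theorem ep_gf1 {t r y p ρ : ℚ} (hH : Hyp t r y p) {q0 : ℕ} (hq : 1 ≤ q0) (hρ0 : 0 ≤ ρ)
    (hρ : ∀ (J : Finset ℕ) (s : ℕ → ℚ), Bd1 J s →
      EP p J (fun R => if Good y q0 J (fun x => yR y R x * s x) then 0 else 1) ≤ ρ ^ J.card)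
    (l n : ℕ) {J : Finset ℕ} {s : ℕ → ℚ} (hJ : J.card = l + n) (hs : Bd1 J s)
    (hg : Good y q0 J s) :
    EP p (prs J) (fun A => 1 - gf t r y q0 1 (wA y A) n J s) ≤
      om p q0 l + ∑ k ∈ Ico l (l + n), ρ ^ k := by
  induction n generalizing J s with
  | zero =>
    have h1 : ∀ A : Finset (ℕ × ℕ), 1 - gf t r y q0 1 (wA y A) 0 J s =
        if Cond y (wA y A) J s then 0 else 1 := by
      intro A
      unfold gf
      by_cases hC : Cond y (wA y A) J s
      · rw [if_pos ⟨hg, hC⟩, if_pos hC]
        norm_num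
      · rw [if_neg (fun h => hC h.2), if_neg hC]
        norm_num
    rw [EP_congr (fun A _ => h1 A)]
    have h2 := cond_bad hH.hp0 hH.hp1 hH.y_lt hq hg
    rw [hJ, Nat.add_zero] at h2
    rw [Nat.add_zero, Finset.Ico_self, Finset.sum_empty, add_zero]
    exact h2
  | succ n ih =>
    have hb0 : 0 ≤ om p q0 l + ∑ k ∈ Ico l (l + n), ρ ^ k :=
      add_nonneg (LowD_om hH.hp1 q0 l) (Finset.sum_nonneg fun k _ => pow_nonneg hρ0 k)
    generalize hbe : om p q0 l + ∑ k ∈ Ico l (l + n), ρ ^ k = b at hb0 ih
    have hJne : J.Nonempty := by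
      rw [← Finset.card_pos]
      omega
    have hr := hH.r_lt
    have hU := U_pos_good hH.ht hr hH.y_lt hs hg
    have hsum := rt_sum hJne hU.ne'
    have h1 : ∀ A : Finset (ℕ × ℕ), 1 - gf t r y q0 1 (wA y A) (n + 1) J s =
        ∑ u ∈ J, cc t J s u * rt t r J s u *
          (1 - gf t r y q0 1 (wA y A) n (J.erase u) (nx (wA y A) s u)) := by
      intro A
      have h2 : gf t r y q0 1 (wA y A) (n + 1) J s = ∑ u ∈ J, cc t J s u * rt t r J s u ^ 1 *
          gf t r y q0 1 (wA y A) n (J.erase u) (nx (wA y A) s u) := by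
        rw [gf]
        exact if_pos hg
      rw [h2]
      simp only [pow_one, mul_sub, mul_one, Finset.sum_sub_distrib]
      rw [hsum]
    rw [EP_congr (fun A _ => h1 A), EP_sum]
    have h2 : ∀ u ∈ J, EP p (prs J) (fun A => cc t J s u * rt t r J s u *
        (1 - gf t r y q0 1 (wA y A) n (J.erase u) (nx (wA y A) s u))) ≤
        cc t J s u * rt t r J s u * (b + ρ ^ (l + n)) := by
      intro u hu
      have hcard : (J.erase u).card = l + n := by
        rw [Finset.card_erase_of_mem hu]
        omega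
      rw [EP_mul]
      apply mul_le_mul_of_nonneg_left _
        (mul_nonneg (cc_nonneg hH.ht (hs u hu)) (rt_nonneg hH.ht hr u hs))
      have h3 : EP p (prs J) (fun A =>
          1 - gf t r y q0 1 (wA y A) n (J.erase u) (nx (wA y A) s u)) =
          EP p (J.erase u) (fun R => EP p (prs (J.erase u)) (fun A =>
            1 - gf t r y q0 1 (wA y A) n (J.erase u) (fun x => yR y R x * cut s u x))) :=
        ep_row y (LowD_loc t r y q0 n) hu s
      rw [h3]
      have h4 : EP p (J.erase u) (fun R => EP p (prs (J.erase u)) (fun A =>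
            1 - gf t r y q0 1 (wA y A) n (J.erase u) (fun x => yR y R x * cut s u x))) ≤
          EP p (J.erase u) (fun R => b +
            if Good y q0 (J.erase u) (fun x => yR y R x * cut s u x) then 0 else 1) := by
        apply EP_mono hH.hp0.le hH.hp1.le
        intro R _
        by_cases hG : Good y q0 (J.erase u) (fun x => yR y R x * cut s u x)
        · rw [if_pos hG, add_zero]
          exact ih hcard (LowD_row hH.y_lt u hs R) hG
        · rw [if_neg hG]
          have h5 : ∀ A : Finset (ℕ × ℕ), 1 - gf t r y q0 1 (wA y A) n (J.erase u)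
              (fun x => yR y R x * cut s u x) = 1 := by
            intro A
            rw [LowD_gf_bad t r y q0 1 (wA y A) n hG, sub_zero]
          rw [EP_congr (fun A _ => h5 A), EP_const]
          linarith
      have h6 : EP p (J.erase u) (fun R => b +
            if Good y q0 (J.erase u) (fun x => yR y R x * cut s u x) then 0 else 1) =
          b + EP p (J.erase u) (fun R =>
            if Good y q0 (J.erase u) (fun x => yR y R x * cut s u x) then 0 else 1) := by
        rw [EP_add, EP_const]
      have h7 := hρ (J.erase u) (cut s u) (LowD_cut u hs)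
      rw [hcard] at h7
      rw [h6] at h4
      linarith
    have h3 := Finset.sum_le_sum h2
    rw [← Finset.sum_mul, hsum, one_mul, ← hbe] at h3
    rw [← add_assoc l n 1, Finset.sum_Ico_succ_top (Nat.le_add_right l n)]
    linarith

end Pool.Agent.AAG
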