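import Pool.Agent.AAG.AlgS

set_option autoImplicit false

/-!
# AAG-PickQ: the probabilities of the choices

`p_u = cc * rt` (ideal), `qq` (real).

PLAN. Let `L` be sorted, nonempty, `u0 = UL P L = U .. > 0`, `N = 2 ^ b.length`, `a_v = cc v * U (erase v) (nr ..) ≥ 0`, `C_v = ∑_(v' ≤ v) a_v'`
(`Cum_eq`), `C_(max) = u0` (`U_rec`). `pick X` is the first `p` of the list with `X u0 < N C_(p.1)`; the list is sorted and `C` is monotone, so
`pick X = u ↔ u ∈ vs L`, `N C_(<u) ≤ X u0 < N C_u` where `C_(<u) = C_u - a_u` (for `X < N` the filter is nonempty).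
`qq_sum`: every `X < N` has `pick X ∈ vs L` (swap the sums). `qq_close`: the number `q_u N` of the `X < N` with
`N C_(<u) / u0 ≤ X < N C_u / u0` differs from `N a_u / u0 = N p_u` by less than `1` (half open interval inside `[0, N]`), and is `0` if `a_u = 0`.
If `a_u > 0`, then `cc u > 0`; `sv` is a power `y^k`, so `cc u ≥ c0 := min (1-|y|) (if 0 < t then t else 1)` (`k = 0`: `1 - 1 + t`; `k ≥ 1`: `≥ 1 - |y|`),
`U (erase u) (nr ..) ≥ gg (m-1) |r|` (`U_ge_nr`), `u0 ≤ gg m (-1) ≤ C m gg (m-1) |r|` (`U_le_max`, `HB.hG`, `m = L.length`), so `p_u ≥ c0/(C m)` and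
`|q_u - p_u| ≤ 1/N ≤ (C m/(c0 N)) p_u`. Take `c1 = c0 / C`.
-/

namespace Pool.Agent.AAG

open Finset

private theorem PickQ_head {L : LS} (h : Srt L) (Q : ℕ → Prop) [DecidablePred Q]
    (hex : ∃ p ∈ L, Q p.1) :
    ((L.filter fun p => decide (Q p.1)).headD (0, [])).1 ∈ vs L ∧
      Q ((L.filter fun p => decide (Q p.1)).headD (0, [])).1 ∧
      ∀ v ∈ vs L, v < ((L.filter fun p => decide (Q p.1)).headD (0, [])).1 → ¬ Q v := by
  induction L with
  | nil => simp at hex
  | cons a L ih =>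
    have hs : (∀ b ∈ L.map Prod.fst, a.1 < b) ∧ (L.map Prod.fst).Pairwise (· < ·) := by
      unfold Srt at h
      rw [List.map_cons, List.pairwise_cons] at h
      exact h
    by_cases ha : Q a.1
    · rw [List.filter_cons_of_pos (by simpa using ha)]
      simp only [List.headD_cons]
      refine ⟨by simp [vs], ha, ?_⟩
      intro v hv hlt
      simp only [vs, List.map_cons, List.toFinset_cons, Finset.mem_insert, List.mem_toFinset] at hv
      rcases hv with hv | hv
      · omega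
      · have := hs.1 v hv
        omega
    · rw [List.filter_cons_of_neg (by simpa using ha)]
      have hex' : ∃ p ∈ L, Q p.1 := by
        obtain ⟨p, hp, hq⟩ := hex
        rcases List.mem_cons.1 hp with rfl | hp
        · exact absurd hq ha
        · exact ⟨p, hp, hq⟩
      obtain ⟨h1, h2, h3⟩ := ih hs.2 hex'
      refine ⟨?_, h2, ?_⟩
      · simp only [vs, List.map_cons, List.toFinset_cons, Finset.mem_insert] at h1 ⊢
        exact Or.inr h1
      · intro v hv hlt
        simp only [vs, List.map_cons, List.toFinset_cons, Finset.mem_insert] at hv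
        rcases hv with hv | hv
        · rw [hv]; exact ha
        · exact h3 v hv hlt

private noncomputable def PickQ_A (P : Pt) (L : LS) (u : ℕ) : ℚ :=
  cc P.t (vs L) (sv P.y L) u * U P.t P.r ((vs L).erase u) (nr P.r (sv P.y L) u)

private noncomputable def PickQ_lo (P : Pt) (L : LS) (u : ℕ) : ℚ :=
  ∑ v ∈ (vs L).filter (· < u), PickQ_A P L v

private theorem PickQ_A_nonneg {P : Pt} (ht : 0 ≤ P.t) (hr : |P.r| < 1) (hy : |P.y| < 1) (L : LS)
    {u : ℕ} (hu : u ∈ vs L) : 0 ≤ PickQ_A P L u := by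
  have hb := sv_bd hy L
  exact mul_nonneg (cc_nonneg ht (hb u hu)) (U_nonneg ht hr (nr_bd hr.le u hb))

private theorem PickQ_cum {P : Pt} {L : LS} (h : Srt L) (v : ℕ) :
    Cum P L v = ∑ u ∈ (vs L).filter (· ≤ v), PickQ_A P L u := Cum_eq P h v

private theorem PickQ_split {P : Pt} {L : LS} (h : Srt L) {u : ℕ} (hu : u ∈ vs L) :
    Cum P L u = PickQ_lo P L u + PickQ_A P L u := by
  rw [PickQ_cum h]
  have : (vs L).filter (· ≤ u) = insert u ((vs L).filter (· < u)) := by
    ext x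
    simp only [mem_filter, mem_insert]
    constructor
    · rintro ⟨h1, h2⟩
      rcases lt_or_eq_of_le h2 with h3 | h3
      · exact Or.inr ⟨h1, h3⟩
      · exact Or.inl h3
    · rintro (rfl | ⟨h1, h2⟩)
      · exact ⟨hu, le_rfl⟩
      · exact ⟨h1, h2.le⟩
  rw [this, sum_insert (by simp), add_comm]
  rfl

private theorem PickQ_total {P : Pt} {L : LS} (h : Srt L) (hL : L ≠ []) :
    UL P L = ∑ u ∈ vs L, PickQ_A P L u := by
  have hne : (vs L).Nonempty := by
    obtain ⟨a, L', rfl⟩ := List.exists_cons_of_ne_nil hL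
    exact ⟨a.1, by simp [vs]⟩
  rw [UL_eq P h, U_rec _ _ hne]
  rfl

private theorem PickQ_cum_le {P : Pt} (ht : 0 ≤ P.t) (hr : |P.r| < 1) (hy : |P.y| < 1) {L : LS}
    (h : Srt L) (hL : L ≠ []) (u : ℕ) : Cum P L u ≤ UL P L := by
  rw [PickQ_cum h, PickQ_total h hL]
  exact sum_le_sum_of_subset_of_nonneg (filter_subset _ _) fun i hi _ => PickQ_A_nonneg ht hr hy L hi

private theorem PickQ_lo_nonneg {P : Pt} (ht : 0 ≤ P.t) (hr : |P.r| < 1) (hy : |P.y| < 1) (L : LS)
    (u : ℕ) : 0 ≤ PickQ_lo P L u :=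
  sum_nonneg fun i hi => PickQ_A_nonneg ht hr hy L (mem_filter.1 hi).1

private theorem PickQ_spec {P : Pt} (b : List Bool)
    {L : LS} (h : Srt L) (hL : L ≠ []) (hU : 0 < UL P L) {X : ℕ} (hX : X < 2 ^ b.length) :
    pick P b L X ∈ vs L ∧ (X : ℚ) * UL P L < 2 ^ b.length * Cum P L (pick P b L X) ∧
      ∀ v ∈ vs L, v < pick P b L X → ¬ ((X : ℚ) * UL P L < 2 ^ b.length * Cum P L v) := by
  have hne : (vs L).Nonempty := by
    obtain ⟨a, L', rfl⟩ := List.exists_cons_of_ne_nil hL
    exact ⟨a.1, by simp [vs]⟩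
  classical
  have hex : ∃ p ∈ L, (X : ℚ) * UL P L < 2 ^ b.length * Cum P L p.1 := by
    have hm := (vs L).max'_mem hne
    have hm' : (vs L).max' hne ∈ L.map Prod.fst := by simpa [vs] using hm
    obtain ⟨p, hp, hpm⟩ := List.mem_map.1 hm'
    refine ⟨p, hp, ?_⟩
    have : Cum P L p.1 = UL P L := by
      rw [PickQ_cum h, PickQ_total h hL]
      congr 1
      rw [filter_true_of_mem]
      intro x hx
      rw [hpm]
      exact (vs L).le_max' x hx
    rw [this]
    have hX' : (X : ℚ) < 2 ^ b.length := by exact_mod_cast hX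
    exact mul_lt_mul_of_pos_right hX' hU
  have key := PickQ_head h (fun v => (X : ℚ) * UL P L < 2 ^ b.length * Cum P L v) hex
  have e : pick P b L X = ((L.filter fun p => decide ((X : ℚ) * UL P L < 2 ^ b.length * Cum P L p.1)).headD (0, [])).1 := by
    unfold pick
    congr! 
  rw [e]
  exact key

theorem pick_mem {P : Pt} (ht : 0 ≤ P.t) (hr : |P.r| < 1) (hy : |P.y| < 1) (b : List Bool)
    {L : LS} (h : Srt L) (hL : L ≠ []) (hU : 0 < UL P L) {X : ℕ} (hX : X < 2 ^ b.length) :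
    pick P b L X ∈ vs L :=
  (PickQ_spec b h hL hU hX).1

private theorem PickQ_iff {P : Pt} (ht : 0 ≤ P.t) (hr : |P.r| < 1) (hy : |P.y| < 1) (b : List Bool)
    {L : LS} (h : Srt L) (hL : L ≠ []) (hU : 0 < UL P L) {X : ℕ} (hX : X < 2 ^ b.length)
    {u : ℕ} (hu : u ∈ vs L) :
    pick P b L X = u ↔ 2 ^ b.length * PickQ_lo P L u ≤ X * UL P L ∧
      X * UL P L < 2 ^ b.length * Cum P L u := by
  obtain ⟨h1, h2, h3⟩ := PickQ_spec b h hL hU hX
  have hN : (0 : ℚ) < 2 ^ b.length := by positivity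
  constructor
  · intro he
    rw [he] at h2 h3
    refine ⟨?_, h2⟩
    rcases ((vs L).filter (· < u)).eq_empty_or_nonempty with hemp | hne
    · unfold PickQ_lo
      rw [hemp, sum_empty, mul_zero]
      positivity
    · have hm := ((vs L).filter (· < u)).max'_mem hne
      obtain ⟨hm1, hm2⟩ := mem_filter.1 hm
      have h4 := h3 _ hm1 hm2
      rw [not_lt] at h4
      refine le_trans (le_of_eq ?_) h4
      congr 1
      rw [PickQ_cum h]
      unfold PickQ_lo
      congr 1
      ext x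
      simp only [mem_filter]
      constructor
      · rintro ⟨hx1, hx2⟩
        exact ⟨hx1, le_max' _ _ (mem_filter.2 ⟨hx1, hx2⟩)⟩
      · rintro ⟨hx1, hx2⟩
        exact ⟨hx1, lt_of_le_of_lt hx2 hm2⟩
  · rintro ⟨h4, h5⟩
    rcases lt_trichotomy (pick P b L X) u with hlt | heq | hgt
    · exfalso
      have : Cum P L (pick P b L X) ≤ PickQ_lo P L u := by
        rw [PickQ_cum h]
        unfold PickQ_lo
        refine sum_le_sum_of_subset_of_nonneg ?_ fun i hi _ =>
          PickQ_A_nonneg ht hr hy L (mem_filter.1 hi).1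
        intro x hx
        obtain ⟨hx1, hx2⟩ := mem_filter.1 hx
        exact mem_filter.2 ⟨hx1, lt_of_le_of_lt hx2 hlt⟩
      have := mul_le_mul_of_nonneg_left this hN.le
      linarith
    · exact heq
    · exact absurd h5 (h3 u hu hgt)

theorem qq_nonneg (P : Pt) (b : List Bool) (L : LS) (u : ℕ) : 0 ≤ qq P b L u := by
  unfold qq
  refine div_nonneg (sum_nonneg fun X _ => ?_) (by positivity)
  split_ifs <;> norm_num

theorem qq_sum {P : Pt} (ht : 0 ≤ P.t) (hr : |P.r| < 1) (hy : |P.y| < 1) (b : List Bool)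
    {L : LS} (h : Srt L) (hL : L ≠ []) (hU : 0 < UL P L) :
    ∑ u ∈ vs L, qq P b L u = 1 := by
  unfold qq
  rw [← sum_div, sum_comm]
  have : ∀ X ∈ range (2 ^ b.length), (∑ u ∈ vs L, if pick P b L X = u then (1 : ℚ) else 0) = 1 := by
    intro X hX
    rw [sum_ite_eq, if_pos (pick_mem ht hr hy b h hL hU (mem_range.1 hX))]
  rw [sum_congr rfl this]
  simp

private theorem PickQ_count {α β : ℚ} {N : ℕ} (h0 : 0 ≤ α) (h1 : α ≤ β) (h2 : β ≤ N) :
    |(∑ X ∈ range N, if α ≤ (X : ℚ) ∧ (X : ℚ) < β then (1 : ℚ) else 0) - (β - α)| ≤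
      if α = β then 0 else 1 := by
  have e : (∑ X ∈ range N, if α ≤ (X : ℚ) ∧ (X : ℚ) < β then (1 : ℚ) else 0) =
      ((⌈β⌉₊ - ⌈α⌉₊ : ℕ) : ℚ) := by
    rw [sum_boole]
    congr 1
    have : (range N).filter (fun X : ℕ => α ≤ (X : ℚ) ∧ (X : ℚ) < β) = Ico ⌈α⌉₊ ⌈β⌉₊ := by
      ext X
      simp only [mem_filter, mem_range, mem_Ico, Nat.ceil_le, Nat.lt_ceil]
      constructor
      · rintro ⟨_, h⟩; exact h
      · intro h
        refine ⟨?_, h⟩
        have : (X : ℚ) < N := lt_of_lt_of_le h.2 h2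
        exact_mod_cast this
    rw [this, Nat.card_Ico]
  rw [e]
  have hm : ⌈α⌉₊ ≤ ⌈β⌉₊ := Nat.ceil_mono h1
  rw [Nat.cast_sub hm]
  split_ifs with hab
  · rw [hab]; simp
  · have a1 := Nat.le_ceil α
    have a2 := Nat.ceil_lt_add_one h0
    have b1 := Nat.le_ceil β
    have b2 := Nat.ceil_lt_add_one (le_trans h0 h1)
    rw [abs_le]
    constructor <;> linarith

private theorem PickQ_diff {P : Pt} (ht : 0 ≤ P.t) (hr : |P.r| < 1) (hy : |P.y| < 1) (b : List Bool)
    {L : LS} (h : Srt L) (hL : L ≠ []) (hU : 0 < UL P L) {u : ℕ} (hu : u ∈ vs L) :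
    |qq P b L u - PickQ_A P L u / UL P L| ≤
      (if PickQ_A P L u = 0 then 0 else 1) / 2 ^ b.length := by
  have hN : (0 : ℚ) < 2 ^ b.length := by positivity
  have hA := PickQ_A_nonneg ht hr hy L hu
  have hlo := PickQ_lo_nonneg ht hr hy L u
  have hs := PickQ_split (P := P) h hu
  have hle := PickQ_cum_le ht hr hy h hL u
  have e : (∑ X ∈ range (2 ^ b.length), if pick P b L X = u then (1 : ℚ) else 0) =
      ∑ X ∈ range (2 ^ b.length), if 2 ^ b.length * PickQ_lo P L u / UL P L ≤ (X : ℚ) ∧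
        (X : ℚ) < 2 ^ b.length * Cum P L u / UL P L then (1 : ℚ) else 0 := by
    refine sum_congr rfl fun X hX => ?_
    have := PickQ_iff ht hr hy b h hL hU (mem_range.1 hX) hu
    rw [← div_le_iff₀ hU, ← lt_div_iff₀ hU] at this
    simp only [this]
  have hc := PickQ_count (α := 2 ^ b.length * PickQ_lo P L u / UL P L)
    (β := 2 ^ b.length * Cum P L u / UL P L) (N := 2 ^ b.length) (by positivity)
    (by
      apply div_le_div_of_nonneg_right _ hU.le
      apply mul_le_mul_of_nonneg_left _ hN.le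
      linarith)
    (by
      rw [div_le_iff₀ hU]
      push_cast
      exact mul_le_mul_of_nonneg_left hle hN.le)
  rw [← e] at hc
  have e2 : 2 ^ b.length * Cum P L u / UL P L - 2 ^ b.length * PickQ_lo P L u / UL P L =
      2 ^ b.length * (PickQ_A P L u / UL P L) := by
    rw [hs]; ring
  rw [e2] at hc
  unfold qq
  have e3 : (∑ X ∈ range (2 ^ b.length), if pick P b L X = u then (1 : ℚ) else 0) / 2 ^ b.length -
      PickQ_A P L u / UL P L =
      ((∑ X ∈ range (2 ^ b.length), if pick P b L X = u then (1 : ℚ) else 0) -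
        2 ^ b.length * (PickQ_A P L u / UL P L)) / 2 ^ b.length := by
    field_simp
  rw [e3, abs_div, abs_of_pos hN]
  apply div_le_div_of_nonneg_right _ hN.le
  refine le_trans hc ?_
  by_cases h0 : PickQ_A P L u = 0
  · rw [if_pos h0, if_pos]
    rw [hs, h0, add_zero]
  · rw [if_neg h0]
    split_ifs <;> norm_num

theorem qq_close {P : Pt} (ht : 0 ≤ P.t) (hr : |P.r| < 1) (hy : |P.y| < 1) :
    ∃ c1 : ℚ, 0 < c1 ∧ ∀ (b : List Bool) (L : LS), Srt L → L ≠ [] → 0 < UL P L →
      ∀ u ∈ vs L, |qq P b L u - cc P.t (vs L) (sv P.y L) u * rt P.t P.r (vs L) (sv P.y L) u| ≤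
        L.length / (c1 * 2 ^ b.length) *
          (cc P.t (vs L) (sv P.y L) u * rt P.t P.r (vs L) (sv P.y L) u) := by
  obtain ⟨C, hC⟩ := hb_ex ht hr
  have hC0 : 0 < C := lt_of_lt_of_le one_pos hC.hC
  obtain ⟨c0, hc0⟩ : ∃ c0 : ℚ, c0 = min (1 - |P.y|) (if 0 < P.t then P.t else 1) := ⟨_, rfl⟩
  have hc0pos : 0 < c0 := by
    rw [hc0]
    refine lt_min (by linarith) ?_
    split_ifs with h
    · exact h
    · norm_num
  refine ⟨c0 / C, by positivity, ?_⟩
  intro b L h hL hU u hu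
  have hN : (0 : ℚ) < 2 ^ b.length := by positivity
  have hp : cc P.t (vs L) (sv P.y L) u * rt P.t P.r (vs L) (sv P.y L) u =
      PickQ_A P L u / UL P L := by
    unfold rt PickQ_A
    rw [UL_eq P h]
    ring
  rw [hp]
  refine le_trans (PickQ_diff ht hr hy b h hL hU hu) ?_
  have hA := PickQ_A_nonneg ht hr hy L hu
  by_cases h0 : PickQ_A P L u = 0
  · rw [if_pos h0, h0]
    simp
  rw [if_neg h0]
  have hm : (vs L).card = L.length := card_vs h
  have hm1 : 1 ≤ L.length := by
    obtain ⟨a, L', rfl⟩ := List.exists_cons_of_ne_nil hL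
    simp
  obtain ⟨m, hmm⟩ : ∃ m, L.length = m + 1 := ⟨L.length - 1, by omega⟩
  have hb := sv_bd hy L
  have hge := U_ge_nr ht hr hu hb
  have hle := U_le_max ht hr hb
  rw [← UL_eq P h] at hle
  rw [hm, hmm] at hge hle
  rw [Nat.add_sub_cancel] at hge
  have hG := hC.hG m
  have hpos := hC.pos m
  have hccn := cc_nonneg ht (hb u hu) (J := vs L)
  have hcc : c0 ≤ cc P.t (vs L) (sv P.y L) u := by
    have hne : cc P.t (vs L) (sv P.y L) u ≠ 0 := by
      intro h1
      apply h0
      unfold PickQ_A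
      rw [h1, zero_mul]
    have hpos' : 0 < cc P.t (vs L) (sv P.y L) u := lt_of_le_of_ne hccn (Ne.symm hne)
    unfold cc at hpos' ⊢
    unfold sv at hpos' ⊢
    rcases Nat.eq_zero_or_pos (cdl L u).length with hk | hk
    · rw [hk, pow_zero] at hpos' ⊢
      split_ifs at hpos' ⊢ with h1
      · have : 0 < P.t := by linarith
        rw [hc0, if_pos this]
        refine le_trans (min_le_right _ _) (by linarith)
      · norm_num at hpos'
    · have h1 : P.y ^ (cdl L u).length ≤ |P.y| := by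
        refine le_trans (le_abs_self _) ?_
        rw [abs_pow]
        calc |P.y| ^ (cdl L u).length ≤ |P.y| ^ 1 := pow_le_pow_of_le_one (abs_nonneg _) hy.le hk
          _ = |P.y| := pow_one _
      have h2 : c0 ≤ 1 - |P.y| := by rw [hc0]; exact min_le_left _ _
      split_ifs <;> linarith
  have hAge : c0 * gg P.t P.r m |P.r| ≤ PickQ_A P L u := by
    unfold PickQ_A
    exact mul_le_mul hcc hge hpos.le hccn
  rw [hmm]
  push_cast
  rw [div_mul_eq_mul_div, div_le_div_iff₀ hN (by positivity)]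
  have h3 : UL P L ≤ C * ((m + 1) * gg P.t P.r m |P.r|) := le_trans hle hG
  have h4 : c0 / C ≤ (m + 1) * (PickQ_A P L u / UL P L) := by
    rw [div_le_iff₀ hC0, mul_div_assoc', div_mul_eq_mul_div, le_div_iff₀ hU]
    calc c0 * UL P L ≤ c0 * (C * ((m + 1) * gg P.t P.r m |P.r|)) := mul_le_mul_of_nonneg_left h3 hc0pos.le
      _ = (m + 1) * (c0 * gg P.t P.r m |P.r|) * C := by ring
      _ ≤ (m + 1) * PickQ_A P L u * C := by
        apply mul_le_mul_of_nonneg_right _ hC0.le
        exact mul_le_mul_of_nonneg_left hAge (by positivity)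
  have h5 := mul_le_mul_of_nonneg_right h4 hN.le
  linarith

end Pool.Agent.AAG
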