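import Pool.Agent.AAG.Defs

set_option autoImplicit false

/-!
# AAG-Rec: the positive recursion, positivity, monotonicity

PLAN.
`hub_rec`: `DFP.hub_tel t hs J s (fun _ => 1)` gives
`hub J s = hub J 1 + ∑ u ∈ J, (1 - s u) * hub (J.erase u) (fun x => w u x * if x < u then s x else 1)`
(`= nx w s u`). `DFP.hub_one` and `DFP.F_eq_hub t hs (min' mem)`: `hub J 1 = F t w J =
t * hub (J.erase m) (w m)` with `m = J.min'`; on `J.erase m` the row `w m` is `nx w s m`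
(`cut s m x = 1` for `x > m`), use `DFP.hub_congr`. In the sum of the right hand side
`∑ (if ∀ v ∈ J, u ≤ v then t else 0) * ..` only `u = m` counts (`Finset.sum_eq_single`).
`hub_nonneg'`: strong induction on the cardinality by `hub_rec`; `cc t J s u ≥ 0`,
`|nx w s u x| ≤ 1` on `J`.
`hub_anti'`: `DFP.hub_tel t hs J s s'`, the terms are `(s' y - s y) * hub .. ≥ 0` (the mixed row has
entries in `[-1, 1]`).
-/

namespace Pool.Agent.AAG

open Finset

theorem cc_nonneg {t : ℚ} (ht : 0 ≤ t) {J : Finset ℕ} {s : ℕ → ℚ} {u : ℕ} (hu : |s u| ≤ 1) :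
    0 ≤ cc t J s u := by
  unfold cc
  have h1 := (abs_le.1 hu).2
  have h2 : (0 : ℚ) ≤ if ∀ v ∈ J, u ≤ v then t else 0 := by
    split_ifs
    · exact ht
    · exact le_refl 0
  linarith

private theorem Rec_mul {a b : ℚ} (ha : |a| ≤ 1) (hb : |b| ≤ 1) : |a * b| ≤ 1 := by
  rw [abs_mul]
  exact mul_le_one₀ ha (abs_nonneg b) hb

private theorem Rec_cut {J : Finset ℕ} {s : ℕ → ℚ} (hs : Bd1 J s) (u : ℕ) {x : ℕ} (hx : x ∈ J) :
    |cut s u x| ≤ 1 := by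
  unfold cut
  split_ifs
  · exact hs x hx
  · rw [abs_one]

theorem nx_bd {w : ℕ → ℕ → ℚ} {J : Finset ℕ} {s : ℕ → ℚ} {u : ℕ} (hu : u ∈ J)
    (hw : ∀ a ∈ J, ∀ b ∈ J, |w a b| ≤ 1) (hs : Bd1 J s) : Bd1 (J.erase u) (nx w s u) := by
  intro x hx
  have hxJ := mem_of_mem_erase hx
  unfold nx
  exact Rec_mul (hw u hu x hxJ) (Rec_cut hs u hxJ)

theorem nr_bd {r : ℚ} (hr : |r| ≤ 1) {J : Finset ℕ} {s : ℕ → ℚ} (u : ℕ) (hs : Bd1 J s) :
    Bd1 (J.erase u) (nr r s u) := by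
  intro x hx
  unfold nr
  exact Rec_mul hr (Rec_cut hs u (mem_of_mem_erase hx))

theorem hub_rec (t : ℚ) {w : ℕ → ℕ → ℚ} (hw : Sy w) {J : Finset ℕ} (hJ : J.Nonempty)
    (s : ℕ → ℚ) :
    DFP.hub t w J s = ∑ u ∈ J, cc t J s u * DFP.hub t w (J.erase u) (nx w s u) := by
  have hm : J.min' hJ ∈ J := J.min'_mem hJ
  have h1 : DFP.hub t w J s = DFP.hub t w J (fun _ => 1) +
      ∑ y ∈ J, (1 - s y) * DFP.hub t w (J.erase y) (nx w s y) :=
    DFP.hub_tel t hw J s (fun _ => 1)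
  have h2 : DFP.hub t w J (fun _ => 1) =
      t * DFP.hub t w (J.erase (J.min' hJ)) (nx w s (J.min' hJ)) := by
    rw [DFP.hub_one, DFP.F_eq_hub t hw hm]
    congr 1
    refine DFP.hub_congr t w fun x hx => ?_
    have hx2 : ¬ x < J.min' hJ := not_lt.2 (J.min'_le x (mem_of_mem_erase hx))
    unfold nx cut
    rw [if_neg hx2, mul_one]
  have h3 : ∑ u ∈ J, (if ∀ v ∈ J, u ≤ v then t else 0) * DFP.hub t w (J.erase u) (nx w s u) =
      t * DFP.hub t w (J.erase (J.min' hJ)) (nx w s (J.min' hJ)) := by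
    rw [Finset.sum_eq_single (J.min' hJ)]
    · rw [if_pos fun v hv => J.min'_le v hv]
    · intro u hu hne
      rw [if_neg, zero_mul]
      intro h
      exact hne (le_antisymm (h _ hm) (J.min'_le u hu))
    · intro h
      exact absurd hm h
  rw [h1, h2, ← h3, ← Finset.sum_add_distrib]
  refine Finset.sum_congr rfl fun u _ => ?_
  unfold cc
  ring

theorem hub_empty (t : ℚ) (w : ℕ → ℕ → ℚ) (s : ℕ → ℚ) : DFP.hub t w ∅ s = 1 := by
  simp [DFP.hub, DFP.WW, DFP.F, DFP.FN]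

private theorem Rec_nonneg {t : ℚ} (ht : 0 ≤ t) {w : ℕ → ℕ → ℚ} (hw : Sy w) (n : ℕ) :
    ∀ J : Finset ℕ, J.card = n → ∀ s : ℕ → ℚ, (∀ a ∈ J, ∀ b ∈ J, |w a b| ≤ 1) → Bd1 J s →
      0 ≤ DFP.hub t w J s := by
  induction n with
  | zero =>
    intro J hJ s _ _
    rw [Finset.card_eq_zero.1 hJ, hub_empty]
    exact zero_le_one
  | succ n ih =>
    intro J hJ s hw1 hs
    have hne : J.Nonempty := Finset.card_pos.1 (by omega)
    rw [hub_rec t hw hne s]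
    refine Finset.sum_nonneg fun u hu => mul_nonneg (cc_nonneg ht (hs u hu)) ?_
    refine ih (J.erase u) ?_ _ ?_ (nx_bd hu hw1 hs)
    · rw [Finset.card_erase_of_mem hu, hJ, Nat.add_sub_cancel]
    · intro a ha b hb
      exact hw1 a (mem_of_mem_erase ha) b (mem_of_mem_erase hb)

theorem hub_nonneg' {t : ℚ} (ht : 0 ≤ t) {w : ℕ → ℕ → ℚ} (hw : Sy w) {J : Finset ℕ}
    {s : ℕ → ℚ} (hw1 : ∀ a ∈ J, ∀ b ∈ J, |w a b| ≤ 1) (hs : Bd1 J s) : 0 ≤ DFP.hub t w J s :=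
  Rec_nonneg ht hw J.card J rfl s hw1 hs

theorem hub_anti' {t : ℚ} (ht : 0 ≤ t) {w : ℕ → ℕ → ℚ} (hw : Sy w) {J : Finset ℕ}
    {s s' : ℕ → ℚ} (hw1 : ∀ a ∈ J, ∀ b ∈ J, |w a b| ≤ 1) (hs : Bd1 J s) (hs' : Bd1 J s')
    (h : ∀ x ∈ J, s x ≤ s' x) : DFP.hub t w J s' ≤ DFP.hub t w J s := by
  rw [DFP.hub_tel t hw J s s']
  have h1 : 0 ≤ ∑ y ∈ J, (s' y - s y) *
      DFP.hub t w (J.erase y) (fun x => w y x * if x < y then s x else s' x) := by
    refine Finset.sum_nonneg fun y hy => mul_nonneg (by linarith [h y hy]) ?_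
    refine hub_nonneg' ht hw ?_ ?_
    · intro a ha b hb
      exact hw1 a (mem_of_mem_erase ha) b (mem_of_mem_erase hb)
    · intro x hx
      have hxJ := mem_of_mem_erase hx
      refine Rec_mul (hw1 y hy x hxJ) ?_
      split_ifs
      · exact hs x hxJ
      · exact hs' x hxJ
  linarith

end Pool.Agent.AAG
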