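import Pool.Agent.AAG.SecM
import Pool.Agent.AAG.LowC
import Pool.Agent.AAG.LowD

set_option autoImplicit false

/-!
# AAG-Root: the four quantities at the root

The root state of the graph `A` on `range n` is `(Ico 1 n, wA y A 0)`, `Ico 1 n = (range n).erase 0`.

PLAN. `root_row`: `ep_row` with `J = range n`, `u = 0`, `s = fun _ => 1` (`nx w s 0 x = w 0 x * cut s 0 x = w 0 x`,
since `cut s u` of the row `1` is `1`).
`root_S2`: `root_row`, `ep_S2` for each row, `row_sq` with `s = 1`; `(Ico 1 n).card = n - 1`;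
`Kp (n-1) * (1 + C^2/(n-1)) = Kp n` for `n ≥ 1`.
`root_gf2`: `root_row`, `ep_gf2` for good rows (`gf = 0` otherwise), `row_inv` with `s = 1`.
`root_gf1`: `root_row`, for good rows `ep_gf1`, otherwise `1 - gf = 1`, and `hρ`; the sum
`∑ k ∈ Ico l n, ρ^k ≤ ρ^l / (1-ρ)`.
`root_cond`: `root_row`, `cond_bad`, `hρ` (`n - 1` points).
-/

namespace Pool.Agent.AAG

open Finset

private theorem Root_erase {n : ℕ} : (range n).erase 0 = Ico 1 n := by
  ext x
  simp only [mem_erase, mem_range, mem_Ico]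
  omega

private theorem Root_cut (u : ℕ) : cut (fun _ => 1) u = fun _ => 1 := by
  funext x
  unfold cut
  split_ifs <;> rfl

private theorem Root_nx (w : ℕ → ℕ → ℚ) (u : ℕ) : nx w (fun _ => 1) u = w u := by
  funext x
  unfold nx
  rw [Root_cut]
  exact mul_one _

private theorem Root_yR (y : ℚ) (R : Finset ℕ) (u : ℕ) :
    (fun x => yR y R x * cut (fun _ => 1) u x) = yR y R := by
  funext x
  rw [Root_cut]
  exact mul_one _

private theorem Root_yR1 (y : ℚ) (R : Finset ℕ) :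
    (fun x => yR y R x * (fun _ : ℕ => (1 : ℚ)) x) = yR y R := by
  funext x
  exact mul_one _

private theorem Root_r1 (r : ℚ) :
    (fun x => r * (fun _ : ℕ => (1 : ℚ)) x) = fun _ => r := by
  funext x
  exact mul_one _

private theorem Root_bd1 (J : Finset ℕ) : Bd1 J (fun _ => 1) := by
  intro x _
  show |(1 : ℚ)| ≤ 1
  rw [abs_one]

private theorem Root_bdy {y : ℚ} (hy : |y| < 1) (J R : Finset ℕ) : Bd1 J (yR y R) :=
  fun x _ => yR_le hy R x

private theorem Root_gf_bad (t r y : ℚ) (q0 e : ℕ) (w : ℕ → ℕ → ℚ) (n : ℕ) {J : Finset ℕ}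
    {s : ℕ → ℚ} (hg : ¬ Good y q0 J s) : gf t r y q0 e w n J s = 0 := by
  cases n with
  | zero =>
    unfold gf
    exact if_neg (fun h => hg h.1)
  | succ n =>
    unfold gf
    exact if_neg hg

private theorem Root_act (y : ℚ) {J : Finset ℕ} {s s' : ℕ → ℚ} (h : ∀ x ∈ J, s x = s' x) :
    act y J s = act y J s' := by
  unfold act
  exact filter_congr fun x hx => by rw [h x hx]

private theorem Root_cond_iff (y : ℚ) {w w' : ℕ → ℕ → ℚ} {J : Finset ℕ} {s s' : ℕ → ℚ}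
    (hw : ∀ a ∈ J, ∀ b ∈ J, w a b = w' a b) (h : ∀ x ∈ J, s x = s' x) :
    Cond y w J s ↔ Cond y w' J s' := by
  unfold Cond
  rw [Root_act y h]
  refine forall₂_congr fun x hx => imp_congr_right fun _ => exists_congr fun a =>
    and_congr_right fun ha => ?_
  rw [hw a (mem_filter.1 ha).1 x hx]

private theorem Root_geom {ρ : ℚ} (h0 : 0 ≤ ρ) (h1 : ρ < 1) {l n : ℕ} (hn : l ≤ n) :
    ∑ k ∈ Ico l n, ρ ^ k ≤ ρ ^ l / (1 - ρ) := by
  have hd : 0 < 1 - ρ := by linarith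
  rw [le_div_iff₀ hd, geom_sum_Ico_mul_neg ρ hn]
  have : 0 ≤ ρ ^ n := pow_nonneg h0 n
  linarith

theorem root_row {p : ℚ} (y : ℚ) {g : (ℕ → ℕ → ℚ) → Finset ℕ → (ℕ → ℚ) → ℚ} (hg : Loc g)
    {n : ℕ} (hn : 1 ≤ n) :
    EP p (prs (range n)) (fun A => g (wA y A) (Ico 1 n) (wA y A 0)) =
      EP p (Ico 1 n) (fun R => EP p (prs (Ico 1 n)) (fun A => g (wA y A) (Ico 1 n) (yR y R))) := by
  have h := ep_row (p := p) y hg (J := range n) (u := 0) (mem_range.2 hn) (fun _ => 1)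
  simp only [Root_nx, Root_yR, Root_erase] at h
  exact h

theorem root_S2 {t r y p C : ℚ} (hH : Hyp t r y p) (hb : HB t r C) {n : ℕ} (hn : 1 ≤ n) :
    EP p (prs (range n)) (fun A => S2 t r (wA y A) (n - 1) (Ico 1 n) (wA y A 0)) ≤
      Kp (C ^ 2) n * U t r (Ico 1 n) (fun _ => r) ^ 2 := by
  obtain ⟨m, rfl⟩ : ∃ m, n = m + 1 := ⟨n - 1, by omega⟩
  have hc : (Ico 1 (m + 1)).card = m := by rw [Nat.card_Ico]; omega
  have h0 : m + 1 - 1 = m := by omega
  rw [h0, root_row y (S2_loc t r m) hn]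
  have h1 : EP p (Ico 1 (m + 1)) (fun R => EP p (prs (Ico 1 (m + 1))) (fun A =>
        S2 t r (wA y A) m (Ico 1 (m + 1)) (yR y R))) ≤
      EP p (Ico 1 (m + 1)) (fun R => Kp (C ^ 2) m *
        U t r (Ico 1 (m + 1)) (fun x => yR y R x * (fun _ : ℕ => (1 : ℚ)) x) ^ 2) := by
    refine EP_mono hH.hp0.le hH.hp1.le fun R _ => ?_
    have h2 := ep_S2 hH hb (Root_bdy hH.y_lt (Ico 1 (m + 1)) R)
    rw [hc] at h2
    rw [Root_yR1]
    exact h2
  rw [EP_mul] at h1
  have h3 := row_sq hH hb (Root_bd1 (Ico 1 (m + 1)))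
  rw [hc, Root_r1] at h3
  have h4 : 0 ≤ Kp (C ^ 2) m := zero_le_one.trans (Kp_one (sq_nonneg C) m)
  have h5 := h1.trans (mul_le_mul_of_nonneg_left h3 h4)
  refine h5.trans (le_of_eq ?_)
  have h6 : Kp (C ^ 2) (m + 1) = Kp (C ^ 2) m * (1 + C ^ 2 / m) := rfl
  rw [h6]
  ring

theorem root_gf2 {t r y p C : ℚ} (hH : Hyp t r y p) (hb : HB t r C) (q0 : ℕ) {l n : ℕ}
    (hn : l + 1 ≤ n) :
    EP p (prs (range n)) (fun A => gf t r y q0 2 (wA y A) (n - 1 - l) (Ico 1 n) (wA y A 0)) *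
      U t r (Ico 1 n) (fun _ => r) ≤ gg t r l (-1) * Kp (Ki C y q0) n := by
  classical
  obtain ⟨k, rfl⟩ : ∃ k, n = l + k + 1 := ⟨n - 1 - l, by omega⟩
  have hc : (Ico 1 (l + k + 1)).card = l + k := by rw [Nat.card_Ico]; omega
  have h0 : l + k + 1 - 1 - l = k := by omega
  have hr := hH.r_lt
  have hy := hH.y_lt
  have hK := Ki_nonneg hb.hC hy q0
  have hM : 0 ≤ gg t r l (-1) := U_nonneg hH.ht hr (fun x _ => by norm_num)
  have hKp : 0 ≤ Kp (Ki C y q0) (l + k) := zero_le_one.trans (Kp_one hK (l + k))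
  have hMK : 0 ≤ gg t r l (-1) * Kp (Ki C y q0) (l + k) := mul_nonneg hM hKp
  rw [h0, root_row y (gf_loc t r y q0 2 k) (by omega)]
  have h1 : EP p (Ico 1 (l + k + 1)) (fun R => EP p (prs (Ico 1 (l + k + 1))) (fun A =>
        gf t r y q0 2 (wA y A) k (Ico 1 (l + k + 1)) (yR y R))) ≤
      EP p (Ico 1 (l + k + 1)) (fun R => gg t r l (-1) * Kp (Ki C y q0) (l + k) *
        (if Good y q0 (Ico 1 (l + k + 1)) (fun x => yR y R x * (fun _ : ℕ => (1 : ℚ)) x)
          then 1 / U t r (Ico 1 (l + k + 1)) (fun x => yR y R x * (fun _ : ℕ => (1 : ℚ)) x)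
          else 0)) := by
    refine EP_mono hH.hp0.le hH.hp1.le fun R _ => ?_
    rw [Root_yR1]
    by_cases hG : Good y q0 (Ico 1 (l + k + 1)) (yR y R)
    · rw [if_pos hG]
      have h2 := ep_gf2 hH hb q0 l k hc (Root_bdy hy (Ico 1 (l + k + 1)) R)
      have h3 := U_pos_good hH.ht hr hy (Root_bdy hy (Ico 1 (l + k + 1)) R) hG
      rw [mul_one_div, le_div_iff₀ h3]
      exact h2
    · rw [if_neg hG]
      have h5 : ∀ A : Finset (ℕ × ℕ), gf t r y q0 2 (wA y A) k (Ico 1 (l + k + 1)) (yR y R) = 0 :=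
        fun A => Root_gf_bad t r y q0 2 (wA y A) k hG
      rw [EP_congr (fun A _ => h5 A), EP_const, mul_zero]
  rw [EP_mul] at h1
  have h7 := row_inv hH hb (Root_bd1 (Ico 1 (l + k + 1))) q0
  rw [hc, Root_r1] at h7
  have h8 := h1.trans (mul_le_mul_of_nonneg_left h7 hMK)
  have hU : 0 < U t r (Ico 1 (l + k + 1)) (fun _ => r) := by
    have h9 := U_ge_min hH.ht hr (Root_bd1 (Ico 1 (l + k + 1)))
    rw [Root_r1] at h9
    exact lt_of_lt_of_le (hb.pos _) h9
  have h10 := mul_le_mul_of_nonneg_right h8 hU.le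
  refine h10.trans (le_of_eq ?_)
  have h11 : Kp (Ki C y q0) (l + k + 1) =
      Kp (Ki C y q0) (l + k) * (1 + Ki C y q0 / ((l + k : ℕ) : ℚ)) := rfl
  rw [h11]
  field_simp

open Classical in
theorem root_gf1 {t r y p ρ : ℚ} (hH : Hyp t r y p) {q0 : ℕ} (hq : 1 ≤ q0) (hρ0 : 0 ≤ ρ)
    (hρ1 : ρ < 1)
    (hρ : ∀ (J : Finset ℕ) (s : ℕ → ℚ), Bd1 J s →
      EP p J (fun R => if Good y q0 J (fun x => yR y R x * s x) then 0 else 1) ≤ ρ ^ J.card)
    {l n : ℕ} (hn : l + 1 ≤ n) :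
    EP p (prs (range n)) (fun A => 1 - gf t r y q0 1 (wA y A) (n - 1 - l) (Ico 1 n) (wA y A 0)) ≤
      om p q0 l + ρ ^ l / (1 - ρ) := by
  obtain ⟨k, rfl⟩ : ∃ k, n = l + k + 1 := ⟨n - 1 - l, by omega⟩
  have hc : (Ico 1 (l + k + 1)).card = l + k := by rw [Nat.card_Ico]; omega
  have h0 : l + k + 1 - 1 - l = k := by omega
  have hy := hH.y_lt
  have hloc : Loc fun w J s => 1 - gf t r y q0 1 w k J s := by
    intro w w' J s s' hw hs
    have h := gf_loc t r y q0 1 k w w' J s s' hw hs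
    show 1 - gf t r y q0 1 w k J s = 1 - gf t r y q0 1 w' k J s'
    have h' : gf t r y q0 1 w k J s = gf t r y q0 1 w' k J s' := h
    rw [h']
  have hrow : EP p (prs (range (l + k + 1))) (fun A =>
        1 - gf t r y q0 1 (wA y A) k (Ico 1 (l + k + 1)) (wA y A 0)) =
      EP p (Ico 1 (l + k + 1)) (fun R => EP p (prs (Ico 1 (l + k + 1))) (fun A =>
        1 - gf t r y q0 1 (wA y A) k (Ico 1 (l + k + 1)) (yR y R))) :=
    root_row y hloc (by omega)
  rw [h0, hrow]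
  have hom : 0 ≤ om p q0 l := by
    unfold om
    have : (0 : ℚ) ≤ (1 - p) ^ (l / q0) := pow_nonneg (by linarith [hH.hp1]) _
    positivity
  have hb0 : 0 ≤ om p q0 l + ∑ j ∈ Ico l (l + k), ρ ^ j :=
    add_nonneg hom (Finset.sum_nonneg fun j _ => pow_nonneg hρ0 j)
  have hg1 := Root_geom hρ0 hρ1 (show l ≤ l + k + 1 by omega)
  rw [Finset.sum_Ico_succ_top (Nat.le_add_right l k)] at hg1
  have hep : ∀ R : Finset ℕ, Good y q0 (Ico 1 (l + k + 1)) (yR y R) →
      EP p (prs (Ico 1 (l + k + 1))) (fun A =>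
        1 - gf t r y q0 1 (wA y A) k (Ico 1 (l + k + 1)) (yR y R)) ≤
      om p q0 l + ∑ j ∈ Ico l (l + k), ρ ^ j :=
    fun R hG => ep_gf1 hH hq hρ0 hρ l k hc (Root_bdy hy _ R) hG
  generalize hbe : om p q0 l + ∑ j ∈ Ico l (l + k), ρ ^ j = b at hb0 hep
  have h4 : EP p (Ico 1 (l + k + 1)) (fun R => EP p (prs (Ico 1 (l + k + 1))) (fun A =>
        1 - gf t r y q0 1 (wA y A) k (Ico 1 (l + k + 1)) (yR y R))) ≤
      EP p (Ico 1 (l + k + 1)) (fun R => b +
        if Good y q0 (Ico 1 (l + k + 1)) (fun x => yR y R x * (fun _ : ℕ => (1 : ℚ)) x)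
          then 0 else 1) := by
    refine EP_mono hH.hp0.le hH.hp1.le fun R _ => ?_
    rw [Root_yR1]
    by_cases hG : Good y q0 (Ico 1 (l + k + 1)) (yR y R)
    · rw [if_pos hG, add_zero]
      exact hep R hG
    · rw [if_neg hG]
      have h5 : ∀ A : Finset (ℕ × ℕ),
          1 - gf t r y q0 1 (wA y A) k (Ico 1 (l + k + 1)) (yR y R) = 1 := by
        intro A
        rw [Root_gf_bad t r y q0 1 (wA y A) k hG, sub_zero]
      rw [EP_congr (fun A _ => h5 A), EP_const]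
      linarith
  have h6 : EP p (Ico 1 (l + k + 1)) (fun R => b +
        if Good y q0 (Ico 1 (l + k + 1)) (fun x => yR y R x * (fun _ : ℕ => (1 : ℚ)) x)
          then 0 else 1) =
      b + EP p (Ico 1 (l + k + 1)) (fun R =>
        if Good y q0 (Ico 1 (l + k + 1)) (fun x => yR y R x * (fun _ : ℕ => (1 : ℚ)) x)
          then 0 else 1) := by
    rw [EP_add, EP_const]
  have h7 := hρ (Ico 1 (l + k + 1)) (fun _ => 1) (Root_bd1 _)
  rw [hc] at h7
  rw [h6] at h4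
  linarith

open Classical in
theorem root_cond {t r y p ρ : ℚ} (hH : Hyp t r y p) {q0 : ℕ} (hq : 1 ≤ q0) (hρ0 : 0 ≤ ρ)
    (hρ1 : ρ < 1)
    (hρ : ∀ (J : Finset ℕ) (s : ℕ → ℚ), Bd1 J s →
      EP p J (fun R => if Good y q0 J (fun x => yR y R x * s x) then 0 else 1) ≤ ρ ^ J.card)
    {n : ℕ} (hn : 1 ≤ n) :
    EP p (prs (range n)) (fun A => if Cond y (wA y A) (Ico 1 n) (wA y A 0) then 0 else 1) ≤
      om p q0 (n - 1) + ρ ^ (n - 1) / (1 - ρ) := by
  have hc : (Ico 1 n).card = n - 1 := Nat.card_Ico 1 n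
  have hy := hH.y_lt
  have hloc : Loc fun w J s => if Cond y w J s then (0 : ℚ) else 1 := by
    intro w w' J s s' hw hs
    show (if Cond y w J s then (0 : ℚ) else 1) = if Cond y w' J s' then (0 : ℚ) else 1
    simp only [Root_cond_iff y hw hs]
  have hrow : EP p (prs (range n)) (fun A =>
        if Cond y (wA y A) (Ico 1 n) (wA y A 0) then (0 : ℚ) else 1) =
      EP p (Ico 1 n) (fun R => EP p (prs (Ico 1 n)) (fun A =>
        if Cond y (wA y A) (Ico 1 n) (yR y R) then (0 : ℚ) else 1)) :=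
    root_row y hloc hn
  rw [hrow]
  have hom : 0 ≤ om p q0 (n - 1) := by
    unfold om
    have : (0 : ℚ) ≤ (1 - p) ^ ((n - 1) / q0) := pow_nonneg (by linarith [hH.hp1]) _
    positivity
  have hcb : ∀ R : Finset ℕ, Good y q0 (Ico 1 n) (yR y R) →
      EP p (prs (Ico 1 n)) (fun A =>
        if Cond y (wA y A) (Ico 1 n) (yR y R) then (0 : ℚ) else 1) ≤ om p q0 (n - 1) := by
    intro R hG
    have h := cond_bad hH.hp0 hH.hp1 hy hq hG
    rw [hc] at h
    exact h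
  generalize hbe : om p q0 (n - 1) = b at hom hcb
  have h4 : EP p (Ico 1 n) (fun R => EP p (prs (Ico 1 n)) (fun A =>
        if Cond y (wA y A) (Ico 1 n) (yR y R) then (0 : ℚ) else 1)) ≤
      EP p (Ico 1 n) (fun R => b +
        if Good y q0 (Ico 1 n) (fun x => yR y R x * (fun _ : ℕ => (1 : ℚ)) x)
          then 0 else 1) := by
    refine EP_mono hH.hp0.le hH.hp1.le fun R _ => ?_
    rw [Root_yR1]
    by_cases hG : Good y q0 (Ico 1 n) (yR y R)
    · rw [if_pos hG, add_zero]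
      exact hcb R hG
    · rw [if_neg hG]
      have h5 : EP p (prs (Ico 1 n)) (fun A =>
          if Cond y (wA y A) (Ico 1 n) (yR y R) then (0 : ℚ) else 1) ≤
          EP p (prs (Ico 1 n)) (fun _ => 1) := by
        refine EP_mono hH.hp0.le hH.hp1.le fun A _ => ?_
        split_ifs
        · norm_num
        · exact le_rfl
      rw [EP_const] at h5
      linarith
  have h6 : EP p (Ico 1 n) (fun R => b +
        if Good y q0 (Ico 1 n) (fun x => yR y R x * (fun _ : ℕ => (1 : ℚ)) x)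
          then 0 else 1) =
      b + EP p (Ico 1 n) (fun R =>
        if Good y q0 (Ico 1 n) (fun x => yR y R x * (fun _ : ℕ => (1 : ℚ)) x)
          then 0 else 1) := by
    rw [EP_add, EP_const]
  have h7 := hρ (Ico 1 n) (fun _ => 1) (Root_bd1 _)
  rw [hc] at h7
  rw [h6] at h4
  have h8 : ρ ^ (n - 1) ≤ ρ ^ (n - 1) / (1 - ρ) := by
    have hd : 0 < 1 - ρ := by linarith
    rw [le_div_iff₀ hd]
    have : 0 ≤ ρ ^ (n - 1) := pow_nonneg hρ0 _
    nlinarith
  linarith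

end Pool.Agent.AAG
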