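import Pool.Agent.AAG.Bds
import Pool.Agent.AAG.EPg

set_option autoImplicit false

/-!
# AAG-RowA: Lemma 2, mean and second moment

PLAN. `row_mean`: for `K ⊆ J` let `s_K(R) x = (if x ∈ K then yR y R x else r) * s x`. Induction on `K`
(`Finset.induction_on`, `K ⊆ J`): `EP p K (fun R => U t r J (s_K R)) = U t r J (fun x => r * s x)`.
Step `insert v K`: `EP_insert`; by `U_upd` at `v` the value of `U` at an entry `τ` at `v` is `a - τ b`
with `b = U t r (J.erase v) (..)`, and `p (a - y s_v b) + (1 - p)(a - s_v b) = a - r s_v b`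
(`r = 1 - p (1 - y)`).
`row_sq`: the same induction for
`EP p K (fun R => U t r J (s_K R) ^ 2) ≤ U t r J (r s) ^ 2 + K.card * gg t r (J.card - 1) (-1) ^ 2`:
`p (a - y c)^2 + (1-p)(a - c)^2 = (a - r c)^2 + p(1-p)(1-y)^2 c^2`, `p (1-p)(1-y)^2 ≤ 1`,
`c = s_v b`, `0 ≤ b ≤ gg t r (J.card - 1) (-1)` (`U_nonneg`, `U_le_max` on `J.erase v`, row `r * ..` is in `[-1,1]`).
With `m = J.card`: `m * gg (m-1) (-1) ≤ C * gg m |r| ≤ C * U t r J (r s)` (`HB.hM`, `U_ge_min`), so
`m * gg (m-1)(-1)^2 ≤ C^2 / m * U(r s)^2`.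
-/

namespace Pool.Agent.AAG

open Finset

/-- the row with the entries in `K` random, the others averaged -/
private def RowA_s (r y : ℚ) (s : ℕ → ℚ) (K R : Finset ℕ) : ℕ → ℚ :=
  fun x => (if x ∈ K then yR y R x else r) * s x

private theorem RowA_bd {r y : ℚ} (hy : |y| < 1) (hr : |r| < 1) {J : Finset ℕ} {s : ℕ → ℚ} (hs : Bd1 J s)
    (K R : Finset ℕ) : Bd1 J (RowA_s r y s K R) := by
  intro x hx
  unfold RowA_s
  rw [abs_mul]
  have h1 : |if x ∈ K then yR y R x else r| ≤ 1 := by
    split_ifs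
    · exact yR_le hy R x
    · exact hr.le
  calc |if x ∈ K then yR y R x else r| * |s x| ≤ 1 * 1 := mul_le_mul h1 (hs x hx) (abs_nonneg _) zero_le_one
    _ = 1 := one_mul 1

private theorem RowA_step (t r y : ℚ) {J : Finset ℕ} (s : ℕ → ℚ) {K R : Finset ℕ} {v : ℕ} (hv : v ∈ J)
    (hvK : v ∉ K) (hR : R ⊆ K) : ∃ a b : ℚ, b = U t r (J.erase v) (fun x => r * RowA_s r y s K R x) ∧
      U t r J (RowA_s r y s (insert v K) (insert v R)) = a - y * (s v * b) ∧
      U t r J (RowA_s r y s (insert v K) R) = a - s v * b ∧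
      U t r J (RowA_s r y s K R) = a - r * (s v * b) := by
  have hvR : v ∉ R := fun h => hvK (hR h)
  refine ⟨U t r J (Function.update (RowA_s r y s K R) v 0),
    U t r (J.erase v) (fun x => r * RowA_s r y s K R x), rfl, ?_, ?_, ?_⟩
  · have h1 : U t r J (RowA_s r y s (insert v K) (insert v R)) =
        U t r J (Function.update (RowA_s r y s K R) v (y * s v)) := by
      apply U_congr
      intro x _
      by_cases hx : x = v
      · subst hx
        rw [Function.update_self]
        simp [RowA_s, yR]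
      · rw [Function.update_of_ne hx]
        simp [RowA_s, yR, hx]
    rw [h1, U_upd t r hv]
    ring
  · have h1 : U t r J (RowA_s r y s (insert v K) R) =
        U t r J (Function.update (RowA_s r y s K R) v (s v)) := by
      apply U_congr
      intro x _
      by_cases hx : x = v
      · subst hx
        rw [Function.update_self]
        simp [RowA_s, yR, hvR]
      · rw [Function.update_of_ne hx]
        simp [RowA_s, hx]
    rw [h1, U_upd t r hv]
  · have h1 : U t r J (RowA_s r y s K R) =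
        U t r J (Function.update (RowA_s r y s K R) v (r * s v)) := by
      apply U_congr
      intro x _
      by_cases hx : x = v
      · subst hx
        rw [Function.update_self]
        simp [RowA_s, hvK]
      · rw [Function.update_of_ne hx]
    rw [h1, U_upd t r hv]
    ring

private theorem RowA_mean {t r y p : ℚ} (hr : r = 1 - p * (1 - y)) (J : Finset ℕ) (s : ℕ → ℚ) :
    ∀ K : Finset ℕ, K ⊆ J → EP p K (fun R => U t r J (RowA_s r y s K R)) = U t r J (fun x => r * s x) := by
  intro K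
  induction K using Finset.induction_on with
  | empty =>
    intro _
    rw [EP_empty]
    apply U_congr
    intro x _
    simp [RowA_s]
  | insert v K hvK ih =>
    intro hK
    have hv : v ∈ J := hK (Finset.mem_insert_self v K)
    rw [EP_insert hvK, ← ih fun x hx => hK (Finset.mem_insert_of_mem hx), ← EP_mul, ← EP_mul, ← EP_add]
    apply EP_congr
    intro R hR
    obtain ⟨a, b, -, h1, h2, h3⟩ := RowA_step t r y s hv hvK hR
    rw [h1, h2, h3, hr]
    ring

private theorem RowA_sq {t r y p : ℚ} (hH : Hyp t r y p) {J : Finset ℕ} {s : ℕ → ℚ} (hs : Bd1 J s) :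
    ∀ K : Finset ℕ, K ⊆ J → EP p K (fun R => U t r J (RowA_s r y s K R) ^ 2) ≤
      U t r J (fun x => r * s x) ^ 2 + K.card * gg t r (J.card - 1) (-1) ^ 2 := by
  have hr1 := hH.r_lt
  have hy1 := hH.y_lt
  obtain ⟨ht, hyl, hyr, hp0, hp1, hr⟩ := hH
  intro K
  induction K using Finset.induction_on with
  | empty =>
    intro _
    rw [EP_empty]
    have h1 : U t r J (RowA_s r y s ∅ ∅) = U t r J (fun x => r * s x) := by
      apply U_congr
      intro x _
      simp [RowA_s]
    rw [h1]
    simp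
  | insert v K hvK ih =>
    intro hK
    have hv : v ∈ J := hK (Finset.mem_insert_self v K)
    have ih' := ih fun x hx => hK (Finset.mem_insert_of_mem hx)
    have h5 : EP p (insert v K) (fun R => U t r J (RowA_s r y s (insert v K) R) ^ 2) ≤
        EP p K (fun R => U t r J (RowA_s r y s K R) ^ 2 + gg t r (J.card - 1) (-1) ^ 2) := by
      rw [EP_insert hvK, ← EP_mul, ← EP_mul, ← EP_add]
      apply EP_mono hp0.le hp1.le
      intro R hR
      obtain ⟨a, b, hb, h1, h2, h3⟩ := RowA_step t r y s hv hvK hR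
      rw [h1, h2, h3]
      have hBd : Bd1 (J.erase v) (fun x => r * RowA_s r y s K R x) := by
        intro x hx
        rw [abs_mul]
        have h6 := RowA_bd hy1 hr1 hs K R x (Finset.mem_of_mem_erase hx)
        calc |r| * |RowA_s r y s K R x| ≤ 1 * 1 := mul_le_mul hr1.le h6 (abs_nonneg _) zero_le_one
          _ = 1 := one_mul 1
      have hb0 : 0 ≤ b := by
        rw [hb]
        exact U_nonneg ht hr1 hBd
      have hb1 : b ≤ gg t r (J.card - 1) (-1) := by
        rw [hb]
        have h7 := U_le_max ht hr1 hBd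
        rwa [Finset.card_erase_of_mem hv] at h7
      have hsv : s v ^ 2 ≤ 1 := by
        rw [sq_le_one_iff_abs_le_one]
        exact hs v hv
      have hc : (s v * b) ^ 2 ≤ gg t r (J.card - 1) (-1) ^ 2 := by
        rw [mul_pow]
        calc s v ^ 2 * b ^ 2 ≤ 1 * b ^ 2 := mul_le_mul_of_nonneg_right hsv (sq_nonneg b)
          _ = b ^ 2 := one_mul _
          _ ≤ gg t r (J.card - 1) (-1) ^ 2 := by
            rw [sq, sq]
            exact mul_le_mul hb1 hb1 hb0 (hb0.trans hb1)
      have hq : p * (1 - p) * (1 - y) ^ 2 ≤ 1 := by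
        have h8 : 0 ≤ (1 - 2 * p) ^ 2 := sq_nonneg _
        have h9 : 4 * (p * (1 - p)) ≤ 1 := by nlinarith
        have h10 : (1 - y) ^ 2 ≤ 4 := by nlinarith
        have h11 : 0 ≤ p * (1 - p) := mul_nonneg hp0.le (by linarith)
        have h12 : 0 ≤ (1 - y) ^ 2 := sq_nonneg _
        nlinarith [mul_le_mul_of_nonneg_left h10 h11]
      have e : p * (a - y * (s v * b)) ^ 2 + (1 - p) * (a - s v * b) ^ 2 =
          (a - r * (s v * b)) ^ 2 + p * (1 - p) * (1 - y) ^ 2 * (s v * b) ^ 2 := by
        rw [hr]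
        ring
      rw [e]
      have h13 : p * (1 - p) * (1 - y) ^ 2 * (s v * b) ^ 2 ≤ 1 * (s v * b) ^ 2 :=
        mul_le_mul_of_nonneg_right hq (sq_nonneg _)
      linarith
    rw [EP_add, EP_const] at h5
    rw [Finset.card_insert_of_notMem hvK]
    push_cast
    linarith

theorem row_mean {t r y p : ℚ} (hH : Hyp t r y p) (J : Finset ℕ) (s : ℕ → ℚ) :
    EP p J (fun R => U t r J (fun x => yR y R x * s x)) = U t r J (fun x => r * s x) := by
  rw [← RowA_mean hH.hr J s J (Finset.Subset.refl J)]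
  apply EP_congr
  intro R _
  apply U_congr
  intro x hx
  simp [RowA_s, hx]

theorem row_sq {t r y p C : ℚ} (hH : Hyp t r y p) (hb : HB t r C) {J : Finset ℕ} {s : ℕ → ℚ}
    (hs : Bd1 J s) :
    EP p J (fun R => U t r J (fun x => yR y R x * s x) ^ 2) ≤
      (1 + C ^ 2 / J.card) * U t r J (fun x => r * s x) ^ 2 := by
  have h1 := RowA_sq hH hs J (Finset.Subset.refl J)
  have h2 : EP p J (fun R => U t r J (RowA_s r y s J R) ^ 2) =
      EP p J (fun R => U t r J (fun x => yR y R x * s x) ^ 2) := by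
    apply EP_congr
    intro R _
    have h3 : U t r J (RowA_s r y s J R) = U t r J (fun x => yR y R x * s x) := by
      apply U_congr
      intro x hx
      simp [RowA_s, hx]
    rw [h3]
  rw [h2] at h1
  refine h1.trans ?_
  rw [add_mul, one_mul]
  rcases Nat.eq_zero_or_pos J.card with h0 | h0
  · rw [h0]
    simp
  · obtain ⟨m, hm⟩ : ∃ m, J.card = m + 1 := ⟨J.card - 1, by omega⟩
    have h4 := hb.hM m
    have h5 := U_ge_min hH.ht hH.r_lt hs
    have h6 : 0 ≤ gg t r m (-1) := by
      have h7 := U_nonneg (J := range m) (s := fun _ => (-1 : ℚ)) hH.ht hH.r_lt (by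
        intro x _
        simp)
      exact h7
    rw [hm] at h5 ⊢
    have hC : 0 ≤ C := zero_le_one.trans hb.hC
    have hm' : (0 : ℚ) < ((m + 1 : ℕ) : ℚ) := by positivity
    have h8 : ((m + 1 : ℕ) : ℚ) * gg t r m (-1) ≤ C * U t r J (fun x => r * s x) := by
      push_cast
      exact h4.trans (mul_le_mul_of_nonneg_left h5 hC)
    have h9 : (((m + 1 : ℕ) : ℚ) * gg t r m (-1)) ^ 2 ≤ (C * U t r J (fun x => r * s x)) ^ 2 := by
      rw [sq, sq]
      exact mul_le_mul h8 h8 (by positivity) ((by positivity : (0:ℚ) ≤ ((m + 1 : ℕ) : ℚ) * gg t r m (-1)).trans h8)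
    have h10 : m + 1 - 1 = m := by omega
    rw [h10]
    have h11 : C ^ 2 / ((m + 1 : ℕ) : ℚ) * U t r J (fun x => r * s x) ^ 2 =
        (C * U t r J (fun x => r * s x)) ^ 2 / ((m + 1 : ℕ) : ℚ) := by
      ring
    have h12 : ((m + 1 : ℕ) : ℚ) * gg t r m (-1) ^ 2 =
        (((m + 1 : ℕ) : ℚ) * gg t r m (-1)) ^ 2 / ((m + 1 : ℕ) : ℚ) := by
      field_simp
    rw [h11, h12]
    have h13 := div_le_div_of_nonneg_right h9 hm'.le
    linarith

end Pool.Agent.AAG
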