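import Pool.Agent.AAG.RowA

set_option autoImplicit false

/-!
# AAG-RowB: Lemma 2, inverse moment and bad rows

PLAN. `row_inv`: `J = ∅`: `U = 1`, both sides `≤`: left `EP p ∅ .. ≤ 1`, right `(1 + K/0)/1 = 1`.
`J` nonempty: put `u0 = U t r J (r s) > 0`, `Z = U t r J (yR s) / u0 ≥ 0`. On good rows
`Z ≥ c := (1 - |y|)/(C q0)` (`U_ge_good`, `u0 ≤ gg t r J.card (-1)` by `U_le_max`; `q0 > 0` since the row is good
and `J` nonempty). Pointwise `(if Good then 1/Z else 0) ≤ 2 - Z + (1 + 1/c) (Z - 1)^2`: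
good: `1/Z = 2 - Z + (Z-1)^2 / Z`; otherwise `2 - Z + (Z-1)^2 > 0`. Take `EP` (`EP_mono`, `EP_add`, ..):
`EP Z = 1` (`row_mean`), `EP (Z-1)^2 = EP Z^2 - 1 ≤ C^2 / m` (`row_sq`). `1 + 1/c = 1 + C q0/(1-|y|)`,
so the constant is `Ki C y q0`. (Case `q0 = 0`: no row is good, the left side is `0`.)
`row_bad`: `R ⊆ act` (`|y * s x| ≤ |y|`), so not good implies `q0 * (R ∩ J).card < J.card`, and
`(if Good then 0 else 1) ≤ ∏ x ∈ J, (if x ∈ R then β / β ^ q0 else β) = β ^ |J| / (β^q0)^|R|`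
(for `R ⊆ J`; `β ≥ 1`); then `EP_prod`.
`row_num`: `β = 1 + p/2`: `β (1-p) ≤ 1 - p/2`, and `β / β^q0 ≤ 1/4` for large `q0`
(powers of a number `> 1` are unbounded), so the sum is `≤ 1 - p/4`.
-/

namespace Pool.Agent.AAG

open Finset

private theorem RowB_bd {t r y p : ℚ} (hH : Hyp t r y p) {J : Finset ℕ} {s : ℕ → ℚ} (hs : Bd1 J s) (R : Finset ℕ) :
    Bd1 J (fun x => yR y R x * s x) := by
  intro x hx
  rw [abs_mul]
  have h1 := yR_le hH.y_lt R x
  have h2 := hs x hx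
  nlinarith [abs_nonneg (yR y R x), abs_nonneg (s x)]

private theorem RowB_pt {u W κ : ℚ} (hu : 0 < u) (hW : 0 < W) (hκ : u ≤ κ * W) :
    1 / W ≤ (1 / u) * (3 + κ) + (-(1 / u) * (3 + 2 * κ) / u) * W + (1 / u * (1 + κ) / u ^ 2) * W ^ 2 := by
  have h1 : (1 / u) * (3 + κ) + (-(1 / u) * (3 + 2 * κ) / u) * W + (1 / u * (1 + κ) / u ^ 2) * W ^ 2 - 1 / W
      = (W - u) ^ 2 * ((1 + κ) * W - u) / (u ^ 3 * W) := by
    field_simp
    ring
  have h2 : 0 ≤ (W - u) ^ 2 * ((1 + κ) * W - u) / (u ^ 3 * W) := by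
    apply div_nonneg
    · apply mul_nonneg (sq_nonneg _)
      nlinarith
    · positivity
  linarith

private theorem RowB_pt0 {u W κ : ℚ} (hu : 0 < u) (hκ : 0 ≤ κ) :
    0 ≤ (1 / u) * (3 + κ) + (-(1 / u) * (3 + 2 * κ) / u) * W + (1 / u * (1 + κ) / u ^ 2) * W ^ 2 := by
  have h1 : (1 / u) * (3 + κ) + (-(1 / u) * (3 + 2 * κ) / u) * W + (1 / u * (1 + κ) / u ^ 2) * W ^ 2
      = (κ * (W - u) ^ 2 + ((W - 3 / 2 * u) ^ 2 + 3 / 4 * u ^ 2)) / u ^ 3 := by
    field_simp
    ring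
  rw [h1]
  positivity

open Classical in
theorem row_inv {t r y p C : ℚ} (hH : Hyp t r y p) (hb : HB t r C) {J : Finset ℕ} {s : ℕ → ℚ}
    (hs : Bd1 J s) (q0 : ℕ) :
    EP p J (fun R => if Good y q0 J (fun x => yR y R x * s x)
        then 1 / U t r J (fun x => yR y R x * s x) else 0) ≤
      (1 + Ki C y q0 / J.card) / U t r J (fun x => r * s x) := by
  have hp0 := hH.hp0.le
  have hp1 := hH.hp1.le
  rcases J.eq_empty_or_nonempty with hJ | hJ
  · subst hJ
    rw [EP_empty]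
    simp only [U_empty, card_empty, Nat.cast_zero, div_zero, add_zero, div_one]
    split_ifs <;> norm_num
  · have hy := hH.y_lt
    have hr := hH.r_lt
    have ht := hH.ht
    have hC : (0:ℚ) < C := lt_of_lt_of_le one_pos hb.hC
    have hm : (0:ℚ) < J.card := by exact_mod_cast hJ.card_pos
    set u := U t r J (fun x => r * s x) with hu
    have hu0 : 0 < u := lt_of_lt_of_le (hb.pos J.card) (U_ge_min ht hr hs)
    have hrs : Bd1 J (fun x => r * s x) := by
      intro x hx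
      rw [abs_mul]
      have h2 := hs x hx
      nlinarith [abs_nonneg r, abs_nonneg (s x)]
    have huM : u ≤ gg t r J.card (-1) := U_le_max ht hr hrs
    have hy' : 0 < 1 - |y| := by linarith
    set κ : ℚ := C * q0 / (1 - |y|) with hκ
    have hκ0 : 0 ≤ κ := by positivity
    have h1 : EP p J (fun R => if Good y q0 J (fun x => yR y R x * s x)
        then 1 / U t r J (fun x => yR y R x * s x) else 0)
        ≤ EP p J (fun R => ((1 / u) * (3 + κ) + (-(1 / u) * (3 + 2 * κ) / u) * U t r J (fun x => yR y R x * s x))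
          + (1 / u * (1 + κ) / u ^ 2) * U t r J (fun x => yR y R x * s x) ^ 2) := by
      refine EP_mono hp0 hp1 fun R _ => ?_
      beta_reduce
      split_ifs with hg
      · have hbd := RowB_bd hH hs R
        refine RowB_pt hu0 (U_pos_good ht hr hy hbd hg) ?_
        have h2 := U_ge_good ht hr hy hb hJ hbd hg
        rw [hκ, div_mul_eq_mul_div, le_div_iff₀ hy']
        nlinarith
      · exact RowB_pt0 hu0 hκ0
    refine h1.trans ?_
    rw [EP_add, EP_add, EP_const, EP_mul, EP_mul, row_mean hH]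
    have h2 := row_sq hH hb hs
    rw [← hu] at h2 ⊢
    have h3 : 0 ≤ 1 / u * (1 + κ) / u ^ 2 := by positivity
    have h4 := mul_le_mul_of_nonneg_left h2 h3
    refine (add_le_add_right h4 _).trans (le_of_eq ?_)
    rw [Ki, ← hκ]
    field_simp
    ring

open Classical in
theorem row_bad {t r y p : ℚ} (hH : Hyp t r y p) {J : Finset ℕ} {s : ℕ → ℚ}
    (hs : Bd1 J s) (q0 : ℕ) {β : ℚ} (hβ : 1 ≤ β) :
    EP p J (fun R => if Good y q0 J (fun x => yR y R x * s x) then 0 else 1) ≤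
      (p * (β / β ^ q0) + (1 - p) * β) ^ J.card := by
  have hp0 := hH.hp0.le
  have hp1 := hH.hp1.le
  have hβ0 : 0 < β := by linarith
  have h1 := EP_prod p J (fun _ => β / β ^ q0) (fun _ => β)
  rw [prod_const] at h1
  rw [← h1]
  refine EP_mono hp0 hp1 fun R hR => ?_
  split_ifs with hg
  · refine prod_nonneg fun x _ => ?_
    split_ifs <;> positivity
  · have h2 : R ⊆ act y J (fun x => yR y R x * s x) := by
      intro x hx
      rw [act, mem_filter]
      refine ⟨hR hx, ?_⟩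
      rw [yR, if_pos hx, abs_mul]
      have h3 := hs x (hR hx)
      nlinarith [abs_nonneg y, abs_nonneg (s x)]
    have h3 : q0 * R.card ≤ J.card := by
      rw [Good, not_le] at hg
      exact (Nat.mul_le_mul_left q0 (card_le_card h2)).trans hg.le
    have h4 : (∏ x ∈ J, if x ∈ R then β / β ^ q0 else β) = β ^ J.card / β ^ (q0 * R.card) := by
      have h5 : ∀ x ∈ J, (if x ∈ R then β / β ^ q0 else β) = β * (if x ∈ R then (β ^ q0)⁻¹ else 1) := by
        intro x _
        split_ifs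
        · rw [div_eq_mul_inv]
        · rw [mul_one]
      rw [prod_congr rfl h5, prod_mul_distrib, prod_const, prod_ite, prod_const, prod_const_one, mul_one,
        filter_mem_eq_inter, inter_eq_right.2 hR, inv_pow, ← pow_mul, div_eq_mul_inv]
    rw [h4, one_le_div (by positivity)]
    exact pow_le_pow_right₀ hβ h3

theorem row_num {p : ℚ} (h0 : 0 < p) (h1 : p < 1) :
    ∃ (q0 : ℕ) (β : ℚ), 1 ≤ q0 ∧ 1 ≤ β ∧ p * (β / β ^ q0) + (1 - p) * β < 1 := by
  have hβ : (1:ℚ) < 1 + p / 2 := by linarith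
  obtain ⟨n, hn⟩ := pow_unbounded_of_one_lt (4 : ℚ) hβ
  refine ⟨n + 1, 1 + p / 2, by omega, hβ.le, ?_⟩
  have h2 : (1 + p / 2) / (1 + p / 2) ^ (n + 1) ≤ 1 / 4 := by
    rw [pow_succ, div_le_div_iff₀ (by positivity) (by norm_num)]
    nlinarith
  nlinarith [mul_le_mul_of_nonneg_left h2 h0.le, sq_nonneg p]

end Pool.Agent.AAG
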