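import Pool.Agent.AAG.RowB
import Pool.Agent.AAG.Kp

set_option autoImplicit false

/-!
# AAG-SecM: Proposition 3, the second moment of the ideal sampler over random graphs

PLAN. Induction on `m = J.card`. `m = 0`: `EP p (prs ∅) 1 = 1`, `U = 1`. Step: `J.card = m + 1`.
If `U t r J s = 0` then all `rt = 0` (division by zero), so `cc / rt = 0` and `S2 = 0`.
Otherwise, `EP_sum`, `EP_mul` (the coefficients `cc / rt ≥ 0` do not depend on the graph), then
`ep_row` with `S2_loc`, the induction hypothesis for each `R` (`(J.erase u).card = m`, rows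
`yR * cut` are in `[-1,1]`) and `row_sq` (row `cut s u`; note `fun x => r * cut s u x = nr r s u`):
`EP S2(J.erase u) ≤ Kp (C^2) m * (1 + C^2/m) * U(J.erase u; nr)^2 = Kp (C^2) (m+1) * U(..)^2`.
Finally `∑ cc / rt * U(J.erase u; nr)^2 = U J s * ∑ cc * U(J.erase u; nr) = (U J s)^2` (`U_rec`), where
`1/rt * U(nr)^2 = U J s * U(nr)` (`U(nr) > 0` by `U_ge_nr`, or trivially if it is zero).
-/

namespace Pool.Agent.AAG

open Finset

private theorem SecM_cut {J : Finset ℕ} {s : ℕ → ℚ} (u : ℕ) (hs : Bd1 J s) : Bd1 (J.erase u) (cut s u) := by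
  intro x hx
  unfold cut
  split_ifs
  · exact hs x (mem_of_mem_erase hx)
  · rw [abs_one]

private theorem SecM_rt {t r : ℚ} (ht : 0 ≤ t) (hr : |r| < 1) {J : Finset ℕ} {s : ℕ → ℚ} (u : ℕ)
    (hs : Bd1 J s) : 0 ≤ rt t r J s u :=
  div_nonneg (U_nonneg ht hr (nr_bd hr.le u hs)) (U_nonneg ht hr hs)

theorem S2_nonneg {t r y : ℚ} (ht : 0 ≤ t) (hr : |r| < 1) (hy : |y| < 1) (A : Finset (ℕ × ℕ))
    (n : ℕ) {J : Finset ℕ} {s : ℕ → ℚ} (hs : Bd1 J s) : 0 ≤ S2 t r (wA y A) n J s := by
  induction n generalizing J s with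
  | zero => exact zero_le_one
  | succ n ih =>
    rw [S2]
    refine sum_nonneg fun u hu => mul_nonneg (div_nonneg (cc_nonneg ht (hs u hu)) (SecM_rt ht hr u hs)) (ih ?_)
    exact nx_bd hu (fun a _ b _ => wA_le hy A a b) hs

private theorem SecM_alg (c V Q : ℚ) : c / (V / Q) * V ^ 2 = Q * (c * V) := by
  rcases eq_or_ne V 0 with hV | hV
  · subst hV
    simp
  · rcases eq_or_ne Q 0 with hQ | hQ
    · subst hQ
      simp
    · field_simp

private theorem SecM_main {t r y p C : ℚ} (hH : Hyp t r y p) (hb : HB t r C) (m : ℕ) :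
    ∀ (J : Finset ℕ) (s : ℕ → ℚ), J.card = m → Bd1 J s →
    EP p (prs J) (fun A => S2 t r (wA y A) m J s) ≤ Kp (C ^ 2) m * U t r J s ^ 2 := by
  have hp0 := hH.hp0.le
  have hp1 := hH.hp1.le
  have ht := hH.ht
  have hr := hH.r_lt
  have hy := hH.y_lt
  induction m with
  | zero =>
    intro J s hJ hs
    rw [card_eq_zero] at hJ
    subst hJ
    have h1 : (fun A : Finset (ℕ × ℕ) => S2 t r (wA y A) 0 ∅ s) = fun _ => 1 := rfl
    rw [h1, EP_const, U_empty, Kp]
    norm_num
  | succ m ih =>
    intro J s hJ hs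
    have hJn : J.Nonempty := by
      rw [← card_pos]
      omega
    have hK : 0 ≤ Kp (C ^ 2) m := le_trans zero_le_one (Kp_one (sq_nonneg C) m)
    have h1 : EP p (prs J) (fun A => S2 t r (wA y A) (m + 1) J s) =
        ∑ u ∈ J, cc t J s u / rt t r J s u *
          EP p (prs J) (fun A => S2 t r (wA y A) m (J.erase u) (nx (wA y A) s u)) := by
      have h2 : (fun A : Finset (ℕ × ℕ) => S2 t r (wA y A) (m + 1) J s) = fun A =>
          ∑ u ∈ J, cc t J s u / rt t r J s u * S2 t r (wA y A) m (J.erase u) (nx (wA y A) s u) := rfl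
      rw [h2, EP_sum p (prs J) J (fun u A =>
        cc t J s u / rt t r J s u * S2 t r (wA y A) m (J.erase u) (nx (wA y A) s u))]
      exact sum_congr rfl fun u _ => EP_mul _ _ _ _
    rw [h1]
    have h3 : ∀ u ∈ J, cc t J s u / rt t r J s u *
          EP p (prs J) (fun A => S2 t r (wA y A) m (J.erase u) (nx (wA y A) s u)) ≤
        Kp (C ^ 2) (m + 1) * (U t r J s * (cc t J s u * U t r (J.erase u) (nr r s u))) := by
      intro u hu
      have hcd : (J.erase u).card = m := by
        rw [card_erase_of_mem hu, hJ]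
        rfl
      have hc := SecM_cut u hs
      have h4 : EP p (prs J) (fun A => S2 t r (wA y A) m (J.erase u) (nx (wA y A) s u)) ≤
          Kp (C ^ 2) (m + 1) * U t r (J.erase u) (nr r s u) ^ 2 := by
        rw [ep_row (p := p) y (S2_loc t r m) hu s]
        have h5 : EP p (J.erase u) (fun R => EP p (prs (J.erase u)) (fun A =>
            S2 t r (wA y A) m (J.erase u) (fun x => yR y R x * cut s u x))) ≤
            EP p (J.erase u) (fun R => Kp (C ^ 2) m *
              U t r (J.erase u) (fun x => yR y R x * cut s u x) ^ 2) := by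
          refine EP_mono hp0 hp1 fun R _ => ih _ _ hcd ?_
          intro x hx
          rw [abs_mul]
          exact mul_le_one₀ (yR_le hy R x) (abs_nonneg _) (hc x hx)
        refine h5.trans ?_
        rw [EP_mul]
        have h6 := row_sq hH hb hc
        rw [hcd] at h6
        have h7 := mul_le_mul_of_nonneg_left h6 hK
        refine h7.trans (le_of_eq ?_)
        rw [Kp]
        show _ = Kp (C ^ 2) m * (1 + C ^ 2 / m) * U t r (J.erase u) (fun x => r * cut s u x) ^ 2
        ring
      have h8 : 0 ≤ cc t J s u / rt t r J s u :=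
        div_nonneg (cc_nonneg ht (hs u hu)) (SecM_rt ht hr u hs)
      refine (mul_le_mul_of_nonneg_left h4 h8).trans (le_of_eq ?_)
      have h9 := SecM_alg (cc t J s u) (U t r (J.erase u) (nr r s u)) (U t r J s)
      rw [rt, ← h9]
      generalize cc t J s u / (U t r (J.erase u) (nr r s u) / U t r J s) = z
      ring
    refine (sum_le_sum h3).trans (le_of_eq ?_)
    rw [← mul_sum, ← mul_sum, ← U_rec t r hJn s]
    ring

theorem ep_S2 {t r y p C : ℚ} (hH : Hyp t r y p) (hb : HB t r C) {J : Finset ℕ} {s : ℕ → ℚ}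
    (hs : Bd1 J s) :
    EP p (prs J) (fun A => S2 t r (wA y A) J.card J s) ≤ Kp (C ^ 2) J.card * U t r J s ^ 2 :=
  SecM_main hH hb J.card J s rfl hs

end Pool.Agent.AAG
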