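import Pool.Agent.AAG.Crd

set_option autoImplicit false

/-!
# AAG-Ser: a closed formula for the homogeneous partition function

`ff a r m = m! [z^m] φ^(-a)`, `φ = ∑ c, (-1)^c r^(c(c-1)/2) z^c / c!`, `φ^(-a) = ∑ k, binom(-a, k) (φ - 1)^k`.
The recursion for `ff` is compared with the derivative of this power series.
-/

namespace Pool.Agent.AAG

open Finset

/-- the series of the homogeneous model, truncated -/
noncomputable def phi (r : ℚ) (M : ℕ) : Polynomial ℚ :=
  ∑ c ∈ range (M + 1), Polynomial.C ((-1) ^ c * r ^ (c * (c - 1) / 2) / c.factorial) *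
    Polynomial.X ^ c

/-- binomial coefficients `binom(-a, k)` -/
def bin (a : ℚ) (k : ℕ) : ℚ := ∏ i ∈ range k, ((-a - i) / (i + 1))

/-- closed formula -/
noncomputable def Hc (a r : ℚ) (m : ℕ) : ℚ :=
  m.factorial * ∑ k ∈ range (m + 1), bin a k * ((phi r m - 1) ^ k).coeff m

/-- the power series `φ - 1` -/
private noncomputable def Ser_u (r : ℚ) : PowerSeries ℚ :=
  PowerSeries.mk (fun c => if c = 0 then 0 else (-1) ^ c * r ^ (c * (c - 1) / 2) / c.factorial)

private theorem Ser_phi_coeff (r : ℚ) (M c : ℕ) (h : c ≤ M) :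
    (phi r M).coeff c = (-1) ^ c * r ^ (c * (c - 1) / 2) / c.factorial := by
  unfold phi
  rw [Polynomial.finsetSum_coeff, Finset.sum_eq_single c]
  · rw [Polynomial.coeff_C_mul_X_pow, if_pos rfl]
  · intro b _ hb
    rw [Polynomial.coeff_C_mul_X_pow, if_neg (Ne.symm hb)]
  · intro hc
    exact absurd (Finset.mem_range.2 (by omega)) hc

private theorem Ser_pow (r : ℚ) (m k : ℕ) : ((phi r m - 1) ^ k).coeff m = PowerSeries.coeff m (Ser_u r ^ k) := by
  have h1 : (PowerSeries.X : PowerSeries ℚ) ^ (m + 1) ∣ ((phi r m - 1 : Polynomial ℚ) : PowerSeries ℚ) - Ser_u r := by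
    rw [PowerSeries.X_pow_dvd_iff]
    intro c hc
    rw [map_sub, Polynomial.coeff_coe, Polynomial.coeff_sub, Ser_phi_coeff r m c (by omega), Ser_u,
      PowerSeries.coeff_mk, Polynomial.coeff_one]
    by_cases h : c = 0
    · subst h
      simp
    · rw [if_neg h, if_neg h]
      ring
  have h2 := h1.trans (sub_dvd_pow_sub_pow ((phi r m - 1 : Polynomial ℚ) : PowerSeries ℚ) (Ser_u r) k)
  rw [PowerSeries.X_pow_dvd_iff] at h2
  have h3 := h2 m (by omega)
  rw [map_sub, sub_eq_zero] at h3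
  rw [← h3, ← Polynomial.coe_pow, Polynomial.coeff_coe]

private theorem Ser_lt (r : ℚ) (m k : ℕ) (h : m < k) : PowerSeries.coeff m (Ser_u r ^ k) = 0 := by
  have h1 : (PowerSeries.X : PowerSeries ℚ) ∣ Ser_u r := by
    have h2 : (PowerSeries.X : PowerSeries ℚ) ^ 1 ∣ Ser_u r := by
      rw [PowerSeries.X_pow_dvd_iff]
      intro c hc
      have : c = 0 := by omega
      subst this
      rw [Ser_u, PowerSeries.coeff_mk, if_pos rfl]
    rwa [pow_one] at h2
  have h3 := pow_dvd_pow_of_dvd h1 k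
  rw [PowerSeries.X_pow_dvd_iff] at h3
  exact h3 m h

private noncomputable def Ser_h (a r : ℚ) (m : ℕ) : ℚ :=
  ∑ k ∈ range (m + 1), bin a k * PowerSeries.coeff m (Ser_u r ^ k)

private theorem Ser_Hc (a r : ℚ) (m : ℕ) : Hc a r m = m.factorial * Ser_h a r m := by
  unfold Hc Ser_h
  congr 1
  exact Finset.sum_congr rfl fun k _ => by rw [Ser_pow]

/-- the truncated power series -/
private noncomputable def Ser_A (a r : ℚ) (M : ℕ) : PowerSeries ℚ :=
  ∑ k ∈ range (M + 1), bin a k • Ser_u r ^ k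

private theorem Ser_coeff (a r : ℚ) (m M : ℕ) (h : m ≤ M) : PowerSeries.coeff m (Ser_A a r M) = Ser_h a r m := by
  unfold Ser_A Ser_h
  rw [map_sum]
  have h1 : range (m + 1) ⊆ range (M + 1) := Finset.range_subset_range.2 (by omega)
  rw [← Finset.sum_subset h1]
  · refine Finset.sum_congr rfl fun k _ => ?_
    rw [PowerSeries.coeff_smul, smul_eq_mul]
  · intro k _ hk
    rw [Finset.mem_range, not_lt] at hk
    rw [PowerSeries.coeff_smul, Ser_lt r m k (by omega), smul_zero]

private theorem Ser_bin (a : ℚ) (k : ℕ) : ((k : ℚ) + 1) * bin a (k + 1) = -a * bin (a + 1) k := by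
  induction k with
  | zero =>
    simp [bin]
  | succ k ih =>
    have h1 : bin a (k + 1 + 1) = bin a (k + 1) * ((-a - ((k + 1 : ℕ) : ℚ)) / (((k + 1 : ℕ) : ℚ) + 1)) := by
      unfold bin
      rw [Finset.prod_range_succ]
    have h2 : bin (a + 1) (k + 1) = bin (a + 1) k * ((-(a + 1) - (k : ℚ)) / ((k : ℚ) + 1)) := by
      unfold bin
      rw [Finset.prod_range_succ]
    rw [h1, h2, ← mul_assoc (-a), ← ih]
    have h3 : ((k : ℚ) + 1) ≠ 0 := by positivity
    have h4 : ((k : ℚ) + 1 + 1) ≠ 0 := by positivity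
    push_cast
    field_simp
    ring

private theorem Ser_deriv (a r : ℚ) (M : ℕ) : PowerSeries.derivative ℚ (Ser_A a r (M + 1)) =
    (-a) • (PowerSeries.derivative ℚ (Ser_u r) * Ser_A (a + 1) r M) := by
  unfold Ser_A
  rw [map_sum, Finset.sum_range_succ', Finset.mul_sum, Finset.smul_sum]
  have h0 : PowerSeries.derivative ℚ (bin a 0 • Ser_u r ^ 0) = 0 := by
    rw [pow_zero, Derivation.map_smul, Derivation.map_one_eq_zero, smul_zero]
  rw [h0, add_zero]
  refine Finset.sum_congr rfl fun k _ => ?_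
  rw [Derivation.map_smul, Derivation.leibniz_pow, Nat.add_sub_cancel, mul_smul_comm, smul_smul, ← Ser_bin,
    smul_eq_mul, mul_comm (Ser_u r ^ k), mul_comm ((k : ℚ) + 1), ← smul_smul]
  congr 1
  rw [← Nat.cast_smul_eq_nsmul ℚ]
  push_cast
  rfl

private theorem Ser_du (r : ℚ) (c : ℕ) : PowerSeries.coeff c (PowerSeries.derivative ℚ (Ser_u r)) =
    -((-1) ^ c * r ^ ((c + 1) * c / 2) / c.factorial) := by
  rw [PowerSeries.coeff_derivative, Ser_u, PowerSeries.coeff_mk, if_neg (Nat.succ_ne_zero c), Nat.add_sub_cancel,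
    Nat.factorial_succ, pow_succ]
  have h1 : ((c : ℚ) + 1) ≠ 0 := by positivity
  have h2 : (c.factorial : ℚ) ≠ 0 := by exact_mod_cast Nat.factorial_ne_zero c
  push_cast
  field_simp

private theorem Ser_rec (a r : ℚ) (m : ℕ) : ((m : ℚ) + 1) * Ser_h a r (m + 1) =
    a * ∑ c ∈ range (m + 1), (-1) ^ c * r ^ ((c + 1) * c / 2) / c.factorial * Ser_h (a + 1) r (m - c) := by
  have h1 := congrArg (PowerSeries.coeff m) (Ser_deriv a r m)
  rw [PowerSeries.coeff_derivative, Ser_coeff a r (m + 1) (m + 1) le_rfl, PowerSeries.coeff_smul,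
    PowerSeries.coeff_mul, Finset.Nat.sum_antidiagonal_eq_sum_range_succ
      (fun i j => PowerSeries.coeff i (PowerSeries.derivative ℚ (Ser_u r)) *
        PowerSeries.coeff j (Ser_A (a + 1) r m))] at h1
  rw [mul_comm, h1, smul_eq_mul, neg_mul, ← mul_neg, ← Finset.sum_neg_distrib]
  congr 1
  refine Finset.sum_congr rfl fun c _ => ?_
  rw [Ser_du, Ser_coeff (a + 1) r (m - c) m (Nat.sub_le m c)]
  ring

theorem ff_eq (a r : ℚ) (m : ℕ) : ff a r m = Hc a r m := by
  induction m using Nat.strong_induction_on generalizing a with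
  | _ m ih =>
    cases m with
    | zero =>
      rw [ff_zero, Hc]
      simp [bin]
    | succ m =>
      rw [ff_succ, Ser_Hc]
      have h1 : (((m + 1).factorial : ℕ) : ℚ) * Ser_h a r (m + 1) =
          (m.factorial : ℚ) * (((m : ℚ) + 1) * Ser_h a r (m + 1)) := by
        rw [Nat.factorial_succ]
        push_cast
        ring
      rw [h1, Ser_rec, ← mul_assoc, mul_comm (m.factorial : ℚ) a, mul_assoc, Finset.mul_sum, Finset.mul_sum, Finset.mul_sum]
      refine Finset.sum_congr rfl fun c hc => ?_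
      rw [Finset.mem_range] at hc
      rw [ih (m - c) (by omega) (a + 1), Ser_Hc, Nat.cast_choose ℚ (show c ≤ m by omega)]
      have h2 : (c.factorial : ℚ) ≠ 0 := by exact_mod_cast Nat.factorial_ne_zero c
      have h3 : ((m - c).factorial : ℚ) ≠ 0 := by exact_mod_cast Nat.factorial_ne_zero (m - c)
      field_simp

end Pool.Agent.AAG
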