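import Pool.Agent.AAG.Ser
import Pool.Agent.AAG.Cx

set_option autoImplicit false

/-!
# AAG-SerQ: the homogeneous partition function in polynomial time

PLAN. `FQ.tri`: `r ^ (c (c-1)/2) = ∏ i ∈ range c, r ^ i` (`Finset.prod_pow_eq_pow_sum`, `Finset.sum_range_id`):
`FQ.lprod` over `pf0 (f a)` with `FQ.powU`. `FQ.bin`: `FQ.lprod` over `pf0`, `FQ.lenU`, `FQ.div`.
`FQ.ff`: by `ff_eq`, `ff a r m = m! ∑ k ≤ m, bin a k * ((phi r m - 1)^k).coeff m`. The polynomial `(phi r m - 1)^k`, `k ≤ m`, has degree
`≤ m * m`; with `D = un (m * m) ++ ..` (`FP.unMul`; take `D` of length `m * m + m` so that also `m ≤ D.length`) and `cf_poly`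
its coefficient is `cf D m (fun v => (phi r m).eval (nd v) - 1) ^ k)`. `(phi r m).eval x = ∑ c ≤ m, (-1)^c r^(..) / c! * x^c` is
`FQ` in `(m, v)` with `x = nd v` (`FQ.lsum` over `pf m`, `fq_nd`, `FQ.powU`, `FQ.tri`, `FQ.factU`), then `FQ.powU` for the power `k`,
`FQ.cf`, and `FQ.lsum` over `pf m` for the sum over `k`.
-/

namespace Pool.Agent.AAG

open N487b59b3 N68a2faeb Pool.Agent.Helper22 Pool.Agent.Helper6.WB Pool.Agent.Helper6.SP

section

variable {α : Type} [N487b59b3 α]

omit [N487b59b3 α] in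
private theorem SerQ_prod (n : ℕ) (g : List Bool → ℚ) :
    (((List.range n).map un).map g).prod = ∏ i ∈ Finset.range n, g (un i) := by
  induction n with
  | zero => simp
  | succ n ih =>
    rw [List.range_succ, List.map_append, List.map_append, List.prod_append, ih,
      Finset.prod_range_succ]
    simp

omit [N487b59b3 α] in
private theorem SerQ_sum (n : ℕ) (g : List Bool → ℚ) :
    (((List.range n).map un).map g).sum = ∑ i ∈ Finset.range n, g (un i) := by
  induction n with
  | zero => simp
  | succ n ih =>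
    rw [List.range_succ, List.map_append, List.map_append, List.sum_append, ih,
      Finset.sum_range_succ]
    simp

theorem FQ.tri (r : ℚ) {f : α → List Bool} (hf : FP f) :
    FQ fun a => r ^ ((f a).length * ((f a).length - 1) / 2) := by
  have h1 : FQ fun q : α × List Bool => r ^ q.2.length := FQ.powU (FQ.const r) FP.snd
  refine (FQ.lprod (FP.pf0 hf) h1).congr fun a => ?_
  dsimp only
  rw [AAG.pf0, SerQ_prod]
  simp only [un_length]
  rw [Finset.prod_pow_eq_pow_sum, Finset.sum_range_id]

theorem FQ.bin (a : ℚ) {f : α → List Bool} (hf : FP f) : FQ fun x => AAG.bin a (f x).length := by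
  have h1 : FQ fun q : α × List Bool => (-a - (q.2.length : ℚ)) / ((q.2.length : ℚ) + 1) :=
    FQ.div (FQ.sub (FQ.const _) (FQ.lenU FP.snd)) (FQ.add (FQ.lenU FP.snd) (FQ.const 1))
  refine (FQ.lprod (FP.pf0 hf) h1).congr fun x => ?_
  dsimp only
  rw [AAG.pf0, SerQ_prod]
  simp only [un_length]
  rfl

private theorem SerQ_eval (r : ℚ) (m : ℕ) (x : ℚ) :
    (phi r m).eval x = ∑ c ∈ Finset.range (m + 1),
      (-1) ^ c * r ^ (c * (c - 1) / 2) / c.factorial * x ^ c := by
  unfold phi
  rw [Polynomial.eval_finsetSum]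
  refine Finset.sum_congr rfl fun c _ => ?_
  rw [Polynomial.eval_mul, Polynomial.eval_C, Polynomial.eval_pow, Polynomial.eval_X]

private theorem SerQ_deg (r : ℚ) (m k : ℕ) (hk : k ≤ m) :
    ((phi r m - 1) ^ k).natDegree ≤ m * m := by
  have h1 : (phi r m).natDegree ≤ m := by
    unfold phi
    refine Polynomial.natDegree_sum_le_of_forall_le _ _ fun c hc => ?_
    refine (Polynomial.natDegree_C_mul_X_pow_le _ _).trans ?_
    rw [Finset.mem_range] at hc
    omega
  have h2 : (phi r m - 1).natDegree ≤ m := by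
    refine (Polynomial.natDegree_sub_le _ _).trans ?_
    rw [Polynomial.natDegree_one]
    exact max_le h1 (Nat.zero_le _)
  exact (Polynomial.natDegree_pow_le).trans (Nat.mul_le_mul hk h2)

private theorem SerQ_phi (r : ℚ) {f g : α → List Bool} (hf : FP f) (hg : FP g) :
    FQ fun a => (phi r (f a).length).eval (nd (g a)) := by
  have hx : FQ fun q : α × List Bool => nd (g q.1) := fq_nd.comp (hg.comp FP.fst)
  have h1 : FQ fun q : α × List Bool => (-1 : ℚ) ^ q.2.length *
      r ^ (q.2.length * (q.2.length - 1) / 2) / (q.2.length.factorial : ℚ) *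
        nd (g q.1) ^ q.2.length :=
    FQ.mul (FQ.div (FQ.mul (FQ.powU (FQ.const (-1)) FP.snd) (FQ.tri r FP.snd))
      (FQ.factU FP.snd)) (FQ.powU hx FP.snd)
  refine (FQ.lsum (FP.pf hf) h1).congr fun a => ?_
  dsimp only
  rw [AAG.pf, SerQ_sum, SerQ_eval]
  simp only [un_length]

theorem FQ.ff (a r : ℚ) {f : α → List Bool} (hf : FP f) : FQ fun x => AAG.ff a r (f x).length := by
  have hD : FP fun x => un ((f x).length * (f x).length) ++ f x :=
    FP.append (FP.unMul hf hf) hf
  -- values of the powers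
  have hg : FQ fun q : (α × List Bool) × List Bool =>
      ((phi r (f q.1.1).length).eval (nd q.2) - 1) ^ q.1.2.length :=
    FQ.powU (FQ.sub (SerQ_phi r (hf.comp (FP.fst.comp FP.fst)) FP.snd) (FQ.const 1))
      (FP.snd.comp FP.fst)
  have hc : FQ fun q : α × List Bool =>
      AAG.cf (un ((f q.1).length * (f q.1).length) ++ f q.1) (f q.1) fun v =>
        ((phi r (f q.1).length).eval (nd v) - 1) ^ q.2.length :=
    FQ.cf (hD.comp FP.fst) (hf.comp FP.fst) hg
  have hs : FQ fun q : α × List Bool => AAG.bin a q.2.length *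
      AAG.cf (un ((f q.1).length * (f q.1).length) ++ f q.1) (f q.1) fun v =>
        ((phi r (f q.1).length).eval (nd v) - 1) ^ q.2.length :=
    FQ.mul (FQ.bin a FP.snd) hc
  refine (FQ.mul (FQ.factU hf) (FQ.lsum (FP.pf hf) hs)).congr fun x => ?_
  dsimp only
  rw [ff_eq, Hc, AAG.pf, SerQ_sum]
  congr 1
  refine Finset.sum_congr rfl fun k hk => ?_
  rw [un_length]
  congr 1
  rw [Finset.mem_range] at hk
  have e := cf_poly (D := un ((f x).length * (f x).length) ++ f x) (e := f x)
    (q := (phi r (f x).length - 1) ^ k)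
    ((SerQ_deg r _ k (by omega)).trans (by rw [List.length_append, un_length]; omega))
    (by rw [List.length_append]; omega)
  rw [← e]
  congr 1
  funext v
  rw [Polynomial.eval_pow, Polynomial.eval_sub, Polynomial.eval_one]

end

end Pool.Agent.AAG
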