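import Pool.Agent.TFP.Stmt

set_option autoImplicit false

/-!
# AAG: statement level definitions

`MG`, `Valid`, `tutte`: `Pool.Agent.Helper47.TR.Defs`; `HasFPRAS`: `Pool.Agent.TFP.Stmt`.
-/

namespace Pool.Agent.AAG

open Pool.Agent.Helper47.TR (MG)

/-- the number of edges joining the vertices `u` and `v` -/
def mul (G : MG) (u v : ℕ) : ℕ :=
  (G.2.filter fun e => decide ((e.1 = u ∧ e.2 = v) ∨ (e.1 = v ∧ e.2 = u))).length

/-- the multigraph `G` is the simple graph `H`: no loops, exactly one edge joins `u` and `v` if they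
are adjacent in `H`, no edge otherwise -/
def Rep (G : MG) (H : SimpleGraph (Fin G.1.length)) : Prop :=
  (∀ e ∈ G.2, e.1 ≠ e.2) ∧
    ∀ u v : Fin G.1.length, (H.Adj u v → mul G u v = 1) ∧ (¬ H.Adj u v → mul G u v = 0)

open Classical in
/-- the probability that the random graph `G(n, p)` (every pair of the `n` vertices is an edge with
probability `p`, independently) belongs to `S` -/
noncomputable def prob (p : ℚ) (n : ℕ) (S : Set (SimpleGraph (Fin n))) : ℚ :=
  ∑ H : SimpleGraph (Fin n),
    if H ∈ S then p ^ H.edgeSet.ncard * (1 - p) ^ Hᶜ.edgeSet.ncard else 0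

end Pool.Agent.AAG
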