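import Pool.Agent.AAG.SerQ

set_option autoImplicit false

/-!
# AAG-Uf: the homogeneous model of a list of entries

PLAN. `U_eq_Uf`: `U_eq_sum` for `J = L.toFinset` (`J.card = L.length`), group the subsets `B` by cardinality: the coefficient of `z^c` of
`∏ x ∈ J, (1 - s x z)` is `(-1)^c ∑_(B ⊆ J, |B| = c) ∏_(x ∈ B) s x` (`Finset.prod_sub`/`Finset.prod_add` over the powerset: `∏ (1 + (-s x z)) =
∑ B ∈ J.powerset, ∏ x ∈ B, (-s x z)` (`Finset.prod_one_add`), coefficients, `Finset.sum_fiberwise`/`Finset.sum_comm`).
Products over the list: `List.prod_toFinset`.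
`FQ.Uf`: the coefficient of `z^c` of the polynomial (degree `≤` length) is `cf` of its values
`((L a).map fun b => 1 - v (a, b) * nd w).prod` (`FQ.lprod`; `Polynomial.eval_list_prod`), `D = un (L a).length` (`FP.un_length`), sum over `c` in `pf D`;
`ff (t+1) r (length - c)`: unary difference `List.drop` (`FP.drop`), `FQ.ff`, `FQ.tri`.
-/

namespace Pool.Agent.AAG

open N487b59b3 N68a2faeb Pool.Agent.Helper22 Pool.Agent.Helper6.WB Pool.Agent.Helper6.SP

/-- the value of the homogeneous model for the list of the entries of the row -/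
noncomputable def Uf (t r : ℚ) (l : List ℚ) : ℚ :=
  ∑ c ∈ Finset.range (l.length + 1),
    ((l.map fun v => (1 : Polynomial ℚ) - Polynomial.C v * Polynomial.X).prod).coeff c *
      r ^ (c * (c - 1) / 2) * ff (t + 1) r (l.length - c)

private theorem Uf_coeff (s : ℕ → ℚ) (J : Finset ℕ) (c : ℕ) :
    (∏ x ∈ J, ((1 : Polynomial ℚ) - Polynomial.C (s x) * Polynomial.X)).coeff c =
      ∑ B ∈ J.powersetCard c, (-1) ^ B.card * ∏ x ∈ B, s x := by
  have h1 : ∀ x ∈ J, (1 : Polynomial ℚ) - Polynomial.C (s x) * Polynomial.X =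
      1 + Polynomial.C (-(s x)) * Polynomial.X := by
    intro x _
    rw [Polynomial.C_neg]
    ring
  rw [Finset.prod_congr rfl h1, Finset.prod_one_add, Polynomial.finsetSum_coeff,
    Finset.powersetCard_eq_filter, Finset.sum_filter]
  refine Finset.sum_congr rfl fun B _ => ?_
  rw [Finset.prod_mul_distrib, Finset.prod_const, ← map_prod, Polynomial.coeff_C_mul_X_pow,
    Finset.prod_neg]
  by_cases h : B.card = c
  · rw [if_pos h, if_pos h.symm]
  · rw [if_neg h, if_neg (Ne.symm h)]

theorem U_eq_Uf (t r : ℚ) {L : List ℕ} (hL : L.Nodup) (s : ℕ → ℚ) :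
    U t r L.toFinset s = Uf t r (L.map s) := by
  rw [U_eq_sum, Finset.sum_powerset]
  unfold Uf
  rw [List.length_map, List.toFinset_card_of_nodup hL]
  refine Finset.sum_congr rfl fun c _ => ?_
  have h1 : ((L.map s).map fun v => (1 : Polynomial ℚ) - Polynomial.C v * Polynomial.X).prod =
      ∏ x ∈ L.toFinset, ((1 : Polynomial ℚ) - Polynomial.C (s x) * Polynomial.X) := by
    rw [List.prod_toFinset _ hL, List.map_map]
    rfl
  rw [h1, Uf_coeff, Finset.sum_mul, Finset.sum_mul]
  refine Finset.sum_congr rfl fun B hB => ?_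
  rw [(Finset.mem_powersetCard.1 hB).2]

private theorem Uf_list (f : ℕ → ℚ) (n : ℕ) :
    ((List.range n).map f).sum = ∑ c ∈ Finset.range n, f c := by
  induction n with
  | zero => simp
  | succ n ih =>
    rw [List.range_succ, List.map_append, List.sum_append, ih, Finset.sum_range_succ]
    simp

private theorem Uf_deg (l : List ℚ) :
    ((l.map fun v => (1 : Polynomial ℚ) - Polynomial.C v * Polynomial.X).prod).natDegree ≤ l.length := by
  induction l with
  | nil => simp
  | cons a l ih =>
    rw [List.map_cons, List.prod_cons, List.length_cons]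
    refine Polynomial.natDegree_mul_le.trans ?_
    have h1 : ((1 : Polynomial ℚ) - Polynomial.C a * Polynomial.X).natDegree ≤ 1 := by
      refine (Polynomial.natDegree_sub_le _ _).trans ?_
      rw [Polynomial.natDegree_one]
      exact max_le (Nat.zero_le _) ((Polynomial.natDegree_C_mul_le a _).trans Polynomial.natDegree_X_le)
    omega

theorem FQ.Uf (t r : ℚ) {α β : Type} [N487b59b3 α] [N487b59b3 β] [Inhabited β]
    {L : α → List β} (hL : FP L) {v : α × β → ℚ} (hv : FQ v) :
    FQ fun a => AAG.Uf t r ((L a).map fun b => v (a, b)) := by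
  have hD : FP fun a => un (L a).length := FP.un_length hL
  have h1 : FQ fun z : ((α × List Bool) × List Bool) × β => 1 - v (z.1.1.1, z.2) * nd z.1.2 := by
    refine FQ.sub (FQ.const 1) (FQ.mul ?_ ?_)
    · exact FQ.comp (f := v) (g := fun z : ((α × List Bool) × List Bool) × β => (z.1.1.1, z.2)) hv
        (by fun_prop)
    · exact FQ.comp (f := nd) (g := fun z : ((α × List Bool) × List Bool) × β => z.1.2) fq_nd
        (by fun_prop)
  have hL2 : FP fun q : (α × List Bool) × List Bool => L q.1.1 :=
    FP.comp (g := L) (f := fun q : (α × List Bool) × List Bool => q.1.1) hL (by fun_prop)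
  have h2 : FQ fun q : (α × List Bool) × List Bool =>
      ((L q.1.1).map fun b => 1 - v (q.1.1, b) * nd q.2).prod :=
    FQ.lprod (l := fun q : (α × List Bool) × List Bool => L q.1.1)
      (g := fun z : ((α × List Bool) × List Bool) × β => 1 - v (z.1.1.1, z.2) * nd z.1.2) hL2 h1
  have hL1 : FP fun p : α × List Bool => L p.1 :=
    FP.comp (g := L) (f := fun p : α × List Bool => p.1) hL (by fun_prop)
  have hD1 : FP fun p : α × List Bool => un (L p.1).length := FP.un_length hL1
  have h3 : FQ fun p : α × List Bool => AAG.cf (un (L p.1).length) p.2 fun w =>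
      ((L p.1).map fun b => 1 - v (p.1, b) * nd w).prod :=
    FQ.cf (D := fun p : α × List Bool => un (L p.1).length) (e := fun p : α × List Bool => p.2)
      (g := fun q : (α × List Bool) × List Bool =>
        ((L q.1.1).map fun b => 1 - v (q.1.1, b) * nd q.2).prod) hD1 (by fun_prop) h2
  have h4 : FQ fun p : α × List Bool => r ^ (p.2.length * (p.2.length - 1) / 2) :=
    FQ.tri r (f := fun p : α × List Bool => p.2) (by fun_prop)
  have h5 : FQ fun p : α × List Bool => AAG.ff (t + 1) r ((un (L p.1).length).drop p.2.length).length :=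
    FQ.ff (t + 1) r (f := fun p : α × List Bool => (un (L p.1).length).drop p.2.length)
      (FP.drop hD1 (by fun_prop))
  have h6 := FQ.lsum (l := fun a => AAG.pf (un (L a).length)) (FP.pf hD)
    (FQ.mul (FQ.mul h3 h4) h5)
  refine FQ.congr h6 fun a => ?_
  dsimp only
  rw [AAG.pf, List.map_map, Uf_list, un_length]
  unfold AAG.Uf
  rw [List.length_map]
  refine Finset.sum_congr rfl fun c hc => ?_
  have hc1 : c ≤ (L a).length := Nat.lt_succ_iff.1 (Finset.mem_range.1 hc)
  simp only [Function.comp, un_length, List.length_drop]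
  have h7 := Uf_deg ((L a).map fun b => v (a, b))
  rw [List.length_map] at h7
  have h8 := cf_poly (D := un (L a).length) (e := un c)
    (q := ((((L a).map fun b => v (a, b)).map
      fun v => (1 : Polynomial ℚ) - Polynomial.C v * Polynomial.X).prod))
    (by rw [un_length]; exact h7) (by rw [un_length, un_length]; exact hc1)
  rw [un_length] at h8
  rw [← h8]
  congr 4
  funext w
  rw [Polynomial.eval_list_prod, List.map_map, List.map_map]
  congr 2
  funext b
  simp

end Pool.Agent.AAG
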